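import Pool.Agent.LCA.KReg

/-! # Clubs

(problem MP_328cd5_lc; architect helper18)

`a` regular, `ω < a`. `clo` is used for all limit constructions. The file also contains the versions for the whole type `K` (`κ`).

PROOFS.
* `clo` (CLOSURE): `G` internal, `z < G z < a` for `z < a`. Let `z n := G^[n] x0` (`IF.iter`), `y := ssup N Z`, `Z` the internal set of all `z n` (`Z = {x | ∃ n, G^[n] x0 = x}`). `Cov N (nx ⊥) Z` by `cov_img` of `cov_nat` (`KFin.lean`; `cd_nx`), so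
  `y < a` by `reg_ssup_lt` (`KReg.lean`). `z n < y` and every `x < y` is `≤ z n` for some `n` (otherwise `x` is a strict upper bound, `ssup_le`), hence `< z (n + 1)`. Output: a sequence `z` with `z 0 = x0`, `z (n + 1) = G (z n)`, `z n < y < a`, cofinal.
* `club_fam`: let `f` cover `I` from `b`. `J x := x < b ∧ Club N a (E (f x))`. `D := {y | ∀ x, J x → y ∈ E (f x)}` (internal: `ip_Club`). If `I i`, then `i = f x` for an `x < b`, and `J x`; so `D ⊆ E i`. `D` is a club: closed: clear (an element `y < a` which is a limit of elements of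
  `D` is a limit of elements of `E (f x)`). Unbounded: for `x` with `J x` and `z < a` let `t x z := lst N (fun y => y ∈ E (f x) ∧ z < y ∧ y < a)`. `G z := lst N (fun c => z < c ∧ ∀ x, J x → t x z < c)`. `G z < a` by `reg_bdd` for `{t x z | J x}` (covered by `b`;
  `t x z < a`). `clo` from `x0`: `y` is for every `x` with `J x` a limit of elements of `E (f x)`: `z n < t x (z n) < z (n + 1)`. So `y ∈ D`, `x0 < y < a`.
* `club_inter`: directly with `G z := lst N (fun c => z < c ∧ (∃ y, y ∈ D ∧ z < y ∧ y < c) ∧ ∃ y, y ∈ D' ∧ z < y ∧ y < c)` and `clo`.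
* `club_clo`: closed: clear. Unbounded: `G z := lst N (fun c => z < c ∧ ∀ x, x < sc N z → F x < c)`, `G z < a` by `reg_bdd_fn` with `b := sc N z < a` (`cd_sc_lt`); `clo`: for `x < y` we have `x < z n` for some `n`, so `F x < z (n + 1) < y`.
* `ll_of_clo`: `c ≠ ⊥` and `nx x < c` for all `x < c`. `Iio c` is infinite (`nx ⊥ < c`). If `b < c` and `Sur N b c` then `Sur N b (nx b)` (`cov_mono`), contradiction to `not_sur_nx`. So `Cd N c`, and `ll_of_lim`.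
* `club_LL`: unbounded: `club_clo` for `F := nx N` (`ll_nx_lt`; `ifp_nx` in `KSim.lean`), an element above `x0` is `≠ ⊥`, so `LL` (`ll_of_clo`). Closed: `y ≠ ⊥` a limit of limit levels: for `x < y` there is a limit level `z` with
  `x < z < y`, `nx x < z` (`ll_nx_lt`), so `ll_of_clo`.
* `club_tail`: `D' := {y | y ∈ D ∧ e < y}`: closed: a limit `y ≠ ⊥` of such elements is in `D` and `> e`; unbounded: the maximum of `x` and `e`.
* `mahlo_clo`: the set `D := {c | LL N c ∧ x0 < c ∧ ∀ x, x < c → F x < c}` is unbounded in `K`: given `z0`, iterate `G z := lst N (fun c => z < c ∧ nx N z < c ∧ ∀ x, x < sc N z → F x < c)` (exists by `bdd_top`/`Pk.reg`) from the maximum of `z0`, `x0`;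
  `y := ssup` of the iterates exists (`bdd_top`, `cov_nat`); `ll_of_clo` for `y`. It is closed. So it has a regular element `l`, which is in `InE`. -/

set_option autoImplicit false

universe u v w x

namespace LCA

open WCal WM COD

variable {N : Type u} [WM N] {K : Type v} [WTy N K] [KTy N K] {β : Type x} [WTy N β]

/-- the internal set of the values of an internal sequence -/
private def cloZ {z : ℕ → K} (hz : IF N z) : St N K :=
  ⟨{x | ∃ n, z n = x}, IP.ex (P := fun x n => z n = x) (IP.eq (hz.comp IF.snd) IF.fst)⟩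

private theorem clo_cov (h : Pk N K) {z : ℕ → K} (hz : IF N z) :
    Cov N (nx N (⊥ : K)) (fun x => x ∈ cloZ hz) :=
  cov_img (cov_nat h (cd_nx h ⊥)) hz fun b hb => by
    obtain ⟨n, hn⟩ := hb
    exact ⟨n, trivial, hn⟩

theorem clo (h : Pk N K) {a : K} (ha : Reg N a) (h0 : nx N (⊥ : K) < a) {G : K → K} (hG : IF N G)
    (hlt : ∀ z, z < a → z < G z ∧ G z < a) {x0 : K} (hx : x0 < a) :
    ∃ (z : ℕ → K) (y : K), IF N z ∧ z 0 = x0 ∧ (∀ n, z (n + 1) = G (z n)) ∧ (∀ n, z n < y) ∧ y < a ∧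
      ∀ x, x < y → ∃ n, x < z n := by
  have hz : IF N (fun n : ℕ => G^[n] x0) := IF.iter hG x0
  have hs : ∀ n, G^[n + 1] x0 = G (G^[n] x0) := fun n => Function.iterate_succ_apply' _ _ _
  have hlt' : ∀ n, G^[n] x0 < a := by
    intro n
    induction n with
    | zero => exact hx
    | succ n ih =>
      rw [hs]
      exact (hlt _ ih).2
  have hcov := clo_cov h hz
  obtain ⟨h1, h2⟩ := reg_ssup_lt h ha h0 hcov (by
    rintro x ⟨n, rfl⟩
    exact hlt' n)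
  refine ⟨fun n => G^[n] x0, ssup N (cloZ hz), hz, rfl, hs, fun n => h2 _ ⟨n, rfl⟩, h1,
    fun x hx => ?_⟩
  by_contra hcon
  push Not at hcon
  have h3 : ssup N (cloZ hz) ≤ x := ssup_le (by
    rintro y ⟨n, rfl⟩
    exact lt_of_lt_of_le ((hlt _ (hlt' n)).1.trans_eq (hs n).symm) (hcon (n + 1)))
  exact absurd hx (not_lt.2 h3)

private theorem clo_top (h : Pk N K) {G : K → K} (hG : IF N G) (hlt : ∀ z, z < G z) (x0 : K) :
    ∃ (z : ℕ → K) (y : K), z 0 = x0 ∧ (∀ n, z (n + 1) = G (z n)) ∧ (∀ n, z n < y) ∧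
      ∀ x, x < y → ∃ n, x < z n := by
  have hz : IF N (fun n : ℕ => G^[n] x0) := IF.iter hG x0
  have hs : ∀ n, G^[n + 1] x0 = G (G^[n] x0) := fun n => Function.iterate_succ_apply' _ _ _
  have hb := bdd_top h (clo_cov h hz)
  refine ⟨fun n => G^[n] x0, ssup N (cloZ hz), rfl, hs, fun n => lt_ssup hb ⟨n, rfl⟩,
    fun x hx => ?_⟩
  by_contra hcon
  push Not at hcon
  have h3 : ssup N (cloZ hz) ≤ x := ssup_le (by
    rintro y ⟨n, rfl⟩
    exact lt_of_lt_of_le ((hlt _).trans_eq (hs n).symm) (hcon (n + 1)))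
  exact absurd hx (not_lt.2 h3)

theorem club_fam (h : Pk N K) {a b : K} (ha : Reg N a) (h0 : nx N (⊥ : K) < a) (hb : b < a) {I : β → Prop}
    (hI : Cov N b I) {E : β → St N K} (hE : IF N E) (hc : ∀ i, I i → Club N a (E i)) :
    ∃ D : St N K, Club N a D ∧ ∀ y, y ∈ D → ∀ i, I i → y ∈ E i := by
  obtain ⟨f, hf, hf'⟩ := hI
  obtain ⟨J, hJ, hJ'⟩ : ∃ J : K → Prop, IP N J ∧ ∀ x, J x ↔ (x < b ∧ Club N a (E (f x))) :=
    ⟨_, IP.and (ip_ltK IF.id (IF.const b)) (ip_Club (IF.const a) (hE.comp hf)), fun x => Iff.rfl⟩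
  obtain ⟨t, ht, ht'⟩ : ∃ t : K → K → K, IF N (fun p : K × K => t p.1 p.2) ∧
      ∀ x z, t x z = lst N (fun y => y ∈ E (f x) ∧ z < y ∧ y < a) :=
    ⟨fun x z => lst N (fun y => y ∈ E (f x) ∧ z < y ∧ y < a),
      if_lst (P := fun (p : K × K) y => y ∈ E (f p.1) ∧ p.2 < y ∧ y < a)
        (IP.and (IP.mem IF.snd (hE.comp (hf.comp (IF.fst.comp IF.fst))))
          (IP.and (ip_ltK (IF.snd.comp IF.fst) IF.snd) (ip_ltK IF.snd (IF.const a)))),
      fun x z => rfl⟩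
  obtain ⟨G, hG, hG'⟩ : ∃ G : K → K, IF N G ∧
      ∀ z, G z = lst N (fun c => z < c ∧ ∀ x, J x → t x z < c) :=
    ⟨fun z => lst N (fun c => z < c ∧ ∀ x, J x → t x z < c),
      if_lst (P := fun z c => z < c ∧ ∀ x, J x → t x z < c)
        (IP.and (ip_ltK IF.fst IF.snd) (IP.all (IP.imp (hJ.comp IF.snd)
          (ip_ltK (ht.comp (IF.pair IF.snd (IF.fst.comp IF.fst))) (IF.snd.comp IF.fst))))),
      fun z => rfl⟩
  have hts : ∀ x, J x → ∀ z, z < a → t x z ∈ E (f x) ∧ z < t x z ∧ t x z < a := by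
    intro x hx z hz
    rw [ht']
    obtain ⟨y, hy⟩ := ((hJ' x).1 hx).2.1 z hz
    exact lst_spec (P := fun y => y ∈ E (f x) ∧ z < y ∧ y < a) ⟨y, hy⟩
  have hGs : ∀ z, z < a → (z < G z ∧ G z < a) ∧ ∀ x, J x → t x z < G z := by
    intro z hz
    obtain ⟨c0, hc0, hc0'⟩ := reg_bdd ha hb (A := fun y => ∃ x, J x ∧ t x z = y)
      ⟨fun x => t x z, ht.comp (IF.pair IF.id (IF.const z)),
        fun y ⟨x, hx, hy⟩ => ⟨x, ((hJ' x).1 hx).1, hy⟩⟩ (by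
          rintro y ⟨x, hx, rfl⟩
          exact (hts x hx z hz).2.2)
    have h2 : z < max (sc N z) c0 ∧ ∀ x, J x → t x z < max (sc N z) c0 :=
      ⟨lt_max_of_lt_left (lt_sc h z), fun x hx => lt_max_of_lt_right (hc0' _ ⟨x, hx, rfl⟩)⟩
    have h3 := lst_spec (N := N) (P := fun c => z < c ∧ ∀ x, J x → t x z < c) ⟨_, h2⟩
    have h4 := lst_le (N := N) (P := fun c => z < c ∧ ∀ x, J x → t x z < c) h2
    rw [← hG'] at h3 h4
    exact ⟨⟨h3.1, h4.trans_lt (max_lt (cd_sc_lt h ha.1 hz) hc0)⟩, h3.2⟩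
  obtain ⟨D, hD⟩ : ∃ D : St N K, ∀ y, y ∈ D ↔ ∀ x, J x → y ∈ E (f x) :=
    ⟨⟨{y | ∀ x, J x → y ∈ E (f x)},
      IP.all (P := fun y x => J x → y ∈ E (f x)) (IP.imp (hJ.comp IF.snd)
        (IP.mem IF.fst (hE.comp (hf.comp IF.snd))))⟩, fun y => Iff.rfl⟩
  refine ⟨D, ⟨fun x0 hx0 => ?_, fun y hya hy hlim => ?_⟩, fun y hy i hi => ?_⟩
  · obtain ⟨z, y, -, hz0, hzs, hzy, hya, hcof⟩ := clo h ha h0 hG (fun z hz => (hGs z hz).1) hx0
    refine ⟨y, (hD y).2 fun x hx => ?_, hz0 ▸ hzy 0, hya⟩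
    refine ((hJ' x).1 hx).2.2 y hya (ne_of_gt (lt_of_le_of_lt bot_le (hzy 0))) fun u hu => ?_
    obtain ⟨n, hn⟩ := hcof u hu
    have hzn : z n < a := (hzy n).trans hya
    obtain ⟨h1, h2, h3⟩ := hts x hx (z n) hzn
    refine ⟨t x (z n), h1, hn.trans h2, ?_⟩
    have h4 := (hGs (z n) hzn).2 x hx
    rw [← hzs] at h4
    exact h4.trans (hzy (n + 1))
  · refine (hD y).2 fun x hx => ((hJ' x).1 hx).2.2 y hya hy fun u hu => ?_
    obtain ⟨z, hz, h1, h2⟩ := hlim u hu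
    exact ⟨z, (hD z).1 hz x hx, h1, h2⟩
  · obtain ⟨x, hx, rfl⟩ := hf' i hi
    exact (hD y).1 hy x ((hJ' x).2 ⟨hx, hc _ hi⟩)

theorem club_inter (h : Pk N K) {a : K} (ha : Reg N a) (h0 : nx N (⊥ : K) < a) {D D' D'' : St N K}
    (hD : Club N a D) (hD' : Club N a D') (hD'' : ∀ y, y ∈ D'' ↔ y ∈ D ∧ y ∈ D') : Club N a D'' := by
  obtain ⟨P, hP, hP'⟩ : ∃ P : K → K → Prop, IP N (fun p : K × K => P p.1 p.2) ∧
      ∀ z c, P z c ↔ z < c ∧ (∃ y, y ∈ D ∧ z < y ∧ y < c) ∧ ∃ y, y ∈ D' ∧ z < y ∧ y < c :=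
    ⟨fun z c => z < c ∧ (∃ y, y ∈ D ∧ z < y ∧ y < c) ∧ ∃ y, y ∈ D' ∧ z < y ∧ y < c,
      IP.and (ip_ltK IF.fst IF.snd) (IP.and
        (IP.ex (IP.and (IP.mem IF.snd (IF.const D)) (IP.and (ip_ltK (IF.fst.comp IF.fst) IF.snd)
          (ip_ltK IF.snd (IF.snd.comp IF.fst)))))
        (IP.ex (IP.and (IP.mem IF.snd (IF.const D')) (IP.and (ip_ltK (IF.fst.comp IF.fst) IF.snd)
          (ip_ltK IF.snd (IF.snd.comp IF.fst)))))), fun z c => Iff.rfl⟩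
  have hG : IF N (fun z => lst N (P z)) := if_lst (P := P) hP
  have hGs : ∀ z, z < a → P z (lst N (P z)) ∧ lst N (P z) < a := by
    intro z hz
    obtain ⟨y, hy, hzy, hya⟩ := hD.1 z hz
    obtain ⟨y', hy', hzy', hya'⟩ := hD'.1 z hz
    have h1 : P z (max (sc N y) (sc N y')) := (hP' _ _).2
      ⟨hzy.trans (lt_max_of_lt_left (lt_sc h y)), ⟨y, hy, hzy, lt_max_of_lt_left (lt_sc h y)⟩,
        ⟨y', hy', hzy', lt_max_of_lt_right (lt_sc h y')⟩⟩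
    exact ⟨lst_spec (P := P z) ⟨_, h1⟩,
      (lst_le h1).trans_lt (max_lt (cd_sc_lt h ha.1 hya) (cd_sc_lt h ha.1 hya'))⟩
  refine ⟨fun x0 hx0 => ?_, fun y hya hy hlim => ?_⟩
  · obtain ⟨z, y, -, hz0, hzs, hzy, hya, hcof⟩ := clo h ha h0 hG
      (fun z hz => ⟨((hP' _ _).1 (hGs z hz).1).1, (hGs z hz).2⟩) hx0
    have hy : y ≠ ⊥ := ne_of_gt (lt_of_le_of_lt bot_le (hzy 0))
    refine ⟨y, (hD'' y).2 ⟨hD.2 y hya hy fun u hu => ?_, hD'.2 y hya hy fun u hu => ?_⟩,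
      hz0 ▸ hzy 0, hya⟩
    · obtain ⟨n, hn⟩ := hcof u hu
      have h1 := (hP' _ _).1 (hGs (z n) ((hzy n).trans hya)).1
      rw [← hzs] at h1
      obtain ⟨w, hw, h2, h3⟩ := h1.2.1
      exact ⟨w, hw, hn.trans h2, h3.trans (hzy (n + 1))⟩
    · obtain ⟨n, hn⟩ := hcof u hu
      have h1 := (hP' _ _).1 (hGs (z n) ((hzy n).trans hya)).1
      rw [← hzs] at h1
      obtain ⟨w, hw, h2, h3⟩ := h1.2.2
      exact ⟨w, hw, hn.trans h2, h3.trans (hzy (n + 1))⟩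
  · refine (hD'' y).2 ⟨hD.2 y hya hy fun u hu => ?_, hD'.2 y hya hy fun u hu => ?_⟩
    · obtain ⟨z, hz, h1, h2⟩ := hlim u hu
      exact ⟨z, ((hD'' z).1 hz).1, h1, h2⟩
    · obtain ⟨z, hz, h1, h2⟩ := hlim u hu
      exact ⟨z, ((hD'' z).1 hz).2, h1, h2⟩

theorem club_clo (h : Pk N K) {a : K} (ha : Reg N a) (h0 : nx N (⊥ : K) < a) {F : K → K} (hF : IF N F)
    (hlt : ∀ x, x < a → F x < a) {D : St N K} (hD : ∀ c, c ∈ D ↔ ∀ x, x < c → F x < c) : Club N a D := by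
  obtain ⟨P, hP, hP'⟩ : ∃ P : K → K → Prop, IP N (fun p : K × K => P p.1 p.2) ∧
      ∀ z c, P z c ↔ z < c ∧ ∀ x, x < sc N z → F x < c :=
    ⟨fun z c => z < c ∧ ∀ x, x < sc N z → F x < c,
      IP.and (ip_ltK IF.fst IF.snd) (IP.all (IP.imp (ip_ltK IF.snd (if_sc (IF.fst.comp IF.fst)))
        (ip_ltK (hF.comp IF.snd) (IF.snd.comp IF.fst)))), fun z c => Iff.rfl⟩
  have hG : IF N (fun z => lst N (P z)) := if_lst (P := P) hP
  have hGs : ∀ z, z < a → P z (lst N (P z)) ∧ lst N (P z) < a := by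
    intro z hz
    obtain ⟨c, hc, hc'⟩ := reg_bdd_fn h ha (cd_sc_lt h ha.1 hz) hF
      (fun x hx => hlt x (hx.trans (cd_sc_lt h ha.1 hz)))
    have h1 : P z (max (sc N z) c) := (hP' _ _).2
      ⟨lt_max_of_lt_left (lt_sc h z), fun x hx => lt_max_of_lt_right (hc' x hx)⟩
    exact ⟨lst_spec (P := P z) ⟨_, h1⟩, (lst_le h1).trans_lt (max_lt (cd_sc_lt h ha.1 hz) hc)⟩
  refine ⟨fun x0 hx0 => ?_, fun y hya hy hlim => ?_⟩
  · obtain ⟨z, y, -, hz0, hzs, hzy, hya, hcof⟩ := clo h ha h0 hG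
      (fun z hz => ⟨((hP' _ _).1 (hGs z hz).1).1, (hGs z hz).2⟩) hx0
    refine ⟨y, (hD y).2 fun x hx => ?_, hz0 ▸ hzy 0, hya⟩
    obtain ⟨n, hn⟩ := hcof x hx
    have h1 := ((hP' _ _).1 (hGs (z n) ((hzy n).trans hya)).1).2 x (hn.trans (lt_sc h _))
    rw [← hzs] at h1
    exact h1.trans (hzy (n + 1))
  · refine (hD y).2 fun x hx => ?_
    obtain ⟨z, hz, h1, h2⟩ := hlim x hx
    exact ((hD z).1 hz x h1).trans h2

theorem ll_of_clo (h : Pk N K) {c : K} (h0 : c ≠ ⊥) (hc : ∀ x, x < c → nx N x < c) : LL N c := by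
  have h1 : nx N ⊥ < c := hc ⊥ (bot_lt_iff_ne_bot.2 h0)
  have h2 : Cd N c := ⟨(cd_nx h ⊥).1.mono (Set.Iio_subset_Iio h1.le),
    fun b hb hcov => not_sur_nx h b (cov_mono hcov le_rfl fun x hx => lt_trans hx (hc b hb))⟩
  exact ll_of_lim h h2 hc

theorem club_LL (h : Pk N K) {a : K} (ha : InE N a) {D : St N K} (hD : ∀ c, c ∈ D ↔ LL N c) : Club N a D := by
  have := Fact.mk h
  obtain ⟨D0, hD0⟩ : ∃ D0 : St N K, ∀ c, c ∈ D0 ↔ ∀ x, x < c → nx N x < c :=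
    ⟨⟨{c | ∀ x, x < c → nx N x < c},
      IP.all (P := fun c x => x < c → nx N x < c) (IP.imp (ip_ltK IF.snd IF.fst)
        (ip_ltK (ifp_nx IF.snd) IF.fst))⟩, fun c => Iff.rfl⟩
  have h1 : Club N a D0 := club_clo h ha.2 (ll_om_lt h ha.1) (ifp_nx IF.id)
    (fun x hx => ll_nx_lt h ha.1 hx) hD0
  refine ⟨fun x hx => ?_, fun y hya hy hlim => ?_⟩
  · obtain ⟨y, hy, hxy, hya⟩ := h1.1 x hx
    exact ⟨y, (hD y).2 (ll_of_clo h (ne_of_gt (lt_of_le_of_lt bot_le hxy)) ((hD0 y).1 hy)), hxy, hya⟩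
  · refine (hD y).2 (ll_of_clo h hy fun x hx => ?_)
    obtain ⟨z, hz, h1, h2⟩ := hlim x hx
    exact (ll_nx_lt h ((hD z).1 hz) h1).trans h2

theorem club_tail {a : K} {D : St N K} (hD : Club N a D) {e : K} (he : e < a) :
    ∃ D' : St N K, Club N a D' ∧ ∀ y, y ∈ D' → y ∈ D ∧ e ≤ y := by
  obtain ⟨D', hD'⟩ : ∃ D' : St N K, ∀ y, y ∈ D' ↔ y ∈ D ∧ e < y :=
    ⟨⟨{y | y ∈ D ∧ e < y}, IP.and (IP.mem IF.id (IF.const D)) (ip_ltK (IF.const e) IF.id)⟩,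
      fun y => Iff.rfl⟩
  refine ⟨D', ⟨fun x hx => ?_, fun y hya hy hlim => ?_⟩,
    fun y hy => ⟨((hD' y).1 hy).1, ((hD' y).1 hy).2.le⟩⟩
  · obtain ⟨y, hy, hxy, hya⟩ := hD.1 (max x e) (max_lt hx he)
    exact ⟨y, (hD' y).2 ⟨hy, (le_max_right _ _).trans_lt hxy⟩, (le_max_left _ _).trans_lt hxy, hya⟩
  · obtain ⟨z, hz, -, h2⟩ := hlim ⊥ (bot_lt_iff_ne_bot.2 hy)
    refine (hD' y).2 ⟨hD.2 y hya hy fun x hx => ?_, ((hD' z).1 hz).2.trans h2⟩
    obtain ⟨z, hz, h1, h2⟩ := hlim x hx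
    exact ⟨z, ((hD' z).1 hz).1, h1, h2⟩

variable (N K) in
/-- every club of `κ` contains a regular cardinal -/
def Mah : Prop := ∀ D : St N K, (∀ x, ∃ y, y ∈ D ∧ x < y) →
  (∀ y, y ≠ ⊥ → (∀ x, x < y → ∃ z, z ∈ D ∧ x < z ∧ z < y) → y ∈ D) → ∃ l, l ∈ D ∧ Reg N l

theorem mahlo_clo (h : Pk N K) (hM : Mah N K) {F : K → K} (hF : IF N F) (x0 : K) :
    ∃ l, InE N l ∧ x0 < l ∧ ∀ x, x < l → F x < l := by
  have := Fact.mk h
  obtain ⟨D, hD⟩ : ∃ D : St N K, ∀ c, c ∈ D ↔ LL N c ∧ x0 < c ∧ ∀ x, x < c → F x < c :=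
    ⟨⟨{c | LL N c ∧ x0 < c ∧ ∀ x, x < c → F x < c},
      IP.and (ipp_LL IF.id) (IP.and (ip_ltK (IF.const x0) IF.id)
        (IP.all (P := fun c x => x < c → F x < c) (IP.imp (ip_ltK IF.snd IF.fst)
          (ip_ltK (hF.comp IF.snd) IF.fst))))⟩, fun c => Iff.rfl⟩
  obtain ⟨P, hP, hP'⟩ : ∃ P : K → K → Prop, IP N (fun p : K × K => P p.1 p.2) ∧
      ∀ z c, P z c ↔ z < c ∧ nx N z < c ∧ ∀ x, x < sc N z → F x < c :=
    ⟨fun z c => z < c ∧ nx N z < c ∧ ∀ x, x < sc N z → F x < c,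
      IP.and (ip_ltK IF.fst IF.snd) (IP.and (ip_ltK (ifp_nx IF.fst) IF.snd)
        (IP.all (IP.imp (ip_ltK IF.snd (if_sc (IF.fst.comp IF.fst)))
        (ip_ltK (hF.comp IF.snd) (IF.snd.comp IF.fst))))), fun z c => Iff.rfl⟩
  have hG : IF N (fun z => lst N (P z)) := if_lst (P := P) hP
  have hGs : ∀ z, P z (lst N (P z)) := by
    intro z
    obtain ⟨c, hc⟩ := h.reg (sc N z) ⟨F, hF⟩
    have h1 : P z (max (sc N (nx N z)) c) := (hP' _ _).2
      ⟨(lt_nx h z).trans (lt_max_of_lt_left (lt_sc h _)), lt_max_of_lt_left (lt_sc h _),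
        fun x hx => lt_max_of_lt_right (hc x hx)⟩
    exact lst_spec (P := P z) ⟨_, h1⟩
  obtain ⟨l, hl, hreg⟩ := hM D (fun z0 => by
    obtain ⟨z, y, hz0, hzs, hzy, hcof⟩ := clo_top h hG (fun z => ((hP' _ _).1 (hGs z)).1) (max z0 x0)
    have hy0 : max z0 x0 < y := hz0 ▸ hzy 0
    refine ⟨y, (hD y).2 ⟨ll_of_clo h (ne_of_gt (lt_of_le_of_lt bot_le (hzy 0))) fun x hx => ?_,
      (le_max_right _ _).trans_lt hy0, fun x hx => ?_⟩, (le_max_left _ _).trans_lt hy0⟩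
    · obtain ⟨n, hn⟩ := hcof x hx
      have h1 := ((hP' _ _).1 (hGs (z n))).2.1
      rw [← hzs] at h1
      exact ((nx_mono h hn.le).trans_lt h1).trans (hzy (n + 1))
    · obtain ⟨n, hn⟩ := hcof x hx
      have h1 := ((hP' _ _).1 (hGs (z n))).2.2 x (hn.trans (lt_sc h _))
      rw [← hzs] at h1
      exact h1.trans (hzy (n + 1))) (fun y hy hlim => by
    obtain ⟨z0, hz0, -, hz0y⟩ := hlim ⊥ (bot_lt_iff_ne_bot.2 hy)
    refine (hD y).2 ⟨ll_of_clo h hy fun x hx => ?_, ((hD z0).1 hz0).2.1.trans hz0y, fun x hx => ?_⟩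
    · obtain ⟨z, hz, h1, h2⟩ := hlim x hx
      exact (ll_nx_lt h ((hD z).1 hz).1 h1).trans h2
    · obtain ⟨z, hz, h1, h2⟩ := hlim x hx
      exact (((hD z).1 hz).2.2 x h1).trans h2)
  obtain ⟨h1, h2, h3⟩ := (hD l).1 hl
  exact ⟨l, ⟨h1, hreg⟩, h2, h3⟩

end LCA
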