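import Pool.Agent.LCA.KReg
import Pool.Agent.WCal.FinD

/-! # Counting with GCH

(problem MP_328cd5_lc; architect helper18)

Hypothesis `h : Pk N K` and `g : Gch N K` (the field `gch` of `COD.Bs`).

PROOFS. `D : PF N K` from `exists_PF`. Internality of sets `{x | P x} : St N α` as functions of parameters: `IF.compr`, `IF.compr'` (`WCal/CloF.lean`).
* `pow_enum`: `cov_choose` (`KDefs.lean`) for `β := K`, `m := nx N` (internal: `ifp_nx`), `A a X := ∀ x, x ∈ X → x < a`.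
* `fun_enum`: `E` from `pow_enum`; `e a z x := lst N (fun y => D.p a x y ∈ E a z)`. For `F` with `F x < a` for `x < a` let `A := {D.p a x (F x) | x < a}`, a subset of `Iio a` (`D.p_lt`); `E a z = A` for some `z < nx a`. For `x < a`: `D.p a x y ∈ A` for `y := F x`; if
  `D.p a x y ∈ A` and `y < a` then `y = F x` (`D.up`, `D.vp`); the least `y` with `D.p a x y ∈ A` is `≤ F x < a`, so it is `F x`.
* `cov_sub'`: `f : K → K` internal covers `Iio a` from `m` (`sur_of_lt_nx`; if `a = ⊥` there is only the empty set). Every `A ⊆ Iio a` is `{y | ∃ x, x ∈ X ∧ f x = y}` for `X := {x | x < m ∧ f x ∈ A}`, a subset of `Iio m`. `cov_img` of `g m hm` for the internal function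
  `X ↦ {y | ∃ x, x ∈ X ∧ f x = y}`.
* `cov_pow'`: the same: `f : K → α` covers `A` from `m`; every `Y ⊆ A` is `{y | ∃ x, x ∈ X ∧ f x = y}` for `X := {x | x < m ∧ f x ∈ Y}`.
* `cov_pow`: `f` covers `A` from `nx m`. `s : K → K → K` internal such that for `a < nx m`, `s a` covers `Iio a` from `m` (`cov_choose` for the family `A a x := x < a`, `sur_of_lt_nx`). `e` from `fun_enum`. The internal function `(a, z) ↦ {y | ∃ x, x < m ∧ f (s a (e m z x)) = y}` maps
  the pairs `(a, z)` with `a < nx m`, `z < nx m` (covered from `nx m`: `cov_prod`, `cov_self`, `cd_nx`) onto a superset of the set of all `X ⊆ A` with `Cov m X`, `X` nonempty: let `t` cover `X` from `m`; for `x < m` let `q x < nx m` be the least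
  with `f (q x) = t x` if `t x ∈ X` and `q x` = the least with `f (q x) = x0` otherwise (`x0 ∈ X` fixed); the values `q x`, `x < m`, are bounded by some `a < nx m` (`reg_nx'`, `reg_bdd_fn`, `m < nx m`), so `q x = s a (r x)` with `r x < m` least; `r` is `e m z` on `Iio m`. The empty set: add it with
  `cov_or` (`cov_of_finite`).
* `cov_fin`: every finite `X ⊆ A` is `{y | y ∈ l}` for a list `l` of elements of `A`; `cov_list`, `cov_img` for the internal function `l ↦ {y | y ∈ l}` (`IP.memList`). -/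

set_option autoImplicit false

universe u v w x

namespace LCA

open WCal WM COD

section

variable (N : Type u) [WM N] (K : Type v) [WTy N K] [KTy N K]

/-- GCH below `κ` -/
def Gch : Prop := ∀ a : K, Cd N a → Cov N (nx N a) (fun A : St N K => ∀ x, x ∈ A → x < a)

end

variable {N : Type u} [WM N] {K : Type v} [WTy N K] [KTy N K] {α : Type w} [WTy N α]

private theorem kg_ne {α : Type w} [WTy N α] : Nonempty (St N α) := ⟨⟨∅, IP.const False⟩⟩

private theorem kg_pow {α : Type w} [WTy N α] (g : Gch N K) {m : K} (hm : Cd N m) {A : α → Prop}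
    (hA : Cov N m A) : Cov N (nx N m) (fun X : St N α => ∀ x, x ∈ X → A x) := by
  obtain ⟨f, hf, hA⟩ := hA
  have h1 : IP N (fun p : St N K × α => ∃ x : K, x ∈ p.1 ∧ f x = p.2) :=
    IP.ex (IP.and (IP.mem IF.snd (IF.fst.comp IF.fst))
      (IP.eq (hf.comp IF.snd) (IF.snd.comp IF.fst)))
  obtain ⟨G, hG, hG'⟩ : ∃ G : St N K → St N α, IF N G ∧ ∀ X y, y ∈ G X ↔ ∃ x, x ∈ X ∧ f x = y :=
    ⟨_, IF.compr (P := fun (X : St N K) (y : α) => ∃ x, x ∈ X ∧ f x = y) h1, fun X y => Iff.rfl⟩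
  refine cov_img (g m hm) hG fun Y hY => ?_
  have h2 : IP N (fun x : K => x < m ∧ f x ∈ Y) :=
    IP.and (ip_ltK IF.id (IF.const m)) (IP.mem hf (IF.const Y))
  refine ⟨⟨{x | x < m ∧ f x ∈ Y}, h2⟩, fun x hx => hx.1, ?_⟩
  apply St.ext
  ext y
  refine Iff.trans (hG' _ y) ⟨?_, fun hy => ?_⟩
  · rintro ⟨x, hx, rfl⟩
    exact hx.2
  · obtain ⟨x, hx, rfl⟩ := hA y (hY y hy)
    exact ⟨x, ⟨hx, hy⟩, rfl⟩

theorem pow_enum (h : Pk N K) (g : Gch N K) : ∃ E : K → K → St N K, IF N (fun p : K × K => E p.1 p.2) ∧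
    ∀ a, Cd N a → ∀ A : St N K, (∀ x, x ∈ A → x < a) → ∃ z, z < nx N a ∧ E a z = A := by
  have iP : Fact (Pk N K) := ⟨h⟩
  have iN : Nonempty (St N K) := kg_ne
  have hA : IP N (fun p : K × St N K => ∀ x, x ∈ p.2 → x < p.1) :=
    IP.all (IP.imp (IP.mem IF.snd (IF.snd.comp IF.fst)) (ip_ltK IF.snd (IF.fst.comp IF.fst)))
  obtain ⟨E, hE, hE'⟩ := cov_choose (m := fun a : K => nx N a) (ifp_nx IF.id)
    (A := fun a (A : St N K) => ∀ x, x ∈ A → x < a) hA
  exact ⟨E, hE, fun a ha A hA => hE' a (g a ha) A hA⟩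

theorem fun_enum (h : Pk N K) (g : Gch N K) : ∃ e : K → K → K → K, IF N (fun p : K × K × K => e p.1 p.2.1 p.2.2) ∧
    ∀ a, Cd N a → ∀ F : K → K, IF N F → (∀ x, x < a → F x < a) → ∃ z, z < nx N a ∧ ∀ x, x < a → e a z x = F x := by
  obtain ⟨D⟩ := exists_PF h
  obtain ⟨E, hE, hE'⟩ := pow_enum h g
  refine ⟨fun a z x => lst N (fun y => D.p a x y ∈ E a z), ?_, ?_⟩
  · refine if_lst (P := fun (p : K × K × K) y => D.p p.1 p.2.2 y ∈ E p.1 p.2.1) ?_
    refine IP.mem ?_ ?_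
    · exact IF.comp3 (h := D.p) D.ip (IF.fst.comp IF.fst) (IF.snd.comp (IF.snd.comp IF.fst)) IF.snd
    · exact IF.comp2 (h := E) hE (IF.fst.comp IF.fst) (IF.fst.comp (IF.snd.comp IF.fst))
  · intro a ha F hF hlt
    have hA : IP N (fun z : K => ∃ x, x < a ∧ D.p a x (F x) = z) :=
      IP.ex (IP.and (ip_ltK IF.snd (IF.const a)) (IP.eq (IF.comp3 (h := D.p) D.ip (IF.const a)
        IF.snd (hF.comp IF.snd)) IF.fst))
    obtain ⟨z, hz, hz'⟩ := hE' a ha ⟨{z | ∃ x, x < a ∧ D.p a x (F x) = z}, hA⟩ (by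
      rintro _ ⟨x, hx, rfl⟩
      exact D.p_lt a ha x (F x) hx (hlt x hx))
    refine ⟨z, hz, fun x hx => ?_⟩
    have h1 : D.p a x (F x) ∈ E a z := by
      rw [hz']
      exact ⟨x, hx, rfl⟩
    obtain ⟨w, hw⟩ : ∃ w, w = lst N (fun y => D.p a x y ∈ E a z) := ⟨_, rfl⟩
    have h2 : w ≤ F x := hw ▸ lst_le (P := fun y => D.p a x y ∈ E a z) h1
    have h3 : D.p a x w ∈ E a z := hw ▸ lst_spec (P := fun y => D.p a x y ∈ E a z) ⟨_, h1⟩
    have h4 : w < a := lt_of_le_of_lt h2 (hlt x hx)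
    rw [hz'] at h3
    obtain ⟨x', hx', he⟩ := h3
    have h5 : x' = x := by
      rw [← D.up a ha x' (F x') hx' (hlt x' hx'), he, D.up a ha x w hx h4]
    subst h5
    have h6 : F x' = w := by
      rw [← D.vp a ha x' (F x') hx' (hlt x' hx'), he, D.vp a ha x' w hx h4]
    show lst N (fun y => D.p a x' y ∈ E a z) = F x'
    rw [h6, hw]

theorem cov_sub' (h : Pk N K) (g : Gch N K) {m a : K} (hm : Cd N m) (ha : a < nx N m) :
    Cov N (nx N m) (fun A : St N K => ∀ x, x ∈ A → x < a) := by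
  exact kg_pow g hm (sur_of_lt_nx h hm ha)

theorem cov_pow' (h : Pk N K) (g : Gch N K) {m : K} (hm : Cd N m) [Nonempty α] {A : α → Prop} (hA : Cov N m A) :
    Cov N (nx N m) (fun X : St N α => ∀ x, x ∈ X → A x) := by
  exact kg_pow g hm hA

theorem cov_pow (h : Pk N K) (g : Gch N K) {m : K} (hm : Cd N m) [Nonempty α] {A : α → Prop} (hA : Cov N (nx N m) A) :
    Cov N (nx N m) (fun X : St N α => (∀ x, x ∈ X → A x) ∧ Cov N m (fun x => x ∈ X)) := by
  classical
  have iP : Fact (Pk N K) := ⟨h⟩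
  have iN : Nonempty (St N α) := kg_ne
  obtain ⟨f, hf, hA⟩ := hA
  obtain ⟨s, hs, hs'⟩ := cov_choose (m := fun _ : K => m) (IF.const m)
    (A := fun (a : K) (x : K) => x < a) (ip_ltK IF.snd IF.fst)
  obtain ⟨e, he, he'⟩ := fun_enum h g
  have h1 : IP N (fun p : (K × K) × α => ∃ x : K, x < m ∧ f (s p.1.1 (e m p.1.2 x)) = p.2) := by
    refine IP.ex (IP.and (ip_ltK IF.snd (IF.const m)) (IP.eq (hf.comp ?_) (IF.snd.comp IF.fst)))
    refine IF.comp2 (h := s) hs (IF.fst.comp (IF.fst.comp IF.fst)) ?_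
    exact IF.comp3 (h := e) he (IF.const m) (IF.snd.comp (IF.fst.comp IF.fst)) IF.snd
  obtain ⟨G, hG, hG'⟩ : ∃ G : K × K → St N α, IF N G ∧
      ∀ q y, y ∈ G q ↔ ∃ x, x < m ∧ f (s q.1 (e m q.2 x)) = y :=
    ⟨_, IF.compr (P := fun (q : K × K) (y : α) => ∃ x, x < m ∧ f (s q.1 (e m q.2 x)) = y) h1,
      fun X y => Iff.rfl⟩
  have hc1 : Cov N (nx N m) (fun X : St N α => (∃ x0, x0 ∈ X) ∧ (∀ x, x ∈ X → A x) ∧
      Cov N m (fun x => x ∈ X)) := by
    refine cov_img (cov_prod h (cd_nx h m) (cov_self (nx N m)) (cov_self (nx N m))) hG ?_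
    rintro X ⟨⟨x0, hx0⟩, hX, t, ht, ht'⟩
    obtain ⟨t1, ht1, ht2⟩ : ∃ t1 : K → α, IF N t1 ∧
        ∀ x, (t x ∈ X → t1 x = t x) ∧ (¬ t x ∈ X → t1 x = x0) :=
      ⟨_, IF.ite (IP.mem ht (IF.const X)) ht (IF.const x0),
        fun x => ⟨fun h => if_pos h, fun h => if_neg h⟩⟩
    have ht3 : ∀ x, t1 x ∈ X := by
      intro x
      by_cases hx : t x ∈ X
      · rw [(ht2 x).1 hx]
        exact hx
      · rw [(ht2 x).2 hx]
        exact hx0
    have hq : IF N (fun x : K => lst N (fun w => f w = t1 x)) :=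
      if_lst (P := fun (x : K) w => f w = t1 x) (IP.eq (hf.comp IF.snd) (ht1.comp IF.fst))
    have hq1 : ∀ x, lst N (fun w => f w = t1 x) < nx N m := by
      intro x
      obtain ⟨w, hw, hw'⟩ := hA (t1 x) (hX _ (ht3 x))
      exact lt_of_le_of_lt (lst_le (P := fun w => f w = t1 x) hw') hw
    have hq2 : ∀ x, f (lst N (fun w => f w = t1 x)) = t1 x := by
      intro x
      obtain ⟨w, hw, hw'⟩ := hA (t1 x) (hX _ (ht3 x))
      exact lst_spec (P := fun w => f w = t1 x) ⟨w, hw'⟩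
    obtain ⟨q, hq0⟩ : ∃ q : K → K, q = fun x => lst N (fun w => f w = t1 x) := ⟨_, rfl⟩
    have hqi : IF N q := hq0 ▸ hq
    have hqlt : ∀ x, q x < nx N m := fun x => by rw [hq0]; exact hq1 x
    have hqf : ∀ x, f (q x) = t1 x := fun x => by rw [hq0]; exact hq2 x
    obtain ⟨c, hc, hc'⟩ := reg_bdd_fn h (reg_nx' h m) (lt_nx h m) hqi (fun x _ => hqlt x)
    have hsc := hs' c (sur_of_lt_nx h hm hc)
    have hr : IF N (fun x : K => lst N (fun w => s c w = q x)) :=
      if_lst (P := fun (x : K) w => s c w = q x)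
        (IP.eq (IF.comp2 (h := s) hs (IF.const c) IF.snd) (hqi.comp IF.fst))
    obtain ⟨z, hz, hz'⟩ := he' m hm _ hr (by
      intro x hx
      obtain ⟨w, hw, hw'⟩ := hsc (q x) (hc' x hx)
      exact lt_of_le_of_lt (lst_le (P := fun w => s c w = q x) hw') hw)
    have hsr : ∀ x, x < m → f (s c (e m z x)) = t1 x := by
      intro x hx
      rw [hz' x hx]
      obtain ⟨w, hw, hw'⟩ := hsc (q x) (hc' x hx)
      have h3 : s c (lst N (fun w => s c w = q x)) = q x :=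
        lst_spec (P := fun w => s c w = q x) ⟨w, hw'⟩
      rw [h3, hqf]
    refine ⟨(c, z), ⟨hc, hz⟩, ?_⟩
    apply St.ext
    ext y
    refine Iff.trans (hG' _ y) ⟨?_, fun hy => ?_⟩
    · rintro ⟨x, hx, rfl⟩
      show f (s c (e m z x)) ∈ X
      rw [hsr x hx]
      exact ht3 x
    · obtain ⟨x, hx, hx'⟩ := ht' y hy
      refine ⟨x, hx, ?_⟩
      show f (s c (e m z x)) = y
      rw [hsr x hx, (ht2 x).1 (hx'.symm ▸ hy), hx']
  have hc2 : Cov N (nx N m) (fun X : St N α => X = ⟨∅, IP.const False⟩) :=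
    cov_of_finite h (cd_nx h m) (Set.finite_singleton _)
  refine cov_mono (cov_or h (cd_nx h m) hc1 hc2) le_rfl fun X hX => ?_
  by_cases hne : ∃ x0, x0 ∈ X
  · exact Or.inl ⟨hne, hX⟩
  · refine Or.inr ?_
    apply St.ext
    ext y
    exact ⟨fun hy => hne ⟨y, hy⟩, fun hy => hy.elim⟩

theorem cov_fin (h : Pk N K) {m : K} (hm : Cd N m) [Nonempty α] {A : α → Prop} (hA : Cov N m A) :
    Cov N m (fun X : St N α => X.s.Finite ∧ ∀ x, x ∈ X → A x) := by
  obtain ⟨G, hG, hG'⟩ : ∃ G : List α → St N α, IF N G ∧ ∀ l y, y ∈ G l ↔ y ∈ l :=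
    ⟨_, IF.compr (P := fun (l : List α) (y : α) => y ∈ l) (IP.memList IF.snd IF.fst),
      fun X y => Iff.rfl⟩
  refine cov_img (cov_list h hm hA) hG fun X hX => ?_
  refine ⟨hX.1.toFinset.toList, fun x hx => hX.2 x ?_, ?_⟩
  · exact (hX.1.mem_toFinset).1 (Finset.mem_toList.1 hx)
  · apply St.ext
    ext y
    refine Iff.trans (hG' _ y) ?_
    rw [Finset.mem_toList, Set.Finite.mem_toFinset]

end LCA
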