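import Pool.Agent.LCA.KUn

/-! # Regular cardinals

(problem MP_328cd5_lc; architect helper18)

PROOFS.
* `reg_bdd`: let `f` cover `A` from `b`. `F x := if f x < a then f x else ⊥` (`⊥ < a` as `Iio a` is infinite) is internal with values `< a`. `Reg N a` gives `c < a` with `F x < c` for `x < b`. For `y` with `A y` (so `y < a`) and `f x = y`: `F x = y`.
* `bdd_top`: `h.reg` for `f`.
* `reg_bdd_fn` (`G` on the elements below `b`): `reg_bdd` for `A y := ∃ x, x < b ∧ G x = y`, covered by `G`.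
* `reg_nx`: `m = ⊥`: `nx ⊥ = ω`: let `b < ω` and `F x < ω` for `x < b`. The set `{F x | x < b}` is finite (`lt_om`), so it has an upper bound `c0` among its elements (or is empty), `c0 < ω`, and `sc c0 < ω` (`cd_sc_lt`) is a strict bound.
  `m` a cardinal: let `b < nx m`, `F x < nx m` for `x < b`. Suppose no `c < nx m` is a strict bound: then for every `y < nx m` there is `x < b` with `y ≤ F x`, that is `y < sc (F x)`. `Sur m b` (`sur_of_lt_nx`), so `Cov m (· < b)`.
  For `x < b` the set `{y | y < sc (F x)}` has at most `m` elements (`sur_of_lt_nx` for `sc (F x) < nx m`, `cd_sc_lt`). `cov_union` (`I := (· < b)`, `A x y := y < sc (F x)`; internal) gives `Cov m (· < nx m)`: contradiction to `not_sur_nx`.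
* `reg_nx'`: with `m` from `exists_lv a`: `nx a = nx m` (`nx_mono`, and `nx_le'` for `a < nx m`).
* `ssup N A`: the least strict upper bound: `lst N (fun c => ∀ x, x ∈ A → x < c)`; `if_ssup`: `if_lst`. `lt_ssup`: `lst_spec`; `ssup_le`: `lst_le`.
* `reg_ssup_lt`: from `reg_bdd` and `ssup_le`. -/

set_option autoImplicit false

universe u v w x

namespace LCA

open WCal WM COD

variable {N : Type u} [WM N] {K : Type v} [WTy N K] [KTy N K]
  {β : Type x} [WTy N β]

theorem reg_bdd {a b : K} (ha : Reg N a) (hb : b < a) {A : K → Prop} (h : Cov N b A)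
    (hA : ∀ x, A x → x < a) : ∃ c, c < a ∧ ∀ x, A x → x < c := by
  obtain ⟨f, hf, hf'⟩ := h
  have hbot : (⊥ : K) < a := bot_le.trans_lt hb
  obtain ⟨F, hF, hF1⟩ : ∃ F : K → K, IF N F ∧
      ∀ x, (f x < a → F x = f x) ∧ (¬ f x < a → F x = ⊥) :=
    ⟨_, IF.ite (ip_ltK hf (IF.const a)) hf (IF.const (⊥ : K)),
      fun x => ⟨fun h => if_pos h, fun h => if_neg h⟩⟩
  obtain ⟨c, hc, hc'⟩ := ha.2 b hb ⟨F, hF⟩ fun x _ => by
    change F x < a
    by_cases h1 : f x < a
    · rw [(hF1 x).1 h1]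
      exact h1
    · rw [(hF1 x).2 h1]
      exact hbot
  refine ⟨c, hc, fun y hy => ?_⟩
  obtain ⟨x, hx, rfl⟩ := hf' y hy
  have h1 : F x < c := hc' x hx
  rwa [(hF1 x).1 (hA _ hy)] at h1

theorem reg_bdd_fn (h : Pk N K) {a b : K} (ha : Reg N a) (hb : b < a) {G : K → K} (hG : IF N G)
    (hlt : ∀ x, x < b → G x < a) : ∃ c, c < a ∧ ∀ x, x < b → G x < c :=
  ha.2 b hb ⟨G, hG⟩ hlt

theorem bdd_top (h : Pk N K) {b : K} {A : K → Prop} (hA : Cov N b A) : ∃ c, ∀ x, A x → x < c := by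
  obtain ⟨f, hf, hf'⟩ := hA
  obtain ⟨c, hc⟩ := h.reg b ⟨f, hf⟩
  refine ⟨c, fun y hy => ?_⟩
  obtain ⟨x, hx, rfl⟩ := hf' y hy
  exact hc x hx

theorem reg_nx (h : Pk N K) {m : K} (hm : Lv N m) : Reg N (nx N m) := by
  refine ⟨cd_nx h m, fun b hb F hF => ?_⟩
  rcases hm with rfl | hm
  · have hfin : (Set.Iio b).Finite := (lt_om h).1 hb
    by_cases hne : (Set.Iio b).Nonempty
    · obtain ⟨x0, hx0, hmax⟩ := Set.exists_max_image (Set.Iio b) (fun x => F x) hfin hne
      exact ⟨sc N (F x0), cd_sc_lt h (cd_nx h _) (hF x0 hx0),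
        fun x hx => (lt_sc_iff h).2 (hmax x hx)⟩
    · exact ⟨⊥, lt_nx h _, fun x hx => absurd ⟨x, hx⟩ hne⟩
  · by_contra hcon
    push Not at hcon
    have hint : IP N (fun p : K × K => p.2 < sc N (F p.1)) :=
      ip_ltK IF.snd (if_sc (F.int.comp IF.fst))
    have h1 : Cov N m (fun y : K => ∃ x, x < b ∧ y < sc N (F x)) := by
      refine cov_union (A := fun x y => y < sc N (F x)) h hm (sur_of_lt_nx h hm hb) hint ?_
      intro x hx
      exact sur_of_lt_nx h hm (cd_sc_lt h (cd_nx h _) (hF x hx))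
    refine not_sur_nx h m (cov_mono h1 le_rfl fun y hy => ?_)
    obtain ⟨x, hx, hxy⟩ := hcon y hy
    exact ⟨x, hx, (lt_sc_iff h).2 hxy⟩

/-- successor cardinals and `ω` are regular -/
theorem reg_nx' (h : Pk N K) (a : K) : Reg N (nx N a) := by
  obtain ⟨m, hm, _, _, h1⟩ := exists_lv h a
  rw [← h1]
  exact reg_nx h hm

variable (N) in
/-- the least strict upper bound -/
noncomputable def ssup (A : St N K) : K := lst N (fun c => ∀ x, x ∈ A → x < c)

@[simp] theorem if_ssup {A : β → St N K} (hA : IF N A) : IF N (fun b => ssup N (A b)) := by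
  unfold ssup
  refine if_lst (P := fun b c => ∀ x, x ∈ A b → x < c) ?_
  refine IP.all (IP.imp ?_ ?_)
  · exact IP.mem IF.snd (hA.comp (IF.fst.comp IF.fst))
  · exact ip_ltK IF.snd (IF.snd.comp IF.fst)

theorem lt_ssup {A : St N K} (hA : ∃ c, ∀ x, x ∈ A → x < c) {x : K} (hx : x ∈ A) : x < ssup N A :=
  lst_spec (P := fun c => ∀ x, x ∈ A → x < c) hA x hx

theorem ssup_le {A : St N K} {c : K} (hc : ∀ x, x ∈ A → x < c) : ssup N A ≤ c :=
  lst_le (P := fun c => ∀ x, x ∈ A → x < c) hc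

theorem reg_ssup_lt (h : Pk N K) {a b : K} (ha : Reg N a) (hb : b < a) {A : St N K} (hA : Cov N b (fun x => x ∈ A))
    (hlt : ∀ x, x ∈ A → x < a) : ssup N A < a ∧ ∀ x, x ∈ A → x < ssup N A := by
  obtain ⟨c, hc, hc'⟩ := reg_bdd ha hb hA hlt
  exact ⟨(ssup_le hc').trans_lt hc, fun x hx => lt_ssup ⟨c, hc'⟩ hx⟩

end LCA
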