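import Pool.Agent.LCA.HPar

/-! # The chain lemma, case 2

(problem MP_328cd5_lc; architect helper18; section 6, case 2 of /team-store/COD_h51.md)

`b = bb h.pk st sj par`, `ŵ = w.1.toZFSet = cz δ w`; `i ≤ m0` a limit, `l > m0` a limit level, `l̂` is in no `Xh b A j m1` with `j < i`, `m0 ≤ m1 < l`, `m1` a cardinal.

PROOFS.
* `uni2` : `Y := {y | ∃ j < i, ∃ m1, m0 ≤ m1 < l, Cd m1, y ∈ Xh b A j m1}`. For `(j, m1)`, `(j', m1')`: `Xh b A j m1 ⊆ Xh b A (max j j') (max m1 m1')` (`Xh_mono`; `max j j' < i ≤ m0 ≤ max m1 m1'`). So `Y` is closed (`⊥ < i`, `m0` itself is a cardinal, `Cd m0`), `Y ⊆ L Ω`; `b ∈ Y`; `cz (q j) ∈ Y` for `j < i` (`Xh_q`, `m1 := m0`); for `v < l`: `v̂ ∈ Y`: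
  `m1 := max m0 (nx v) < l` (`ll_nx_lt`), a cardinal, `v < m1`, `v̂ ∈ L m1.1` (`ord_mem_L`, `lim_of_cd`).
* `case2`. (A) If all `w` with `ŵ ∈ Y` are `< l`: `cz (bd (q j)) ∈ Y` (`cl_app`), so `bd (q j) < l`. (B) Otherwise let `l'` be the least `w` with `ŵ ∈ Y` and `l ≤ w`; `l' ≠ l` (`hno`), so `l < l'`, and `(*)`: `ŵ ∈ Y`, `w < l'` imply `w < l`.
  - `crF l' ∈ Y` (its code); `Iio l'` is infinite; `crF_spec`. If `crF l' < l'` then `crF l' < l` by `(*)`, and every `w < l'` is `sj (l', v)` for some `v < crF l'` (`Sj` for `m := crF l'`), `v̂ ∈ Y`, so `ŵ ∈ Y`; in particular `l̂ ∈ Y`, contradiction. So `crF l' = l'` and `Cd l'`.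
  - `LL l'`: if `l' = nx t`: `pdF_spec`: `nx (pdF l') = l'`, `pdF l' < l'`, so `pdF l' < l` by `(*)`, `nx (pdF l') < l` (`ll_nx_lt`), contradiction.
  - `Reg l'`: if not, then `cf l' < l'` (`reg_iff_cf`, `cf_le`), `cfF l' ∈ Y`, so `cf l' < l` by `(*)`. `Cm`: there is `x < cf l'` with `l ≤ cm (l', x) < l'`; `x̂ ∈ Y` (`x < l`), so `cm (l', x) ∈ Y`, `< l` by `(*)`, contradiction. So `InE l'`.
  - `l ∈ Dc (q j) l'` for `j < i`: for `a < l` the element `y := Dn (q j, (l', a))` is the least element of `Dc (q j) l'` above `a`, its code is in `Y`, and `y < l'` as the club has an element between `a` and `l'`; so `y < l` by `(*)`. The club is closed, `l < l'`, `l ≠ ⊥`. The same for `C l'` with `Cn`. -/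

set_option autoImplicit false

universe u v w x

namespace LCA

open STP LGr WCal WM LBB COD

variable {δ κ : Ordinal.{0}} [hG : GM δ] [hκ : Fact (κ < δ)] [h0 : Fact (0 < κ)]
  {T : Type w} [WTy (L δ) T] {P : Type x} [WTy (L δ) P]
  {h : MahM δ κ} {st : Fn (L δ) (Set.Iio κ × HH δ κ T) T} {sj : Fn (L δ) (Set.Iio κ × Set.Iio κ) (Set.Iio κ)}
  {par : P} {Ω : Ordinal.{0}} {q : Set.Iio κ → T} {E : Set.Iio κ → EE δ κ} {A : Set.Iio κ → HH δ κ T}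

/-- the union of the hulls `Xh b A j m1`, `j < i`, `m0 ≤ m1 < l` -/
def UY (b : ZFSet.{0}) (A : Set.Iio κ → HH δ κ T) (i m0 l : Set.Iio κ) : Set ZFSet.{0} :=
  {y | ∃ j, j < i ∧ ∃ m1, m0 ≤ m1 ∧ m1 < l ∧ Cd (L δ) m1 ∧ y ∈ Xh b A j m1}

theorem uni2 (S : Sq Ω (bb h.pk st sj par) st q E A) {m0 i l : Set.Iio κ} (hm0 : Cd (L δ) m0) (hi : i ≤ m0)
    (hlim : Lim (L δ) i) (hl : LL (L δ) l) (hml : m0 < l) :
    Cls (UY (bb h.pk st sj par) A i m0 l) ∧ UY (bb h.pk st sj par) A i m0 l ⊆ L Ω ∧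
    bb h.pk st sj par ∈ UY (bb h.pk st sj par) A i m0 l ∧
    (∀ j, j < i → cz δ (q j) ∈ UY (bb h.pk st sj par) A i m0 l) ∧
    ∀ v, v < l → v.1.toZFSet ∈ UY (bb h.pk st sj par) A i m0 l := by
  obtain ⟨b0, hbot⟩ : ∃ b0, b0 < i := by
    let _ := (inferInstance : KTy (L δ) (Set.Iio κ)).toOrderBot
    exact ⟨_, bot_lt_iff_ne_bot.2 hlim.1⟩
  have hmax : ∀ {a b : Set.Iio κ}, Cd (L δ) a → Cd (L δ) b → Cd (L δ) (max a b) := by
    intro a b ha hb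
    rcases le_total a b with h1 | h1
    · rwa [max_eq_right h1]
    · rwa [max_eq_left h1]
  refine ⟨⟨⟨bb h.pk st sj par, b0, hbot, m0, le_rfl, hml, hm0, Xh_b h hm0 b0⟩, ?_, ?_⟩, ?_,
    ⟨b0, hbot, m0, le_rfl, hml, hm0, Xh_b h hm0 b0⟩,
    fun j hj => ⟨j, hj, m0, le_rfl, hml, hm0, Xh_q (h := h) S hm0 j⟩, fun v hv => ?_⟩
  · rintro x ⟨j, hj, m1, h1, h2, h3, hx⟩ y ⟨j', hj', m1', h1', h2', h3', hy⟩
    have hjj : max j j' < i := max_lt hj hj'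
    have hle : max j j' ≤ max m1 m1' := (hjj.le.trans hi).trans (h1.trans (le_max_left _ _))
    have e1 := Xh_mono (h := h) S h3 (hmax h3 h3') (le_max_left m1 m1') (le_max_left j j') hle hx
    have e2 := Xh_mono (h := h) S h3' (hmax h3 h3') (le_max_right m1 m1') (le_max_right j j') hle hy
    exact ⟨max j j', hjj, max m1 m1', h1.trans (le_max_left _ _), max_lt h2 h2', hmax h3 h3',
      (Xh_cls h (hmax h3 h3') _).pr _ e1 _ e2⟩
  · rintro n x ⟨j, hj, m1, h1, h2, h3, hx⟩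
    exact ⟨j, hj, m1, h1, h2, h3, (Xh_cls h h3 j).B n x hx⟩
  · rintro x ⟨j, hj, m1, h1, h2, h3, hx⟩
    exact Xh_sub S j m1 hx
  · have hc : Cd (L δ) (max m0 (nx (L δ) v)) := hmax hm0 (cd_nx h.pk v)
    have hlt : v < max m0 (nx (L δ) v) := (lt_nx h.pk v).trans_le (le_max_right _ _)
    exact ⟨b0, hbot, max m0 (nx (L δ) v), le_max_left _ _, max_lt hml (ll_nx_lt h.pk hl hv), hc,
      Xh_L b0 _ ((ord_mem_L (lim_of_cd h hc)).2 hlt)⟩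

theorem case2 (S : Sq Ω (bb h.pk st sj par) st q E A) (hsj : Sj sj) {m0 i l : Set.Iio κ} (hm0 : Cd (L δ) m0)
    (hi : i ≤ m0) (hlim : Lim (L δ) i) (hl : LL (L δ) l) (hml : m0 < l)
    {bd : Fn (L δ) T (Set.Iio κ)} {cm : Fn (L δ) (Set.Iio κ × Set.Iio κ) (Set.Iio κ)} (hcm : Cm cm)
    {Dc : T → Set.Iio κ → St (L δ) (Set.Iio κ)} {Dn : Fn (L δ) (T × (Set.Iio κ × Set.Iio κ)) (Set.Iio κ)}
    (hDn : ∀ q l a, Dn (q, (l, a)) = lst (L δ) (fun y => y ∈ Dc q l ∧ a < y))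
    (hDc : ∀ q l, InE (L δ) l → Club (L δ) l (Dc q l))
    {C : Set.Iio κ → St (L δ) (Set.Iio κ)} {Cn : Fn (L δ) (Set.Iio κ × Set.Iio κ) (Set.Iio κ)}
    (hCn : ∀ l a, Cn (l, a) = lst (L δ) (fun y => y ∈ C l ∧ a < y))
    (hC : ∀ l, InE (L δ) l → Club (L δ) l (C l))
    (hpar : ∀ X : Set ZFSet.{0}, Cls X → X ⊆ L Ω → bb h.pk st sj par ∈ X →
      cz δ bd ∈ X ∧ cz δ cm ∈ X ∧ cz δ Dn ∈ X ∧ cz δ Cn ∈ X ∧ cz δ (crF h.pk) ∈ X ∧ cz δ (pdF h.pk) ∈ X ∧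
        cz δ (cfF δ κ) ∈ X)
    (hno : ∀ j1 m1, j1 < i → m0 ≤ m1 → m1 < l → Cd (L δ) m1 →
      l.1.toZFSet ∉ Xh (bb h.pk st sj par) A j1 m1) :
    (∀ j, j < i → bd (q j) ≤ l) ∨ ∃ l', InE (L δ) l' ∧ l < l' ∧ l ∈ C l' ∧ ∀ j, j < i → l ∈ Dc (q j) l' := by
  obtain ⟨hY, hs, hb, hq, hv⟩ := uni2 (h := h) S hm0 hi hlim hl hml
  have hlY : l.1.toZFSet ∉ UY (bb h.pk st sj par) A i m0 l := by
    rintro ⟨j, hj, m1, h1, h2, h3, h4⟩
    exact hno j m1 hj h1 h2 h3 h4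
  generalize UY (bb h.pk st sj par) A i m0 l = Y at hY hs hb hq hv hlY
  obtain ⟨pbd, pcm, pDn, pCn, pcr, ppd, pcf⟩ := hpar Y hY hs hb
  have psj : cz δ sj ∈ Y := (bb_mem (h := h.pk) hY hb).2.1
  by_cases hA : ∀ w : Set.Iio κ, w.1.toZFSet ∈ Y → w < l
  · left
    intro j hj
    have h1 : cz δ (bd (q j)) ∈ Y := cl_app hY hs pbd (hq j hj)
    exact (hA _ h1).le
  right
  have hne : {w : Set.Iio κ | w.1.toZFSet ∈ Y ∧ l ≤ w}.Nonempty := by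
    by_contra hcon
    refine hA fun w hw => ?_
    by_contra hlt
    exact hcon ⟨w, hw, not_lt.1 hlt⟩
  obtain ⟨l', ⟨hl'Y, hll'⟩, hmin⟩ : ∃ l' : Set.Iio κ, (l'.1.toZFSet ∈ Y ∧ l ≤ l') ∧
      ∀ w : Set.Iio κ, w.1.toZFSet ∈ Y → w < l' → w < l := by
    refine ⟨(wellFounded_lt (α := Set.Iio κ)).min _ hne,
      (wellFounded_lt (α := Set.Iio κ)).min_mem _ hne, fun w hw hlt => ?_⟩
    by_contra hcon
    exact (wellFounded_lt (α := Set.Iio κ)).not_lt_min {w : Set.Iio κ | w.1.toZFSet ∈ Y ∧ l ≤ w}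
      (show w ∈ {w : Set.Iio κ | w.1.toZFSet ∈ Y ∧ l ≤ w} from ⟨hw, not_lt.1 hcon⟩) hlt
  have hlt : l < l' := by
    refine lt_of_le_of_ne hll' ?_
    rintro rfl
    exact hlY hl'Y
  have hl'c : cz δ l' ∈ Y := hl'Y
  have hinf : (Set.Iio l').Infinite := hl.1.1.mono (Set.Iio_subset_Iio hlt.le)
  obtain ⟨c1, c2, c3⟩ := crF_spec h.pk hinf
  have hcd : Cd (L δ) l' := by
    rcases c2.lt_or_eq with h1 | h1
    · exfalso
      have h2 : crF h.pk l' < l := hmin _ (show cz δ (crF h.pk l') ∈ Y from cl_app hY hs pcr hl'c) h1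
      obtain ⟨v, hvc, h3⟩ := hsj _ c1 l' c3 l hlt
      have h4 : cz δ v ∈ Y := hv v (hvc.trans h2)
      have h5 : cz δ (sj (l', v)) ∈ Y := cl_app hY hs psj (cl_mk hY hl'c h4)
      rw [h3] at h5
      exact hlY h5
    · rw [h1] at c1
      exact c1
  have hLL : LL (L δ) l' := by
    refine ⟨hcd, fun t _ e => ?_⟩
    obtain ⟨h1, h2⟩ := pdF_spec h.pk e.symm
    have h3 : pdF h.pk l' < l := hmin _ (show cz δ (pdF h.pk l') ∈ Y from cl_app hY hs ppd hl'c) h2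
    have h4 := ll_nx_lt h.pk hl h3
    rw [h1] at h4
    exact absurd h4 (not_lt.2 hll')
  have hReg : Reg (L δ) l' := by
    by_contra hcon
    have h1 : cf (L δ) l' < l' := lt_of_le_of_ne (cf_le l') fun e => hcon ((reg_iff_cf hcd).2 e)
    have h2 : cf (L δ) l' < l :=
      hmin _ (show cz δ (cfF δ κ l') ∈ Y from cl_app hY hs pcf hl'c) h1
    obtain ⟨x, hx, hlx⟩ := (hcm l').2 l hlt
    have h3 : cz δ x ∈ Y := hv x (hx.trans h2)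
    have h4 : cz δ (cm (l', x)) ∈ Y := cl_app hY hs pcm (cl_mk hY hl'c h3)
    exact absurd (hmin _ h4 ((hcm l').1 x hx)) (not_lt.2 hlx)
  have hE : InE (L δ) l' := ⟨hLL, hReg⟩
  have key : ∀ D : St (L δ) (Set.Iio κ), Club (L δ) l' D →
      (∀ a, a < l → cz δ (lst (L δ) (fun y => y ∈ D ∧ a < y)) ∈ Y) → l ∈ D := by
    intro D hD hDY
    refine hD.2 l hlt (ne_of_gt (cd_bot_lt hl.1)) fun x hx => ?_
    obtain ⟨y, hy, hxy, hyl⟩ := hD.1 x (hx.trans hlt)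
    have h1 : lst (L δ) (fun y => y ∈ D ∧ x < y) ≤ y :=
      lst_le (P := fun y => y ∈ D ∧ x < y) ⟨hy, hxy⟩
    have h2 := lst_spec (N := L δ) (P := fun y => y ∈ D ∧ x < y) ⟨y, hy, hxy⟩
    exact ⟨_, h2.1, h2.2, hmin _ (hDY x hx) (h1.trans_lt hyl)⟩
  refine ⟨l', hE, hlt, key _ (hC l' hE) fun a ha => ?_, fun j hj =>
    key _ (hDc (q j) l' hE) fun a ha => ?_⟩
  · have h4 : cz δ a ∈ Y := hv a ha
    rw [← hCn l' a]
    exact cl_app hY hs pCn (cl_mk hY hl'c h4)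
  · have h4 : cz δ a ∈ Y := hv a ha
    rw [← hDn (q j) l' a]
    exact cl_app hY hs pDn (cl_mk hY (hq j hj) (cl_mk hY hl'c h4))

end LCA
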