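import Pool.Agent.LCA.HCone
import Pool.Agent.LCA.HCtwo

/-! # The chain lemma

(problem MP_328cd5_lc; architect helper18; section 6 of /team-store/COD_h51.md)

PROOFS. `K = Set.Iio κ`, `M = L δ`.
* `Ht d j A` (`A : HH δ κ T`): the total history: `Ht d j A l = (t, ⟨GG E ·⟩)` if `l < j` and `(l, (t, E)) ∈ A` for a unique `(t, E)` (as a condition: `∃ p, (l, p) ∈ A` and choose by `IF.unique`-like definition), `d` otherwise. STATEMENT `exists_Ht`: there is an internal `Ht : K → HH → Fn M K (T × Fn M K K)` such that for every `A`, `j`, and functions `q`, `E` with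
  `∀ p, p ∈ A ↔ p.1 < j ∧ (q p.1, E p.1) = p.2`: `Ht j A l = (q l, G)` with `G m = GG δ (E l) m` for `l < j`, and `Ht j A l = d` for `¬ l < j`. Proof: `choice'` for the parameter `(j, A, l) : K × HH × K` and the relation `(l, y) ∈ A ∧ l < j` to `y : T × EE` (with a default value `y0`, from `d.1` and the empty `EE`) gives an internal `c`; if `l < j` then `(l, y) ∈ A` holds only for
  `y = (q l, E l)`; `Ht j A l := if l < j then ((c (j, A, l)).1, ⟨fun m => GG δ (c (j, A, l)).2 m, _⟩) else d`, an element of `Fn M K (T × Fn M K K)` by `IF.lam` (twice), `if_GG`, `IF.ite`.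
* `exists_ACL`. Let `m0`, `d`, `step`, `aux`, `lg`, `Dc`, `bd` be as in `COD.ACL`. `Cd m0` (`nl_cd`). `Ht` from `exists_Ht`. `st : Fn M (K × HH) T`, `st (j, A) = step j (Ht j A)`. `auF : Fn M (K × HH) T`, `auF (j, A) = aux j (Ht j A)`. `sj` from `exists_sj`, `cm` from `exists_cm`. `lgF : Fn M (T × K) K`, `bdF : Fn M T K`,
  `fF : Fn M (K × (K × K)) K`, `fF (l, (y, m)) = D.f l y m` (`hD.if'`); `Dn`, `Cn` by `if_lst`. `par := (fF, (PtF, (FVF, (MSF, (bdF, (cm, (Dn, (Cn, (crF, (pdF, (cfF, (lgF, auF))))))))))))`. `exists_Sq` gives `Ω`, `q`, `E`, `A` with `S`; `b := bb h.pk st sj par`. For a closed `X ⊆ L Ω` with `b ∈ X` all the codes are in `X` (`bb_mem`, `cl_fst`, `cl_snd`).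
  `g j := ⟨fun m => GG δ (E j) m, _⟩`, `H j := Ht j (A j)`. By `S.hA`: `H j l = (q l, g l)` for `l < j`, `d` otherwise; `q j = st (j, A j) = step j (H j)` (`S.hq`).
  For a level `m ≥ m0` (a cardinal, `m ≠ ⊥`) and `j ≤ m0`: `g j m < nx m` (`Xh_lt`). `lg (q j) m < nx m` and its code is in `Xh b A j m` (`Xh_q`, `Xh_m`, `cl_mk`, `cl_app`), so `< g j m` (`Xh_lt`). `aux j (H j) = auF (j, A j)`: `cz (A j), ĵ ∈ Xh b A j m` (`Xh_c`, `cl_r`, `cl_l`), the same. `g l m = GGF (E l, m)` for `l < j`: `cz (E l) ∈ Xh b A j m` (`cc_mem`; `l < j ≤ m0 ≤ m`,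
  `l̂ ∈ L m.1`), `g l m < nx m`, so `g l m < g j m`.
  Limits: let `i ≤ m0` be a limit, `l > m0` a limit level. If there are `j1 < i` and a cardinal `m1` with `m0 ≤ m1 < l` and `l̂ ∈ Xh b A j1 m1`: `case1` with `f := fF`, `Sl := D.S l` (`hD.S_lt`, `nl_cd`), `hf := hD.f_lt`, `hFam` from `hF`: for `b'` with `b'.1 ∈ L (bt δ l z).1` and `i' < l` there is `x < l` with `Fam l z x m = psi δ b' i' m` for all `m`. Otherwise `case2`
  (`C := D.C`, `hD.C_club`).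
* `exists_coding`: `Gl` from `exists_Gl`, `Fam` from `exists_Fam`; `exists_CPP` with `h.pk`, `gch_of h`, `h.nmh`, `guess`. -/

set_option autoImplicit false

universe u v w x

namespace LCA

open STP LGr WCal WM LBB COD

variable {δ κ : Ordinal.{0}} [hG : GM δ] [hκ : Fact (κ < δ)] [h0 : Fact (0 < κ)]

theorem exists_Ht (h : Pk (L δ) (Set.Iio κ)) {T : Type w} [WTy (L δ) T] (d : T × Fn (L δ) (Set.Iio κ) (Set.Iio κ)) :
    ∃ Ht : Set.Iio κ → HH δ κ T → Fn (L δ) (Set.Iio κ) (T × Fn (L δ) (Set.Iio κ) (Set.Iio κ)),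
      IF (L δ) (fun p : Set.Iio κ × HH δ κ T => Ht p.1 p.2) ∧
      ∀ (j : Set.Iio κ) (A : HH δ κ T) (q : Set.Iio κ → T) (E : Set.Iio κ → EE δ κ),
        (∀ p : Set.Iio κ × (T × EE δ κ), p ∈ A ↔ p.1 < j ∧ (q p.1, E p.1) = p.2) →
        (∀ l, l < j → (Ht j A l).1 = q l ∧ ∀ m, (Ht j A l).2 m = GG δ (E l) m) ∧ ∀ l, ¬ l < j → Ht j A l = d := by
  classical
  have hR : IP (L δ) (fun p : ((Set.Iio κ × HH δ κ T) × Set.Iio κ) × (T × EE δ κ) =>
      p.1.2 < p.1.1.1 ∧ (p.1.2, p.2) ∈ p.1.1.2) :=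
    IP.and (ip_ltK (IF.snd.comp IF.fst) (IF.fst.comp (IF.fst.comp IF.fst)))
      (IP.mem (IF.pair (IF.snd.comp IF.fst) IF.snd) (IF.snd.comp (IF.fst.comp IF.fst)))
  obtain ⟨c, hc, hc'⟩ := choice' (N := L δ) (α := (Set.Iio κ × HH δ κ T) × Set.Iio κ)
    (β := T × EE δ κ) (P := fun p y => p.2 < p.1.1 ∧ (p.2, y) ∈ p.1.2) hR
    (d.1, (⟨∅, IP.const False⟩ : EE δ κ))
  have hGc : IF (L δ) (fun p : ((Set.Iio κ × HH δ κ T) × Set.Iio κ) × Set.Iio κ =>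
      GG δ (c p.1).2 p.2) :=
    (if_GG h).comp (IF.pair (IF.snd.comp (hc.comp IF.fst)) IF.snd)
  have hgf : IF (L δ) (fun p : (Set.Iio κ × HH δ κ T) × Set.Iio κ =>
      (⟨fun m => GG δ (c p).2 m, IF.sec (f := fun p m => GG δ (c p).2 m) hGc p⟩ :
        Fn (L δ) (Set.Iio κ) (Set.Iio κ))) := IF.lam (f := fun p m => GG δ (c p).2 m) hGc
  have hF : IF (L δ) (fun p : (Set.Iio κ × HH δ κ T) × Set.Iio κ =>
      if p.2 < p.1.1 then ((c p).1,
        (⟨fun m => GG δ (c p).2 m, IF.sec (f := fun p m => GG δ (c p).2 m) hGc p⟩ :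
          Fn (L δ) (Set.Iio κ) (Set.Iio κ))) else d) := by
    have h1 := IF.ite (N := L δ) (P := fun p : (Set.Iio κ × HH δ κ T) × Set.Iio κ => p.2 < p.1.1)
      (ip_ltK IF.snd (IF.fst.comp IF.fst)) (IF.pair (IF.fst.comp hc) hgf) (IF.const d)
    refine IF.congr (fun p => ?_) h1
    by_cases hp : p.2 < p.1.1 <;> simp [hp]
  refine ⟨fun j A => ⟨fun l => if l < j then ((c ((j, A), l)).1,
      (⟨fun m => GG δ (c ((j, A), l)).2 m,
        IF.sec (f := fun p m => GG δ (c p).2 m) hGc ((j, A), l)⟩ :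
          Fn (L δ) (Set.Iio κ) (Set.Iio κ))) else d, ?_⟩, ?_, ?_⟩
  · exact hF.comp (IF.pair (IF.const (j, A)) IF.id)
  · exact IF.lam' hF
  · intro j A q E hA
    constructor
    · intro l hl
      have h1 : (l, c ((j, A), l)) ∈ A :=
        (hc' ((j, A), l) ⟨(q l, E l), hl, (hA _).2 ⟨hl, rfl⟩⟩).2
      have h2 : (q l, E l) = c ((j, A), l) := ((hA _).1 h1).2
      refine ⟨?_, fun m => ?_⟩
      · change (if l < j then _ else d).1 = q l
        rw [if_pos hl]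
        change (c ((j, A), l)).1 = q l
        rw [← h2]
      · change (if l < j then _ else d).2 m = GG δ (E l) m
        rw [if_pos hl]
        change GG δ (c ((j, A), l)).2 m = GG δ (E l) m
        rw [← h2]
    · intro l hl
      change (if l < j then _ else d) = d
      rw [if_neg hl]

theorem exists_ACL (h : MahM δ κ) {D : CPD (L δ) (Set.Iio κ)} (hD : CPP D)
    {Fam : Set.Iio κ → Set.Iio κ → Set.Iio κ → Fn (L δ) (Set.Iio κ) (Set.Iio κ)}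
    (hFam : ∀ l, Cd (L δ) l → ∀ z, z < nx (L δ) l → ∀ b : L κ, b.1 ∈ L (bt δ l z).1 → ∀ i, i < l →
      ∃ x, x < l ∧ ∀ m, Fam l z x m = psi δ b i m)
    (hF : ∀ l, LL (L δ) l → ∀ z, z < nx (L δ) l → ∀ i, i < l →
      Ev (L δ) l (D.S l) (fun m => Fam l z i m < nx (L δ) m → Fam l z i m < D.f l z m))
    (T : Type w) [WTy (L δ) T] : ACL D T := by
  intro m0 hm0 hm0' d step aux hstep haux lg hlg hlg' Dc hDc hDc' bd hbd
  have hpk : Fact (Pk (L δ) (Set.Iio κ)) := ⟨h.pk⟩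
  have cm0 : Cd (L δ) m0 := nl_cd h.pk hm0 hm0'
  obtain ⟨Ht, hHt, hHs⟩ := exists_Ht h.pk d
  obtain ⟨sj, hsj⟩ := exists_sj h.pk
  obtain ⟨cm, hcm⟩ := exists_cm (δ := δ) (κ := κ)
  obtain ⟨st, hst⟩ : ∃ st : Fn (L δ) (Set.Iio κ × HH δ κ T) T,
      ∀ p, st p = step p.1 (Ht p.1 p.2) :=
    ⟨⟨fun p => step p.1 (Ht p.1 p.2), hstep.comp (IF.pair IF.fst hHt)⟩, fun _ => rfl⟩
  obtain ⟨auF, hauF⟩ : ∃ auF : Fn (L δ) (Set.Iio κ × HH δ κ T) T,
      ∀ p, auF p = aux p.1 (Ht p.1 p.2) :=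
    ⟨⟨fun p => aux p.1 (Ht p.1 p.2), haux.comp (IF.pair IF.fst hHt)⟩, fun _ => rfl⟩
  obtain ⟨lgF, hlgF⟩ : ∃ lgF : Fn (L δ) (T × Set.Iio κ) (Set.Iio κ), ∀ p, lgF p = lg p.1 p.2 :=
    ⟨⟨fun p => lg p.1 p.2, hlg⟩, fun _ => rfl⟩
  obtain ⟨bdF, hbdF⟩ : ∃ bdF : Fn (L δ) T (Set.Iio κ), ∀ p, bdF p = bd p :=
    ⟨⟨bd, hbd⟩, fun _ => rfl⟩
  obtain ⟨fF, hfF⟩ : ∃ fF : Fn (L δ) (Set.Iio κ × (Set.Iio κ × Set.Iio κ)) (Set.Iio κ),
      ∀ l y m, fF (l, (y, m)) = D.f l y m :=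
    ⟨⟨fun p => D.f p.1 p.2.1 p.2.2, hD.if'⟩, fun _ _ _ => rfl⟩
  obtain ⟨Dn, hDn⟩ : ∃ Dn : Fn (L δ) (T × (Set.Iio κ × Set.Iio κ)) (Set.Iio κ),
      ∀ q l a, Dn (q, (l, a)) = lst (L δ) (fun y => y ∈ Dc q l ∧ a < y) :=
    ⟨⟨fun p => lst (L δ) (fun y => y ∈ Dc p.1 p.2.1 ∧ p.2.2 < y), if_lst
      (P := fun (p : T × (Set.Iio κ × Set.Iio κ)) (y : Set.Iio κ) => y ∈ Dc p.1 p.2.1 ∧ p.2.2 < y)
      (IP.and (IP.mem IF.snd (hDc.comp (IF.pair (IF.fst.comp IF.fst)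
        (IF.fst.comp (IF.snd.comp IF.fst))))) (ip_ltK (IF.snd.comp (IF.snd.comp IF.fst))
          IF.snd))⟩, fun _ _ _ => rfl⟩
  obtain ⟨Cn, hCn⟩ : ∃ Cn : Fn (L δ) (Set.Iio κ × Set.Iio κ) (Set.Iio κ),
      ∀ l a, Cn (l, a) = lst (L δ) (fun y => y ∈ D.C l ∧ a < y) :=
    ⟨⟨fun p => lst (L δ) (fun y => y ∈ D.C p.1 ∧ p.2 < y), if_lst
      (P := fun (p : Set.Iio κ × Set.Iio κ) (y : Set.Iio κ) => y ∈ D.C p.1 ∧ p.2 < y)
      (IP.and (IP.mem IF.snd (hD.iC.comp (IF.fst.comp IF.fst)))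
        (ip_ltK (IF.snd.comp IF.fst) IF.snd))⟩, fun _ _ => rfl⟩
  obtain ⟨Ω, q, E, A, S⟩ := exists_Sq h st sj (fF, (PtF h.pk, (FVF δ κ, (MSF δ κ, (bdF, (cm,
    (Dn, (Cn, (crF h.pk, (pdF h.pk, (cfF δ κ, (lgF, auF))))))))))))
  have hpar : ∀ X : Set ZFSet.{0}, Cls X → bb h.pk st sj (fF, (PtF h.pk, (FVF δ κ, (MSF δ κ,
      (bdF, (cm, (Dn, (Cn, (crF h.pk, (pdF h.pk, (cfF δ κ, (lgF, auF)))))))))))) ∈ X →
      (cz δ fF ∈ X ∧ cz δ (PtF h.pk) ∈ X ∧ cz δ (FVF δ κ) ∈ X ∧ cz δ (MSF δ κ) ∈ X) ∧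
      (cz δ bdF ∈ X ∧ cz δ cm ∈ X ∧ cz δ Dn ∈ X ∧ cz δ Cn ∈ X ∧ cz δ (crF h.pk) ∈ X ∧
        cz δ (pdF h.pk) ∈ X ∧ cz δ (cfF δ κ) ∈ X) ∧ cz δ lgF ∈ X ∧ cz δ auF ∈ X := by
    intro X hX hb
    have p0 := (bb_mem hX hb).2.2.2.2
    have p1 := cl_snd hX p0
    have p2 := cl_snd hX p1
    have p3 := cl_snd hX p2
    have p4 := cl_snd hX p3
    have p5 := cl_snd hX p4
    have p6 := cl_snd hX p5
    have p7 := cl_snd hX p6
    have p8 := cl_snd hX p7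
    have p9 := cl_snd hX p8
    have p10 := cl_snd hX p9
    have p11 := cl_snd hX p10
    exact ⟨⟨cl_fst hX p0, cl_fst hX p1, cl_fst hX p2, cl_fst hX p3⟩,
      ⟨cl_fst hX p4, cl_fst hX p5, cl_fst hX p6, cl_fst hX p7, cl_fst hX p8, cl_fst hX p9,
        cl_fst hX p10⟩, cl_fst hX p11, cl_snd hX p11⟩
  have hGE : IF (L δ) (fun p : Set.Iio κ × Set.Iio κ => GG δ (E p.1) p.2) :=
    (if_GG h.pk).comp (IF.pair (S.iE.comp IF.fst) IF.snd)
  have hHA := fun j => hHs j (A j) q E (S.hA j)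
  refine ⟨q, fun j => ⟨fun m => GG δ (E j) m, IF.sec (f := fun j m => GG δ (E j) m) hGE j⟩,
    fun j => Ht j (A j), S.iq, IF.lam' hGE, hHt.comp (IF.pair IF.id S.iA), ?_, ?_, ?_, ?_, ?_⟩
  · intro j l hl
    obtain ⟨h1, h2⟩ := (hHA j).1 l hl
    exact Prod.ext h1 (Fn.ext (funext h2))
  · intro j l hl
    exact (hHA j).2 l hl
  · intro j _
    rw [← hst (j, A j)]
    exact S.hq j
  · intro j hj m hm hm0m
    have hmb : m ≠ ⊥ := ((cd_bot_lt cm0).trans_le hm0m).ne'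
    have hmc : Cd (L δ) m := lv_cd hm hmb
    have hX := Xh_cls (A := A) (b := bb h.pk st sj (fF, (PtF h.pk, (FVF δ κ, (MSF δ κ,
      (bdF, (cm, (Dn, (Cn, (crF h.pk, (pdF h.pk, (cfF δ κ, (lgF, auF))))))))))))) h hmc j
    have hs := Xh_sub S j m
    obtain ⟨hlt, hiff⟩ := Xh_lt (h := h) S hsj hmc j
    have xm := Xh_m (A := A) (b := bb h.pk st sj (fF, (PtF h.pk, (FVF δ κ, (MSF δ κ,
      (bdF, (cm, (Dn, (Cn, (crF h.pk, (pdF h.pk, (cfF δ κ, (lgF, auF))))))))))))) h hmc j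
    have xc := Xh_c (A := A) (b := bb h.pk st sj (fF, (PtF h.pk, (FVF δ κ, (MSF δ κ,
      (bdF, (cm, (Dn, (Cn, (crF h.pk, (pdF h.pk, (cfF δ κ, (lgF, auF))))))))))))) h hmc j
    have xb := cl_l hX xc
    have xj := cl_l hX (cl_r hX xc)
    have xA := cl_r hX (cl_r hX xc)
    have xq := Xh_q (h := h) S hmc j
    obtain ⟨-, -, xlg, xau⟩ := hpar _ hX xb
    have xG := (bb_mem hX xb).2.2.2.1
    rw [← cz_K (δ := δ)] at xm xj
    refine ⟨hlt, ?_, ?_, ?_⟩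
    · have h1 := cl_app hX hs xlg (cl_mk hX xq xm)
      rw [hlgF] at h1
      exact (hiff _ (hlg' _ _ hm hmb)).1 h1
    · have h1 := cl_app hX hs xau (cl_mk hX xj xA)
      rw [hauF] at h1
      have h2 := cl_app hX hs xlg (cl_mk hX h1 xm)
      rw [hlgF] at h2
      exact (hiff _ (hlg' _ _ hm hmb)).1 h2
    · intro l hl
      have hlX := Xh_L (A := A) (b := bb h.pk st sj (fF, (PtF h.pk, (FVF δ κ, (MSF δ κ,
        (bdF, (cm, (Dn, (Cn, (crF h.pk, (pdF h.pk, (cfF δ κ, (lgF, auF))))))))))))) j m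
        ((ord_mem_L (lim_of_cd h hmc)).2 (show l.1 < m.1 from hl.trans_le (hj.trans hm0m)))
      obtain ⟨-, -, -, xE⟩ := cc_mem (h := h) S hX hs xc hlX hl
      have h1 := cl_app hX hs xG (cl_mk hX xE xm)
      exact (hiff _ (Xh_lt (h := h) S hsj hmc l).1).1 h1
  · intro i hi hlim l hl hml
    by_cases hcase : ∃ j1 m1, j1 < i ∧ m0 ≤ m1 ∧ m1 < l ∧ Cd (L δ) m1 ∧
        l.1.toZFSet ∈ Xh (bb h.pk st sj (fF, (PtF h.pk, (FVF δ κ, (MSF δ κ,
      (bdF, (cm, (Dn, (Cn, (crF h.pk, (pdF h.pk, (cfF δ κ, (lgF, auF))))))))))))) A j1 m1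
    · left
      obtain ⟨j1, m1, hj1, hm1, hm1l, hm1c, hlX⟩ := hcase
      have hc := case1 (h := h) (f := fF) (Sl := D.S l) S hsj hi hlim hl hml
        (fun X hX _ hb => (hpar X hX hb).1)
        (fun m hm => ⟨(hD.S_lt l hl m hm).1, nl_cd h.pk (hD.S_lt l hl m hm).2.1
          (hD.S_lt l hl m hm).2.2⟩)
        (fun y hy m hm => by
          rw [hfF]
          exact hD.f_lt l hl y hy m hm)
        (fun z hz b' hb' i' hi' => by
          obtain ⟨x, hx, hx'⟩ := hFam l hl.1 z hz b' hb' i' hi'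
          obtain ⟨e, he, he'⟩ := hF l hl z hz x hx
          refine ⟨e, he, fun m hm hem hml' => ?_⟩
          have h1 := he' m hm hem hml'
          simp only [hx'] at h1
          simp only [hfF]
          exact h1) hj1 hm1 hm1l hm1c hlX
      obtain ⟨z, hz, h1, e, he, he'⟩ := hc
      refine ⟨z, hz, fun y hy => ?_, e, he, fun m hm hem hml' j hj => ?_⟩
      · obtain ⟨j, hj, e', h2, h3⟩ := h1 y hy
        refine ⟨j, hj, e', h2, fun m hm hem hml' => ?_⟩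
        have h4 := h3 m hm hem hml'
        simp only [hfF] at h4
        exact h4
      · have h4 := he' m hm hem hml' j hj
        rw [hfF] at h4
        exact h4
    · right
      have hc := case2 (h := h) (bd := bdF) (C := D.C) (Dc := Dc) S hsj cm0 hi hlim hl hml hcm hDn hDc' hCn
        hD.C_club (fun X hX _ hb => (hpar X hX hb).2.1)
        (fun j1 m1 hj1 hm1 hm1l hm1c hlX => hcase ⟨j1, m1, hj1, hm1, hm1l, hm1c, hlX⟩)
      rcases hc with hc | hc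
      · left
        intro j hj
        rw [← hbdF]
        exact hc j hj
      · right
        exact hc

end LCA
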