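import Pool.Agent.LCA.HPsi

/-! # Collapses commute with the recursion

(problem MP_328cd5_lc; architect helper18; section 6 of /team-store/COD_h51.md, claim in case 1)

Native statement about a closed set `X ⊆ L Ω` with its collapse `π : X → L τ` (`Cnd X τ π`).

PROOFS.
* `cnd_fs`, `cnd_sn`: `exists_fs`, `exists_sn` and `Cnd.B`.
* `comm`. Let `j < i`. All `l ≤ j` are in `X` with `π l = l` (`hi`). Components: `π (bN b) = bN (π b)`, `π (bV b) = bV (π b)`, `π (bk b) = bk (π b)` and `bN b, bV b, bk b ∈ X` (`Cls.fs`, `Cls.sn`).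
  (A) `z ∈ π (A j)` iff `z = π y` for some `y ∈ X`, `y ∈ A j` (`Cnd.mos`), that is `y = pair l (pair (q l) (E l))`, `l < j`; conversely all these pairs are in `X` (`cl_pair`). `π (pair l (pair (q l) (E l))) = pair l (pair (π (q l)) (π (E l)))` (`Cnd.pr`, `hi`).
  (q) `q j = ap (bN b) (pair j (A j))`: `Cnd.ap`, `Cnd.pr`.
  (E) Let `c := pair b (pair j (A j)) ∈ X`; `π c = pair (π b) (pair j (π (A j)))`. `z ∈ π (E j)` iff `z = π y`, `y ∈ X`, `y ∈ E j`, that is `y = pair (pair (zn n) (pair x m)) w` with `x ∈ bV b`, `m, w ∈ bk b`, `B n (pair x (pair m c)) = w`. Then `x, m, w ∈ X` (`cl_l`, `cl_r`), `π x ∈ π (bV b) = bV (π b)` (`Cnd.mem`), `π m, π w ∈ bk (π b)`,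
  `B n (pair (π x) (pair (π m) (π c))) = π w` (`Cnd.B`, `Cnd.pr`), and `z = pair (pair (zn n) (pair (π x) (π m))) (π w)`. Conversely let `x' ∈ bV (π b) = π (bV b)`, `m', w' ∈ bk (π b)` with `B n (pair x' (pair m' (π c))) = w'`: `x' = π x`, `x ∈ X`, `x ∈ bV b` (`Cnd.mos`), `m' = π m`, `w' = π w` similarly; `π (B n (pair x (pair m c))) = w' = π w`, so
  `B n (pair x (pair m c)) = w` (`Cnd.inj`; `Cls.B`). -/

set_option autoImplicit false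

universe u v w x

namespace LCA

open STP LGr WCal WM LBB COD

variable {X : Set ZFSet.{0}} {Ω τ κ : Ordinal.{0}} {π : ZFSet.{0} → ZFSet.{0}}

theorem cnd_fs (hc : Cnd X τ π) {x : ZFSet.{0}} (hx : x ∈ X) : π (fs x) = fs (π x) := by
  obtain ⟨k, hk⟩ := exists_fs
  have h := hc.B k x hx
  rwa [hk, hk] at h

theorem cnd_sn (hc : Cnd X τ π) {x : ZFSet.{0}} (hx : x ∈ X) : π (sn x) = sn (π x) := by
  obtain ⟨k, hk⟩ := exists_sn
  have h := hc.B k x hx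
  rwa [hk, hk] at h

private theorem hcol_par (hX : Cls X) (hc : Cnd X τ π) {b : ZFSet.{0}} (hb : b ∈ X) :
    (bN b ∈ X ∧ π (bN b) = bN (π b)) ∧ (bV b ∈ X ∧ π (bV b) = bV (π b)) ∧
      bk b ∈ X ∧ π (bk b) = bk (π b) := by
  unfold bN bV bk
  have h1 := hX.sn hb
  have h2 := hX.sn h1
  refine ⟨⟨hX.fs hb, cnd_fs hc hb⟩, ⟨hX.fs h1, ?_⟩, hX.fs h2, ?_⟩
  · rw [cnd_fs hc h1, cnd_sn hc hb]
  · rw [cnd_fs hc h2, cnd_sn hc h1, cnd_sn hc hb]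

private theorem hcol_Ez (hX : Cls X) (hc : Cnd X τ π) {b c : ZFSet.{0}} (hb : b ∈ X)
    (hcX : c ∈ X) (hn : ∀ n : ℕ, zn n ∈ X ∧ π (zn n) = zn n) (z : ZFSet.{0}) :
    Ez (π b) (π c) z ↔ ∃ y ∈ X, Ez b c y ∧ π y = z := by
  obtain ⟨-, ⟨hV, hV'⟩, hk, hk'⟩ := hcol_par hX hc hb
  constructor
  · rintro ⟨n, x, hx, m, hm, w, hw, h1, rfl⟩
    rw [← hV'] at hx
    rw [← hk'] at hm hw
    obtain ⟨x, hxX, hx2, rfl⟩ := (hc.mos _ hV x).1 hx
    obtain ⟨m, hmX, hm2, rfl⟩ := (hc.mos _ hk m).1 hm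
    obtain ⟨w, hwX, hw2, rfl⟩ := (hc.mos _ hk w).1 hw
    have h2 := cl_pair hX hmX hcX
    have h3 := cl_pair hX hxX h2
    rw [← hc.pr m hmX c hcX, ← hc.pr x hxX _ h2, ← hc.B n _ h3] at h1
    have h4 := hc.inj _ (hX.B n _ h3) _ hwX h1
    have h5 := cl_pair hX hxX hmX
    have h6 := cl_pair hX (hn n).1 h5
    refine ⟨ZFSet.pair (ZFSet.pair (zn n) (ZFSet.pair x m)) w, cl_pair hX h6 hwX,
      ⟨n, x, hx2, m, hm2, w, hw2, h4, rfl⟩, ?_⟩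
    rw [hc.pr _ h6 w hwX, hc.pr _ (hn n).1 _ h5, hc.pr x hxX m hmX, (hn n).2]
  · rintro ⟨_, hy, ⟨n, x, hx, m, hm, w, hw, h1, rfl⟩, rfl⟩
    have hwX := cl_r hX hy
    have h6 := cl_l hX hy
    have h5 := cl_r hX h6
    have hxX := cl_l hX h5
    have hmX := cl_r hX h5
    have h2 := cl_pair hX hmX hcX
    have h3 := cl_pair hX hxX h2
    refine ⟨n, π x, ?_, π m, ?_, π w, ?_, ?_, ?_⟩
    · rw [← hV']
      exact (hc.mem x hxX _ hV).1 hx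
    · rw [← hk']
      exact (hc.mem m hmX _ hk).1 hm
    · rw [← hk']
      exact (hc.mem w hwX _ hk).1 hw
    · rw [← hc.pr m hmX c hcX, ← hc.pr x hxX _ h2, ← hc.B n _ h3, h1]
    · rw [hc.pr _ h6 w hwX, hc.pr _ (hn n).1 _ h5, hc.pr x hxX m hmX, (hn n).2]

theorem comm (hX : Cls X) (hs : X ⊆ L Ω) (hc : Cnd X τ π) {b : ZFSet.{0}} (hb : b ∈ X) {i : Set.Iio κ}
    {A q E : Set.Iio κ → ZFSet.{0}} (h : IsH b i A q E) (hn : ∀ n : ℕ, zn n ∈ X ∧ π (zn n) = zn n)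
    (hi : ∀ j : Set.Iio κ, j < i → j.1.toZFSet ∈ X ∧ π j.1.toZFSet = j.1.toZFSet)
    (hA : ∀ j, j < i → A j ∈ X) (hq : ∀ j, j < i → q j ∈ X) (hE : ∀ j, j < i → E j ∈ X) :
    IsH (π b) i (fun j => π (A j)) (fun j => π (q j)) (fun j => π (E j)) := by
  obtain ⟨⟨hN, hN'⟩, -, -⟩ := hcol_par hX hc hb
  have hp : ∀ j, j < i → ZFSet.pair j.1.toZFSet (A j) ∈ X := fun j hj =>
    cl_pair hX (hi j hj).1 (hA j hj)
  have hp' : ∀ j, j < i → π (ZFSet.pair j.1.toZFSet (A j)) = ZFSet.pair j.1.toZFSet (π (A j)) :=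
    fun j hj => by rw [hc.pr _ (hi j hj).1 _ (hA j hj), (hi j hj).2]
  refine ⟨fun j hj z => ?_, fun j hj => ?_, fun j hj z => ?_⟩
  · have key : ∀ l, l < j → ZFSet.pair l.1.toZFSet (ZFSet.pair (q l) (E l)) ∈ X ∧
        π (ZFSet.pair l.1.toZFSet (ZFSet.pair (q l) (E l))) =
          ZFSet.pair l.1.toZFSet (ZFSet.pair (π (q l)) (π (E l))) := fun l hl => by
      have hl' := hl.trans hj
      have h1 := cl_pair hX (hq l hl') (hE l hl')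
      refine ⟨cl_pair hX (hi l hl').1 h1, ?_⟩
      rw [hc.pr _ (hi l hl').1 _ h1, hc.pr _ (hq l hl') _ (hE l hl'), (hi l hl').2]
    rw [hc.mos (A j) (hA j hj) z]
    constructor
    · rintro ⟨y, -, hy, rfl⟩
      obtain ⟨l, hl, rfl⟩ := (h.hA j hj y).1 hy
      exact ⟨l, hl, (key l hl).2⟩
    · rintro ⟨l, hl, rfl⟩
      exact ⟨_, (key l hl).1, (h.hA j hj _).2 ⟨l, hl, rfl⟩, (key l hl).2⟩
  · show π (q j) = _
    rw [h.hq j hj, hc.ap hX hs hN (hp j hj), hN', hp' j hj]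
  · rw [hc.mos (E j) (hE j hj) z, ← hp' j hj, ← hc.pr b hb _ (hp j hj),
      hcol_Ez hX hc hb (cl_pair hX hb (hp j hj)) hn z]
    constructor
    · rintro ⟨y, hy, hy', rfl⟩
      exact ⟨y, hy, (h.hE j hj y).1 hy', rfl⟩
    · rintro ⟨y, hy, hy', rfl⟩
      exact ⟨y, hy, (h.hE j hj y).2 hy', rfl⟩

end LCA
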