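import Pool.Agent.LCA.HPsl

/-! # The chain lemma, case 1

(problem MP_328cd5_lc; architect helper18; section 6, case 1 of /team-store/COD_h51.md)

`b = bb h.pk st sj par`, `ŵ = w.1.toZFSet = cz δ w`; `i ≤ m0` a limit, `l > m0` a limit level.

`l̂ ∈ Xh b A j1 m1` for some `j1 < i`, `m0 ≤ m1 < l`. `Sl = S l`. `hpar`: the codes of `f`, `PtF`, `FVF`, `MSF` are in every closed subset of `L Ω` which contains `b`. `uni`, `zet` are in `HUni.lean`, `psi_le` in `HPsl.lean` (`ζ` from `zet`).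

PROOF.
* `case1`, first part: let `y < ζ`: `ŷ ∈ Xh b A j' l`, `j' < i`: `y` is `B n (pair x (pair l̂ (cc b j' (A j'))))`, `x ∈ L l.1`, so `x ∈ L e0.1` for some `e0 < l` (`U_lim`, `lim_of_cd`). `j := max j' j1 < i`, `e := max e0 m1`. Let `m ∈ Sl`, `e ≤ m`: `Xh b A j1 m1 ⊆ Xh b A j m` (`Xh_mono`; `j < i ≤ m0 ≤ m1 ≤ m`), so `l̂ ∈ Xh b A j m`;
  `cc b j' (A j') ∈ Xh b A j m` (`Xh_c` or `cc_mem`); `x ∈ L m.1`; so `ŷ ∈ Xh b A j m` (`Cls.B`, `cl_pair`), the code of `f (l, (y, m))` is in `Xh b A j m` (`hpar`, `Xh_b`, `Xh_m`, `cl_mk`, `cl_app`), and it is `< nx m` (`hf`), so `< GG δ (E j) m` (`Xh_lt`).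
* second part: `hFam` for `ζ`, `b'`, `i` gives `e1 < l`; for `m ∈ Sl`, `m ≥ max e1 m0`: `GG δ (E j) m ≤ psi δ b' i m < f (l, (ζ, m))`. -/

set_option autoImplicit false

universe u v w x

namespace LCA

open STP LGr WCal WM LBB COD

variable {δ κ : Ordinal.{0}} [hG : GM δ] [hκ : Fact (κ < δ)] [h0 : Fact (0 < κ)]
  {T : Type w} [WTy (L δ) T] {P : Type x} [WTy (L δ) P]
  {h : MahM δ κ} {st : Fn (L δ) (Set.Iio κ × HH δ κ T) T} {sj : Fn (L δ) (Set.Iio κ × Set.Iio κ) (Set.Iio κ)}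
  {par : P} {Ω : Ordinal.{0}} {q : Set.Iio κ → T} {E : Set.Iio κ → EE δ κ} {A : Set.Iio κ → HH δ κ T}

theorem case1 (S : Sq Ω (bb h.pk st sj par) st q E A) (hsj : Sj sj) {m0 i l : Set.Iio κ} (hi : i ≤ m0)
    (hlim : Lim (L δ) i) (hl : LL (L δ) l) (hml : m0 < l)
    {f : Fn (L δ) (Set.Iio κ × (Set.Iio κ × Set.Iio κ)) (Set.Iio κ)}
    (hpar : ∀ X : Set ZFSet.{0}, Cls X → X ⊆ L Ω → bb h.pk st sj par ∈ X →
      cz δ f ∈ X ∧ cz δ (PtF h.pk) ∈ X ∧ cz δ (FVF δ κ) ∈ X ∧ cz δ (MSF δ κ) ∈ X)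
    {Sl : St (L δ) (Set.Iio κ)} (hSl : ∀ m, m ∈ Sl → m < l ∧ Cd (L δ) m)
    (hf : ∀ y, y < nx (L δ) l → ∀ m, m ∈ Sl → f (l, (y, m)) < nx (L δ) m)
    (hFam : ∀ z, z < nx (L δ) l → ∀ b' : L κ, b'.1 ∈ L (bt δ l z).1 → ∀ i', i' < l →
      Ev (L δ) l Sl (fun m => psi δ b' i' m < nx (L δ) m → psi δ b' i' m < f (l, (z, m))))
    {j1 m1 : Set.Iio κ} (hj1 : j1 < i) (hm1 : m0 ≤ m1) (hm1l : m1 < l) (hm1c : Cd (L δ) m1)
    (hlX : l.1.toZFSet ∈ Xh (bb h.pk st sj par) A j1 m1) :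
    ∃ z, z < nx (L δ) l ∧ (∀ y, y < z → ∃ j, j < i ∧ Ev (L δ) l Sl (fun m => f (l, (y, m)) < GG δ (E j) m)) ∧
      Ev (L δ) l Sl (fun m => ∀ j, j < i → GG δ (E j) m ≤ f (l, (z, m))) := by
  have hil : i < l := lt_of_le_of_lt hi hml
  obtain ⟨ζ, hζ, hz⟩ := zet (h := h) S hsj hi hl hml
  refine ⟨ζ, hζ, fun y hy => ?_, ?_⟩
  · have hyl : y < nx (L δ) l := hy.trans hζ
    obtain ⟨j', hj', n, x, hx, hB⟩ := (hz y hyl).2 hy
    obtain ⟨β, hβ, hxβ⟩ := (U_lim F0 (lim_of_cd h hl.1)).1 hx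
    have he0 : (⟨β, lt_trans hβ l.2⟩ : Set.Iio κ) < l := hβ
    refine ⟨max j' j1, max_lt hj' hj1, max ⟨β, lt_trans hβ l.2⟩ m1, max_lt he0 hm1l, ?_⟩
    intro m hm hem _
    have hmc : Cd (L δ) m := (hSl m hm).2
    have hβm : (⟨β, lt_trans hβ l.2⟩ : Set.Iio κ) ≤ m := (le_max_left _ _).trans hem
    have hm1m : m1 ≤ m := (le_max_right _ _).trans hem
    have him : i ≤ m := hi.trans (hm1.trans hm1m)
    have hjm : max j' j1 < m := lt_of_lt_of_le (max_lt hj' hj1) him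
    have hX := Xh_cls (b := bb h.pk st sj par) (A := A) h hmc (max j' j1)
    have hs := Xh_sub S (max j' j1) m
    have hlX' : l.1.toZFSet ∈ Xh (bb h.pk st sj par) A (max j' j1) m :=
      Xh_mono (h := h) S hm1c hmc hm1m (le_max_right _ _) hjm.le hlX
    have hcX : cc (bb h.pk st sj par) j' (A j') ∈ Xh (bb h.pk st sj par) A (max j' j1) m := by
      rcases (le_max_left j' j1).lt_or_eq with h1 | h1
      · exact (cc_mem (h := h) S hX hs (Xh_c h hmc _) (Xh_L _ m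
          ((ord_mem_L (lim_of_cd h hmc)).2 (h1.trans hjm))) h1).1
      · rw [← h1]
        exact Xh_c h hmc j'
    have hxX : x ∈ Xh (bb h.pk st sj par) A (max j' j1) m := Xh_L _ m (U_mono F0 hβm hxβ)
    have hyX : cz δ y ∈ Xh (bb h.pk st sj par) A (max j' j1) m := by
      rw [cz_K, ← hB]
      exact hX.B n _ (cl_pair hX hxX (cl_pair hX hlX' hcX))
    have hfX := (hpar _ hX hs (Xh_b h hmc _)).1
    have hv : cz δ (f (l, (y, m))) ∈ Xh (bb h.pk st sj par) A (max j' j1) m :=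
      cl_app hX hs hfX (cl_mk (x := l) hX hlX' (cl_mk (x := y) (y := m) hX hyX (Xh_m h hmc _)))
    exact ((Xh_lt (h := h) S hsj hmc (max j' j1)).2 _ (hf y hyl m hm)).1 hv
  · obtain ⟨b', hb', hpsi⟩ := psi_le (h := h) S hsj hi hlim hl hml hζ hz
      fun X hX hs hb => (hpar X hX hs hb).2
    obtain ⟨e1, he1, hev⟩ := hFam ζ hζ b' hb' i hil
    refine ⟨max e1 m0, max_lt he1 hml, fun m hm hem hml' j hj => ?_⟩
    obtain ⟨h1, h2⟩ := hpsi m (hSl m hm).2 ((le_max_right _ _).trans hem) hml'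
    exact (h2 j hj).trans (hev m hm ((le_max_left _ _).trans hem) hml' h1).le

end LCA
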