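import Pool.Agent.LCA.KReg

/-! # Almost disjoint sets

(problem MP_328cd5_lc; architect helper18)

For every level `m` the sets `b m n v` (`n < nx (nx m)`, `v : Prop`) are unbounded subsets of `θ := nx m` which consist of elements `D.p θ ⊥ y`, and different ones have bounded intersection.

PROOFS.
* Let `s : K → K → K → K` be internal such that for `n < nx t`, `t` a cardinal, `s t n` covers `Iio n` from `t` (`cov_choose`, `sur_of_lt_nx`).
* Recursion (`wfRec`, `α := K × K`, `r q p := q.1 = p.1 ∧ q.2 < p.2`, `β := Fn N K K`): `g t n α = lst N (fun y => ∀ i, i < α → s t n i < n → g t (s t n i) α < t → g t (s t n i) α < y)`. For a regular `t` and `α < t` the set contains an element `< t` (`reg_bdd` for the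
  values below `t`, `b := α`), so `g t n α < t`; and for `n' < n < nx t`, `n' = s t n i`, `i < t`: `g t n' α < g t n α` for all `α` with `i < α < t`.
* With `θ := nx N m` (`cd_nx`, `reg_nx'`), `c v := if v then sc N ⊥ else ⊥` (`< θ`): `b m n v := {x | ∃ α, α < θ ∧ x = D.p θ ⊥ (D.p θ (c v) (D.p θ α (g θ n α)))}`; internal (`IF.compr`, `IF.ite`; `IF.prop` for `v`).
* `b_lt`: `D.p_lt`. `b_unb`: if all elements are `≤ e < θ`, so `< sc e < θ`: the internal function `x ↦ D.u θ (D.v θ (D.v θ x))` maps `Iio (sc e)` onto a superset of `Iio θ`: contradiction to `Cd N θ`. (`D.up`, `D.vp`.)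
* `b_ad`: let `x` be in `b m n v` and in `b m n' v'`, with `α`, `α'`. Then `c v = c v'`, so `v = v'` (`propext`; `sc ⊥ ≠ ⊥`), `α = α'` and `g θ n α = g θ n' α`. So if `v ≠ v'` take `e := ⊥`. If `n ≠ n'`, say `n' < n`, `n' = s θ n i` with `i < θ`: then `α ≤ i`. The set of the
  `D.p θ ⊥ (D.p θ (c v) (D.p θ α (g θ n α)))` with `α < sc i` is bounded in `θ` (`reg_bdd_fn`, `sc i < θ` by `cd_sc_lt`). -/

set_option autoImplicit false

universe u v w x

namespace LCA

open WCal WM COD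

variable {N : Type u} [WM N] {K : Type v} [WTy N K] [KTy N K]

variable (N) in
private def adr (q p : K × K × K) : Prop := q.1 = p.1 ∧ q.2.1 < p.2.1

private theorem adr_wf : WellFounded (adr N (K := K)) :=
  Subrelation.wf (r := InvImage (fun x y : K => x < y) (fun p : K × K × K => p.2.1))
    (fun {_ _} h => h.2) (InvImage.wf _ wellFounded_lt)

private theorem adr_ip : IP N (fun p : (K × K × K) × (K × K × K) => adr N p.1 p.2) :=
  IP.and (IP.eq (IF.fst.comp IF.fst) (IF.fst.comp IF.snd))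
    (ip_ltK (IF.fst.comp (IF.snd.comp IF.fst)) (IF.fst.comp (IF.snd.comp IF.snd)))

/-- the recursion -/
private theorem ad_rec {s : K × K → K → K} (hs : IF N (fun p : (K × K) × K => s p.1 p.2)) :
    ∃ F : K × K × K → K, IF N F ∧ ∀ t n a, F (t, n, a) = lst N (fun y => ∀ i, i < a →
      s (t, n) i < n → F (t, s (t, n) i, a) < t → F (t, s (t, n) i, a) < y) := by
  have hG : IF N (fun p : (K × K × K) × St N ((K × K × K) × K) => lst N (fun y => ∀ i, i < p.1.2.2 →
      ∀ w, ((p.1.1, s (p.1.1, p.1.2.1) i, p.1.2.2), w) ∈ p.2 → w < p.1.1 → w < y)) := by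
    refine if_lst (P := fun (p : (K × K × K) × St N ((K × K × K) × K)) y => ∀ i, i < p.1.2.2 →
      ∀ w, ((p.1.1, s (p.1.1, p.1.2.1) i, p.1.2.2), w) ∈ p.2 → w < p.1.1 → w < y) ?_
    refine IP.all (IP.imp (ip_ltK IF.snd (IF.snd.comp (IF.snd.comp (IF.fst.comp
      (IF.fst.comp IF.fst))))) (IP.all (IP.imp ?_ (IP.imp ?_ ?_))))
    · refine IP.mem (IF.pair (IF.pair ?_ (IF.pair (IF.comp2 (h := s) hs (IF.pair ?_ ?_) ?_) ?_))
        IF.snd) ?_
      · exact IF.fst.comp (IF.fst.comp (IF.fst.comp (IF.fst.comp IF.fst)))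
      · exact IF.fst.comp (IF.fst.comp (IF.fst.comp (IF.fst.comp IF.fst)))
      · exact IF.fst.comp (IF.snd.comp (IF.fst.comp (IF.fst.comp (IF.fst.comp IF.fst))))
      · exact IF.snd.comp IF.fst
      · exact IF.snd.comp (IF.snd.comp (IF.fst.comp (IF.fst.comp (IF.fst.comp IF.fst))))
      · exact IF.snd.comp (IF.fst.comp (IF.fst.comp IF.fst))
    · exact ip_ltK IF.snd (IF.fst.comp (IF.fst.comp (IF.fst.comp (IF.fst.comp IF.fst))))
    · exact ip_ltK IF.snd (IF.snd.comp (IF.fst.comp IF.fst))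
  obtain ⟨F, hF, hrec⟩ := wfRec (adr_wf (N := N) (K := K)) (adr_ip (N := N) (K := K))
    (G := fun (p : K × K × K) (S : St N ((K × K × K) × K)) => lst N (fun y => ∀ i, i < p.2.2 →
      ∀ w, ((p.1, s (p.1, p.2.1) i, p.2.2), w) ∈ S → w < p.1 → w < y)) hG
  refine ⟨F, hF, fun t n a => ?_⟩
  have hS : IP N (fun q : (K × K × K) × K => adr N q.1 (t, n, a) ∧ F q.1 = q.2) :=
    IP.and (IP.comp2 (P := adr N) (adr_ip (N := N) (K := K)) IF.fst (IF.const (t, n, a)))
      (IP.eq (hF.comp IF.fst) IF.snd)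
  rw [hrec (t, n, a) ⟨{q | adr N q.1 (t, n, a) ∧ F q.1 = q.2}, hS⟩ (fun q => Iff.rfl)]
  congr 1
  funext y
  apply propext
  constructor
  · intro h i hi h1 h2
    exact h i hi _ ⟨⟨rfl, h1⟩, rfl⟩ h2
  · rintro h i hi w ⟨⟨_, h1⟩, h2⟩ h3
    have h4 : F (t, s (t, n) i, a) = w := h2
    rw [← h4] at h3 ⊢
    exact h i hi h1 h3

theorem exists_ad (h : Pk N K) (D : PF N K) :
    ∃ b : K → K → Prop → St N K, IF N (fun p : K × K × Prop => b p.1 p.2.1 p.2.2) ∧
      (∀ m n v x, x ∈ b m n v → x < nx N m ∧ ∃ y, y < nx N m ∧ x = D.p (nx N m) ⊥ y) ∧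
      (∀ m n v, Lv N m → n < nx N (nx N m) → ∀ e, e < nx N m → ∃ x, x ∈ b m n v ∧ e < x) ∧
      ∀ m n v n' v', Lv N m → n < nx N (nx N m) → n' < nx N (nx N m) → (n ≠ n' ∨ v ≠ v') →
        ∃ e, e < nx N m ∧ ∀ x, x ∈ b m n v → x ∈ b m n' v' → x < e := by
  have hPk : Fact (Pk N K) := ⟨h⟩
  obtain ⟨s, hs, hs'⟩ := cov_choose (N := N) (α := K) (β := K × K) (m := fun b : K × K => b.1)
    IF.fst (A := fun (b : K × K) (x : K) => x < b.2) (ip_ltK IF.snd (IF.snd.comp IF.fst))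
  obtain ⟨F, hF, hrec⟩ := ad_rec hs
  have hint : ∀ t n a, IF N (fun i : K => F (t, s (t, n) i, a)) := fun t n a =>
    hF.comp (IF.pair (IF.const t) (IF.pair (IF.comp2 (h := s) hs (IF.const (t, n)) IF.id)
      (IF.const a)))
  have hbd : ∀ m n a, a < nx N m → ∃ c, c < nx N m ∧ ∀ i, i < a → s (nx N m, n) i < n →
      F (nx N m, s (nx N m, n) i, a) < nx N m → F (nx N m, s (nx N m, n) i, a) < c := by
    intro m n a ha
    obtain ⟨c, hc, hc'⟩ := reg_bdd (reg_nx' h m) ha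
      (A := fun w => (∃ i, i < a ∧ F (nx N m, s (nx N m, n) i, a) = w) ∧ w < nx N m)
      (cov_img (cov_self a) (hint (nx N m) n a) (fun w hw => hw.1)) (fun w hw => hw.2)
    exact ⟨c, hc, fun i hi _ h2 => hc' _ ⟨⟨i, hi, rfl⟩, h2⟩⟩
  have hglt : ∀ m n a, a < nx N m → F (nx N m, n, a) < nx N m := by
    intro m n a ha
    obtain ⟨c, hc, hc'⟩ := hbd m n a ha
    rw [hrec]
    exact (lst_le hc').trans_lt hc
  have hginc : ∀ m n a i, a < nx N m → i < a → s (nx N m, n) i < n →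
      F (nx N m, s (nx N m, n) i, a) < F (nx N m, n, a) := by
    intro m n a i ha hi hsn
    obtain ⟨c, hc, hc'⟩ := hbd m n a ha
    have h1 := lst_spec (N := N) (P := fun y => ∀ i, i < a → s (nx N m, n) i < n →
      F (nx N m, s (nx N m, n) i, a) < nx N m → F (nx N m, s (nx N m, n) i, a) < y) ⟨c, hc'⟩
    rw [← hrec] at h1
    exact h1 i hi hsn (hglt m _ a ha)
  obtain ⟨c, hcI, hcT, hcF⟩ : ∃ c : Prop → K, IF N c ∧ (∀ v : Prop, v → c v = sc N ⊥) ∧
      ∀ v : Prop, ¬ v → c v = ⊥ :=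
    ⟨_, IF.ite (P := fun v : Prop => v) (f := fun _ => sc N (⊥ : K)) (g := fun _ => (⊥ : K))
      (IF.prop.1 IF.id) (IF.const _) (IF.const _), fun v hv => if_pos hv, fun v hv => if_neg hv⟩
  have hbot : ∀ m : K, ⊥ < nx N m := fun m => cd_bot_lt (cd_nx h m)
  have hclt : ∀ (m : K) v, c v < nx N m := by
    intro m v
    by_cases hv : v
    · rw [hcT v hv]
      exact cd_sc_lt h (cd_nx h m) (hbot m)
    · rw [hcF v hv]
      exact hbot m
  have hcinj : ∀ v v' : Prop, c v = c v' → v = v' := by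
    have hne : sc N (⊥ : K) ≠ ⊥ := ne_of_gt (lt_sc h ⊥)
    intro v v' he
    by_cases hv : v
    · by_cases hv' : v'
      · exact propext ⟨fun _ => hv', fun _ => hv⟩
      · rw [hcT v hv, hcF v' hv'] at he
        exact absurd he hne
    · by_cases hv' : v'
      · rw [hcF v hv, hcT v' hv'] at he
        exact absurd he.symm hne
      · exact propext ⟨fun k => absurd k hv, fun k => absurd k hv'⟩
  obtain ⟨X, hX, hXe⟩ : ∃ X : K → K → Prop → K → K,
      (IF N (fun p : K × K × Prop × K => X p.1 p.2.1 p.2.2.1 p.2.2.2)) ∧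
      ∀ m n v a, X m n v a = D.p (nx N m) ⊥ (D.p (nx N m) (c v)
        (D.p (nx N m) a (F (nx N m, n, a)))) := by
    refine ⟨fun m n v a => D.p (nx N m) ⊥ (D.p (nx N m) (c v)
        (D.p (nx N m) a (F (nx N m, n, a)))), ?_, fun _ _ _ _ => rfl⟩
    have hn : IF N (fun p : K × K × Prop × K => nx N p.1) := ifp_nx IF.fst
    have ha : IF N (fun p : K × K × Prop × K => p.2.2.2) := IF.snd.comp (IF.snd.comp IF.snd)
    refine IF.comp3 (h := D.p) D.ip hn (IF.const ⊥) (IF.comp3 (h := D.p) D.ip hn ?_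
      (IF.comp3 (h := D.p) D.ip hn ha (hF.comp (IF.pair hn (IF.pair ?_ ha)))))
    · exact hcI.comp (IF.fst.comp (IF.snd.comp IF.snd))
    · exact IF.fst.comp IF.snd
  have hYlt : ∀ m n a, a < nx N m → D.p (nx N m) a (F (nx N m, n, a)) < nx N m :=
    fun m n a ha => D.p_lt _ (cd_nx h m) _ _ ha (hglt m n a ha)
  have hZlt : ∀ m n v a, a < nx N m →
      D.p (nx N m) (c v) (D.p (nx N m) a (F (nx N m, n, a))) < nx N m :=
    fun m n v a ha => D.p_lt _ (cd_nx h m) _ _ (hclt m v) (hYlt m n a ha)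
  have hXlt : ∀ m n v a, a < nx N m → X m n v a < nx N m := by
    intro m n v a ha
    rw [hXe]
    exact D.p_lt _ (cd_nx h m) _ _ (hbot m) (hZlt m n v a ha)
  have hv1 : ∀ m n v a, a < nx N m → D.v (nx N m) (X m n v a) =
      D.p (nx N m) (c v) (D.p (nx N m) a (F (nx N m, n, a))) := by
    intro m n v a ha
    rw [hXe]
    exact D.vp _ (cd_nx h m) _ _ (hbot m) (hZlt m n v a ha)
  have hv2 : ∀ m n v a, a < nx N m → D.v (nx N m) (D.v (nx N m) (X m n v a)) =
      D.p (nx N m) a (F (nx N m, n, a)) := by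
    intro m n v a ha
    rw [hv1 m n v a ha]
    exact D.vp _ (cd_nx h m) _ _ (hclt m v) (hYlt m n a ha)
  have hXinj : ∀ m n v a n' v' a', a < nx N m → a' < nx N m → X m n v a = X m n' v' a' →
      v = v' ∧ a = a' ∧ F (nx N m, n, a) = F (nx N m, n', a') := by
    intro m n v a n' v' a' ha ha' he
    have h1 := hv1 m n v a ha
    have h1' := hv1 m n' v' a' ha'
    have h2 := hv2 m n v a ha
    have h2' := hv2 m n' v' a' ha'
    rw [he] at h1 h2
    have h3 := h1.symm.trans h1'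
    have h4 := h2.symm.trans h2'
    have h5 := congrArg (D.u (nx N m)) h3
    rw [D.up _ (cd_nx h m) _ _ (hclt m v) (hYlt m n a ha),
      D.up _ (cd_nx h m) _ _ (hclt m v') (hYlt m n' a' ha')] at h5
    have h6 := congrArg (D.u (nx N m)) h4
    rw [D.up _ (cd_nx h m) _ _ ha (hglt m n a ha),
      D.up _ (cd_nx h m) _ _ ha' (hglt m n' a' ha')] at h6
    have h7 := congrArg (D.v (nx N m)) h4
    rw [D.vp _ (cd_nx h m) _ _ ha (hglt m n a ha),
      D.vp _ (cd_nx h m) _ _ ha' (hglt m n' a' ha')] at h7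
    exact ⟨hcinj v v' h5, h6, h7⟩
  have hbI : IP N (fun q : (K × K × Prop) × K =>
      ∃ a, a < nx N q.1.1 ∧ q.2 = X q.1.1 q.1.2.1 q.1.2.2 a) := by
    refine IP.ex (IP.and (ip_ltK IF.snd (ifp_nx (IF.fst.comp (IF.fst.comp IF.fst)))) (IP.eq
      (IF.snd.comp IF.fst) (IF.comp4 (h := X) hX ?_ ?_ ?_ IF.snd)))
    · exact IF.fst.comp (IF.fst.comp IF.fst)
    · exact IF.fst.comp (IF.snd.comp (IF.fst.comp IF.fst))
    · exact IF.snd.comp (IF.snd.comp (IF.fst.comp IF.fst))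
  obtain ⟨b, hb, hb'⟩ : ∃ b : K → K → Prop → St N K,
      IF N (fun p : K × K × Prop => b p.1 p.2.1 p.2.2) ∧
      ∀ m n v x, x ∈ b m n v ↔ ∃ a, a < nx N m ∧ x = X m n v a := by
    refine ⟨fun m n v => ⟨{x | ∃ a, a < nx N m ∧ x = X m n v a}, hbI.sec (m, n, v)⟩, ?_,
      fun _ _ _ _ => Iff.rfl⟩
    exact IF.compr' hbI
  have hkey : ∀ m n n' v v', n' < n → n < nx N (nx N m) →
      ∃ e, e < nx N m ∧ ∀ x, x ∈ b m n v → x ∈ b m n' v' → x < e := by
    intro m n n' v v' hnn hn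
    obtain ⟨i, hi, hi'⟩ := hs' (nx N m, n) (sur_of_lt_nx h (cd_nx h m) hn) n' hnn
    have hi1 : i < nx N m := hi
    obtain ⟨e, he, he'⟩ := reg_bdd (reg_nx' h m) (cd_sc_lt h (cd_nx h m) hi1)
      (A := fun x => ∃ a, a < sc N i ∧ X m n v a = x)
      (cov_img (g := fun a => X m n v a) (cov_self (sc N i))
        (IF.comp4 (h := X) hX (IF.const m) (IF.const n) (IF.const v) IF.id) (fun x hx => hx))
      (by
        rintro x ⟨a, ha, rfl⟩
        exact hXlt m n v a (lt_of_le_of_lt ((lt_sc_iff h).1 ha) hi1))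
    refine ⟨e, he, fun x hx hx' => ?_⟩
    obtain ⟨a, ha, rfl⟩ := (hb' _ _ _ _).1 hx
    obtain ⟨a', ha', hxa⟩ := (hb' _ _ _ _).1 hx'
    obtain ⟨-, rfl, h3⟩ := hXinj m n v a n' v' a' ha ha' hxa
    refine he' _ ⟨a, ?_, rfl⟩
    by_contra hcon
    have h4 : i < a := by
      by_contra h5
      exact hcon ((lt_sc_iff h).2 (not_lt.1 h5))
    have h6 := hginc m n a i ha h4 (by rw [hi']; exact hnn)
    rw [hi'] at h6
    exact absurd h3 (ne_of_gt h6)
  refine ⟨b, hb, ?_, ?_, ?_⟩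
  · intro m n v x hx
    obtain ⟨a, ha, rfl⟩ := (hb' _ _ _ _).1 hx
    exact ⟨hXlt m n v a ha, _, hZlt m n v a ha, hXe m n v a⟩
  · intro m n v _ _ e he
    by_contra hcon
    push Not at hcon
    refine (cd_nx h m).2 (sc N e) (cd_sc_lt h (cd_nx h m) he) ⟨fun x =>
      D.u (nx N m) (D.v (nx N m) (D.v (nx N m) x)), ?_, fun a ha => ?_⟩
    · exact IF.comp2 (h := D.u) D.iu (IF.const _) (IF.comp2 (h := D.v) D.iv (IF.const _)
        (IF.comp2 (h := D.v) D.iv (IF.const _) IF.id))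
    · refine ⟨X m n v a, (lt_sc_iff h).2 (hcon _ ((hb' _ _ _ _).2 ⟨a, ha, rfl⟩)), ?_⟩
      show D.u (nx N m) (D.v (nx N m) (D.v (nx N m) (X m n v a))) = a
      rw [hv2 m n v a ha]
      exact D.up _ (cd_nx h m) _ _ ha (hglt m n a ha)
  · intro m n v n' v' _ hn hn' hne
    by_cases hvv : v = v'
    · rcases lt_trichotomy n n' with h1 | h1 | h1
      · obtain ⟨e, he, he'⟩ := hkey m n' n v' v h1 hn'
        exact ⟨e, he, fun x hx hx' => he' x hx' hx⟩
      · rcases hne with h2 | h2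
        · exact absurd h1 h2
        · exact absurd hvv h2
      · exact hkey m n n' v v' h1 hn
    · refine ⟨⊥, hbot m, fun x hx hx' => ?_⟩
      obtain ⟨a, ha, rfl⟩ := (hb' _ _ _ _).1 hx
      obtain ⟨a', ha', hxa⟩ := (hb' _ _ _ _).1 hx'
      exact absurd (hXinj m n v a n' v' a' ha ha' hxa).1 hvv

end LCA
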