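import Pool.Agent.LCA.KReg

/-! # Scales

(problem MP_328cd5_lc; architect helper18; section 4 of /team-store/COD_h51.md)

For every limit level `l` a sequence `f l z` (`z < nx l`) of functions on `S l` with `f l z m < nx m`, values in the given classes `W l m`, which increases modulo initial segments, dominates the given
families `Fam l z i` (`i < l`) and is cofinal (`e l z`: an enumeration of all functions).

PROOFS.
* Let `s : K → K → K → K` be internal such that for `z < nx l`, `l` a cardinal, `s l z` covers `Iio z` from `l` (`cov_choose` for `β := K × K`, `m p := p.1`, `A p x := x < p.2`; `sur_of_lt_nx`).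
* Recursion: `wfRec` (`WCal/Rec.lean`) for `α := K × K`, `r q p := q.1 = p.1 ∧ q.2 < p.2` (well-founded, internal), `β := Fn N K K`, and the step: for a history `T : St N ((K × K) × Fn N K K)`
  `Gs (l, z) T := fun m => lst N (fun y => y ∈ W l m ∧ y < nx N m ∧ ∀ i, i < m → (∀ q, q ∈ T → q.1.2 = s l z i → q.2 m < nx N m → q.2 m < y) ∧ (Fam l z i m < nx N m → Fam l z i m < y) ∧ (e l z m < nx N m → e l z m < y))`
  as an element of `Fn N K K` (`IF.lam`). Result: internal `F : K × K → Fn N K K`; `f l z m := F (l, z) m` satisfies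
  `f l z m = lst N (fun y => y ∈ W l m ∧ y < nx m ∧ ∀ i, i < m → (s l z i < z → f l (s l z i) m < nx m → f l (s l z i) m < y) ∧ (Fam ..) ∧ (e l z m < nx m → e l z m < y))`.
* The set is nonempty for `LL N l`, `m ∈ S l` (all `z`): the values `f l (s l z i) m`, `i < m`, which are `< nx m` are bounded by some `c1 < nx m` (`reg_nx'`, `reg_bdd` with `b := m`, `lt_nx`); the values `Fam l z i m` by `c2 < nx m`; `e l z m`; then `W_unb`. So `f l z m ∈ W l m`,
  `f l z m < nx m` and the domination statements hold for all `m ∈ S l` and `i < m` (`lst_spec`).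
* (F1): `y = s l z i` with `i < l`; for `m ∈ S l`, `m ≥ sc i` (`sc i < l`, `cd_sc_lt`; `lt_sc`). (F2): `F2`: `G = e l z` on `S l`, `z < nx l`; `e l z m < f l z m` for all `m ∈ S l` with `m > ⊥` (take `i := ⊥`). (F3): `m ≥ sc i`. -/

set_option autoImplicit false

universe u v w x

namespace LCA

open WCal WM COD

variable {N : Type u} [WM N] {K : Type v} [WTy N K] [KTy N K]

/-- the values allowed in the recursion -/
private def ScQ (W : K → K → St N K) (Fam : K → K → K → Fn N K K) (e : K → K → K → K)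
    (s : K × K → K → K) (p : K × K) (T : St N ((K × K) × Fn N K K)) (m y : K) : Prop :=
  y ∈ W p.1 m ∧ y < nx N m ∧ ∀ i, i < m →
    (∀ q : (K × K) × Fn N K K, q ∈ T → q.1.2 = s p i → q.2 m < nx N m → q.2 m < y) ∧
    (Fam p.1 p.2 i m < nx N m → Fam p.1 p.2 i m < y) ∧ (e p.1 p.2 m < nx N m → e p.1 p.2 m < y)

private theorem scQ_int (h : Pk N K) {W : K → K → St N K}
    (hW : IF N (fun p : K × K => W p.1 p.2)) {Fam : K → K → K → Fn N K K}
    (hFam : IF N (fun p : K × K × K => Fam p.1 p.2.1 p.2.2)) {e : K → K → K → K}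
    (he : IF N (fun p : K × K × K => e p.1 p.2.1 p.2.2)) {s : K × K → K → K}
    (hs : IF N (fun p : (K × K) × K => s p.1 p.2)) :
    IP N (fun c : (((K × K) × St N ((K × K) × Fn N K K)) × K) × K =>
      ScQ W Fam e s c.1.1.1 c.1.1.2 c.1.2 c.2) := by
  have : Fact (Pk N K) := ⟨h⟩
  unfold ScQ
  simp (maxDischargeDepth := 99) [hW.comp2, hFam.comp3, he.comp3, hs.comp2]

theorem exists_scale (h : Pk N K) {S : K → St N K} (hS : IF N S)
    (S_lt : ∀ l, LL N l → ∀ m, m ∈ S l → m < l ∧ Cd N m)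
    {W : K → K → St N K} (hW : IF N (fun p : K × K => W p.1 p.2))
    (W_unb : ∀ l m, LL N l → m ∈ S l → ∀ e, e < nx N m → ∃ y, y ∈ W l m ∧ e < y ∧ y < nx N m)
    {Fam : K → K → K → Fn N K K} (hFam : IF N (fun p : K × K × K => Fam p.1 p.2.1 p.2.2))
    {e : K → K → K → K} (he : IF N (fun p : K × K × K => e p.1 p.2.1 p.2.2))
    (he' : ∀ l, LL N l → ∀ G : Fn N K K, (∀ m, m ∈ S l → G m < nx N m) →
      ∃ z, z < nx N l ∧ ∀ m, m ∈ S l → e l z m = G m) :
    ∃ f : K → K → K → K, IF N (fun p : K × K × K => f p.1 p.2.1 p.2.2) ∧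
      (∀ l, LL N l → ∀ z m, m ∈ S l → f l z m ∈ W l m ∧ f l z m < nx N m) ∧
      (∀ l, LL N l → ∀ y z, y < z → z < nx N l → Ev N l (S l) (fun m => f l y m < f l z m)) ∧
      (∀ l, LL N l → ∀ G : Fn N K K, (∀ m, m ∈ S l → G m < nx N m) →
        ∃ z, z < nx N l ∧ Ev N l (S l) (fun m => G m ≤ f l z m)) ∧
      ∀ l, LL N l → ∀ z, z < nx N l → ∀ i, i < l →
        Ev N l (S l) (fun m => Fam l z i m < nx N m → Fam l z i m < f l z m) := by
  classical
  have : Nonempty K := ⟨⊥⟩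
  -- the enumerations of the initial segments
  obtain ⟨s, hs, hs'⟩ := cov_choose (N := N) (K := K) (α := K) (β := K × K) (m := fun p => p.1)
    IF.fst (A := fun p x => x < p.2) (ip_ltK IF.snd (IF.snd.comp IF.fst))
  -- the recursion
  have hQ := scQ_int h hW hFam he hs
  have hL : IF N (fun c : ((K × K) × St N ((K × K) × Fn N K K)) × K =>
      lst N (fun y => ScQ W Fam e s c.1.1 c.1.2 c.2 y)) :=
    if_lst (P := fun (c : ((K × K) × St N ((K × K) × Fn N K K)) × K) y =>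
      ScQ W Fam e s c.1.1 c.1.2 c.2 y) hQ
  have hr : IP N (fun pq : (K × K) × (K × K) => pq.1.1 = pq.2.1 ∧ pq.1.2 < pq.2.2) :=
    IP.and (IP.eq (IF.fst.comp IF.fst) (IF.fst.comp IF.snd))
      (ip_ltK (IF.snd.comp IF.fst) (IF.snd.comp IF.snd))
  have hwf : WellFounded (fun q p : K × K => q.1 = p.1 ∧ q.2 < p.2) :=
    Subrelation.wf (fun {a b} (hab : a.1 = b.1 ∧ a.2 < b.2) => hab.2)
      (InvImage.wf (fun p : K × K => p.2) (wellFounded_lt (α := K)))
  obtain ⟨F, hF, hF'⟩ := wfRec (N := N) (α := K × K) (β := Fn N K K) hwf hr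
    (G := fun p T => ⟨fun m => lst N (fun y => ScQ W Fam e s p T m y),
      IF.sec (f := fun (c : (K × K) × St N ((K × K) × Fn N K K)) m =>
        lst N (fun y => ScQ W Fam e s c.1 c.2 m y)) hL (p, T)⟩)
    (IF.lam (f := fun (c : (K × K) × St N ((K × K) × Fn N K K)) m =>
      lst N (fun y => ScQ W Fam e s c.1 c.2 m y)) hL)
  -- the history
  have hist : ∀ a : K × K, ∃ T : St N ((K × K) × Fn N K K), ∀ q : (K × K) × Fn N K K,
      q ∈ T ↔ (q.1.1 = a.1 ∧ q.1.2 < a.2) ∧ F q.1 = q.2 := by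
    intro a
    refine ⟨⟨{q | (q.1.1 = a.1 ∧ q.1.2 < a.2) ∧ F q.1 = q.2}, ?_⟩, fun q => Iff.rfl⟩
    exact IP.and (IP.and (IP.eq (IF.fst.comp IF.fst) (IF.const a.1))
      (ip_ltK (IF.snd.comp IF.fst) (IF.const a.2))) (IP.eq (hF.comp IF.fst) IF.snd)
  choose T hT using hist
  have hFT : ∀ a m, F a m = lst N (fun y => ScQ W Fam e s a (T a) m y) := by
    intro a m
    rw [hF' a (T a) (hT a)]
  have hsF : ∀ l z m, IF N (fun i : K => F (l, s (l, z) i) m) := by
    intro l z m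
    refine IF.app (hF.comp (IF.pair (IF.const l) ?_)) (IF.const m)
    exact IF.sec hs (l, z)
  have hFa : ∀ l z m, IF N (fun i : K => Fam l z i m) := by
    intro l z m
    refine IF.app ?_ (IF.const m)
    exact IF.comp3 (h := Fam) hFam (IF.const l) (IF.const z) IF.id
  have key : ∀ l, LL N l → ∀ z m, m ∈ S l → ScQ W Fam e s (l, z) (T (l, z)) m (F (l, z) m) := by
    intro l hl z m hm
    rw [hFT]
    refine lst_spec (P := fun y => ScQ W Fam e s (l, z) (T (l, z)) m y) ?_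
    have hreg := reg_nx' h m
    have hmn := lt_nx h m
    obtain ⟨c1, hc1, hc1'⟩ := reg_bdd hreg hmn
      (A := fun y => (∃ i, i < m ∧ F (l, s (l, z) i) m = y) ∧ y < nx N m)
      ⟨_, hsF l z m, fun y hy => hy.1⟩ (fun y hy => hy.2)
    obtain ⟨c2, hc2, hc2'⟩ := reg_bdd hreg hmn
      (A := fun y => (∃ i, i < m ∧ Fam l z i m = y) ∧ y < nx N m)
      ⟨_, hFa l z m, fun y hy => hy.1⟩ (fun y hy => hy.2)
    obtain ⟨c3, hc3, hc3'⟩ : ∃ c3, c3 < nx N m ∧ (e l z m < nx N m → e l z m ≤ c3) := by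
      by_cases hc : e l z m < nx N m
      · exact ⟨e l z m, hc, fun _ => le_rfl⟩
      · exact ⟨m, hmn, fun h' => absurd h' hc⟩
    obtain ⟨y, hyW, hy1, hy2⟩ := W_unb l m hl hm (max c1 (max c2 c3)) (max_lt hc1 (max_lt hc2 hc3))
    have g1 : c1 < y := lt_of_le_of_lt (le_max_left _ _) hy1
    have g2 : c2 < y := lt_of_le_of_lt ((le_max_left _ _).trans (le_max_right _ _)) hy1
    have g3 : c3 < y := lt_of_le_of_lt ((le_max_right _ _).trans (le_max_right _ _)) hy1
    refine ⟨y, hyW, hy2, fun i hi => ⟨?_, ?_, ?_⟩⟩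
    · intro q hq hqi hqm
      obtain ⟨⟨hq1, -⟩, hq2⟩ := (hT (l, z) q).1 hq
      have hq3 : q.1 = (l, s (l, z) i) := Prod.ext hq1 hqi
      rw [hq3] at hq2
      refine (hc1' _ ⟨⟨i, hi, ?_⟩, hqm⟩).trans g1
      rw [hq2]
    · intro hy
      exact (hc2' _ ⟨⟨i, hi, rfl⟩, hy⟩).trans g2
    · intro hy
      exact lt_of_le_of_lt (hc3' hy) g3
  refine ⟨fun l z m => F (l, z) m, ?_, ?_, ?_, ?_, ?_⟩
  · exact IF.app (hF.comp (IF.pair IF.fst (IF.fst.comp IF.snd))) (IF.snd.comp IF.snd)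
  · intro l hl z m hm
    exact ⟨(key l hl z m hm).1, (key l hl z m hm).2.1⟩
  · intro l hl y z hyz hz
    obtain ⟨i, hi, hiy⟩ := hs' (l, z) (sur_of_lt_nx h hl.1 hz) y hyz
    refine ⟨sc N i, cd_sc_lt h hl.1 hi, fun m hm hem _ => ?_⟩
    have him : i < m := lt_of_lt_of_le (lt_sc h i) hem
    have h1 := ((key l hl z m hm).2.2 i him).1 ((l, y), F (l, y))
      ((hT (l, z) _).2 ⟨⟨rfl, hyz⟩, rfl⟩) hiy.symm (key l hl y m hm).2.1
    exact h1
  · intro l hl G hG
    obtain ⟨z, hz, hz'⟩ := he' l hl G hG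
    refine ⟨z, hz, ⊥, cd_bot_lt hl.1, fun m hm _ _ => ?_⟩
    have h1 := ((key l hl z m hm).2.2 ⊥ (cd_bot_lt (S_lt l hl m hm).2)).2.2
    have h2 : e l z m = G m := hz' m hm
    have h3 : e l z m < F (l, z) m := h1 (by
      change e l z m < nx N m
      rw [h2]
      exact hG m hm)
    rw [h2] at h3
    exact le_of_lt h3
  · intro l hl z hz i hi
    refine ⟨sc N i, cd_sc_lt h hl.1 hi, fun m hm hem _ hfm => ?_⟩
    have him : i < m := lt_of_lt_of_le (lt_sc h i) hem
    exact ((key l hl z m hm).2.2 i him).2.1 hfm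

end LCA
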