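import Pool.Agent.LCA.KReg

/-! # Cofinality

(problem MP_328cd5_lc; architect helper18)

`Cfm N a b`: an internal map of the elements below `b` into `a` which is cofinal. `cf N a`: the least such `b`.

PROOFS.
* `cfm_self`: identity. `cf_le`, `cf_le_of`: `lst_le`. `cf_spec`: `lst_spec`.
* `cd_cf`: let `b := cf a` with the cofinal `F`. `Iio b` infinite: otherwise the set `{F x | x < b}` is finite; if it is empty then `⊥ < a` gives a contradiction (`y := ⊥`), otherwise let `c < a` be its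
  maximum, `sc c < a` (`cd_sc_lt`), and no `F x` is `≥ sc c`. If `b' < b` and `G` is internal and maps `Iio b'` onto a superset of `Iio b`, then `fun x => if G x < b then F (G x) else ⊥` shows `Cfm a b'`, contradiction to `cf_le_of`.
* `cfm_bdd`: by definition (negation): if `b < cf a` and `G` is internal with `G x < a` for `x < b` then there is `c < a` with `G x < c` for all `x < b` (else `Cfm a b`).
* `reg_iff_cf`: `→`: if `b := cf a < a` then `Reg` gives `c < a` with `F x < c` for all `x < b`, contradiction to the cofinality of `F` for `y := c`; so `cf a = a` by `cf_le`. `←`: `cfm_bdd`.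
* `exists_cof`: `F` from `cf_spec`. `wfRec` (relation `<` on `K`, `β := K`, `G x T := lst N (fun z => cf N l < z ∧ F x ≤ z ∧ ∀ q, q ∈ T → q.2 < z)`) gives an internal `e` with `e x = lst N (fun z => cf l < z ∧ F x ≤ z ∧ ∀ y, y < x → e y < z)`
  (apply it to the set of all `(y, e y)`, `y < x`). By induction on `x < cf l`: `e x < l`: `cfm_bdd` for `x < cf l` and `G := e` gives `c < l` with `e y < c` for `y < x`; `cf l < l` (`reg_iff_cf`, `cf_le`), `F x < l`; a common bound below `l`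
  (`sc (max ...)`, `cd_sc_lt`). So the set in the definition of `e x` is nonempty (contains an element below `l`), and `lst_spec`.
* `exists_cof'`: uniformly in `l`: `choice'` for the internal predicate of `(l, E)` 'the properties in `exists_cof`' (`E : Fn N K K`; `cf N l` is an internal function of `l`: `if_cf`). -/

set_option autoImplicit false

universe u v w x

namespace LCA

open WCal WM COD

section

variable (N : Type u) [WM N] {K : Type v} [WTy N K] [KTy N K]

/-- there is a cofinal map from `b` into `a` -/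
def Cfm (a b : K) : Prop := ∃ F : Fn N K K, (∀ x, x < b → F x < a) ∧ ∀ y, y < a → ∃ x, x < b ∧ y ≤ F x

/-- the cofinality -/
noncomputable def cf (a : K) : K := lst N (fun b => Cfm N a b)

end

variable {N : Type u} [WM N] {K : Type v} [WTy N K] [KTy N K] {β : Type x} [WTy N β]

@[simp] theorem ip_Cfm {f g : β → K} (hf : IF N f) (hg : IF N g) : IP N (fun b => Cfm N (f b) (g b)) := by
  unfold Cfm
  simp (maxDischargeDepth := 99) [hf.comp, hg.comp]

@[simp] theorem if_cf {f : β → K} (hf : IF N f) : IF N (fun b => cf N (f b)) :=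
  if_lst (P := fun b y => Cfm N (f b) y) (ip_Cfm (hf.comp IF.fst) IF.snd)

theorem cfm_self (a : K) : Cfm N a a :=
  ⟨⟨fun x => x, IF.id⟩, fun _ hx => hx, fun y hy => ⟨y, hy, le_rfl⟩⟩

theorem cf_le (a : K) : cf N a ≤ a :=
  lst_le (P := fun b => Cfm N a b) (cfm_self a)

theorem cf_le_of {a b : K} (h : Cfm N a b) : cf N a ≤ b :=
  lst_le (P := fun b => Cfm N a b) h

theorem cf_spec (a : K) : Cfm N a (cf N a) :=
  lst_spec (P := fun b => Cfm N a b) ⟨a, cfm_self a⟩

theorem cfm_bdd {a b : K} (hb : b < cf N a) {G : K → K} (hG : IF N G) (hlt : ∀ x, x < b → G x < a) :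
    ∃ c, c < a ∧ ∀ x, x < b → G x < c := by
  by_contra hcon
  refine absurd hb (not_lt.2 (cf_le_of ⟨⟨G, hG⟩, hlt, fun y hy => ?_⟩))
  by_contra hx
  refine hcon ⟨y, hy, fun x hxb => ?_⟩
  by_contra hxy
  exact hx ⟨x, hxb, not_lt.1 hxy⟩

theorem cd_cf (h : Pk N K) {a : K} (ha : Cd N a) : Cd N (cf N a) := by
  obtain ⟨F, hF1, hF2⟩ := cf_spec (N := N) a
  have hbot := cd_bot_lt ha
  refine ⟨fun hfin => ?_, fun b' hb' hcov => ?_⟩
  · by_cases hne : (Set.Iio (cf N a)).Nonempty
    · obtain ⟨x0, hx0, hmax⟩ := Set.exists_max_image (Set.Iio (cf N a)) (fun x => F x) hfin hne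
      obtain ⟨x, hx, hx'⟩ := hF2 (sc N (F x0)) (cd_sc_lt h ha (hF1 x0 hx0))
      exact absurd (lt_of_lt_of_le (lt_sc h (F x0)) (hx'.trans (hmax x hx))) (lt_irrefl _)
    · obtain ⟨x, hx, -⟩ := hF2 ⊥ hbot
      exact hne ⟨x, hx⟩
  · obtain ⟨G, hG, hG'⟩ := hcov
    obtain ⟨F', hF', hF0⟩ : ∃ F' : K → K, IF N F' ∧
        ∀ z, (G z < cf N a → F' z = F (G z)) ∧ (¬ G z < cf N a → F' z = ⊥) :=
      ⟨_, IF.ite (ip_ltK hG (IF.const (cf N a))) (F.int.comp hG) (IF.const (⊥ : K)),
        fun z => ⟨fun hz => if_pos hz, fun hz => if_neg hz⟩⟩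
    refine absurd hb' (not_lt.2 (cf_le_of ⟨⟨F', hF'⟩, fun z _ => ?_, fun y hy => ?_⟩))
    · change F' z < a
      by_cases hz : G z < cf N a
      · rw [(hF0 z).1 hz]
        exact hF1 _ hz
      · rw [(hF0 z).2 hz]
        exact hbot
    · obtain ⟨x, hx, hyx⟩ := hF2 y hy
      obtain ⟨z, hz, rfl⟩ := hG' x hx
      refine ⟨z, hz, ?_⟩
      change y ≤ F' z
      rw [(hF0 z).1 hx]
      exact hyx

theorem reg_iff_cf {a : K} (ha : Cd N a) : Reg N a ↔ cf N a = a := by
  constructor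
  · intro hr
    by_contra hne
    obtain ⟨F, h1, h2⟩ := cf_spec (N := N) a
    obtain ⟨c, hc, hc'⟩ := hr.2 (cf N a) (lt_of_le_of_ne (cf_le a) hne) F h1
    obtain ⟨x, hx, hx'⟩ := h2 c hc
    exact absurd (hc' x hx) (not_lt.2 hx')
  · intro he
    refine ⟨ha, fun b hb F hF => cfm_bdd ?_ F.int hF⟩
    rw [he]
    exact hb

private theorem cof_G (l : K) (F : Fn N K K) :
    IF N (fun p : K × St N (K × K) => lst N (fun z => cf N l < z ∧ F p.1 ≤ z ∧
      ∀ q : K × K, q ∈ p.2 → q.2 < z)) := by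
  refine if_lst (P := fun (p : K × St N (K × K)) z => cf N l < z ∧ F p.1 ≤ z ∧
      ∀ q : K × K, q ∈ p.2 → q.2 < z) ?_
  refine IP.and (ip_ltK (IF.const _) IF.snd) (IP.and ?_ (IP.all (IP.imp ?_ ?_)))
  · exact ip_leK (F.int.comp (IF.fst.comp IF.fst)) IF.snd
  · exact IP.mem IF.snd (IF.snd.comp (IF.fst.comp IF.fst))
  · exact ip_ltK (IF.snd.comp IF.snd) (IF.snd.comp IF.fst)

theorem exists_cof (h : Pk N K) {l : K} (hl : LL N l) (hr : ¬ Reg N l) :
    ∃ e : K → K, IF N e ∧ (∀ x, x < cf N l → cf N l < e x ∧ e x < l) ∧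
      (∀ x y, x < y → y < cf N l → e x < e y) ∧ ∀ y, y < l → ∃ x, x < cf N l ∧ y ≤ e x := by
  have hbl : cf N l < l := lt_of_le_of_ne (cf_le l) fun he => hr ((reg_iff_cf hl.1).2 he)
  obtain ⟨F, hF1, hF2⟩ := cf_spec (N := N) l
  obtain ⟨e, he, he'⟩ := wfRec (N := N) (α := K) (β := K) (r := fun x y => x < y)
    wellFounded_lt KTy.ip_lt
    (G := fun x T => lst N (fun z => cf N l < z ∧ F x ≤ z ∧ ∀ q : K × K, q ∈ T → q.2 < z))
    (cof_G l F)
  have hrec : ∀ x, e x = lst N (fun z => cf N l < z ∧ F x ≤ z ∧ ∀ y, y < x → e y < z) := by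
    intro x
    have hS : IP N (fun q : K × K => q.1 < x ∧ e q.1 = q.2) :=
      IP.and (ip_ltK IF.fst (IF.const x)) (IP.eq (he.comp IF.fst) IF.snd)
    rw [he' x ⟨{q | q.1 < x ∧ e q.1 = q.2}, hS⟩ fun q => Iff.rfl]
    congr 1
    funext z
    refine propext (and_congr_right fun _ => and_congr_right fun _ => ?_)
    constructor
    · intro hq y hy
      exact hq (y, e y) ⟨hy, rfl⟩
    · rintro hq ⟨y, w⟩ ⟨hy, hw⟩
      change e y = w at hw
      change w < z
      rw [← hw]
      exact hq y hy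
  have key : ∀ x, x < cf N l → e x < l ∧ cf N l < e x ∧ F x ≤ e x ∧ ∀ y, y < x → e y < e x := by
    intro x
    induction x using (wellFounded_lt (α := K)).induction with
    | _ x ih =>
      intro hx
      obtain ⟨c, hc, hc'⟩ := cfm_bdd hx he fun y hy => (ih y hy (lt_trans hy hx)).1
      have hzl := cd_sc_lt h hl.1 (max_lt (max_lt hbl (hF1 x hx)) hc)
      have hz := lt_sc h (max (max (cf N l) (F x)) c)
      have hQ : cf N l < sc N (max (max (cf N l) (F x)) c) ∧
          F x ≤ sc N (max (max (cf N l) (F x)) c) ∧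
          ∀ y, y < x → e y < sc N (max (max (cf N l) (F x)) c) := by
        refine ⟨lt_of_le_of_lt ((le_max_left _ _).trans (le_max_left _ _)) hz,
          ((le_max_right _ _).trans (le_max_left _ _)).trans hz.le, fun y hy => ?_⟩
        exact (hc' y hy).trans (lt_of_le_of_lt (le_max_right _ _) hz)
      have h1 := lst_spec (N := N)
        (P := fun z => cf N l < z ∧ F x ≤ z ∧ ∀ y, y < x → e y < z) ⟨_, hQ⟩
      have h2 := lst_le (N := N)
        (P := fun z => cf N l < z ∧ F x ≤ z ∧ ∀ y, y < x → e y < z) hQ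
      rw [← hrec x] at h1 h2
      exact ⟨lt_of_le_of_lt h2 hzl, h1⟩
  refine ⟨e, he, fun x hx => ⟨(key x hx).2.1, (key x hx).1⟩,
    fun x y hxy hy => (key y hy).2.2.2 x hxy, fun y hy => ?_⟩
  obtain ⟨x, hx, hx'⟩ := hF2 y hy
  exact ⟨x, hx, hx'.trans (key x hx).2.2.1⟩

theorem exists_cof' (h : Pk N K) : ∃ e : K → K → K, IF N (fun p : K × K => e p.1 p.2) ∧ ∀ l, LL N l → ¬ Reg N l →
    (∀ x, x < cf N l → cf N l < e l x ∧ e l x < l) ∧
      (∀ x y, x < y → y < cf N l → e l x < e l y) ∧ ∀ y, y < l → ∃ x, x < cf N l ∧ y ≤ e l x := by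
  have hP : IP N (fun p : K × Fn N K K =>
      (∀ x, x < cf N p.1 → cf N p.1 < p.2 x ∧ p.2 x < p.1) ∧
      (∀ x y, x < y → y < cf N p.1 → p.2 x < p.2 y) ∧
      ∀ y, y < p.1 → ∃ x, x < cf N p.1 ∧ y ≤ p.2 x) := by
    simp (maxDischargeDepth := 99)
  obtain ⟨E, hE, hE'⟩ := choice' (P := fun (l : K) (E : Fn N K K) =>
      (∀ x, x < cf N l → cf N l < E x ∧ E x < l) ∧
      (∀ x y, x < y → y < cf N l → E x < E y) ∧
      ∀ y, y < l → ∃ x, x < cf N l ∧ y ≤ E x) hP (⟨fun _ => ⊥, IF.const ⊥⟩ : Fn N K K)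
  refine ⟨fun l x => E l x, IF.app (hE.comp IF.fst) IF.snd, fun l hl hr => ?_⟩
  obtain ⟨e, he, h1⟩ := exists_cof h hl hr
  exact hE' l ⟨⟨e, he⟩, h1⟩

end LCA
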