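import Pool.Agent.LCA.KClub
import Pool.Agent.LCA.KCf

/-! # The cofinal sets `S l` and the labels

(problem MP_328cd5_lc; architect helper18; section 3 of /team-store/COD_h51.md)

`l` regular: `S l = {c⁺ | c ∈ C l}`, label `sc ⊥`; `l` singular: `S l = {(e l x)⁺ | x < cf l}` with `e l` strictly increasing and cofinal, values above `cf l`; label `cf l`.

PROOFS.
* `e` from `exists_cof'` (`KCf.lean`). `S l := {m | (Reg N l ∧ ∃ c, c ∈ C l ∧ m = nx N c) ∨ (¬ Reg N l ∧ ∃ x, x < cf N l ∧ m = nx N (e l x))}`, `lab l := if Reg N l then sc N ⊥ else cf N l` (internal: `have : Fact (Pk N K) := ⟨h⟩`, `ifp_nx`, `ip_Reg`, `if_cf`, `IF.ite`).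
  A limit level `l` with `Reg N l` is in `InE`.
* `m < l`: `ll_nx_lt`; `nl_nx`; `m ≠ ⊥`, in fact `Cd N m` (`cd_nx`). Unbounded: for `e0 < l` there is `c ∈ C l` (`Club`) or `x` (cofinal) with `e0 ≤ c` (`e0 ≤ e l x`), and `c < nx c` (`lt_nx`).
* `lab l < m`: regular: `sc ⊥ < ω ≤ m` (`om_le`, `cd_sc_lt`); singular: `cf l < e l x < nx (e l x)`. `lab l ≠ ⊥`: `cd_cf` (`cd_bot_lt`), `lt_sc`.
* KEY `sep`: `l' < l` limit levels and `Fr N l' (S l) (fun m => True)` (that is `S l ∩ l'` is unbounded in `l'`). Then `¬ Reg N l'` and (`Reg N l` or `cf l' < cf l`). Proof. If `Reg N l`: for every `x < l'` there is `m = nx c ∈ S l`, `x < m < l'` (use `sc x < l'`); also `nx x < l'`, so choose `m > nx x`, then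
  `x < c` (otherwise `m = nx c ≤ nx x`), `c < l'`. So `l'` is a limit of elements of `C l`, `l' ∈ C l` (`Club`, closed), so `l'` is not regular (`hC`). If `l` is singular: let `y0` be the least `x` with `l' ≤ e l x` (exists: cofinal, `y0 < cf l`). Every `m = nx (e l x) ∈ S l` with `m < l'` has
  `e l x < l'`, so `x < y0` (monotone: if `y0 ≤ x` then `l' ≤ e l y0 ≤ e l x`). So `F x := if nx (e l x) < l' then nx (e l x) else ⊥` shows `Cfm N l' y0`, so `cf l' ≤ y0 < cf l` (`cf_le_of`). If `l'` were regular then `cf l' = l'` (`reg_iff_cf`), so `l' ≤ y0 < cf l < e l x < l'` for an `x` with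
  `nx (e l x) < l'` (exists by `Fr`), contradiction.
* labels differ: if `Reg l`: `lab l = sc ⊥ < ω ≤ cf l' = lab l'` (`cd_cf`, `om_le`). If `l` is singular: `lab l' = cf l' < cf l = lab l`.
* `S_E`: if `l'` is regular then `Fr N l' (S l) (fun _ => True)` is false, so there is `e < l'` such that no `m ∈ S l` satisfies `e ≤ m < l'`, that is `Ev N l' (S l) (fun _ => False)`. -/

set_option autoImplicit false

universe u v w x

namespace LCA

open WCal WM COD

variable {N : Type u} [WM N] {K : Type v} [WTy N K] [KTy N K]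

theorem exists_S (h : Pk N K) {C : K → St N K} (hC : IF N C)
    (hC' : ∀ l, InE N l → Club N l (C l) ∧ ∀ c, c ∈ C l → LL N c ∧ c < l ∧ ¬ Reg N c) :
    ∃ (S : K → St N K) (lab : K → K), IF N S ∧ IF N lab ∧
      (∀ l, LL N l → ∀ m, m ∈ S l → m < l ∧ NL N m ∧ Cd N m ∧ lab l < m ∧ lab l ≠ ⊥) ∧
      (∀ l, LL N l → ∀ e, e < l → ∃ m, m ∈ S l ∧ e ≤ m) ∧
      (∀ l, InE N l → ∀ m, m ∈ S l → ∃ c, c ∈ C l ∧ m = nx N c) ∧
      (∀ l l', LL N l → LL N l' → l' < l → Fr N l' (S l) (fun _ => True) → lab l ≠ lab l') ∧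
      ∀ l l', LL N l → InE N l' → l' < l → Ev N l' (S l) (fun _ => False) := by
  have hfact : Fact (Pk N K) := ⟨h⟩
  obtain ⟨e, he, he'⟩ := exists_cof' (N := N) (K := K) h
  have hP : IP N (fun p : K × K => (Reg N p.1 ∧ ∃ c, c ∈ C p.1 ∧ p.2 = nx N c) ∨
      (¬ Reg N p.1 ∧ ∃ x, x < cf N p.1 ∧ p.2 = nx N (e p.1 x))) := by
    simp (maxDischargeDepth := 99) [hC.comp, he.comp2]
  obtain ⟨S, hS, hS'⟩ : ∃ S : K → St N K, IF N S ∧ ∀ l m, m ∈ S l ↔
      ((Reg N l ∧ ∃ c, c ∈ C l ∧ m = nx N c) ∨ (¬ Reg N l ∧ ∃ x, x < cf N l ∧ m = nx N (e l x))) :=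
    ⟨_, IF.compr (P := fun l m => (Reg N l ∧ ∃ c, c ∈ C l ∧ m = nx N c) ∨
      (¬ Reg N l ∧ ∃ x, x < cf N l ∧ m = nx N (e l x))) hP, fun l m => Iff.rfl⟩
  obtain ⟨lab, hlab, hlab1, hlab2⟩ : ∃ lab : K → K, IF N lab ∧ (∀ l, Reg N l → lab l = sc N ⊥) ∧
      ∀ l, ¬ Reg N l → lab l = cf N l :=
    ⟨_, IF.ite (ip_Reg IF.id) (IF.const (sc N ⊥)) (if_cf IF.id), fun l h => if_pos h,
      fun l h => if_neg h⟩
  have hscom : sc N (⊥ : K) < nx N ⊥ := cd_sc_lt h (cd_nx h ⊥) (lt_nx h ⊥)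
  -- the key fact
  have key : ∀ l l', LL N l → LL N l' → l' < l → Fr N l' (S l) (fun _ => True) →
      ¬ Reg N l' ∧ (Reg N l ∨ cf N l' < cf N l) := by
    intro l l' hl hl' hll hfr
    by_cases hr : Reg N l
    · obtain ⟨hclub, hC1⟩ := hC' l ⟨hl, hr⟩
      have hmem : l' ∈ C l := by
        refine hclub.2 l' hll (ne_of_gt (cd_bot_lt hl'.1)) fun x hx => ?_
        have h1 : sc N (nx N x) < l' := cd_sc_lt h hl'.1 (ll_nx_lt h hl' hx)
        obtain ⟨m, hm, h2, h3, -⟩ := hfr _ h1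
        have h4 : nx N x < m := (lt_sc h _).trans_le h2
        rcases (hS' l m).1 hm with ⟨-, c, hc, rfl⟩ | ⟨h5, -⟩
        · refine ⟨c, hc, ?_, (lt_nx h c).trans h3⟩
          by_contra hcx
          exact absurd (h4.trans_le (nx_mono h (not_lt.1 hcx))) (lt_irrefl _)
        · exact absurd hr h5
      exact ⟨(hC1 l' hmem).2.2, Or.inl hr⟩
    · obtain ⟨h1, h2, h3⟩ := he' l hl hr
      obtain ⟨y0, hy0, hy1, -⟩ : ∃ y0, y0 < cf N l ∧ l' ≤ e l y0 ∧ True := by
        obtain ⟨x, hx, hx'⟩ := h3 l' hll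
        exact ⟨x, hx, hx', trivial⟩
      have h4 : ∀ x, x < cf N l → nx N (e l x) < l' → x < y0 := by
        intro x hx hx'
        by_contra hle
        have h5 : e l y0 ≤ e l x := by
          rcases eq_or_lt_of_le (not_lt.1 hle) with h6 | h6
          · rw [h6]
          · exact (h2 y0 x h6 hx).le
        exact absurd (((hy1.trans h5).trans_lt (lt_nx h (e l x))).trans hx') (lt_irrefl _)
      have hcfm : Cfm N l' y0 := by
        have hF : IF N (fun x : K => e l x) := he.comp2 (IF.const l) IF.id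
        obtain ⟨F, hF0, hF1, hF2⟩ : ∃ F : K → K, IF N F ∧ (∀ x, nx N (e l x) < l' →
            F x = nx N (e l x)) ∧ ∀ x, ¬ nx N (e l x) < l' → F x = ⊥ :=
          ⟨_, IF.ite (ip_ltK (ifp_nx hF) (IF.const l')) (ifp_nx hF) (IF.const ⊥),
            fun x hx => if_pos hx, fun x hx => if_neg hx⟩
        refine ⟨⟨F, hF0⟩, fun x _ => ?_, fun y hy => ?_⟩
        · change F x < l'
          by_cases h5 : nx N (e l x) < l'
          · rw [hF1 x h5]
            exact h5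
          · rw [hF2 x h5]
            exact cd_bot_lt hl'.1
        · obtain ⟨m, hm, h5, h6, -⟩ := hfr y hy
          rcases (hS' l m).1 hm with ⟨h7, -⟩ | ⟨-, x, hx, rfl⟩
          · exact absurd h7 hr
          · refine ⟨x, h4 x hx h6, ?_⟩
            change y ≤ F x
            rw [hF1 x h6]
            exact h5
      have h5 : cf N l' < cf N l := (cf_le_of hcfm).trans_lt hy0
      refine ⟨fun hr' => ?_, Or.inr h5⟩
      rw [(reg_iff_cf hl'.1).1 hr'] at h5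
      obtain ⟨m, hm, -, h6, -⟩ := hfr ⊥ (cd_bot_lt hl'.1)
      rcases (hS' l m).1 hm with ⟨h7, -⟩ | ⟨-, x, hx, rfl⟩
      · exact absurd h7 hr
      · exact absurd (((h5.trans (h1 x hx).1).trans (lt_nx h _)).trans h6) (lt_irrefl _)
  refine ⟨S, lab, hS, hlab, ?_, ?_, ?_, ?_, ?_⟩
  · intro l hl m hm
    rcases (hS' l m).1 hm with ⟨hr, c, hc, rfl⟩ | ⟨hr, x, hx, rfl⟩
    · have hc1 := (hC' l ⟨hl, hr⟩).2 c hc
      rw [hlab1 l hr]
      exact ⟨ll_nx_lt h hl hc1.2.1, nl_nx h c, cd_nx h c, hscom.trans_le (nx_mono h bot_le),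
        ne_of_gt (bot_le.trans_lt (lt_sc h ⊥))⟩
    · have h1 := (he' l hl hr).1 x hx
      rw [hlab2 l hr]
      exact ⟨ll_nx_lt h hl h1.2, nl_nx h _, cd_nx h _, h1.1.trans (lt_nx h _),
        ne_of_gt (cd_bot_lt (cd_cf h hl.1))⟩
  · intro l hl e0 he0
    by_cases hr : Reg N l
    · obtain ⟨y, hy, h1, -⟩ := (hC' l ⟨hl, hr⟩).1.1 e0 he0
      exact ⟨nx N y, (hS' l _).2 (Or.inl ⟨hr, y, hy, rfl⟩), (h1.trans (lt_nx h y)).le⟩
    · obtain ⟨x, hx, h1⟩ := (he' l hl hr).2.2 e0 he0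
      exact ⟨nx N (e l x), (hS' l _).2 (Or.inr ⟨hr, x, hx, rfl⟩), (h1.trans_lt (lt_nx h _)).le⟩
  · intro l hl m hm
    rcases (hS' l m).1 hm with ⟨-, c, hc, rfl⟩ | ⟨hr, -⟩
    · exact ⟨c, hc, rfl⟩
    · exact absurd hl.2 hr
  · intro l l' hl hl' hll hfr heq
    obtain ⟨h1, h2⟩ := key l l' hl hl' hll hfr
    rw [hlab2 l' h1] at heq
    by_cases hr : Reg N l
    · rw [hlab1 l hr] at heq
      have h3 : nx N ⊥ ≤ cf N l' := om_le h (cd_cf h hl'.1)
      rw [← heq] at h3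
      exact absurd (hscom.trans_le h3) (lt_irrefl _)
    · rw [hlab2 l hr] at heq
      rcases h2 with h2 | h2
      · exact hr h2
      · rw [heq] at h2
        exact lt_irrefl _ h2
  · intro l l' hl hl' hll
    by_contra hne
    refine (key l l' hl hl'.1 hll fun e0 he0 => ?_).1 hl'.2
    by_contra hno
    refine hne ⟨e0, he0, fun m hm h1 h2 => hno ⟨m, hm, h1, h2, trivial⟩⟩

end LCA
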