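import Pool.Agent.LCA.KGap
import Pool.Agent.LCA.KSet
import Pool.Agent.LCA.KAd
import Pool.Agent.LCA.KScale
import Pool.Agent.LCA.KGch

/-! # The data of the coding

(problem MP_328cd5_lc; architect helper18; assembly of sections 3, 4 of /team-store/COD_h51.md)

PROOF of `exists_CPP`. `P : PF N K` (`exists_PF`). `C`, `hh` from `exists_gap`; `S`, `lab` from `exists_S`; `b` from `exists_ad h P`. `W l m := {y | ∃ α, α < nx N m ∧ y = P.p (nx N m) (lab l) α}` (internal). `W_unb`: if all `y ∈ W l m`, `y < nx m`, are `≤ e < nx m`: the function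
`P.v (nx m)` maps `Iio (sc e)` onto a superset of `Iio (nx m)` (`P.p_lt`, `P.vp`; `lab l < m < nx m`): contradiction to `Cd N (nx m)`. `e` from `fun_enum` (restrict: for `l` a limit level and `G` with `G m < nx m` for `m ∈ S l` apply `fun_enum` to `F x := if x ∈ S l then G x else ⊥`,
`nx m < l` for `m < l` by `ll_nx_lt`). `f` from `exists_scale`. `D := ⟨S, C, f, hh, b⟩`. `have : Fact (Pk N K) := ⟨h⟩` for internality.
* `S_sep`: `Fr N l' (S l) (fun m => m ∈ S l')` implies `Fr N l' (S l) (fun _ => True)`, so `lab l ≠ lab l'`; `f l y m = P.p (nx m) (lab l) α`, `f l' z m = P.p (nx m) (lab l') α'`, `lab l, lab l' < m < nx m`: apply `P.up`.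
* `f_b`: `f l y m = P.p (nx m) (lab l) α` with `lab l ≠ ⊥`, elements of `b m n v` are `P.p (nx m) ⊥ y'`: `P.up`.
* `guess`: `hguess H` gives `l` in `InE`, closed under `H`, and `i < l` with `Gl l i x = H x` for `x < l`; the last property of `exists_gap`.
* the remaining fields are direct. -/

set_option autoImplicit false

universe u v w x

namespace LCA

open WCal WM COD

variable {N : Type u} [WM N] {K : Type v} [WTy N K] [KTy N K]

section

variable (P : PF N K) (lab : K → K)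

/-- the classes of the values of the scale -/
private theorem ip_Wc [Fact (Pk N K)] (hlab : IF N lab) :
    IP N (fun q : (K × K) × K => ∃ α, α < nx N q.1.2 ∧ q.2 = P.p (nx N q.1.2) (lab q.1.1) α) := by
  refine IP.ex (P := fun (q : (K × K) × K) α =>
    α < nx N q.1.2 ∧ q.2 = P.p (nx N q.1.2) (lab q.1.1) α) ?_
  have hm : IF N (fun r : ((K × K) × K) × K => nx N r.1.1.2) :=
    ifp_nx (IF.snd.comp (IF.fst.comp IF.fst))
  refine IP.and (ip_ltK IF.snd hm) (IP.eq (IF.snd.comp IF.fst) ?_)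
  exact P.ip.comp (hm.pair ((hlab.comp (IF.fst.comp (IF.fst.comp IF.fst))).pair IF.snd))

end

theorem exists_CPP (h : Pk N K) (g : Gch N K) (hN : Nmh N K)
    {Gl : K → K → Fn N K K} (hG : IF N (fun p : K × K => Gl p.1 p.2))
    (hguess : ∀ H : Fn N K K, ∃ l, InE N l ∧ (∀ x, x < l → H x < l) ∧ ∃ i, i < l ∧ ∀ x, x < l → Gl l i x = H x)
    {Fam : K → K → K → Fn N K K} (hFam : IF N (fun p : K × K × K => Fam p.1 p.2.1 p.2.2)) :
    ∃ D : CPD N K, CPP D ∧ ∀ l, LL N l → ∀ z, z < nx N l → ∀ i, i < l →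
        Ev N l (D.S l) (fun m => Fam l z i m < nx N m → Fam l z i m < D.f l z m) := by
  have : Fact (Pk N K) := ⟨h⟩
  obtain ⟨P⟩ := exists_PF h
  obtain ⟨C, hh, hC, hhh, hgap⟩ := exists_gap h hN hG
  obtain ⟨S, lab, hS, hlab, S1, S2, S3, S4, S5⟩ :=
    exists_S h hC (fun l hl => ⟨(hgap l hl).1, (hgap l hl).2.1⟩)
  obtain ⟨b, hb, b1, b2, b3⟩ := exists_ad h P
  obtain ⟨e, he, he'⟩ := fun_enum h g
  obtain ⟨W, hW, hWm⟩ : ∃ W : K → K → St N K, IF N (fun p : K × K => W p.1 p.2) ∧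
      ∀ l m y, y ∈ W l m ↔ ∃ α, α < nx N m ∧ y = P.p (nx N m) (lab l) α :=
    ⟨fun l m => ⟨{y | ∃ α, α < nx N m ∧ y = P.p (nx N m) (lab l) α}, (ip_Wc P lab hlab).sec (l, m)⟩,
      IF.compr (P := fun (p : K × K) y => ∃ α, α < nx N p.2 ∧ y = P.p (nx N p.2) (lab p.1) α)
        (ip_Wc P lab hlab), fun l m y => Iff.rfl⟩
  have hlt : ∀ l, LL N l → ∀ m, m ∈ S l → lab l < nx N m := fun l hl m hm =>
    (S1 l hl m hm).2.2.2.1.trans (lt_nx h m)
  have W_unb : ∀ l m, LL N l → m ∈ S l → ∀ e, e < nx N m →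
      ∃ y, y ∈ W l m ∧ e < y ∧ y < nx N m := by
    intro l m hl hm e0 he0
    by_contra hc
    push Not at hc
    refine (cd_nx h m).2 (sc N e0) (cd_sc_lt h (cd_nx h m) he0)
      ⟨fun x => P.v (nx N m) x, P.iv.comp ((IF.const _).pair IF.id), fun α hα => ?_⟩
    have h1 := P.p_lt _ (cd_nx h m) _ _ (hlt l hl m hm) hα
    refine ⟨P.p (nx N m) (lab l) α, ?_, P.vp _ (cd_nx h m) _ _ (hlt l hl m hm) hα⟩
    rw [lt_sc_iff h]
    by_contra h2
    exact absurd h1 (not_lt.2 (hc _ ((hWm l m _).2 ⟨α, hα, rfl⟩) (not_le.1 h2)))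
  have he'' : ∀ l, LL N l → ∀ G : Fn N K K, (∀ m, m ∈ S l → G m < nx N m) →
      ∃ z, z < nx N l ∧ ∀ m, m ∈ S l → e l z m = G m := by
    classical
    intro l hl G hGm
    obtain ⟨F, hF, hF'⟩ : ∃ F : K → K, IF N F ∧ ∀ x, (x ∈ S l → F x = G x) ∧
        (x ∉ S l → F x = ⊥) :=
      ⟨fun x => if x ∈ S l then G x else ⊥,
        IF.ite (IP.mem IF.id (IF.const (S l))) G.int (IF.const ⊥),
        fun x => ⟨fun hx => if_pos hx, fun hx => if_neg hx⟩⟩
    obtain ⟨z, hz, hz'⟩ := he' l hl.1 F hF (fun x hx => by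
      by_cases hxS : x ∈ S l
      · rw [(hF' x).1 hxS]
        exact (hGm x hxS).trans (ll_nx_lt h hl hx)
      · rw [(hF' x).2 hxS]
        exact cd_bot_lt hl.1)
    exact ⟨z, hz, fun m hm => (hz' m (S1 l hl m hm).1).trans ((hF' m).1 hm)⟩
  obtain ⟨f, hf, f1, f2, f3, f4⟩ := exists_scale h hS
    (fun l hl m hm => ⟨(S1 l hl m hm).1, (S1 l hl m hm).2.2.1⟩) hW W_unb hFam he he''
  refine ⟨⟨S, C, f, hh, b⟩, ?_, f4⟩
  refine
    { iS := hS
      iC := hC
      if' := hf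
      ih := hhh
      ib := hb
      S_lt := fun l hl m hm => ⟨(S1 l hl m hm).1, (S1 l hl m hm).2.1,
        (cd_bot_lt (S1 l hl m hm).2.2.1).ne'⟩
      S_unb := S2
      S_sep := fun l l' hl hl' hlt' hFr m hm hm' y z heq => ?_
      S_E := S5
      f_lt := fun l hl y _ m hm => (f1 l hl y m hm).2
      f_b := fun l hl y _ m hm n v hmem => ?_
      F1 := f2
      F2 := f3
      C_club := fun l hl => (hgap l hl).1
      C_LL := fun l hl c hc => ⟨((hgap l hl).2.1 c hc).1, ((hgap l hl).2.1 c hc).2.1⟩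
      C_gap := fun l hl => (hgap l hl).2.2.1
      C_h := fun l hl => (hgap l hl).2.2.2.1
      S_C := S3
      guess := fun H => ?_
      b_lt := fun m n v _ _ x hx => (b1 m n v x hx).1
      b_unb := b2
      b_ad := b3 }
  · obtain ⟨α, hα, h1⟩ := (hWm l m _).1 (f1 l hl y m hm).1
    obtain ⟨α', hα', h2⟩ := (hWm l' m _).1 (f1 l' hl' z m hm').1
    have h3 : f l y m = f l' z m := heq
    rw [h1, h2] at h3
    have h4 := congrArg (P.u (nx N m)) h3
    rw [P.up _ (cd_nx h m) _ _ (hlt l hl m hm) hα,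
      P.up _ (cd_nx h m) _ _ (hlt l' hl' m hm') hα'] at h4
    refine S4 l l' hl hl' hlt' (fun e he => ?_) h4
    obtain ⟨m, k1, k2, k3, -⟩ := hFr e he
    exact ⟨m, k1, k2, k3, trivial⟩
  · obtain ⟨α, hα, h1⟩ := (hWm l m _).1 (f1 l hl y m hm).1
    obtain ⟨-, y', hy', h2⟩ := b1 m n v _ hmem
    have h3 : f l y m = P.p (nx N m) ⊥ y' := h2
    rw [h1] at h3
    have h4 := congrArg (P.u (nx N m)) h3
    rw [P.up _ (cd_nx h m) _ _ (hlt l hl m hm) hα,
      P.up _ (cd_nx h m) _ _ (cd_bot_lt (cd_nx h m)) hy'] at h4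
    exact (S1 l hl m hm).2.2.2.2 h4
  · obtain ⟨l, hl, hcl, i, hi, hgl⟩ := hguess H
    obtain ⟨e0, he0, h1⟩ := (hgap l hl).2.2.2.2 i hi fun x hx => by
      rw [hgl x hx]
      exact hcl x hx
    refine ⟨l, hl, hcl, e0, he0, fun m hm hem hml => ?_⟩
    have h2 : Gl l i m ≤ hh l m := h1 m hm hem hml
    rw [hgl m hml] at h2
    exact h2

end LCA
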