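import Pool.Agent.LBB.Sub
import Pool.Agent.LBB.Fun
import Pool.Agent.LBB.MahM
import Pool.Agent.LCA.KCPP

/-! # Hulls in the model `L δ`: definitions and first lemmas

(problem MP_328cd5_lc; architect helper18; no sorry in this file)

`K = Set.Iio κ`, model `L δ` (black box `LBB`, helper69).
* `cz δ x`: the code of an object `x` of a type of the model, as a set (`cz` of a pair is a pair, of an ordinal `x : K` is `x.1.toZFSet`, of an internal set the set of the codes, of an internal function the set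
  of pairs).
* `RR α c`: the hull of `L α` and `c`: all values `B n (x, c)`, `x ∈ L α` (`α` a limit).
* `cl_mk`, `cl_fst`, `cl_snd`, `cl_app`: closed sets are closed under pairs, components, application of typed internal functions whose code is in the set. -/

set_option autoImplicit false

universe u v w x

namespace LCA

open STP LGr WCal WM LBB COD

section

variable {δ : Ordinal.{0}} [hG : GM δ] {α : Type v} {β : Type w} [WTy (L δ) α] [WTy (L δ) β]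

variable (δ) in
/-- the code of an object, as a set -/
noncomputable def cz (x : α) : ZFSet.{0} := (cd (L δ) x).1

theorem cz_mem (x : α) : cz δ x ∈ L δ := (cd (L δ) x).2

theorem cz_inj {x y : α} : cz δ x = cz δ y ↔ x = y :=
  ⟨fun h => (cd_inj (N := L δ)).1 (Subtype.ext h), fun h => h ▸ rfl⟩

theorem cz_prod (p : α × β) : cz δ p = ZFSet.pair (cz δ p.1) (cz δ p.2) := cd_prod p

theorem cz_pair (x : α) (y : β) : cz δ (x, y) = ZFSet.pair (cz δ x) (cz δ y) := cd_prod (x, y)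

theorem cz_nat (n : ℕ) : cz δ n = zn n := nt_val n

theorem mem_cz_st {S : St (L δ) α} {z : ZFSet.{0}} : z ∈ cz δ S ↔ ∃ a, a ∈ S ∧ cz δ a = z := by
  constructor
  · intro h
    have h1 : z ∈ L δ := U_trans F0 (cd (L δ) S).2 h
    obtain ⟨a, ha, h2⟩ := (cd_st (L δ) S ⟨z, h1⟩).1 h
    exact ⟨a, ha, congrArg Subtype.val h2⟩
  · rintro ⟨a, ha, rfl⟩
    exact (cd_st (L δ) S (cd (L δ) a)).2 ⟨a, ha, rfl⟩

theorem mem_cz_fn {F : Fn (L δ) α β} {z : ZFSet.{0}} :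
    z ∈ cz δ F ↔ ∃ a, z = ZFSet.pair (cz δ a) (cz δ (F a)) := by
  constructor
  · intro h
    have h1 : z ∈ L δ := U_trans F0 (cd (L δ) F).2 h
    obtain ⟨a, h2⟩ := (cd_fn (L δ) F ⟨z, h1⟩).1 h
    refine ⟨a, ?_⟩
    have h3 := congrArg Subtype.val h2
    rwa [op_val] at h3
  · rintro ⟨a, rfl⟩
    have h3 := (cd_fn (L δ) F (op (cd (L δ) a) (cd (L δ) (F a)))).2 ⟨a, rfl⟩
    have h4 : (op (cd (L δ) a) (cd (L δ) (F a))).1 ∈ (cd (L δ) F).1 := h3
    rwa [op_val] at h4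

theorem ap_cz (F : Fn (L δ) α β) (x : α) : ap (cz δ F) (cz δ x) = cz δ (F x) := ap_cd F x

theorem cz_K {κ : Ordinal.{0}} [Fact (κ < δ)] (x : Set.Iio κ) : cz δ x = x.1.toZFSet := rfl

theorem cz_L {κ : Ordinal.{0}} [Fact (κ < δ)] (x : L κ) : cz δ x = x.1 := rfl

variable {X : Set ZFSet.{0}} {Ω : Ordinal.{0}}

theorem cl_pair (h : Cls X) {x y : ZFSet.{0}} (hx : x ∈ X) (hy : y ∈ X) : ZFSet.pair x y ∈ X := h.pr x hx y hy

theorem cl_mk (h : Cls X) {x : α} {y : β} (hx : cz δ x ∈ X) (hy : cz δ y ∈ X) : cz δ (x, y) ∈ X := by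
  rw [cz_pair]
  exact h.pr _ hx _ hy

theorem cl_l (h : Cls X) {x y : ZFSet.{0}} (hp : ZFSet.pair x y ∈ X) : x ∈ X := by
  have h1 := h.fs hp
  rwa [fs_pair] at h1

theorem cl_r (h : Cls X) {x y : ZFSet.{0}} (hp : ZFSet.pair x y ∈ X) : y ∈ X := by
  have h1 := h.sn hp
  rwa [sn_pair] at h1

theorem cl_fst (h : Cls X) {p : α × β} (hp : cz δ p ∈ X) : cz δ p.1 ∈ X := by
  rw [cz_prod] at hp
  exact cl_l h hp

theorem cl_snd (h : Cls X) {p : α × β} (hp : cz δ p ∈ X) : cz δ p.2 ∈ X := by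
  rw [cz_prod] at hp
  exact cl_r h hp

theorem cl_app (h : Cls X) (hs : X ⊆ L Ω) {F : Fn (L δ) α β} {x : α} (hF : cz δ F ∈ X) (hx : cz δ x ∈ X) :
    cz δ (F x) ∈ X := by
  rw [← ap_cz]
  exact h.ap hs hF hx

end

/-! ### The hulls -/

/-- the hull of `L α` and `c` -/
def RR (α : Ordinal.{0}) (c : ZFSet.{0}) : Set ZFSet.{0} := {y | ∃ n, ∃ x ∈ L α, B n (ZFSet.pair x c) = y}

theorem cls_RR {α : Ordinal.{0}} (hα : Order.IsSuccLimit α) (c : ZFSet.{0}) : Cls (RR α c) := by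
  obtain ⟨kf, hkf⟩ := exists_fs
  obtain ⟨ks, hks⟩ := exists_sn
  refine ⟨⟨_, 0, ∅, empty_mem_U F0 α, rfl⟩, ?_, ?_⟩
  · rintro _ ⟨m, x, hx, rfl⟩ _ ⟨n, y, hy, rfl⟩
    -- `B m (x, c)` and `B n (y, c)` from `((x, y), c)`
    obtain ⟨a, ha⟩ := exists_comp kf kf
    obtain ⟨a', ha'⟩ := exists_comp ks kf
    obtain ⟨b, hb⟩ := exists_pair a ks
    obtain ⟨b', hb'⟩ := exists_pair a' ks
    obtain ⟨d, hd⟩ := exists_comp m b
    obtain ⟨d', hd'⟩ := exists_comp n b'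
    obtain ⟨e, he⟩ := exists_pair d d'
    refine ⟨e, ZFSet.pair x y, pair_mem hα hx hy, ?_⟩
    simp only [he, hd, hd', hb, hb', ha, ha', hkf, hks, fs_pair, sn_pair]
  · rintro n _ ⟨m, x, hx, rfl⟩
    obtain ⟨k, hk⟩ := exists_comp n m
    exact ⟨k, x, hx, hk _⟩

theorem L_sub_RR {α : Ordinal.{0}} (c : ZFSet.{0}) : L α ⊆ RR α c := by
  intro x hx
  obtain ⟨k, hk⟩ := exists_fs
  exact ⟨k, x, hx, by rw [hk, fs_pair]⟩

theorem c_mem_RR (α : Ordinal.{0}) (c : ZFSet.{0}) : c ∈ RR α c := by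
  obtain ⟨k, hk⟩ := exists_sn
  exact ⟨k, ∅, empty_mem_U F0 α, by rw [hk, sn_pair]⟩

theorem RR_sub {α : Ordinal.{0}} {c : ZFSet.{0}} {X : Set ZFSet.{0}} (h : Cls X) (hX : L α ⊆ X) (hc : c ∈ X) :
    RR α c ⊆ X := by
  rintro _ ⟨n, x, hx, rfl⟩
  exact h.B n _ (h.pr _ (hX hx) _ hc)

theorem RR_sub_L {α Ω : Ordinal.{0}} {c : ZFSet.{0}} (hΩ : Order.IsSuccLimit Ω) (hα : α ≤ Ω) (hc : c ∈ L Ω) :
    RR α c ⊆ L Ω := RR_sub (cls_L hΩ) (U_mono F0 hα) hc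

/-! ### The least Mahlo cardinal -/

section

variable {δ κ : Ordinal.{0}} [hG : GM δ] [hκ : Fact (κ < δ)] [h0 : Fact (0 < κ)]

theorem _root_.LBB.MahM.pk (h : MahM δ κ) : Pk (L δ) (Set.Iio κ) := ⟨h.unb, h.reg⟩

theorem _root_.LBB.MahM.nmh (h : MahM δ κ) : Nmh (L δ) (Set.Iio κ) := h.nm

theorem _root_.LBB.MahM.mah (h : MahM δ κ) : Mah (L δ) (Set.Iio κ) := fun D h1 h2 => by
  obtain ⟨l, h3, -, h4⟩ := h.ma D h1 h2
  exact ⟨l, h3, h4⟩

theorem _root_.LBB.MahM.lim (h : MahM δ κ) : Order.IsSuccLimit κ := by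
  rw [Order.isSuccLimit_iff_of_orderBot]
  refine ⟨h0.out.ne', fun b hb => ?_⟩
  have hbκ : b < κ := hb.lt
  obtain ⟨c, hc, -⟩ := h.unb ⟨b, hbκ⟩
  exact hb.2 (show b < c.1 from hc) c.2

/-- internal limits are limits -/
theorem lim_of_Lim {a : Set.Iio κ} (ha : Lim (L δ) a) : Order.IsSuccLimit a.1 := by
  rw [Order.isSuccLimit_iff_of_orderBot]
  refine ⟨fun h => ha.1 (Subtype.ext h), fun b hb => ?_⟩
  have hba : b < a.1 := hb.lt
  obtain ⟨y, hy, hy'⟩ := ha.2 ⟨b, hba.trans a.2⟩ hba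
  exact hb.2 (show b < y.1 from hy) hy'

theorem lim_of_cd (h : MahM δ κ) {a : Set.Iio κ} (ha : Cd (L δ) a) : Order.IsSuccLimit a.1 :=
  lim_of_Lim (cd_lim h.pk ha)

end

end LCA
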