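import Pool.Agent.LCA.HSz

/-! # Subsets of levels, GCH

(problem MP_328cd5_lc; architect helper18)

PROOFS.
* `sub_L`: `a'` from `exists_lim'` (a limit, `a < a' < nx m`), `Fact (a'.1 < δ)`. `LBB.exists_sub`
for `α := a'.1` gives a limit `τ < δ` with `y ∈ L τ` and an internal surjection
`e : ℕ × List (Option (L a'.1)) → L τ`. CLAIM `τ < (nx m).1`. Suppose `(nx m).1 ≤ τ`. (1)
`Cov m (fun _ : Option (L a'.1) => True)`: from
  `sz_lim` (`a'`) by the internal function `x ↦ some ⟨x.1, _⟩` if `x.1 ∈ L a'.1`, `some ⟨∅, _⟩`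
otherwise (`IF.of_cd`, `IF.some`) with `cov_img`, and `cov_or`, `cov_of_finite` for `none`. (2)
`cov_list`, `cov_nat_prod`: `Cov m (fun _ : ℕ × List (Option (L a'.1)) => True)`.
  (3) `c : L τ → Set.Iio κ`, `c x` = the `w < nx m` with `x.1 = w.1.toZFSet` if it exists, else
`⊥`, is internal (`lst (L δ) (fun w => x.1 = w.1.toZFSet)` and `if_lst`, `ip_cdeq`). `cov_img` of
(2) along `c ∘ e`: every `w < nx m` is `c x` for `x = w.1.toZFSet ∈ L τ` (`ord_mem_L`). So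
`Sur m (nx m)`,
  contradiction to `not_sur_nx`. Take `b := ⟨τ, _⟩`.
* `gch_of`: let `a` be a cardinal, `A ⊆ Iio a`. The elements of `cz δ A` are `x.1.toZFSet`,
`x < a`, elements of `L a.1` (`mem_cz_st`, `ord_mem_L`, `lim_of_cd`). `sub_L` (`m := a`, `lt_nx`)
gives `b < nx a` with `cz δ A ∈ L b.1 ⊆ L (nx a).1`. `sz_L_nx` and `cov_img` for the internal
function
  `x : L κ ↦ {w | w.1.toZFSet ∈ x.1}` (`IF.compr`, `ip_cdmem`); its value at `cz δ A` is `A`
(`cz_inj`). -/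

set_option autoImplicit false

universe u v w x

namespace LCA

open STP LGr WCal WM LBB COD

variable {δ κ : Ordinal.{0}} [hG : GM δ] [hκ : Fact (κ < δ)] [h0 : Fact (0 < κ)]

omit h0 in
private theorem exists_cut {a : Ordinal.{0}} [ha : Fact (a < δ)] (hak : a ≤ κ) :
    ∃ g : L κ → L a, IF (L δ) g ∧ ∀ (z : ZFSet.{0}) (h1 : z ∈ L κ) (h2 : z ∈ L a),
      g ⟨z, h1⟩ = ⟨z, h2⟩ := by
  classical
  have hP : IP (L δ) (fun x : L κ => x.1 ∈ L a) :=
    IP.congr (fun x => mem_lz) (ip_set (y := lz a) (uz_mem' hG.lim ha.out))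
  have hf : IF (L δ) (fun x : L κ => @ite _ (x.1 ∈ L a) (Classical.propDecidable _) x
      (⟨∅, empty_mem_U F0 κ⟩ : L κ)) := IF.ite hP IF.id (IF.const _)
  have _ := hak
  refine ⟨fun x => if hx : x.1 ∈ L a then ⟨x.1, hx⟩ else ⟨∅, empty_mem_U F0 a⟩, ?_, ?_⟩
  · refine IF.of_cd hf fun x => ?_
    by_cases hx : x.1 ∈ L a
    · rw [dif_pos hx, if_pos hx]
      rfl
    · rw [dif_neg hx, if_neg hx]
      rfl
  · intro z h1 h2
    exact dif_pos h2

theorem sub_L (h : MahM δ κ) {m a : Set.Iio κ} (hm : Cd (L δ) m) (ha : a < nx (L δ) m) {y : ZFSet.{0}}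
    (hy : y ∈ L δ) (hs : ∀ z ∈ y, z ∈ L a.1) :
    ∃ b : Set.Iio κ, b < nx (L δ) m ∧ Order.IsSuccLimit b.1 ∧ y ∈ L b.1 := by
  obtain ⟨a', haa', -, ha'n, hlim⟩ := exists_lim' h hm ha
  have hP := h.pk
  have hfa : Fact (a'.1 < δ) := ⟨lt_trans a'.2 hκ.out⟩
  have hak : a'.1 ≤ κ := le_of_lt a'.2
  have haa : a.1 ≤ a'.1 := le_of_lt haa'
  obtain ⟨τ, hτ, hτl, -, hyτ, e, he, hes⟩ := LBB.exists_sub hlim hy
    (fun z hz => U_mono F0 haa (hs z hz))
  have claim : τ < (nx (L δ) m).1 := by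
    by_contra hcon
    rw [not_lt] at hcon
    obtain ⟨g, hg, hg'⟩ := exists_cut (δ := δ) hak
    have h1 : Cov (L δ) m (fun _ : Option (L a'.1) => True) := by
      have h2 : Cov (L δ) m (fun o : Option (L a'.1) => ∃ z, o = some z) :=
        cov_img (sz_lim h hm ha'n hlim) (IF.some hg) (by
          rintro _ ⟨z, rfl⟩
          exact ⟨⟨z.1, U_mono F0 hak z.2⟩, z.2, congrArg some (hg' z.1 _ z.2)⟩)
      have h3 : Cov (L δ) m (fun o : Option (L a'.1) => o = none) :=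
        cov_of_finite hP hm (by
          have : {x : Option (L a'.1) | x = none} = {none} := by
            ext x
            exact Iff.rfl
          rw [this]
          exact Set.finite_singleton _)
      refine cov_mono (cov_or hP hm h2 h3) le_rfl fun o _ => ?_
      cases o with
      | none => exact Or.inr rfl
      | some z => exact Or.inl ⟨z, rfl⟩
    have h2 : Cov (L δ) m (fun _ : ℕ × List (Option (L a'.1)) => True) :=
      cov_mono (cov_nat_prod hP hm (cov_list hP hm h1)) le_rfl fun _ _ _ _ => trivial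
    have hc : IF (L δ) (fun x : L τ =>
        lst (L δ) (fun w : Set.Iio κ => x.1 = w.1.toZFSet)) := by
      refine if_lst (P := fun (x : L τ) (w : Set.Iio κ) => x.1 = w.1.toZFSet) ?_
      exact IP.congr (fun p => Subtype.ext_iff) (ip_cdeq (N := L δ) (α := L τ)
        (β := Set.Iio κ))
    refine not_sur_nx hP m (cov_img h2 (hc.comp he) ?_)
    intro w hw
    have hw' : w.1 < τ := lt_of_lt_of_le (show w.1 < (nx (L δ) m).1 from hw) hcon
    obtain ⟨p, hp⟩ := hes ⟨w.1.toZFSet, (ord_mem_L hτl).2 hw'⟩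
    refine ⟨p, trivial, ?_⟩
    change lst (L δ) (fun w' : Set.Iio κ => (e p).1 = w'.1.toZFSet) = w
    rw [hp]
    have h5 := lst_spec (N := L δ) (P := fun w' : Set.Iio κ => w.1.toZFSet = w'.1.toZFSet)
      ⟨w, rfl⟩
    exact Subtype.ext (Ordinal.toZFSet_injective h5.symm)
  exact ⟨⟨τ, lt_trans claim (nx (L δ) m).2⟩, claim, hτl, hyτ⟩

theorem gch_of (h : MahM δ κ) : Gch (L δ) (Set.Iio κ) := by
  intro a ha
  have hP : IP (L δ) (fun p : L κ × Set.Iio κ => p.2.1.toZFSet ∈ p.1.1) :=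
    IP.congr (fun _ => Iff.rfl) (IP.cdmem (N := L δ) (f := fun p : L κ × Set.Iio κ => p.2)
      (g := fun p : L κ × Set.Iio κ => p.1) IF.snd IF.fst)
  have hg := IF.compr (P := fun (x : L κ) (w : Set.Iio κ) => w.1.toZFSet ∈ x.1) hP
  refine cov_img (sz_L_nx h a) hg ?_
  intro A hA
  have hl := lim_of_cd h ha
  obtain ⟨b, hb, -, hb'⟩ := sub_L h ha (lt_nx h.pk a) (y := cz δ A) (cz_mem A) (by
    intro z hz
    obtain ⟨x, hx, rfl⟩ := mem_cz_st.1 hz
    exact (ord_mem_L hl).2 (show x.1 < a.1 from hA x hx))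
  have hb1 : b.1 ≤ (nx (L δ) a).1 := le_of_lt hb
  have hb2 : (nx (L δ) a).1 ≤ κ := le_of_lt (nx (L δ) a).2
  refine ⟨⟨cz δ A, U_mono F0 (hb1.trans hb2) hb'⟩, U_mono F0 hb1 hb', ?_⟩
  refine St.ext (Set.ext fun w => ?_)
  change w.1.toZFSet ∈ cz δ A ↔ w ∈ A
  constructor
  · intro hw
    obtain ⟨x, hx, hx'⟩ := mem_cz_st.1 hw
    have h1 : x = w := cz_inj.1 hx'
    rw [← h1]
    exact hx
  · intro hw
    exact mem_cz_st.2 ⟨w, hw, rfl⟩

theorem bs_of (h : MahM δ κ) : Bs (L δ) (Set.Iio κ) := ⟨h.unb, h.reg, gch_of h⟩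

end LCA
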