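import Pool.Agent.LCA.HPsi
import Pool.Agent.LCA.HSub

/-! # The families `Fam l z` of functions to be dominated

(problem MP_328cd5_lc; architect helper18; section 4 of /team-store/COD_h51.md)

`isSr y l z`: the set of pairs `y` is a surjection `l → z`. `bt l z`: the least `β` such that a surjection `l → z` is an element of `L β`.

PROOFS.
* `ip_isSr` for `y : L κ`: all quantifiers over `L κ` (elements of `y`) and `Set.Iio κ`; `p = pair v a`: `IP.eq` in `L κ` with `if_pairL`, `if_ord` (or `IP.cdeq` for the types `L κ` and `Set.Iio κ × Set.Iio κ`: `cz_pair`). `if_bt`: `if_lst`, `ip_lev` (`LBB/ILev.lean`).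
* `bt_spec`, `bt_lt`: let `l` be a cardinal, `z < nx l`. `sur_of_lt_nx` gives an internal `F : K → K` covering `Iio z` from `l`. `y := {pair v (F v) | v < l, F v < z}` as the code of the internal set `Y := {(v, F v) | ...} : St (K × K)` (`y = cz δ Y`, `mem_cz_st`, `cz_pair`). Let `a` be a limit, `l, z < a < nx l`
  (`exists_lim'` for `max l z`); `y ⊆ L a.1` (`pair_mem`, `ord_mem_L`), `y ∈ L δ`. `sub_L` (`m := l`): `y ∈ L β`, `β < nx l`. `isSr y l z` is clear. So `bt l z ≤ β < nx l` (`lst_le`; `y` as an element of `L κ`), and `lst_spec` for `bt_spec`.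
* `exists_Fam`: for a cardinal `l` and `z < nx l`: `Cov l (fun p : L κ × K => p.1.1 ∈ L (bt l z).1 ∧ p.2 < l)`: `sz_L` (`m := l`, `a := bt l z`), `cov_self`, `cov_prod`. `cov_choose` (`KDefs.lean`, parameters `(l, z) : K × K`, the family of these sets, `IF` of `fun p => p.1`) gives an internal `e` with: every `(b, i)` with
  `b ∈ L (bt l z)`, `i < l` is `e (l, z) x` for some `x < l`. `Fam l z x := ⟨fun m => psi δ (e (l, z) x).1 (e (l, z) x).2 m, _⟩`; internal by `if_psi`, `IF.lam`. -/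

set_option autoImplicit false

universe u v w x

namespace LCA

open STP LGr WCal WM LBB COD

variable {δ κ : Ordinal.{0}} [hG : GM δ] [hκ : Fact (κ < δ)] [h0 : Fact (0 < κ)]

/-- `y` is a surjection `l → z` -/
def isSr (y : ZFSet.{0}) (l z : Set.Iio κ) : Prop :=
  (∀ p ∈ y, ∃ v a : Set.Iio κ, v < l ∧ a < z ∧ p = ZFSet.pair v.1.toZFSet a.1.toZFSet) ∧
    (∀ a, a < z → ∃ v, v < l ∧ ZFSet.pair v.1.toZFSet a.1.toZFSet ∈ y) ∧
    ∀ v a a' : Set.Iio κ, ZFSet.pair v.1.toZFSet a.1.toZFSet ∈ y → ZFSet.pair v.1.toZFSet a'.1.toZFSet ∈ y → a = a'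

variable (δ) in
/-- the least level which contains a surjection `l → z` -/
noncomputable def bt (l z : Set.Iio κ) : Set.Iio κ := lst (L δ) (fun β => ∃ y : L κ, y.1 ∈ L β.1 ∧ isSr y.1 l z)

theorem ip_isSr (h : MahM δ κ) : IP (L δ) (fun p : L κ × Set.Iio κ × Set.Iio κ => isSr p.1.1 p.2.1 p.2.2) := by
  have _ := h
  have key : IP (L δ) (fun p : L κ × Set.Iio κ × Set.Iio κ =>
      (∀ x : L κ, E (cd (L δ) x) (cd (L δ) p.1) → ∃ v : Set.Iio κ, ∃ a : Set.Iio κ,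
        v < p.2.1 ∧ a < p.2.2 ∧ cd (L δ) x = cd (L δ) (v, a)) ∧
      (∀ a : Set.Iio κ, a < p.2.2 → ∃ v : Set.Iio κ, v < p.2.1 ∧
        E (cd (L δ) (v, a)) (cd (L δ) p.1)) ∧
      ∀ v : Set.Iio κ, ∀ a : Set.Iio κ, ∀ a' : Set.Iio κ, E (cd (L δ) (v, a)) (cd (L δ) p.1) →
        E (cd (L δ) (v, a')) (cd (L δ) p.1) → a = a') := by
    refine IP.and (IP.all (IP.imp (IP.cdmem IF.snd (IF.fst.comp IF.fst)) (IP.ex (IP.ex
      (IP.and (ip_ltK ?_ ?_) (IP.and (ip_ltK ?_ ?_) (IP.cdeq ?_ (IF.pair ?_ ?_)))))))) (IP.and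
      (IP.all (IP.imp (ip_ltK ?_ ?_) (IP.ex (IP.and (ip_ltK ?_ ?_)
        (IP.cdmem (IF.pair ?_ ?_) ?_)))))
      (IP.all (IP.all (IP.all (IP.imp (IP.cdmem (IF.pair ?_ ?_) ?_)
        (IP.imp (IP.cdmem (IF.pair ?_ ?_) ?_) (IP.eq ?_ ?_)))))))
    all_goals simp (maxDischargeDepth := 99)
  refine IP.congr (fun p => ?_) key
  have hm : ∀ v a : Set.Iio κ, E (cd (L δ) (v, a)) (cd (L δ) p.1) ↔
      ZFSet.pair v.1.toZFSet a.1.toZFSet ∈ p.1.1 := by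
    intro v a
    have h1 : (cd (L δ) (v, a)).1 = ZFSet.pair v.1.toZFSet a.1.toZFSet := cz_pair (δ := δ) v a
    rw [← h1]
    exact Iff.rfl
  refine and_congr ?_ (and_congr ?_ ?_)
  · constructor
    · intro h1 x hx
      obtain ⟨v, a, hv, ha, he⟩ := h1 ⟨x, U_trans F0 p.1.2 hx⟩ hx
      refine ⟨v, a, hv, ha, ?_⟩
      have h2 := congrArg Subtype.val he
      exact h2.trans (cz_pair (δ := δ) v a)
    · intro h1 x hx
      obtain ⟨v, a, hv, ha, he⟩ := h1 x.1 hx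
      refine ⟨v, a, hv, ha, Subtype.ext ?_⟩
      exact he.trans (cz_pair (δ := δ) v a).symm
  · refine forall_congr' fun a => imp_congr_right fun _ => exists_congr fun v =>
      and_congr_right fun _ => hm v a
  · refine forall_congr' fun v => forall_congr' fun a => forall_congr' fun a' => ?_
    rw [hm v a, hm v a']

theorem if_bt (h : MahM δ κ) : IF (L δ) (fun p : Set.Iio κ × Set.Iio κ => bt δ p.1 p.2) := by
  refine if_lst (P := fun (p : Set.Iio κ × Set.Iio κ) (β : Set.Iio κ) =>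
    ∃ y : L κ, y.1 ∈ L β.1 ∧ isSr y.1 p.1 p.2) ?_
  refine IP.ex (IP.and ?_ ?_)
  · exact IP.comp2 (P := fun (α : Set.Iio κ) (x : L κ) => x.1 ∈ L α.1) ip_lev
      (IF.snd.comp IF.fst) IF.snd
  · exact IP.comp3 (h := fun (y : L κ) (l z : Set.Iio κ) => isSr y.1 l z) (ip_isSr h) IF.snd
      (IF.fst.comp (IF.fst.comp IF.fst)) (IF.snd.comp (IF.fst.comp IF.fst))

private theorem exists_sr (h : MahM δ κ) {l z : Set.Iio κ} (hl : Cd (L δ) l)
    (hz : z < nx (L δ) l) :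
    ∃ β : Set.Iio κ, β < nx (L δ) l ∧ ∃ y : L κ, y.1 ∈ L β.1 ∧ isSr y.1 l z := by
  obtain ⟨f, hf, hs⟩ := sur_of_lt_nx h.pk hl hz
  have hY : IP (L δ) (fun p : Set.Iio κ × Set.Iio κ => p ∈
      {p : Set.Iio κ × Set.Iio κ | p.1 < l ∧ p.2 < z ∧ f p.1 = p.2}) :=
    IP.and (ip_ltK IF.fst (IF.const l)) (IP.and (ip_ltK IF.snd (IF.const z))
      (IP.eq (hf.comp IF.fst) IF.snd))
  obtain ⟨a, ha1, -, ha2, ha3⟩ := exists_lim' h hl (a := max l z) (max_lt (lt_nx h.pk l) hz)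
  let Y : St (L δ) (Set.Iio κ × Set.Iio κ) := ⟨_, hY⟩
  have hYm : ∀ v b : Set.Iio κ, ZFSet.pair v.1.toZFSet b.1.toZFSet ∈ cz δ Y ↔
      v < l ∧ b < z ∧ f v = b := by
    intro v b
    have h1 : ZFSet.pair v.1.toZFSet b.1.toZFSet = cz δ (v, b) :=
      (cz_pair (δ := δ) v b).symm
    rw [h1, mem_cz_st]
    constructor
    · rintro ⟨q, hq, he⟩
      have h2 : q = (v, b) := cz_inj.1 he
      rw [h2] at hq
      exact hq
    · intro hq
      exact ⟨(v, b), hq, rfl⟩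
  obtain ⟨b, hb, -, hyb⟩ := sub_L h hl ha2 (y := cz δ Y) (cz_mem Y) (by
    intro x hx
    obtain ⟨q, hq, rfl⟩ := mem_cz_st.1 hx
    have hq' : q.1 < l ∧ q.2 < z ∧ f q.1 = q.2 := hq
    rw [cz_prod]
    refine pair_mem ha3 ((ord_mem_L ha3).2 ?_) ((ord_mem_L ha3).2 ?_)
    · exact hq'.1.trans (lt_of_le_of_lt (le_max_left _ _) ha1)
    · exact hq'.2.1.trans (lt_of_le_of_lt (le_max_right _ _) ha1))
  refine ⟨b, hb, ⟨cz δ Y, U_mono F0 (le_of_lt b.2) hyb⟩, hyb, ?_, ?_, ?_⟩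
  · intro x hx
    obtain ⟨q, hq, rfl⟩ := mem_cz_st.1 hx
    have hq' : q.1 < l ∧ q.2 < z ∧ f q.1 = q.2 := hq
    exact ⟨q.1, q.2, hq'.1, hq'.2.1, cz_prod q⟩
  · intro c hc
    obtain ⟨v, hv, hv'⟩ := hs c hc
    exact ⟨v, hv, (hYm v c).2 ⟨hv, hc, hv'⟩⟩
  · intro v c c' hc hc'
    have h1 := (hYm v c).1 hc
    have h2 := (hYm v c').1 hc'
    exact h1.2.2.symm.trans h2.2.2

theorem bt_lt (h : MahM δ κ) {l z : Set.Iio κ} (hl : Cd (L δ) l) (hz : z < nx (L δ) l) : bt δ l z < nx (L δ) l := by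
  obtain ⟨β, hβ, hy⟩ := exists_sr h hl hz
  exact lt_of_le_of_lt (lst_le hy) hβ

theorem bt_spec (h : MahM δ κ) {l z : Set.Iio κ} (hl : Cd (L δ) l) (hz : z < nx (L δ) l) :
    ∃ y : ZFSet.{0}, y ∈ L (bt δ l z).1 ∧ isSr y l z := by
  obtain ⟨β, -, hy⟩ := exists_sr h hl hz
  obtain ⟨y, hy1, hy2⟩ := lst_spec (N := L δ) (P := fun β : Set.Iio κ =>
    ∃ y : L κ, y.1 ∈ L β.1 ∧ isSr y.1 l z) ⟨β, hy⟩
  exact ⟨y.1, hy1, hy2⟩

theorem exists_Fam (h : MahM δ κ) : ∃ Fam : Set.Iio κ → Set.Iio κ → Set.Iio κ → Fn (L δ) (Set.Iio κ) (Set.Iio κ),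
    IF (L δ) (fun p : Set.Iio κ × Set.Iio κ × Set.Iio κ => Fam p.1 p.2.1 p.2.2) ∧
    ∀ l, Cd (L δ) l → ∀ z, z < nx (L δ) l → ∀ b : L κ, b.1 ∈ L (bt δ l z).1 → ∀ i, i < l →
      ∃ x, x < l ∧ ∀ m, Fam l z x m = psi δ b i m := by
  have hA : IP (L δ) (fun p : (Set.Iio κ × Set.Iio κ) × (L κ × Set.Iio κ) =>
      p.2.1.1 ∈ L (bt δ p.1.1 p.1.2).1 ∧ p.2.2 < p.1.1) := by
    refine IP.and ?_ (ip_ltK (IF.snd.comp IF.snd) (IF.fst.comp IF.fst))
    exact IP.comp2 (P := fun (α : Set.Iio κ) (x : L κ) => x.1 ∈ L α.1) ip_lev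
      ((if_bt h).comp IF.fst) (IF.fst.comp IF.snd)
  have : Nonempty (L κ × Set.Iio κ) := ⟨(⟨∅, empty_mem_U F0 κ⟩, ⊥)⟩
  obtain ⟨f, hf, hf'⟩ := cov_choose (N := L δ) (K := Set.Iio κ) (α := L κ × Set.Iio κ)
    (β := Set.Iio κ × Set.Iio κ) (m := fun p => p.1) IF.fst
    (A := fun q p => p.1.1 ∈ L (bt δ q.1 q.2).1 ∧ p.2 < q.1) hA
  have hf3 : IF (L δ) (fun r : (Set.Iio κ × Set.Iio κ × Set.Iio κ) × Set.Iio κ =>
      f (r.1.1, r.1.2.1) r.1.2.2) :=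
    IF.comp2 (h := f) hf
      (IF.pair (IF.fst.comp IF.fst) (IF.fst.comp (IF.snd.comp IF.fst)))
      (IF.snd.comp (IF.snd.comp IF.fst))
  have h1 : IF (L δ) (fun r : (Set.Iio κ × Set.Iio κ × Set.Iio κ) × Set.Iio κ =>
      psi δ (f (r.1.1, r.1.2.1) r.1.2.2).1 (f (r.1.1, r.1.2.1) r.1.2.2).2 r.2) :=
    IF.comp3 (h := fun (b : L κ) (i m : Set.Iio κ) => psi δ b i m) (if_psi h)
      (IF.fst.comp hf3) (IF.snd.comp hf3) IF.snd
  have hsec : ∀ l z x : Set.Iio κ,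
      IF (L δ) (fun m => psi δ (f (l, z) x).1 (f (l, z) x).2 m) := fun l z x =>
    IF.sec (f := fun (t : Set.Iio κ × Set.Iio κ × Set.Iio κ) m =>
      psi δ (f (t.1, t.2.1) t.2.2).1 (f (t.1, t.2.1) t.2.2).2 m) h1 (l, z, x)
  refine ⟨fun l z x => ⟨fun m => psi δ (f (l, z) x).1 (f (l, z) x).2 m, hsec l z x⟩,
    IF.lam (f := fun (t : Set.Iio κ × Set.Iio κ × Set.Iio κ) m =>
      psi δ (f (t.1, t.2.1) t.2.2).1 (f (t.1, t.2.1) t.2.2).2 m) h1, ?_⟩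
  intro l hl z hz b hb i hi
  have hc : Cov (L δ) l (fun p : L κ × Set.Iio κ => p.1.1 ∈ L (bt δ l z).1 ∧ p.2 < l) :=
    cov_prod h.pk hl (sz_L h hl (bt_lt h hl hz)) (cov_self l)
  obtain ⟨x, hx, hx'⟩ := hf' (l, z) hc (b, i) ⟨hb, hi⟩
  refine ⟨x, hx, fun m => ?_⟩
  change psi δ (f (l, z) x).1 (f (l, z) x).2 m = psi δ b i m
  rw [hx']

end LCA
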