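import Pool.Agent.LCA.HSub

/-! # The families `Gl l` for the gaps

(problem MP_328cd5_lc; architect helper18; section 3 of /team-store/COD_h51.md)

`isCl y l`: the set `y` is a club of `l` without regular cardinals. `bE l`: the least `β` such
  that such a club is an element of `L β`. `tf y`: the function coded by the set of pairs `y`.

PROOFS.
* `ip_isCl`, `if_bE`: as usual (`ip_cdmem`, `ip_ltK`, `ip_Reg`, `ip_lev` in `LBB/ILev.lean`,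
  `if_lst`).
* `bE_spec`, `bE_lt`: `h.nm l` gives a club `D` of `l` without regular elements. `y := cz δ {w |
  w ∈ D ∧ w < l}` (internal set). `y ⊆ L l.1` (`mem_cz_st`, `ord_mem_L`; `l` is a limit:
  `lim_of_cd`), `y ∈ L δ`; `sub_L` (`m := l`, `a := l`, `lt_nx`): `y ∈ L β`, `β < nx l`. `isCl y
  l`: `w.1.toZFSet ∈ y ↔ w ∈ D ∧ w < l` (`cz_inj`, `cz_K`).
* `if_tf`: `IF.lam`, `if_lst`, the predicate `pair x w ∈ y` of `(y, x, w)` is `IP.cdmem`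
  (`LBB/Typ.lean`) for the types `K × K` and `L κ` (`cz_pair`).
* `exists_Gl`: `Cov l (fun y : L κ => y.1 ∈ L (bE l).1)` for `l` in `InE` (`sz_L`, `bE_lt`);
  `cov_choose` with the parameter `l`; `Gl l i := tf (e l i)`. -/

set_option autoImplicit false

universe u v w x

namespace LCA

open STP LGr WCal WM LBB COD

variable {δ κ : Ordinal.{0}} [hG : GM δ] [hκ : Fact (κ < δ)] [h0 : Fact (0 < κ)]

variable (δ) in
/-- `y` is a club of `l` without regular elements -/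
def isCl (y : ZFSet.{0}) (l : Set.Iio κ) : Prop :=
  (∀ p ∈ y, ∃ c : Set.Iio κ, c < l ∧ p = c.1.toZFSet) ∧
    (∀ a, a < l → ∃ c : Set.Iio κ, a < c ∧ c.1.toZFSet ∈ y) ∧
    (∀ c : Set.Iio κ, c < l → c ≠ ⊥ → (∀ a, a < c → ∃ d : Set.Iio κ, a < d ∧ d < c ∧ d.1.toZFSet ∈ y) → c.1.toZFSet ∈ y) ∧
    ∀ c : Set.Iio κ, c.1.toZFSet ∈ y → ¬ Reg (L δ) c

variable (δ) in
/-- the least level which contains a club of `l` without regular elements -/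
noncomputable def bE (l : Set.Iio κ) : Set.Iio κ := lst (L δ) (fun β => ∃ y : L κ, y.1 ∈ L β.1 ∧ isCl δ y.1 l)

omit h0 in
private theorem ip_memO {γ : Type*} [WTy (L δ) γ] {f : γ → Set.Iio κ} {g : γ → L κ}
    (hf : IF (L δ) f) (hg : IF (L δ) g) : IP (L δ) (fun c => (f c).1.toZFSet ∈ (g c).1) :=
  IP.congr (P := fun c => E (cd (L δ) (f c)) (cd (L δ) (g c))) (fun _ => Iff.rfl)
    (IP.cdmem hf hg)

theorem ip_isCl (h : MahM δ κ) : IP (L δ) (fun p : L κ × Set.Iio κ => isCl δ p.1.1 p.2) := by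
  have _ := h
  have hA : IP (L δ) (fun p : L κ × Set.Iio κ =>
      ∀ q : L κ, q.1 ∈ p.1.1 → ∃ c : Set.Iio κ, c < p.2 ∧ q.1 = c.1.toZFSet) := by
    refine IP.all (P := fun (p : L κ × Set.Iio κ) (q : L κ) =>
      q.1 ∈ p.1.1 → ∃ c : Set.Iio κ, c < p.2 ∧ q.1 = c.1.toZFSet) (IP.imp ?_ ?_)
    · exact IP.comp2 (P := fun (x y : L κ) => x.1 ∈ y.1) ip_memL IF.snd (IF.fst' IF.fst)
    · refine IP.ex (P := fun (r : (L κ × Set.Iio κ) × L κ) (c : Set.Iio κ) =>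
        c < r.1.2 ∧ r.2.1 = c.1.toZFSet) (IP.and (ip_ltK IF.snd (IF.snd' (IF.fst' IF.fst))) ?_)
      exact IP.congr (P := fun s : ((L κ × Set.Iio κ) × L κ) × Set.Iio κ =>
        cd (L δ) s.1.2 = cd (L δ) s.2) (fun s => Subtype.ext_iff)
        (IP.cdeq (IF.snd' IF.fst) IF.snd)
  have hB : IP (L δ) (fun p : L κ × Set.Iio κ =>
      ∀ a, a < p.2 → ∃ c : Set.Iio κ, a < c ∧ c.1.toZFSet ∈ p.1.1) := by
    refine IP.all (P := fun (p : L κ × Set.Iio κ) (a : Set.Iio κ) =>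
      a < p.2 → ∃ c : Set.Iio κ, a < c ∧ c.1.toZFSet ∈ p.1.1)
      (IP.imp (ip_ltK IF.snd (IF.snd' IF.fst)) ?_)
    exact IP.ex (P := fun (r : (L κ × Set.Iio κ) × Set.Iio κ) (c : Set.Iio κ) =>
      r.2 < c ∧ c.1.toZFSet ∈ r.1.1.1) (IP.and (ip_ltK (IF.snd' IF.fst) IF.snd)
        (ip_memO IF.snd (IF.fst' (IF.fst' IF.fst))))
  have hC : IP (L δ) (fun p : L κ × Set.Iio κ => ∀ c : Set.Iio κ, c < p.2 → c ≠ ⊥ →
      (∀ a, a < c → ∃ d : Set.Iio κ, a < d ∧ d < c ∧ d.1.toZFSet ∈ p.1.1) →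
        c.1.toZFSet ∈ p.1.1) := by
    refine IP.all (P := fun (p : L κ × Set.Iio κ) (c : Set.Iio κ) => c < p.2 → c ≠ ⊥ →
      (∀ a, a < c → ∃ d : Set.Iio κ, a < d ∧ d < c ∧ d.1.toZFSet ∈ p.1.1) →
        c.1.toZFSet ∈ p.1.1) (IP.imp (ip_ltK IF.snd (IF.snd' IF.fst))
          (IP.imp (IP.not (IP.eq IF.snd (IF.const _))) (IP.imp ?_
            (ip_memO IF.snd (IF.fst' IF.fst)))))
    refine IP.all (P := fun (r : (L κ × Set.Iio κ) × Set.Iio κ) (a : Set.Iio κ) =>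
      a < r.2 → ∃ d : Set.Iio κ, a < d ∧ d < r.2 ∧ d.1.toZFSet ∈ r.1.1.1)
      (IP.imp (ip_ltK IF.snd (IF.snd' IF.fst)) ?_)
    exact IP.ex (P := fun (t : ((L κ × Set.Iio κ) × Set.Iio κ) × Set.Iio κ) (d : Set.Iio κ) =>
      t.2 < d ∧ d < t.1.2 ∧ d.1.toZFSet ∈ t.1.1.1.1) (IP.and (ip_ltK (IF.snd' IF.fst) IF.snd)
        (IP.and (ip_ltK IF.snd (IF.snd' (IF.fst' IF.fst)))
          (ip_memO IF.snd (IF.fst' (IF.fst' (IF.fst' IF.fst))))))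
  have hD : IP (L δ) (fun p : L κ × Set.Iio κ =>
      ∀ c : Set.Iio κ, c.1.toZFSet ∈ p.1.1 → ¬ Reg (L δ) c) :=
    IP.all (P := fun (p : L κ × Set.Iio κ) (c : Set.Iio κ) =>
      c.1.toZFSet ∈ p.1.1 → ¬ Reg (L δ) c)
      (IP.imp (ip_memO IF.snd (IF.fst' IF.fst)) (IP.not (ip_Reg IF.snd)))
  refine IP.congr (fun p => ?_) (hA.and (hB.and (hC.and hD)))
  refine and_congr_left fun _ => ?_
  constructor
  · intro h1 q hq
    exact h1 ⟨q, U_trans F0 p.1.2 hq⟩ hq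
  · intro h1 q hq
    exact h1 q.1 hq

theorem if_bE (h : MahM δ κ) : IF (L δ) (fun l : Set.Iio κ => bE δ l) := by
  refine if_lst (P := fun (l β : Set.Iio κ) => ∃ y : L κ, y.1 ∈ L β.1 ∧ isCl δ y.1 l) ?_
  refine IP.ex (P := fun (p : Set.Iio κ × Set.Iio κ) (y : L κ) =>
    y.1 ∈ L p.2.1 ∧ isCl δ y.1 p.1) (IP.and ?_ ?_)
  · exact IP.comp2 (P := fun (β : Set.Iio κ) (y : L κ) => y.1 ∈ L β.1) ip_lev
      (IF.snd' IF.fst) IF.snd
  · exact IP.comp2 (P := fun (y : L κ) (l : Set.Iio κ) => isCl δ y.1 l) (ip_isCl h) IF.snd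
      (IF.fst' IF.fst)

private theorem exists_isCl (h : MahM δ κ) {l : Set.Iio κ} (hl : InE (L δ) l) :
    ∃ β : Set.Iio κ, β < nx (L δ) l ∧ ∃ y : L κ, y.1 ∈ L β.1 ∧ isCl δ y.1 l := by
  obtain ⟨D, hD, hD'⟩ := h.nm l hl
  have hi : IP (L δ) (fun w : Set.Iio κ => w ∈ D ∧ w < l) :=
    IP.and (IP.mem IF.id (IF.const D)) (ip_ltK IF.id (IF.const l))
  let S : St (L δ) (Set.Iio κ) := ⟨{w | w ∈ D ∧ w < l}, hi⟩
  have hS : ∀ c : Set.Iio κ, c.1.toZFSet ∈ cz δ S ↔ c ∈ D ∧ c < l := by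
    intro c
    constructor
    · intro hc
      obtain ⟨a, ha, ha'⟩ := mem_cz_st.1 hc
      have h1 : a = c := cz_inj.1 ha'
      rw [← h1]
      exact ha
    · intro hc
      exact mem_cz_st.2 ⟨c, hc, rfl⟩
  obtain ⟨β, hβ, -, hy⟩ := sub_L h hl.1.1 (lt_nx h.pk l) (y := cz δ S) (cz_mem S) (by
    intro z hz
    obtain ⟨w, hw, rfl⟩ := mem_cz_st.1 hz
    exact (ord_mem_L (lim_of_cd h hl.1.1)).2 (show w.1 < l.1 from hw.2))
  refine ⟨β, hβ, ⟨cz δ S, U_mono F0 (le_of_lt β.2) hy⟩, hy, ?_, ?_, ?_, ?_⟩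
  · intro p hp
    obtain ⟨w, hw, rfl⟩ := mem_cz_st.1 hp
    exact ⟨w, hw.2, rfl⟩
  · intro a ha
    obtain ⟨c, h1, h2, h3⟩ := hD.1 a ha
    exact ⟨c, h2, (hS c).2 ⟨h1, h3⟩⟩
  · intro c hc hne h1
    refine (hS c).2 ⟨hD.2 c hc hne fun x hx => ?_, hc⟩
    obtain ⟨d, h2, h3, h4⟩ := h1 x hx
    exact ⟨d, ((hS d).1 h4).1, h2, h3⟩
  · intro c hc
    exact hD' c ((hS c).1 hc).1

theorem bE_lt (h : MahM δ κ) {l : Set.Iio κ} (hl : InE (L δ) l) : bE δ l < nx (L δ) l := by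
  obtain ⟨β, hβ, hy⟩ := exists_isCl h hl
  exact lt_of_le_of_lt
    (lst_le (P := fun β : Set.Iio κ => ∃ y : L κ, y.1 ∈ L β.1 ∧ isCl δ y.1 l) hy) hβ

theorem bE_spec (h : MahM δ κ) {l : Set.Iio κ} (hl : InE (L δ) l) :
    ∃ y : ZFSet.{0}, y ∈ L (bE δ l).1 ∧ isCl δ y l := by
  obtain ⟨β, -, hy⟩ := exists_isCl h hl
  obtain ⟨y, h1, h2⟩ := lst_spec (N := L δ)
    (P := fun β : Set.Iio κ => ∃ y : L κ, y.1 ∈ L β.1 ∧ isCl δ y.1 l) ⟨β, hy⟩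
  exact ⟨y.1, h1, h2⟩

theorem if_tf1 : IF (L δ) (fun p : L κ × Set.Iio κ =>
    lst (L δ) (fun w : Set.Iio κ => ZFSet.pair p.2.1.toZFSet w.1.toZFSet ∈ p.1.1)) := by
  refine if_lst (P := fun (p : L κ × Set.Iio κ) (w : Set.Iio κ) =>
    ZFSet.pair p.2.1.toZFSet w.1.toZFSet ∈ p.1.1) ?_
  refine IP.congr (P := fun q : (L κ × Set.Iio κ) × Set.Iio κ =>
    E (cd (L δ) (q.1.2, q.2)) (cd (L δ) q.1.1)) (fun q => ?_)
    (IP.cdmem (f := fun q : (L κ × Set.Iio κ) × Set.Iio κ => (q.1.2, q.2))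
      (g := fun q : (L κ × Set.Iio κ) × Set.Iio κ => q.1.1)
      (IF.pair (IF.snd' IF.fst) IF.snd) (IF.fst' IF.fst))
  have h1 : (cd (L δ) (q.1.2, q.2)).1 = ZFSet.pair q.1.2.1.toZFSet q.2.1.toZFSet :=
    cd_prod (δ := δ) (q.1.2, q.2)
  rw [← h1]
  exact Iff.rfl

variable (δ) in
/-- the function coded by `y` -/
noncomputable def tf (y : L κ) : Fn (L δ) (Set.Iio κ) (Set.Iio κ) :=
  ⟨fun x => lst (L δ) (fun w : Set.Iio κ => ZFSet.pair x.1.toZFSet w.1.toZFSet ∈ y.1),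
    IF.sec (f := fun (y : L κ) (x : Set.Iio κ) =>
      lst (L δ) (fun w : Set.Iio κ => ZFSet.pair x.1.toZFSet w.1.toZFSet ∈ y.1)) if_tf1 y⟩

theorem exists_Gl (h : MahM δ κ) :
    ∃ Gl : Set.Iio κ → Set.Iio κ → Fn (L δ) (Set.Iio κ) (Set.Iio κ),
    IF (L δ) (fun p : Set.Iio κ × Set.Iio κ => Gl p.1 p.2) ∧
    ∀ l, InE (L δ) l → ∀ y : L κ, y.1 ∈ L (bE δ l).1 → ∃ i, i < l ∧ ∀ x, Gl l i x = tf δ y x := by
  have hne : Nonempty (L κ) := ⟨⟨∅, empty_mem_U F0 κ⟩⟩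
  have hA : IP (L δ) (fun p : Set.Iio κ × L κ => p.2.1 ∈ L (bE δ p.1).1) :=
    IP.comp2 (P := fun (β : Set.Iio κ) (y : L κ) => y.1 ∈ L β.1) ip_lev
      ((if_bE h).comp IF.fst) IF.snd
  obtain ⟨e, he, he'⟩ := cov_choose (N := L δ) (α := L κ) (m := fun l : Set.Iio κ => l) IF.id
    (A := fun (l : Set.Iio κ) (y : L κ) => y.1 ∈ L (bE δ l).1) hA
  have ht : IF (L δ) (fun y : L κ => tf δ y) := by
    apply IF.lam'
    exact if_tf1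
  refine ⟨fun l i => tf δ (e l i), ht.comp he, fun l hl y hy => ?_⟩
  obtain ⟨i, hi, hi'⟩ := he' l (sz_L h hl.1.1 (bE_lt h hl)) y hy
  refine ⟨i, hi, fun x => ?_⟩
  show tf δ (e l i) x = tf δ y x
  rw [hi']

end LCA
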