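import Pool.Agent.LCA.HGl

/-! # The guessing property (G)

(problem MP_328cd5_lc; architect helper18; section 3 of /team-store/COD_h51.md)

PROOF. `M = L δ`, `K = Set.Iio κ`; for `w : K` write `ŵ = w.1.toZFSet = cz δ w`.
* Typed functions (elements of `Fn M _ _`; internal by `if_lst`, `simp`-rules of `COD/Ip.lean`): `U0 : St M K` the set of all elements (its code is `κ.toZFSet`: `mem_cz_st`, `Ordinal.mem_toZFSet_iff`), `UB Z := lst (fun a => ∀ w, w ∈ Z → w ≤ a)`,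
  `CL Z := lst (fun y => y ≠ ⊥ ∧ (∀ x, x < y → ∃ z, z ∈ Z ∧ x < z ∧ z < y) ∧ y ∉ Z)`, `RG Z := lst (fun r => r ∈ Z ∧ Reg M r)` (all `Fn M (St M K) K`). `a := cz δ (H, (U0, (UB, (CL, RG))))`.
* `Ω`: a limit, `κ < Ω < δ`, `a ∈ L Ω` (`U_lim`, `exists_lim` in `LGr/Aom.lean`, as in `LBB/Typ.lean` `exists_Om`); `Fact (Ω < δ)`. `RR α a ⊆ L Ω` for `α ≤ κ` (`RR_sub_L`).
* `F x := lst (fun c => ∀ w : K, ŵ ∈ RR x.1 a → w < c)`, internal: `ŵ ∈ RR x.1 a` iff `∃ n, ∃ u : L κ, u.1 ∈ L x.1 ∧ B n (pair u.1 a) = ŵ` (`ip_lev`, `if_B` for `L Ω`, `if_incl`, `if_pairL`, `IP.cdeq`). These `w` are bounded in `K`: `Cov (nx x) (fun u : L κ => u.1 ∈ L x.1)` (`sz_L_nx`, `U_mono`, `cov_mono`), `cov_nat_prod`,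
  `cov_img` (for the function `(n, u) ↦ lst (fun w => B n (pair u a) = ŵ)`), `bdd_top`. So `ŵ ∈ RR x.1 a → w < F x`.
* `mahlo_clo` (`KClub.lean`, `h.mah`) for `F` and `⊥`: `l` in `InE` with `F x < l` for `x < l`. `X := RR l.1 a` (closed: `cls_RR`, `l.1` is a limit by `lim_of_cd`; `⊆ L Ω`). `(*)` `ŵ ∈ X ↔ w < l`: `←` `L_sub_RR`, `ord_mem_L`. `→` `B n (pair u a) = ŵ`, `u ∈ L l.1`, so `u ∈ L x` for some `x < l.1` (`U_lim`), `w < F x < l`.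
  `a ∈ X` (`c_mem_RR`), so the codes of `H, U0, UB, CL, RG` are in `X` (`cl_fst`, `cl_snd`). For `x < l`: `cz δ (H x) ∈ X` (`cl_app`), so `H x < l`.
* `condensation` (`LBB/CndB.lean`): `τ`, `π` with `Cnd X τ π`. `π x = x` for `x ∈ L l.1` (`Cnd.id`, `T := L l.1`), in particular for `ŵ`, `w < l`. `y0 := π (cz δ H) ∈ L τ`. `z ∈ y0` iff `z = pair x̂ (cz δ (H x))` for some `x < l` (`Cnd.mos`, `mem_cz_fn`; `pair x̂ (cz (H x)) ∈ X` iff `x < l`: `cl_l`, `(*)`; `Cnd.pr`).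
* CLAIM `τ ≤ (bE l).1`. Suppose `(bE l).1 < τ`. `bE_spec`: `y ∈ L (bE l).1 ⊆ L τ` with `isCl y l`; `π z = y`, `z ∈ X` (`Cnd.onto`). All elements of `z` are in `cz δ U0`: otherwise `d := df z (cz δ U0) ∈ X` (`Cls.df`), `d ∈ z`, `d ∉ cz δ U0` (`df_spec`), `π d ∈ π z = y` (`Cnd.mem`), so `π d = ĉ = π ĉ` with `c < l`, `d = ĉ` (`Cnd.inj`), and `ĉ ∈ cz δ U0`,
  contradiction. So `z = cz δ Z` for `Z := {w | ŵ ∈ z}` (internal: `z ∈ L δ`, `ip_set`-like: `IP.iff_mem`; `mem_cz_st`). For `w < l`: `w ∈ Z ↔ ŵ ∈ y` (`Cnd.mem`, `π ŵ = ŵ`).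
  (1) `Z` is unbounded in `K`: if `w ≤ a'` for all `w ∈ Z`, then `ub := UB Z` has this property (`lst_spec`), `cz δ ub ∈ X` (`cl_app`), `ub < l`; `isCl` gives `c > ub` with `ĉ ∈ y`, `c < l` (first part of `isCl`), `c ∈ Z`, contradiction.
  (2) `Z` is closed: otherwise `y1 := CL Z` is a limit of `Z`, `y1 ∉ Z` (`lst_spec`), `y1 < l`; elements of `Z` below `y1` are in `y`, so `ŷ1 ∈ y` by `isCl`, `y1 ∈ Z`, contradiction. (3) `h.mah Z`: there is a regular `r ∈ Z`; `r1 := RG Z` is regular, in `Z`, `< l`, so `r̂1 ∈ y`, contradiction to `isCl`.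
* So `y0 ∈ L τ ⊆ L (bE l).1 ⊆ L κ`; the hypothesis gives `i < l` with `Gl l i x = tf y0 x`, and `tf y0 x = H x` for `x < l` (the only `w` with `pair x̂ ŵ ∈ y0` is `H x`: `ZFSet.pair_inj`, `cz_inj`). -/

set_option autoImplicit false

universe u v w x

namespace LCA

open STP LGr WCal WM LBB COD

variable {δ κ : Ordinal.{0}} [hG : GM δ] [hκ : Fact (κ < δ)] [h0 : Fact (0 < κ)]

/-! ### typed functions -/

omit h0 in
private theorem hg_iU0 : IP (L δ) (fun x : Set.Iio κ => x ∈ (Set.univ : Set (Set.Iio κ))) :=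
  IP.congr (fun _ => ⟨fun _ => trivial, fun _ => trivial⟩) (IP.const True)

/-- the set of all elements -/
private def hgU0 (δ κ : Ordinal.{0}) [GM δ] [Fact (κ < δ)] [Fact (0 < κ)] :
    St (L δ) (Set.Iio κ) := ⟨Set.univ, hg_iU0⟩

private theorem hg_iUB : IF (L δ) (fun Z : St (L δ) (Set.Iio κ) =>
    lst (L δ) (fun a : Set.Iio κ => ∀ w, w ∈ Z → w ≤ a)) := by
  refine if_lst (P := fun (Z : St (L δ) (Set.Iio κ)) (a : Set.Iio κ) => ∀ w, w ∈ Z → w ≤ a) ?_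
  refine IP.all (P := fun (p : St (L δ) (Set.Iio κ) × Set.Iio κ) (w : Set.Iio κ) =>
    w ∈ p.1 → w ≤ p.2) ?_
  exact IP.imp (IP.mem IF.snd (IF.fst.comp IF.fst)) (ip_leK IF.snd (IF.snd.comp IF.fst))

/-- an upper bound -/
private noncomputable def hgUB (δ κ : Ordinal.{0}) [GM δ] [Fact (κ < δ)] [Fact (0 < κ)] :
    Fn (L δ) (St (L δ) (Set.Iio κ)) (Set.Iio κ) :=
  ⟨fun Z => lst (L δ) (fun a : Set.Iio κ => ∀ w, w ∈ Z → w ≤ a), hg_iUB⟩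

private theorem hg_iCL : IF (L δ) (fun Z : St (L δ) (Set.Iio κ) =>
    lst (L δ) (fun y : Set.Iio κ => y ≠ ⊥ ∧ (∀ x, x < y → ∃ z, z ∈ Z ∧ x < z ∧ z < y) ∧
      y ∉ Z)) := by
  refine if_lst (P := fun (Z : St (L δ) (Set.Iio κ)) (y : Set.Iio κ) =>
    y ≠ ⊥ ∧ (∀ x, x < y → ∃ z, z ∈ Z ∧ x < z ∧ z < y) ∧ y ∉ Z) ?_
  refine IP.and (IP.not (IP.eq IF.snd (IF.const _))) (IP.and ?_
    (IP.not (IP.mem IF.snd IF.fst)))
  refine IP.all (P := fun (p : St (L δ) (Set.Iio κ) × Set.Iio κ) (x : Set.Iio κ) =>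
    x < p.2 → ∃ z, z ∈ p.1 ∧ x < z ∧ z < p.2) ?_
  refine IP.imp (ip_ltK IF.snd (IF.snd.comp IF.fst)) ?_
  refine IP.ex (P := fun (q : (St (L δ) (Set.Iio κ) × Set.Iio κ) × Set.Iio κ)
    (z : Set.Iio κ) => z ∈ q.1.1 ∧ q.2 < z ∧ z < q.1.2) ?_
  exact IP.and (IP.mem IF.snd (IF.fst.comp (IF.fst.comp IF.fst)))
    (IP.and (ip_ltK (IF.snd.comp IF.fst) IF.snd)
      (ip_ltK IF.snd (IF.snd.comp (IF.fst.comp IF.fst))))

/-- a missing limit -/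
private noncomputable def hgCL (δ κ : Ordinal.{0}) [GM δ] [Fact (κ < δ)] [Fact (0 < κ)] :
    Fn (L δ) (St (L δ) (Set.Iio κ)) (Set.Iio κ) :=
  ⟨fun Z => lst (L δ) (fun y : Set.Iio κ => y ≠ ⊥ ∧
    (∀ x, x < y → ∃ z, z ∈ Z ∧ x < z ∧ z < y) ∧ y ∉ Z), hg_iCL⟩

private theorem hg_iRG : IF (L δ) (fun Z : St (L δ) (Set.Iio κ) =>
    lst (L δ) (fun r : Set.Iio κ => r ∈ Z ∧ Reg (L δ) r)) := by
  refine if_lst (P := fun (Z : St (L δ) (Set.Iio κ)) (r : Set.Iio κ) =>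
    r ∈ Z ∧ Reg (L δ) r) ?_
  exact IP.and (IP.mem IF.snd IF.fst) (ip_Reg IF.snd)

/-- a regular element -/
private noncomputable def hgRG (δ κ : Ordinal.{0}) [GM δ] [Fact (κ < δ)] [Fact (0 < κ)] :
    Fn (L δ) (St (L δ) (Set.Iio κ)) (Set.Iio κ) :=
  ⟨fun Z => lst (L δ) (fun r : Set.Iio κ => r ∈ Z ∧ Reg (L δ) r), hg_iRG⟩

/-! ### the values of `B` -/

omit h0 in
private theorem hg_mem {Ω : Ordinal.{0}} (hΩ : Order.IsSuccLimit Ω) (hk : κ ≤ Ω)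
    {a : ZFSet.{0}} (ha : a ∈ L Ω) (p : ℕ × L κ) : B p.1 (ZFSet.pair p.2.1 a) ∈ L Ω :=
  B_mem hΩ p.1 (pair_mem hΩ (U_mono F0 hk p.2.2) ha)

omit h0 in
private theorem hg_B {Ω : Ordinal.{0}} [Fact (Ω < δ)] (hΩ : Order.IsSuccLimit Ω) (hk : κ ≤ Ω)
    {a : ZFSet.{0}} (ha : a ∈ L Ω) :
    IF (L δ) (fun p : ℕ × L κ => (⟨B p.1 (ZFSet.pair p.2.1 a), hg_mem hΩ hk ha p⟩ : L Ω)) := by
  have h1 : IF (L δ) (fun p : ℕ × L κ =>
      (⟨ZFSet.pair p.2.1 a, pair_mem hΩ (U_mono F0 hk p.2.2) ha⟩ : L Ω)) :=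
    (if_pairL hΩ).comp (IF.pair ((if_incl hk).comp IF.snd) (IF.const (⟨a, ha⟩ : L Ω)))
  exact (if_B hΩ).comp (IF.pair IF.fst h1)

omit h0 in
private theorem hg_eq {Ω : Ordinal.{0}} [Fact (Ω < δ)] (hΩ : Order.IsSuccLimit Ω) (hk : κ ≤ Ω)
    {a : ZFSet.{0}} (ha : a ∈ L Ω) :
    IP (L δ) (fun q : (ℕ × L κ) × Set.Iio κ =>
      B q.1.1 (ZFSet.pair q.1.2.1 a) = q.2.1.toZFSet) :=
  IP.congr (fun _ => Subtype.ext_iff) (IP.cdeq ((hg_B hΩ hk ha).comp IF.fst)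
    (IF.snd : IF (L δ) (fun q : (ℕ × L κ) × Set.Iio κ => q.2)))

omit h0 in
private theorem hg_RR {Ω : Ordinal.{0}} [Fact (Ω < δ)] (hΩ : Order.IsSuccLimit Ω) (hk : κ ≤ Ω)
    {a : ZFSet.{0}} (ha : a ∈ L Ω) :
    IP (L δ) (fun p : Set.Iio κ × Set.Iio κ => p.2.1.toZFSet ∈ RR p.1.1 a) := by
  refine IP.congr (P := fun p : Set.Iio κ × Set.Iio κ =>
    ∃ c : ℕ × L κ, c.2.1 ∈ L p.1.1 ∧ B c.1 (ZFSet.pair c.2.1 a) = p.2.1.toZFSet)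
    (fun p => ?_) ?_
  · constructor
    · rintro ⟨c, h1, h2⟩
      exact ⟨c.1, c.2.1, h1, h2⟩
    · rintro ⟨n, u, h1, h2⟩
      have h3 : p.1.1 ≤ κ := le_of_lt p.1.2
      exact ⟨(n, ⟨u, U_mono F0 h3 h1⟩), h1, h2⟩
  · refine IP.ex (P := fun (p : Set.Iio κ × Set.Iio κ) (c : ℕ × L κ) =>
      c.2.1 ∈ L p.1.1 ∧ B c.1 (ZFSet.pair c.2.1 a) = p.2.1.toZFSet) (IP.and ?_ ?_)
    · exact IP.comp2 (P := fun (x : Set.Iio κ) (y : L κ) => y.1 ∈ L x.1) ip_lev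
        (IF.fst.comp IF.fst) (IF.snd.comp IF.snd)
    · exact IP.comp2 (P := fun (c : ℕ × L κ) (w : Set.Iio κ) =>
        B c.1 (ZFSet.pair c.2.1 a) = w.1.toZFSet) (hg_eq hΩ hk ha) IF.snd
        (IF.snd.comp IF.fst)

/-- the elements of a small hull are bounded -/
private theorem hg_bdd (h : MahM δ κ) {Ω : Ordinal.{0}} [Fact (Ω < δ)]
    (hΩ : Order.IsSuccLimit Ω) (hk : κ ≤ Ω) {a : ZFSet.{0}} (ha : a ∈ L Ω) (x : Set.Iio κ) :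
    ∃ c : Set.Iio κ, ∀ w : Set.Iio κ, w.1.toZFSet ∈ RR x.1 a → w < c := by
  have h1 : Cov (L δ) (nx (L δ) x) (fun u : L κ => u.1 ∈ L x.1) :=
    cov_mono (sz_L_nx h x) le_rfl fun u hu => U_mono F0 (le_of_lt (lt_nx h.pk x)) hu
  have h2 := cov_nat_prod h.pk (cd_nx h.pk x) h1
  have hg : IF (L δ) (fun c : ℕ × L κ => lst (L δ) (fun w : Set.Iio κ =>
      B c.1 (ZFSet.pair c.2.1 a) = w.1.toZFSet)) :=
    if_lst (P := fun (c : ℕ × L κ) (w : Set.Iio κ) =>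
      B c.1 (ZFSet.pair c.2.1 a) = w.1.toZFSet) (hg_eq hΩ hk ha)
  refine bdd_top h.pk (cov_img (B := fun w : Set.Iio κ => w.1.toZFSet ∈ RR x.1 a) h2 hg ?_)
  rintro w ⟨n, u, h3, h4⟩
  have h5 : x.1 ≤ κ := le_of_lt x.2
  refine ⟨(n, ⟨u, U_mono F0 h5 h3⟩), h3, ?_⟩
  have h6 := lst_spec (N := L δ) (P := fun w' : Set.Iio κ =>
    B n (ZFSet.pair u a) = w'.1.toZFSet) ⟨w, h4⟩
  exact Subtype.ext (Ordinal.toZFSet_injective (h6.symm.trans h4))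

theorem guess (h : MahM δ κ) {Gl : Set.Iio κ → Set.Iio κ → Fn (L δ) (Set.Iio κ) (Set.Iio κ)}
    (hGl : ∀ l, InE (L δ) l → ∀ y : L κ, y.1 ∈ L (bE δ l).1 → ∃ i, i < l ∧ ∀ x, Gl l i x = tf δ y x)
    (H : Fn (L δ) (Set.Iio κ) (Set.Iio κ)) :
    ∃ l, InE (L δ) l ∧ (∀ x, x < l → H x < l) ∧ ∃ i, i < l ∧ ∀ x, x < l → Gl l i x = H x := by
  obtain ⟨a, haa⟩ : ∃ a : ZFSet.{0},
      a = cz δ (H, (hgU0 δ κ, (hgUB δ κ, (hgCL δ κ, hgRG δ κ)))) := ⟨_, rfl⟩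
  have haδ : a ∈ L δ := by
    rw [haa]
    exact cz_mem _
  obtain ⟨γ, hγ, haγ⟩ := (U_lim F0 hG.lim).1 haδ
  obtain ⟨Ω, hΩ1, hΩ2, hΩ⟩ := exists_lim (Φ := F0) hG.lim (α := max κ γ)
    (max_lt hκ.out hγ)
  have hfΩ : Fact (Ω < δ) := ⟨hΩ2⟩
  have hk : κ ≤ Ω := (le_max_left _ _).trans hΩ1.le
  have ha : a ∈ L Ω := U_mono F0 ((le_max_right _ _).trans hΩ1.le) haγ
  -- the closure point
  have hF : IF (L δ) (fun x : Set.Iio κ => lst (L δ) (fun c : Set.Iio κ =>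
      ∀ w : Set.Iio κ, w.1.toZFSet ∈ RR x.1 a → w < c)) := by
    refine if_lst (P := fun (x c : Set.Iio κ) =>
      ∀ w : Set.Iio κ, w.1.toZFSet ∈ RR x.1 a → w < c) ?_
    refine IP.all (P := fun (p : Set.Iio κ × Set.Iio κ) (w : Set.Iio κ) =>
      w.1.toZFSet ∈ RR p.1.1 a → w < p.2) (IP.imp ?_ (ip_ltK IF.snd (IF.snd.comp IF.fst)))
    exact IP.comp2 (P := fun (x w : Set.Iio κ) => w.1.toZFSet ∈ RR x.1 a) (hg_RR hΩ hk ha)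
      (IF.fst.comp IF.fst) IF.snd
  obtain ⟨l, hl, hl0, hlF⟩ := mahlo_clo h.pk h.mah hF ⊥
  have hlim : Order.IsSuccLimit l.1 := lim_of_cd h hl.1.1
  have hlκ : l.1 < κ := l.2
  obtain ⟨X, hX⟩ : ∃ X, X = RR l.1 a := ⟨_, rfl⟩
  have hcl : Cls X := by
    rw [hX]
    exact cls_RR hlim a
  have hsub : X ⊆ L Ω := by
    rw [hX]
    exact RR_sub_L hΩ (hlκ.le.trans hk) ha
  have hLX : L l.1 ⊆ X := by
    rw [hX]
    exact L_sub_RR a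
  have star : ∀ w : Set.Iio κ, cz δ w ∈ X ↔ w < l := by
    intro w
    constructor
    · intro hw
      rw [hX] at hw
      obtain ⟨n, u, hu, hnu⟩ := hw
      obtain ⟨β, hβ, hu'⟩ := (U_lim F0 hlim).1 hu
      have h1 := hlF ⟨β, hβ.trans hlκ⟩ hβ
      have h2 := lst_spec (N := L δ) (P := fun c : Set.Iio κ =>
        ∀ w : Set.Iio κ, w.1.toZFSet ∈ RR β a → w < c)
        (hg_bdd h hΩ hk ha ⟨β, hβ.trans hlκ⟩)
      exact lt_trans (h2 w ⟨n, u, hu', hnu⟩) h1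
    · intro hw
      exact hLX ((ord_mem_L hlim).2 (show w.1 < l.1 from hw))
  have haX : cz δ (H, (hgU0 δ κ, (hgUB δ κ, (hgCL δ κ, hgRG δ κ)))) ∈ X := by
    rw [← haa, hX]
    exact c_mem_RR _ _
  have hHX : cz δ H ∈ X := cl_fst hcl haX
  have h1X := cl_snd hcl haX
  have hU0X : cz δ (hgU0 δ κ) ∈ X := cl_fst hcl h1X
  have h2X := cl_snd hcl h1X
  have hUBX : cz δ (hgUB δ κ) ∈ X := cl_fst hcl h2X
  have h3X := cl_snd hcl h2X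
  have hCLX : cz δ (hgCL δ κ) ∈ X := cl_fst hcl h3X
  have hRGX : cz δ (hgRG δ κ) ∈ X := cl_snd hcl h3X
  have hHl : ∀ x, x < l → H x < l := fun x hx =>
    (star _).1 (cl_app hcl hsub hHX ((star x).2 hx))
  obtain ⟨τ, -, π, hc⟩ := condensation hcl hΩ hsub
  have hid : ∀ x ∈ L l.1, π x = x := fun x hx =>
    hc.id (T := L l.1) (fun x hx y hy => U_trans F0 hx hy) hLX hx
  have hidw : ∀ w : Set.Iio κ, w < l → π (cz δ w) = cz δ w := fun w hw =>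
    hid _ ((ord_mem_L hlim).2 (show w.1 < l.1 from hw))
  -- the image of the code of `H`
  have hy0 : ∀ z, z ∈ π (cz δ H) ↔ ∃ x : Set.Iio κ, x < l ∧
      z = ZFSet.pair (cz δ x) (cz δ (H x)) := by
    intro z
    rw [hc.mos _ hHX]
    constructor
    · rintro ⟨y, hyX, hy, rfl⟩
      obtain ⟨x, rfl⟩ := mem_cz_fn.1 hy
      have hx : x < l := (star x).1 (cl_l hcl hyX)
      refine ⟨x, hx, ?_⟩
      rw [hc.pr _ ((star x).2 hx) _ ((star _).2 (hHl x hx)), hidw x hx, hidw _ (hHl x hx)]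
    · rintro ⟨x, hx, rfl⟩
      refine ⟨ZFSet.pair (cz δ x) (cz δ (H x)),
        cl_pair hcl ((star x).2 hx) ((star _).2 (hHl x hx)), mem_cz_fn.2 ⟨x, rfl⟩, ?_⟩
      rw [hc.pr _ ((star x).2 hx) _ ((star _).2 (hHl x hx)), hidw x hx, hidw _ (hHl x hx)]
  -- the claim
  have hτ : τ ≤ (bE δ l).1 := by
    by_contra hcon
    rw [not_le] at hcon
    obtain ⟨y, hy, c1, c2, c3, c4⟩ := bE_spec h hl
    obtain ⟨z, hzX, hzy⟩ := hc.onto y (U_mono F0 hcon.le hy)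
    have hzU : ∀ t ∈ z, t ∈ cz δ (hgU0 δ κ) := by
      intro t ht
      by_contra htU
      obtain ⟨d1, d2⟩ := df_spec (hsub hzX) ht htU
      have d3 := hcl.df hsub hzX hU0X
      have d4 := (hc.mem _ d3 _ hzX).1 d1
      rw [hzy] at d4
      obtain ⟨c, hcl', hc'⟩ := c1 _ d4
      have d5 : π (df z (cz δ (hgU0 δ κ))) = π (cz δ c) := by
        rw [hidw c hcl']
        exact hc'
      have d6 := hc.inj _ d3 _ ((star c).2 hcl') d5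
      rw [d6] at d2
      exact d2 (mem_cz_st.2 ⟨c, trivial, rfl⟩)
    obtain ⟨Z, hZ⟩ : ∃ Z : St (L δ) (Set.Iio κ), ∀ w, w ∈ Z ↔ cz δ w ∈ z :=
      ⟨⟨{w | cz δ w ∈ z}, IP.iff_mem.2 ⟨z, U_mono F0 hΩ2.le (hsub hzX), fun _ => Iff.rfl⟩⟩,
        fun _ => Iff.rfl⟩
    have hzZ : cz δ Z = z := by
      ext t
      rw [mem_cz_st]
      constructor
      · rintro ⟨w, hw, rfl⟩
        exact (hZ w).1 hw
      · intro ht
        obtain ⟨w, -, rfl⟩ := mem_cz_st.1 (hzU t ht)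
        exact ⟨w, (hZ w).2 ht, rfl⟩
    have hZX : cz δ Z ∈ X := by
      rw [hzZ]
      exact hzX
    have hZy : ∀ w : Set.Iio κ, w < l → (w ∈ Z ↔ w.1.toZFSet ∈ y) := by
      intro w hw
      rw [hZ, hc.mem _ ((star w).2 hw) _ hzX, hidw w hw, hzy]
      exact Iff.rfl
    have hyl : ∀ c : Set.Iio κ, c.1.toZFSet ∈ y → c < l := by
      intro c hcy
      obtain ⟨c', h5, h6⟩ := c1 _ hcy
      have h7 : c = c' := Subtype.ext (Ordinal.toZFSet_injective h6)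
      rw [h7]
      exact h5
    have hub : ∀ x : Set.Iio κ, ∃ w, w ∈ Z ∧ x < w := by
      by_contra hcon2
      push Not at hcon2
      have h5 := lst_spec (N := L δ) (P := fun a' : Set.Iio κ => ∀ w, w ∈ Z → w ≤ a') hcon2
      have h6 : hgUB δ κ Z < l := (star _).1 (cl_app hcl hsub hUBX hZX)
      obtain ⟨c, h7, h8⟩ := c2 _ h6
      exact absurd (h5 c ((hZy c (hyl c h8)).2 h8)) (not_le.2 h7)
    have hclo : ∀ w : Set.Iio κ, w ≠ ⊥ → (∀ x, x < w → ∃ v, v ∈ Z ∧ x < v ∧ v < w) →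
        w ∈ Z := by
      by_contra hcon2
      push Not at hcon2
      obtain ⟨h5, h6, h7⟩ := lst_spec (N := L δ) (P := fun w : Set.Iio κ => w ≠ ⊥ ∧
        (∀ x, x < w → ∃ v, v ∈ Z ∧ x < v ∧ v < w) ∧ w ∉ Z) hcon2
      have h8 : hgCL δ κ Z < l := (star _).1 (cl_app hcl hsub hCLX hZX)
      refine h7 ((hZy _ h8).2 (c3 _ h8 h5 fun x hx => ?_))
      obtain ⟨v, k1, k2, k3⟩ := h6 x hx
      exact ⟨v, k2, k3, (hZy v (k3.trans h8)).1 k1⟩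
    obtain ⟨h5, h6⟩ := lst_spec (N := L δ) (P := fun r : Set.Iio κ => r ∈ Z ∧ Reg (L δ) r)
      (h.mah Z hub hclo)
    have h8 : hgRG δ κ Z < l := (star _).1 (cl_app hcl hsub hRGX hZX)
    exact c4 _ ((hZy _ h8).1 h5) h6
  have hyτ : π (cz δ H) ∈ L (bE δ l).1 := U_mono F0 hτ (hc.maps _ hHX)
  have hbκ : (bE δ l).1 ≤ κ := le_of_lt (bE δ l).2
  obtain ⟨i, hi, hGi⟩ := hGl l hl ⟨π (cz δ H), U_mono F0 hbκ hyτ⟩ hyτ
  refine ⟨l, hl, hHl, i, hi, fun x hx => ?_⟩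
  rw [hGi x]
  have h5 := lst_spec (N := L δ) (P := fun w : Set.Iio κ =>
    ZFSet.pair x.1.toZFSet w.1.toZFSet ∈ π (cz δ H)) ⟨H x, (hy0 _).2 ⟨x, hx, rfl⟩⟩
  obtain ⟨x', -, h6⟩ := (hy0 _).1 h5
  obtain ⟨h7, h8⟩ := ZFSet.pair_inj.1 h6
  have h9 : x = x' := Subtype.ext (Ordinal.toZFSet_injective h7)
  rw [← h9] at h8
  exact Subtype.ext (Ordinal.toZFSet_injective h8)

end LCA
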