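import Pool.Agent.LCA.HACL
import Pool.Agent.LCA.HGuess

/-! # The coding data exist

(problem MP_328cd5_lc; architect helper18; assembly of sections 3-6 of /team-store/COD_h51.md)

`h : MahM δ κ` (`κ` is the least Mahlo cardinal of the countable model `L δ`). -/

set_option autoImplicit false

universe u v w x

namespace LCA

open STP LGr WCal WM LBB COD

variable {δ κ : Ordinal.{0}} [hG : GM δ] [hκ : Fact (κ < δ)] [h0 : Fact (0 < κ)]

/-- the scales dominate the functions `psi b i` -/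
def FamP (D : CPD (L δ) (Set.Iio κ)) : Prop :=
  ∃ Fam : Set.Iio κ → Set.Iio κ → Set.Iio κ → Fn (L δ) (Set.Iio κ) (Set.Iio κ),
    (∀ l, Cd (L δ) l → ∀ z, z < nx (L δ) l → ∀ b : L κ, b.1 ∈ L (bt δ l z).1 → ∀ i, i < l →
      ∃ x, x < l ∧ ∀ m, Fam l z x m = psi δ b i m) ∧
    ∀ l, LL (L δ) l → ∀ z, z < nx (L δ) l → ∀ i, i < l →
      Ev (L δ) l (D.S l) (fun m => Fam l z i m < nx (L δ) m → Fam l z i m < D.f l z m)

theorem exists_coding (h : MahM δ κ) :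
    Bs (L δ) (Set.Iio κ) ∧ ∃ D : CPD (L δ) (Set.Iio κ), CPP D ∧ FamP D := by
  obtain ⟨Gl, hGl, hGl'⟩ := exists_Gl h
  obtain ⟨Fam, hFam, hFam'⟩ := exists_Fam h
  obtain ⟨D, hD, hD'⟩ := exists_CPP h.pk (gch_of h) h.nmh hGl (guess h hGl') hFam
  exact ⟨bs_of h, D, hD, Fam, hFam', hD'⟩

theorem acl_of (h : MahM δ κ) {D : CPD (L δ) (Set.Iio κ)} (hD : CPP D) (hF : FamP D) (T : Type w)
    [WTy (L δ) T] : ACL D T := by
  obtain ⟨Fam, h1, h2⟩ := hF
  exact exists_ACL h hD h1 h2 T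

end LCA
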