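import Pool.Agent.LCA.HX

/-! # Typed functions used in the hulls

(problem MP_328cd5_lc; architect helper18)

PROOFS. Internality: `if_lst`, `IF.compr`, the simp rules of `COD/Ip.lean`, `LCA/KSim.lean` (`have : Fact (Pk (L δ) (Set.Iio κ)) := ⟨h⟩`), `WCal/Simp.lean`.
* `exists_sj`: `cov_choose` (`KDefs.lean`) for `β := K × K` (parameters `(m, a)`), the family `A (m, a) x := x < a`: an internal `g` such that `g (m, a)` covers `Iio a` from `m` if `Cov m (· < a)`, which holds for a cardinal `m` and `a < nx m` (`sur_of_lt_nx`). But `sj` has no argument `m`: put `sj (a, v) := g (cr a, a) v`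
  with `cr a := lst (fun m => Cd m ∧ a < nx m)` if `Iio a` is infinite; for a cardinal `m` with `a < nx m` we have `cr a ≤ m` (`lst_le`), `Cd (cr a)`, `a < nx (cr a)` (`lst_spec`), so `v < cr a ≤ m`. (This works for all `a`, no case distinction.)
* `crF_spec`: with `m` from `exists_lv h a`: `m ≠ ⊥` (otherwise `a < nx ⊥`, `Iio a` finite), so `Cd m` (`lv_cd`), `m ≤ a < nx m`; `crF a ≤ m`; `Cd (crF a)`, `a < nx (crF a)` (`lst_spec`).
* `pdF_spec`: `lst_spec`. `exists_cm`: `cf_spec` (`KCf.lean`) and `choice'` for the parameter `a` and `F : Fn K K`; `cm (a, x) := F a x`. -/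

set_option autoImplicit false

universe u v w x

namespace LCA

open STP LGr WCal WM LBB COD

variable {δ κ : Ordinal.{0}} [hG : GM δ] [hκ : Fact (κ < δ)] [h0 : Fact (0 < κ)]

theorem if_Pt (h : Pk (L δ) (Set.Iio κ)) : IF (L δ) (fun l : Set.Iio κ =>
    (⟨{p | p.1 < l ∧ p.2 < nx (L δ) l}, IP.and (ip_ltK IF.fst (IF.const _)) (ip_ltK IF.snd (IF.const _))⟩ :
      St (L δ) (Set.Iio κ × Set.Iio κ))) := by
  have : Fact (Pk (L δ) (Set.Iio κ)) := ⟨h⟩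
  apply IF.compr'
  change IP (L δ) (fun p : Set.Iio κ × (Set.Iio κ × Set.Iio κ) => p.2.1 < p.1 ∧ p.2.2 < nx (L δ) p.1)
  exact IP.and (ip_ltK (IF.fst.comp IF.snd) IF.fst) (ip_ltK (IF.snd.comp IF.snd) (ifp_nx IF.fst))

/-- the product `l × nx l` -/
noncomputable def PtF (h : Pk (L δ) (Set.Iio κ)) : Fn (L δ) (Set.Iio κ) (St (L δ) (Set.Iio κ × Set.Iio κ)) :=
  ⟨_, if_Pt h⟩

theorem mem_PtF {h : Pk (L δ) (Set.Iio κ)} {l : Set.Iio κ} {p : Set.Iio κ × Set.Iio κ} :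
    p ∈ PtF h l ↔ p.1 < l ∧ p.2 < nx (L δ) l := Iff.rfl

variable (δ κ) in
/-- the least value of a relation -/
noncomputable def FVF : Fn (L δ) (St (L δ) (Set.Iio κ × Set.Iio κ) × Set.Iio κ) (Set.Iio κ) :=
  ⟨fun p => lst (L δ) (fun a => (p.2, a) ∈ p.1),
    if_lst (IP.mem (IF.pair (IF.snd.comp IF.fst) IF.snd) (IF.fst.comp IF.fst))⟩

variable (δ κ) in
/-- the least element which is not a least value -/
noncomputable def MSF : Fn (L δ) (St (L δ) (Set.Iio κ × Set.Iio κ) × Set.Iio κ) (Set.Iio κ) :=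
  ⟨fun p => lst (L δ) (fun a => ∀ v, v < p.2 → FVF δ κ (p.1, v) ≠ a), by
    refine if_lst (IP.all (IP.imp ?_ (IP.not (IP.eq ?_ ?_))))
    · exact ip_ltK IF.snd (IF.snd.comp (IF.fst.comp IF.fst))
    · exact (FVF δ κ).int.comp (IF.pair (IF.fst.comp (IF.fst.comp IF.fst)) IF.snd)
    · exact IF.snd.comp IF.fst⟩

/-- the cardinality -/
noncomputable def crF (h : Pk (L δ) (Set.Iio κ)) : Fn (L δ) (Set.Iio κ) (Set.Iio κ) :=
  ⟨fun a => lst (L δ) (fun m => Cd (L δ) m ∧ a < nx (L δ) m), by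
    have : Fact (Pk (L δ) (Set.Iio κ)) := ⟨h⟩
    exact if_lst (IP.and (ip_Cd IF.snd) (ip_ltK IF.fst (ifp_nx IF.snd)))⟩

/-- the predecessor of a successor cardinal -/
noncomputable def pdF (h : Pk (L δ) (Set.Iio κ)) : Fn (L δ) (Set.Iio κ) (Set.Iio κ) :=
  ⟨fun a => lst (L δ) (fun t => nx (L δ) t = a), by
    have : Fact (Pk (L δ) (Set.Iio κ)) := ⟨h⟩
    exact if_lst (IP.eq (ifp_nx IF.snd) IF.fst)⟩

variable (δ κ) in
/-- the cofinality -/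
noncomputable def cfF : Fn (L δ) (Set.Iio κ) (Set.Iio κ) := ⟨fun a => cf (L δ) a, if_cf IF.id⟩

/-- `cm (a, ·)` is cofinal in `a` on the elements below `cf a` -/
def Cm (cm : Fn (L δ) (Set.Iio κ × Set.Iio κ) (Set.Iio κ)) : Prop :=
  ∀ a, (∀ x, x < cf (L δ) a → cm (a, x) < a) ∧ ∀ y, y < a → ∃ x, x < cf (L δ) a ∧ y ≤ cm (a, x)

theorem exists_sj (h : Pk (L δ) (Set.Iio κ)) : ∃ sj : Fn (L δ) (Set.Iio κ × Set.Iio κ) (Set.Iio κ), Sj sj := by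
  have : Nonempty (Set.Iio κ) := ⟨⊥⟩
  obtain ⟨g, hg, hg'⟩ := cov_choose (N := L δ) (K := Set.Iio κ) (α := Set.Iio κ)
    (β := Set.Iio κ × Set.Iio κ) (m := fun p => p.1) IF.fst (A := fun p x => x < p.2)
    (ip_ltK IF.snd (IF.snd.comp IF.fst))
  refine ⟨⟨fun p => g (crF h p.1, p.1) p.2,
    hg.comp (IF.pair (IF.pair ((crF h).int.comp IF.fst) IF.fst) IF.snd)⟩, ?_⟩
  intro m hm a ha a' ha'
  have h1 : Cd (L δ) (crF h a) ∧ a < nx (L δ) (crF h a) :=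
    lst_spec (N := L δ) (P := fun m => Cd (L δ) m ∧ a < nx (L δ) m) ⟨m, hm, ha⟩
  have h2 : crF h a ≤ m :=
    lst_le (N := L δ) (P := fun m => Cd (L δ) m ∧ a < nx (L δ) m) ⟨hm, ha⟩
  obtain ⟨v, hv, hv'⟩ := hg' (crF h a, a) (sur_of_lt_nx h h1.1 h1.2) a' ha'
  exact ⟨v, hv.trans_le h2, hv'⟩

theorem exists_cm : ∃ cm : Fn (L δ) (Set.Iio κ × Set.Iio κ) (Set.Iio κ), Cm cm := by
  have h1 : IP (L δ) (fun p : Set.Iio κ × Fn (L δ) (Set.Iio κ) (Set.Iio κ) =>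
      (∀ x, x < cf (L δ) p.1 → p.2 x < p.1) ∧
        ∀ y, y < p.1 → ∃ x, x < cf (L δ) p.1 ∧ y ≤ p.2 x) := by
    refine IP.and (IP.all (IP.imp ?_ ?_)) (IP.all (IP.imp ?_ (IP.ex (IP.and ?_ ?_))))
    · exact ip_ltK IF.snd (if_cf (IF.fst.comp IF.fst))
    · exact ip_ltK (IF.app (IF.snd.comp IF.fst) IF.snd) (IF.fst.comp IF.fst)
    · exact ip_ltK IF.snd (IF.fst.comp IF.fst)
    · exact ip_ltK IF.snd (if_cf (IF.fst.comp (IF.fst.comp IF.fst)))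
    · exact ip_leK (IF.snd.comp IF.fst) (IF.app (IF.snd.comp (IF.fst.comp IF.fst)) IF.snd)
  obtain ⟨F, hF, hF'⟩ := choice' (N := L δ)
    (P := fun (a : Set.Iio κ) (F : Fn (L δ) (Set.Iio κ) (Set.Iio κ)) =>
      (∀ x, x < cf (L δ) a → F x < a) ∧ ∀ y, y < a → ∃ x, x < cf (L δ) a ∧ y ≤ F x) h1
    (⟨fun x => x, IF.id⟩ : Fn (L δ) (Set.Iio κ) (Set.Iio κ))
  exact ⟨⟨fun p => F p.1 p.2, IF.app (hF.comp IF.fst) IF.snd⟩, fun a => hF' a (cf_spec a)⟩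

theorem crF_spec (h : Pk (L δ) (Set.Iio κ)) {a : Set.Iio κ} (ha : (Set.Iio a).Infinite) :
    Cd (L δ) (crF h a) ∧ crF h a ≤ a ∧ a < nx (L δ) (crF h a) := by
  obtain ⟨m, hm, hma, hlt, -⟩ := exists_lv h a
  have hm0 : m ≠ ⊥ := by
    rintro rfl
    exact ha ((lt_om h).1 hlt)
  have hcd := lv_cd hm hm0
  have h1 : Cd (L δ) (crF h a) ∧ a < nx (L δ) (crF h a) :=
    lst_spec (N := L δ) (P := fun m => Cd (L δ) m ∧ a < nx (L δ) m) ⟨m, hcd, hlt⟩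
  have h2 : crF h a ≤ m :=
    lst_le (N := L δ) (P := fun m => Cd (L δ) m ∧ a < nx (L δ) m) ⟨hcd, hlt⟩
  exact ⟨h1.1, h2.trans hma, h1.2⟩

theorem pdF_spec (h : Pk (L δ) (Set.Iio κ)) {a t : Set.Iio κ} (ha : nx (L δ) t = a) :
    nx (L δ) (pdF h a) = a ∧ pdF h a < a := by
  have h1 : nx (L δ) (pdF h a) = a :=
    lst_spec (N := L δ) (P := fun t => nx (L δ) t = a) ⟨t, ha⟩
  have h2 := lt_nx h (pdF h a)
  rw [h1] at h2
  exact ⟨h1, h2⟩

end LCA
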