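import Pool.Agent.LCA.HDefs

/-! # The recursion of section 5: histories and the functions `psi b i`

(problem MP_328cd5_lc; architect helper18; section 5 of /team-store/COD_h51.md)

A parameter is `b = (N, (V, (k, r)))`: `bN b = N` (the step function, a set of pairs), `bV b = V` (the set of indices), `bk b = k` (the set of ordinals in question).
* `Ez b c z`: `z` is an element `((n, (x, m)), B n (x, (m, c)))` of the function `E` of the state `c`, restricted to values in `k`.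
* `IsH b i A q E`: for `j < i`: `A j = {(l, (q l, E l)) | l < j}`, `q j = N (j, A j)`, `E j` is the function `E` of the state `(b, (j, A j))`.
* `PsiP b i m w`: some value `w` with index `(n, (x, m))`, `x ∈ L m`, occurs in some `E j`, `j < i`. `psi b i m`: the strict supremum of those `w < nx m`.

PROOFS.
* `IsH.uniq`: by induction on `j < i` (well-founded): `A j = A' j` by `ZFSet.ext` (`hA`, the values for `l < j` agree), then `q j = q' j` (`hq`), `E j = E' j` (`hE`, `ZFSet.ext`).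
* `if_ap`: `fun p : L κ × L κ => ap p.1.1 p.2.1` has values in `L κ` (`exists_ap`: it is `B n (pair ..)`, `B_mem`, `pair_mem`) and is internal (`if_B`, `if_pairL`, `IF.of_cd`). `if_fsn`: the same for `fs`, `sn` (`exists_fs`, `exists_sn`).
* `ip_Ez`: all the elements are in `L κ` (transitive): `∃ n, ∃ x : L κ, x ∈ bV b ∧ ∃ m : L κ, m ∈ bk b ∧ ∃ w : L κ, w ∈ bk b ∧ B n (pair x (pair m c)) = w ∧ z = pair (pair (zn n) (pair x m)) w`: use `ip_memL`, `if_pairL`, `if_B`; `zn n ∈ L κ` is the code of `n` (`IF.of_cd`, `cz_nat`; `zn n = (n : Ordinal).toZFSet ∈ L κ` as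
  `ω ≤ κ`: `LGr.zn_eq`, `ord_mem_L`), `IP.cdeq` for equalities (or `IP.eq` for elements of `L κ`).
* `ip_IsH`: `A`, `q`, `E` are elements of the type `Fn (L δ) (Set.Iio κ) (L κ)`; the three fields are (quantify `z` over `L κ`: elements of `A j ∈ L κ` are in `L κ`, and the pairs on the right side are in `L κ`) internal (`IF.app`, `ip_ltK`, `if_ord` for `j.1.toZFSet`).
* `ip_PsiP`: `IP.ex` over the three functions. `if_psi`: `if_lst`, `ifp_nx` (`have : Fact (Pk _ _) := ⟨h.pk⟩`).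
* `PsiP_iff`: `→`: `IsH.uniq`. `←`: the given functions (with values in `L κ`) are the witnesses. -/

set_option autoImplicit false

universe u v w x

namespace LCA

open STP LGr WCal WM LBB COD

/-- the step function -/
noncomputable def bN (b : ZFSet.{0}) : ZFSet.{0} := fs b

/-- the set of indices -/
noncomputable def bV (b : ZFSet.{0}) : ZFSet.{0} := fs (sn b)

/-- the ordinals -/
noncomputable def bk (b : ZFSet.{0}) : ZFSet.{0} := fs (sn (sn b))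

/-- the elements of the function `E` of the state `c` -/
def Ez (b c z : ZFSet.{0}) : Prop :=
  ∃ n : ℕ, ∃ x ∈ bV b, ∃ m ∈ bk b, ∃ w ∈ bk b, B n (ZFSet.pair x (ZFSet.pair m c)) = w ∧
    z = ZFSet.pair (ZFSet.pair (zn n) (ZFSet.pair x m)) w

section

variable {κ : Ordinal.{0}}

/-- `A`, `q`, `E` are the history of `b` before `i` -/
structure IsH (b : ZFSet.{0}) (i : Set.Iio κ) (A q E : Set.Iio κ → ZFSet.{0}) : Prop where
  hA : ∀ j, j < i → ∀ z, z ∈ A j ↔ ∃ l, l < j ∧ z = ZFSet.pair l.1.toZFSet (ZFSet.pair (q l) (E l))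
  hq : ∀ j, j < i → q j = ap (bN b) (ZFSet.pair j.1.toZFSet (A j))
  hE : ∀ j, j < i → ∀ z, z ∈ E j ↔ Ez b (ZFSet.pair b (ZFSet.pair j.1.toZFSet (A j))) z

theorem IsH.uniq {b : ZFSet.{0}} {i : Set.Iio κ} {A q E A' q' E' : Set.Iio κ → ZFSet.{0}}
    (h : IsH b i A q E) (h' : IsH b i A' q' E') : ∀ j, j < i → A j = A' j ∧ q j = q' j ∧ E j = E' j := by
  intro j
  induction j using WellFoundedLT.induction with
  | ind j ih =>
    intro hj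
    have hA : A j = A' j := by
      ext z
      rw [h.hA j hj, h'.hA j hj]
      constructor
      · rintro ⟨l, hl, rfl⟩
        obtain ⟨-, e1, e2⟩ := ih l hl (hl.trans hj)
        exact ⟨l, hl, by rw [e1, e2]⟩
      · rintro ⟨l, hl, rfl⟩
        obtain ⟨-, e1, e2⟩ := ih l hl (hl.trans hj)
        exact ⟨l, hl, by rw [e1, e2]⟩
    have hq : q j = q' j := by rw [h.hq j hj, h'.hq j hj, hA]
    have hE : E j = E' j := by
      ext z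
      rw [h.hE j hj, h'.hE j hj, hA]
    exact ⟨hA, hq, hE⟩

end

variable {δ κ : Ordinal.{0}} [hG : GM δ] [hκ : Fact (κ < δ)] [h0 : Fact (0 < κ)]

variable (δ) in
/-- the value `w` occurs with an index of the level `m` -/
def PsiP (b : L κ) (i m w : Set.Iio κ) : Prop :=
  ∃ A q E : Fn (L δ) (Set.Iio κ) (L κ),
    IsH b.1 i (fun j => (A j).1) (fun j => (q j).1) (fun j => (E j).1) ∧
    ∃ j, j < i ∧ ∃ (n : ℕ) (x : ZFSet.{0}), x ∈ L m.1 ∧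
      ZFSet.pair (ZFSet.pair (zn n) (ZFSet.pair x m.1.toZFSet)) w.1.toZFSet ∈ (E j).1

variable (δ) in
/-- the strict supremum of the values below `nx m` -/
noncomputable def psi (b : L κ) (i m : Set.Iio κ) : Set.Iio κ :=
  lst (L δ) (fun c => ∀ w, w < nx (L δ) m → PsiP δ b i m w → w < c)

theorem ap_mem {Ω : Ordinal.{0}} (hΩ : Order.IsSuccLimit Ω) {x y : ZFSet.{0}} (hx : x ∈ L Ω) (hy : y ∈ L Ω) :
    ap x y ∈ L Ω := by
  obtain ⟨n, hn⟩ := exists_ap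
  rw [← hn Ω x y hx]
  exact B_mem hΩ n (pair_mem hΩ hx hy)

theorem if_ap {Ω : Ordinal.{0}} [Fact (Ω < δ)] (hΩ : Order.IsSuccLimit Ω) :
    IF (L δ) (fun p : L Ω × L Ω => (⟨ap p.1.1 p.2.1, ap_mem hΩ p.1.2 p.2.2⟩ : L Ω)) := by
  obtain ⟨n, hn⟩ := exists_ap
  refine IF.congr (fun p => ?_) ((if_B hΩ).comp ((IF.const n).pair (if_pairL hΩ)))
  exact Subtype.ext (hn Ω p.1.1 p.2.1 p.1.2)

/-! ### auxiliary functions -/

private theorem tr_mem {Ω : Ordinal.{0}} {x y : ZFSet.{0}} (hx : x ∈ L Ω) (hy : y ∈ x) : y ∈ L Ω :=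
  U_trans F0 hx hy

private theorem fs_mem' {Ω : Ordinal.{0}} (hΩ : Order.IsSuccLimit Ω) {x : ZFSet.{0}} (hx : x ∈ L Ω) :
    fs x ∈ L Ω := by
  obtain ⟨k, hk⟩ := exists_fs
  rw [← hk]
  exact B_mem hΩ k hx

private theorem sn_mem' {Ω : Ordinal.{0}} (hΩ : Order.IsSuccLimit Ω) {x : ZFSet.{0}} (hx : x ∈ L Ω) :
    sn x ∈ L Ω := by
  obtain ⟨k, hk⟩ := exists_sn
  rw [← hk]
  exact B_mem hΩ k hx

private theorem if_fs' {Ω : Ordinal.{0}} [Fact (Ω < δ)] (hΩ : Order.IsSuccLimit Ω) :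
    IF (L δ) (fun p : L Ω => (⟨fs p.1, fs_mem' hΩ p.2⟩ : L Ω)) := by
  obtain ⟨n, hn⟩ := exists_fs
  exact IF.congr (fun p => Subtype.ext (hn p.1)) ((if_B hΩ).comp ((IF.const n).pair IF.id))

private theorem if_sn' {Ω : Ordinal.{0}} [Fact (Ω < δ)] (hΩ : Order.IsSuccLimit Ω) :
    IF (L δ) (fun p : L Ω => (⟨sn p.1, sn_mem' hΩ p.2⟩ : L Ω)) := by
  obtain ⟨n, hn⟩ := exists_sn
  exact IF.congr (fun p => Subtype.ext (hn p.1)) ((if_B hΩ).comp ((IF.const n).pair IF.id))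

private theorem nat_lt' {Ω : Ordinal.{0}} (hΩ : Order.IsSuccLimit Ω) (n : ℕ) :
    (n : Ordinal.{0}) < Ω := by
  induction n with
  | zero => exact Nat.cast_zero (R := Ordinal.{0}) ▸ hΩ.bot_lt
  | succ n ih =>
    rw [Nat.cast_succ]
    exact hΩ.succ_lt ih

private theorem zn_mem' {Ω : Ordinal.{0}} (hΩ : Order.IsSuccLimit Ω) (n : ℕ) : zn n ∈ L Ω := by
  rw [zn_eq]
  exact (ord_mem_L hΩ).2 (nat_lt' hΩ n)

private theorem if_zn' {Ω : Ordinal.{0}} [Fact (Ω < δ)] (hΩ : Order.IsSuccLimit Ω) :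
    IF (L δ) (fun n : ℕ => (⟨zn n, zn_mem' hΩ n⟩ : L Ω)) :=
  IF.of_cd (f := fun n : ℕ => n) IF.id fun n => Subtype.ext (cz_nat (δ := δ) n).symm

private theorem Ez_mem {Ω : Ordinal.{0}} (hΩ : Order.IsSuccLimit Ω) {b c z : ZFSet.{0}}
    (hb : b ∈ L Ω) (h : Ez b c z) : z ∈ L Ω := by
  obtain ⟨n, x, hx, m, hm, w, hw, -, rfl⟩ := h
  have hx' : x ∈ L Ω := tr_mem (fs_mem' hΩ (sn_mem' hΩ hb)) hx
  have hk : bk b ∈ L Ω := fs_mem' hΩ (sn_mem' hΩ (sn_mem' hΩ hb))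
  exact pair_mem hΩ (pair_mem hΩ (zn_mem' hΩ n) (pair_mem hΩ hx' (tr_mem hk hm))) (tr_mem hk hw)

/-- typed form of `Ez` -/
private theorem Ez_typed {Ω : Ordinal.{0}} (hΩ : Order.IsSuccLimit Ω) (b c z : L Ω) :
    Ez b.1 c.1 z.1 ↔ ∃ n : ℕ, ∃ x : L Ω, x.1 ∈ bV b.1 ∧ ∃ m : L Ω, m.1 ∈ bk b.1 ∧
      ∃ w : L Ω, w.1 ∈ bk b.1 ∧
      (⟨B n (ZFSet.pair x.1 (ZFSet.pair m.1 c.1)),
        B_mem hΩ n (pair_mem hΩ x.2 (pair_mem hΩ m.2 c.2))⟩ : L Ω) = w ∧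
      z = (⟨ZFSet.pair (ZFSet.pair (zn n) (ZFSet.pair x.1 m.1)) w.1,
        pair_mem hΩ (pair_mem hΩ (zn_mem' hΩ n) (pair_mem hΩ x.2 m.2)) w.2⟩ : L Ω) := by
  have hV : bV b.1 ∈ L Ω := fs_mem' hΩ (sn_mem' hΩ b.2)
  have hk : bk b.1 ∈ L Ω := fs_mem' hΩ (sn_mem' hΩ (sn_mem' hΩ b.2))
  constructor
  · rintro ⟨n, x, hx, m, hm, w, hw, h1, h2⟩
    exact ⟨n, ⟨x, tr_mem hV hx⟩, hx, ⟨m, tr_mem hk hm⟩, hm, ⟨w, tr_mem hk hw⟩, hw,
      Subtype.ext h1, Subtype.ext h2⟩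
  · rintro ⟨n, x, hx, m, hm, w, hw, h1, h2⟩
    exact ⟨n, x.1, hx, m.1, hm, w.1, hw, congrArg Subtype.val h1, congrArg Subtype.val h2⟩

private theorem ip_memL2 {γ : Type*} [WTy (L δ) γ] {Ω : Ordinal.{0}} [Fact (Ω < δ)]
    {f g : γ → L Ω} (hf : IF (L δ) f) (hg : IF (L δ) g) : IP (L δ) (fun c => (f c).1 ∈ (g c).1) :=
  IP.comp2 (P := fun x y : L Ω => x.1 ∈ y.1) ip_memL hf hg

private theorem if_pairL2 {γ : Type*} [WTy (L δ) γ] {Ω : Ordinal.{0}} [Fact (Ω < δ)]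
    (hΩ : Order.IsSuccLimit Ω) {f g : γ → L Ω} (hf : IF (L δ) f) (hg : IF (L δ) g) :
    IF (L δ) (fun c => (⟨ZFSet.pair (f c).1 (g c).1, pair_mem hΩ (f c).2 (g c).2⟩ : L Ω)) :=
  IF.comp (if_pairL hΩ) (hf.pair hg)

private theorem if_B2 {γ : Type*} [WTy (L δ) γ] {Ω : Ordinal.{0}} [Fact (Ω < δ)]
    (hΩ : Order.IsSuccLimit Ω) {f : γ → ℕ} {g : γ → L Ω} (hf : IF (L δ) f) (hg : IF (L δ) g) :
    IF (L δ) (fun c => (⟨B (f c) (g c).1, B_mem hΩ (f c) (g c).2⟩ : L Ω)) :=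
  IF.comp (if_B hΩ) (hf.pair hg)

private theorem if_ap2 {γ : Type*} [WTy (L δ) γ] {Ω : Ordinal.{0}} [Fact (Ω < δ)]
    (hΩ : Order.IsSuccLimit Ω) {f g : γ → L Ω} (hf : IF (L δ) f) (hg : IF (L δ) g) :
    IF (L δ) (fun c => (⟨ap (f c).1 (g c).1, ap_mem hΩ (f c).2 (g c).2⟩ : L Ω)) :=
  IF.comp (if_ap hΩ) (hf.pair hg)

private theorem if_bN {γ : Type*} [WTy (L δ) γ] {Ω : Ordinal.{0}} [Fact (Ω < δ)]
    (hΩ : Order.IsSuccLimit Ω) {f : γ → L Ω} (hf : IF (L δ) f) :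
    IF (L δ) (fun c => (⟨bN (f c).1, fs_mem' hΩ (f c).2⟩ : L Ω)) :=
  IF.comp (if_fs' hΩ) hf

private theorem if_bV {γ : Type*} [WTy (L δ) γ] {Ω : Ordinal.{0}} [Fact (Ω < δ)]
    (hΩ : Order.IsSuccLimit Ω) {f : γ → L Ω} (hf : IF (L δ) f) :
    IF (L δ) (fun c => (⟨bV (f c).1, fs_mem' hΩ (sn_mem' hΩ (f c).2)⟩ : L Ω)) :=
  IF.comp (if_fs' hΩ) (IF.comp (if_sn' hΩ) hf)

private theorem if_bk {γ : Type*} [WTy (L δ) γ] {Ω : Ordinal.{0}} [Fact (Ω < δ)]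
    (hΩ : Order.IsSuccLimit Ω) {f : γ → L Ω} (hf : IF (L δ) f) :
    IF (L δ) (fun c => (⟨bk (f c).1, fs_mem' hΩ (sn_mem' hΩ (sn_mem' hΩ (f c).2))⟩ : L Ω)) :=
  IF.comp (if_fs' hΩ) (IF.comp (if_sn' hΩ) (IF.comp (if_sn' hΩ) hf))

private theorem ip_Ez' {Ω : Ordinal.{0}} [Fact (Ω < δ)] (hΩ : Order.IsSuccLimit Ω) :
    IP (L δ) (fun p : L Ω × L Ω × L Ω => Ez p.1.1 p.2.1.1 p.2.2.1) := by
  refine IP.congr (fun p => (Ez_typed hΩ p.1 p.2.1 p.2.2).symm) ?_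
  refine IP.ex (P := fun (p : L Ω × L Ω × L Ω) (n : ℕ) => _) ?_
  refine IP.ex (P := fun (p : (L Ω × L Ω × L Ω) × ℕ) (x : L Ω) => _) ?_
  have a1 : IF (L δ) (fun q : ((L Ω × L Ω × L Ω) × ℕ) × L Ω => q.1.1.1) :=
    IF.fst.comp (IF.fst.comp IF.fst)
  refine IP.and (ip_memL2 IF.snd (if_bV hΩ a1)) ?_
  refine IP.ex (P := fun (p : ((L Ω × L Ω × L Ω) × ℕ) × L Ω) (m : L Ω) => _) ?_
  have a2 : IF (L δ) (fun q : (((L Ω × L Ω × L Ω) × ℕ) × L Ω) × L Ω => q.1.1.1.1) :=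
    a1.comp IF.fst
  refine IP.and (ip_memL2 IF.snd (if_bk hΩ a2)) ?_
  refine IP.ex (P := fun (p : (((L Ω × L Ω × L Ω) × ℕ) × L Ω) × L Ω) (w : L Ω) => _) ?_
  have a3 : IF (L δ) (fun q : ((((L Ω × L Ω × L Ω) × ℕ) × L Ω) × L Ω) × L Ω => q.1.1.1.1.1) :=
    a2.comp IF.fst
  refine IP.and (ip_memL2 IF.snd (if_bk hΩ a3)) ?_
  have b1 : IF (L δ) (fun q : ((((L Ω × L Ω × L Ω) × ℕ) × L Ω) × L Ω) × L Ω => q.1.1.1.2) :=
    IF.snd.comp (IF.fst.comp (IF.fst.comp IF.fst))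
  have b2 : IF (L δ) (fun q : ((((L Ω × L Ω × L Ω) × ℕ) × L Ω) × L Ω) × L Ω => q.1.1.2) :=
    IF.snd.comp (IF.fst.comp IF.fst)
  have b3 : IF (L δ) (fun q : ((((L Ω × L Ω × L Ω) × ℕ) × L Ω) × L Ω) × L Ω => q.1.2) :=
    IF.snd.comp IF.fst
  have b4 : IF (L δ) (fun q : ((((L Ω × L Ω × L Ω) × ℕ) × L Ω) × L Ω) × L Ω =>
      q.1.1.1.1.2.1) :=
    IF.fst.comp (IF.snd.comp (IF.fst.comp (IF.fst.comp (IF.fst.comp IF.fst))))
  have b5 : IF (L δ) (fun q : ((((L Ω × L Ω × L Ω) × ℕ) × L Ω) × L Ω) × L Ω =>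
      q.1.1.1.1.2.2) :=
    IF.snd.comp (IF.snd.comp (IF.fst.comp (IF.fst.comp (IF.fst.comp IF.fst))))
  refine IP.and (IP.eq (if_B2 hΩ b1 (if_pairL2 hΩ b2 (if_pairL2 hΩ b3 b4))) IF.snd)
    (IP.eq b5 (if_pairL2 hΩ (if_pairL2 hΩ (IF.comp (if_zn' hΩ) b1) (if_pairL2 hΩ b2 b3)) IF.snd))

omit h0 in
/-- typed form of `IsH` -/
private theorem IsH_typed (hκ' : Order.IsSuccLimit κ) (b : L κ) (i : Set.Iio κ)
    (A q E : Set.Iio κ → L κ) :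
    IsH b.1 i (fun j => (A j).1) (fun j => (q j).1) (fun j => (E j).1) ↔
      ∀ j, j < i → (∀ z : L κ, z.1 ∈ (A j).1 ↔ ∃ l, l < j ∧ z =
        (⟨ZFSet.pair l.1.toZFSet (ZFSet.pair (q l).1 (E l).1),
          pair_mem hκ' ((ord_mem_L hκ').2 l.2) (pair_mem hκ' (q l).2 (E l).2)⟩ : L κ)) ∧
        q j = (⟨ap (bN b.1) (ZFSet.pair j.1.toZFSet (A j).1), ap_mem hκ' (fs_mem' hκ' b.2)
          (pair_mem hκ' ((ord_mem_L hκ').2 j.2) (A j).2)⟩ : L κ) ∧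
        ∀ z : L κ, z.1 ∈ (E j).1 ↔ Ez b.1 (ZFSet.pair b.1 (ZFSet.pair j.1.toZFSet (A j).1)) z.1 := by
  constructor
  · intro h j hj
    refine ⟨fun z => ?_, Subtype.ext (h.hq j hj), fun z => h.hE j hj z.1⟩
    rw [h.hA j hj z.1]
    exact ⟨fun ⟨l, hl, e⟩ => ⟨l, hl, Subtype.ext e⟩,
      fun ⟨l, hl, e⟩ => ⟨l, hl, congrArg Subtype.val e⟩⟩
  · intro h
    refine ⟨fun j hj z => ?_, fun j hj => congrArg Subtype.val (h j hj).2.1, fun j hj z => ?_⟩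
    · constructor
      · intro hz
        obtain ⟨l, hl, e⟩ := ((h j hj).1 ⟨z, tr_mem (A j).2 hz⟩).1 hz
        exact ⟨l, hl, congrArg Subtype.val e⟩
      · rintro ⟨l, hl, rfl⟩
        exact ((h j hj).1 ⟨_, pair_mem hκ' ((ord_mem_L hκ').2 l.2)
          (pair_mem hκ' (q l).2 (E l).2)⟩).2 ⟨l, hl, rfl⟩
    · constructor
      · intro hz
        exact ((h j hj).2.2 ⟨z, tr_mem (E j).2 hz⟩).1 hz
      · intro hz
        exact ((h j hj).2.2 ⟨z, Ez_mem hκ' b.2 hz⟩).2 hz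

theorem ip_Ez (h : MahM δ κ) : IP (L δ) (fun p : L κ × L κ × L κ => Ez p.1.1 p.2.1.1 p.2.2.1) :=
  ip_Ez' h.lim

theorem ip_IsH (h : MahM δ κ) : IP (L δ) (fun p : L κ × Set.Iio κ × Fn (L δ) (Set.Iio κ) (L κ) ×
    Fn (L δ) (Set.Iio κ) (L κ) × Fn (L δ) (Set.Iio κ) (L κ) =>
    IsH p.1.1 p.2.1 (fun j => (p.2.2.1 j).1) (fun j => (p.2.2.2.1 j).1) (fun j => (p.2.2.2.2 j).1)) := by
  have hl := h.lim
  let T := L κ × Set.Iio κ × Fn (L δ) (Set.Iio κ) (L κ) × Fn (L δ) (Set.Iio κ) (L κ) ×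
    Fn (L δ) (Set.Iio κ) (L κ)
  refine IP.congr (fun p : T => (IsH_typed hl p.1 p.2.1 p.2.2.1 p.2.2.2.1 p.2.2.2.2).symm) ?_
  have ho : IF (L δ) (fun x : Set.Iio κ => (⟨x.1.toZFSet, (ord_mem_L hl).2 x.2⟩ : L κ)) :=
    if_ord fun x => (ord_mem_L hl).2 x.2
  refine IP.all (P := fun (p : T) (j : Set.Iio κ) => _) ?_
  -- the components for `T × Set.Iio κ`
  have cb : IF (L δ) (fun t : T × Set.Iio κ => t.1.1) := IF.fst.comp IF.fst
  have ci : IF (L δ) (fun t : T × Set.Iio κ => t.1.2.1) := IF.fst.comp (IF.snd.comp IF.fst)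
  have cA : IF (L δ) (fun t : T × Set.Iio κ => t.1.2.2.1) :=
    IF.fst.comp (IF.snd.comp (IF.snd.comp IF.fst))
  have cq : IF (L δ) (fun t : T × Set.Iio κ => t.1.2.2.2.1) :=
    IF.fst.comp (IF.snd.comp (IF.snd.comp (IF.snd.comp IF.fst)))
  have cE : IF (L δ) (fun t : T × Set.Iio κ => t.1.2.2.2.2) :=
    IF.snd.comp (IF.snd.comp (IF.snd.comp (IF.snd.comp IF.fst)))
  have cAj : IF (L δ) (fun t : T × Set.Iio κ => t.1.2.2.1 t.2) := IF.app cA IF.snd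
  have cqj : IF (L δ) (fun t : T × Set.Iio κ => t.1.2.2.2.1 t.2) := IF.app cq IF.snd
  have cEj : IF (L δ) (fun t : T × Set.Iio κ => t.1.2.2.2.2 t.2) := IF.app cE IF.snd
  have cst := if_pairL2 hl (IF.comp ho IF.snd) cAj
  refine IP.imp (ip_ltK IF.snd ci) (IP.and ?_ (IP.and ?_ ?_))
  · refine IP.all (P := fun (t : T × Set.Iio κ) (z : L κ) => _) ?_
    refine IP.iff (ip_memL2 IF.snd (cAj.comp IF.fst)) ?_
    refine IP.ex (P := fun (t : (T × Set.Iio κ) × L κ) (l : Set.Iio κ) => _) ?_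
    have d1 : IF (L δ) (fun t : ((T × Set.Iio κ) × L κ) × Set.Iio κ => t.1.1) :=
      IF.fst.comp IF.fst
    refine IP.and (ip_ltK IF.snd (IF.snd.comp d1)) (IP.eq (IF.snd.comp IF.fst) ?_)
    exact if_pairL2 hl (IF.comp ho IF.snd) (if_pairL2 hl (IF.app (cq.comp d1) IF.snd)
      (IF.app (cE.comp d1) IF.snd))
  · exact IP.eq cqj (if_ap2 hl (if_bN hl cb) cst)
  · refine IP.all (P := fun (t : T × Set.Iio κ) (z : L κ) => _) ?_
    refine IP.iff (ip_memL2 IF.snd (cEj.comp IF.fst)) ?_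
    have e1 : IF (L δ) (fun t : (T × Set.Iio κ) × L κ => t.1.1.1) := cb.comp IF.fst
    have e2 := if_pairL2 hl e1 (cst.comp IF.fst)
    exact IP.comp (P := fun p : L κ × L κ × L κ => Ez p.1.1 p.2.1.1 p.2.2.1) (ip_Ez' hl)
      (e1.pair (e2.pair IF.snd))

omit h0 in
/-- typed form of `PsiP` -/
private theorem PsiP_typed (hl : Order.IsSuccLimit κ) (b : L κ) (i m w : Set.Iio κ) :
    PsiP δ b i m w ↔ ∃ A q E : Fn (L δ) (Set.Iio κ) (L κ),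
    IsH b.1 i (fun j => (A j).1) (fun j => (q j).1) (fun j => (E j).1) ∧
    ∃ j, j < i ∧ ∃ (n : ℕ) (x : L κ), x.1 ∈ L m.1 ∧
      ((⟨ZFSet.pair (ZFSet.pair (zn n) (ZFSet.pair x.1 m.1.toZFSet)) w.1.toZFSet,
        pair_mem hl (pair_mem hl (zn_mem' hl n) (pair_mem hl x.2 ((ord_mem_L hl).2 m.2)))
          ((ord_mem_L hl).2 w.2)⟩ : L κ)).1 ∈ (E j).1 := by
  constructor
  · rintro ⟨A, q, E, hH, j, hj, n, x, hx, h1⟩
    exact ⟨A, q, E, hH, j, hj, n, ⟨x, U_mono F0 (le_of_lt m.2) hx⟩, hx, h1⟩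
  · rintro ⟨A, q, E, hH, j, hj, n, x, hx, h1⟩
    exact ⟨A, q, E, hH, j, hj, n, x.1, hx, h1⟩

theorem ip_PsiP (h : MahM δ κ) : IP (L δ) (fun p : L κ × Set.Iio κ × Set.Iio κ × Set.Iio κ =>
    PsiP δ p.1 p.2.1 p.2.2.1 p.2.2.2) := by
  have hl := h.lim
  refine IP.congr (fun p : L κ × Set.Iio κ × Set.Iio κ × Set.Iio κ =>
    (PsiP_typed hl p.1 p.2.1 p.2.2.1 p.2.2.2).symm) ?_
  have ho : IF (L δ) (fun x : Set.Iio κ => (⟨x.1.toZFSet, (ord_mem_L hl).2 x.2⟩ : L κ)) :=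
    if_ord fun x => (ord_mem_L hl).2 x.2
  refine IP.ex (P := fun (p : L κ × Set.Iio κ × Set.Iio κ × Set.Iio κ)
    (A : Fn (L δ) (Set.Iio κ) (L κ)) => _) ?_
  refine IP.ex (P := fun (p : (L κ × Set.Iio κ × Set.Iio κ × Set.Iio κ) ×
    Fn (L δ) (Set.Iio κ) (L κ)) (q : Fn (L δ) (Set.Iio κ) (L κ)) => _) ?_
  refine IP.ex (P := fun (p : ((L κ × Set.Iio κ × Set.Iio κ × Set.Iio κ) ×
    Fn (L δ) (Set.Iio κ) (L κ)) × Fn (L δ) (Set.Iio κ) (L κ))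
    (E : Fn (L δ) (Set.Iio κ) (L κ)) => _) ?_
  let U := (((L κ × Set.Iio κ × Set.Iio κ × Set.Iio κ) ×
    Fn (L δ) (Set.Iio κ) (L κ)) × Fn (L δ) (Set.Iio κ) (L κ)) × Fn (L δ) (Set.Iio κ) (L κ)
  have cp : IF (L δ) (fun t : U => t.1.1.1) := IF.fst.comp (IF.fst.comp IF.fst)
  have cb : IF (L δ) (fun t : U => t.1.1.1.1) := IF.fst.comp cp
  have ci : IF (L δ) (fun t : U => t.1.1.1.2.1) := IF.fst.comp (IF.snd.comp cp)
  have cm : IF (L δ) (fun t : U => t.1.1.1.2.2.1) := IF.fst.comp (IF.snd.comp (IF.snd.comp cp))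
  have cw : IF (L δ) (fun t : U => t.1.1.1.2.2.2) := IF.snd.comp (IF.snd.comp (IF.snd.comp cp))
  have cA : IF (L δ) (fun t : U => t.1.1.2) := IF.snd.comp (IF.fst.comp IF.fst)
  have cq : IF (L δ) (fun t : U => t.1.2) := IF.snd.comp IF.fst
  have cE : IF (L δ) (fun t : U => t.2) := IF.snd
  refine IP.and ?_ ?_
  · exact IP.comp (ip_IsH h) (cb.pair (ci.pair (cA.pair (cq.pair cE))))
  · refine IP.ex (P := fun (t : U) (j : Set.Iio κ) => _) ?_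
    refine IP.and (ip_ltK IF.snd (ci.comp IF.fst)) ?_
    refine IP.ex (P := fun (t : U × Set.Iio κ) (n : ℕ) => _) ?_
    refine IP.ex (P := fun (t : (U × Set.Iio κ) × ℕ) (x : L κ) => _) ?_
    have d1 : IF (L δ) (fun t : ((U × Set.Iio κ) × ℕ) × L κ => t.1.1) := IF.fst.comp IF.fst
    have d2 : IF (L δ) (fun t : ((U × Set.Iio κ) × ℕ) × L κ => t.1.1.1) := IF.fst.comp d1
    have d3 : IF (L δ) (fun t : ((U × Set.Iio κ) × ℕ) × L κ => t.1.1.2) := IF.snd.comp d1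
    have d4 : IF (L δ) (fun t : ((U × Set.Iio κ) × ℕ) × L κ => t.1.2) := IF.snd.comp IF.fst
    refine IP.and ?_ ?_
    · exact IP.comp2 (P := fun (α : Set.Iio κ) (x : L κ) => x.1 ∈ L α.1) ip_lev (cm.comp d2) IF.snd
    · refine ip_memL2 ?_ (IF.app (cE.comp d2) d3)
      exact if_pairL2 hl (if_pairL2 hl (IF.comp (if_zn' hl) d4) (if_pairL2 hl IF.snd
        (IF.comp ho (cm.comp d2)))) (IF.comp ho (cw.comp d2))

theorem if_psi (h : MahM δ κ) : IF (L δ) (fun p : L κ × Set.Iio κ × Set.Iio κ => psi δ p.1 p.2.1 p.2.2) := by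
  have : Fact (Pk (L δ) (Set.Iio κ)) := ⟨h.pk⟩
  refine if_lst (P := fun (p : L κ × Set.Iio κ × Set.Iio κ) (c : Set.Iio κ) =>
    ∀ w, w < nx (L δ) p.2.2 → PsiP δ p.1 p.2.1 p.2.2 w → w < c) ?_
  refine IP.all (P := fun (t : (L κ × Set.Iio κ × Set.Iio κ) × Set.Iio κ) (w : Set.Iio κ) => _) ?_
  have c1 : IF (L δ) (fun t : ((L κ × Set.Iio κ × Set.Iio κ) × Set.Iio κ) × Set.Iio κ =>
      t.1.1) := IF.fst.comp IF.fst
  have cm : IF (L δ) (fun t : ((L κ × Set.Iio κ × Set.Iio κ) × Set.Iio κ) × Set.Iio κ =>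
      t.1.1.2.2) := IF.snd.comp (IF.snd.comp c1)
  refine IP.imp (ip_ltK IF.snd (ifp_nx cm)) (IP.imp ?_ (ip_ltK IF.snd (IF.snd.comp IF.fst)))
  exact IP.comp (P := fun p : L κ × Set.Iio κ × Set.Iio κ × Set.Iio κ =>
    PsiP δ p.1 p.2.1 p.2.2.1 p.2.2.2) (ip_PsiP h) ((IF.fst.comp c1).pair ((IF.fst.comp (IF.snd.comp c1)).pair
    (cm.pair IF.snd)))

theorem PsiP_iff {b : L κ} {i : Set.Iio κ} {A q E : Set.Iio κ → L κ} (hA : IF (L δ) A) (hq : IF (L δ) q)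
    (hE : IF (L δ) E) (h : IsH b.1 i (fun j => (A j).1) (fun j => (q j).1) (fun j => (E j).1)) (m w : Set.Iio κ) :
    PsiP δ b i m w ↔ ∃ j, j < i ∧ ∃ (n : ℕ) (x : ZFSet.{0}), x ∈ L m.1 ∧
      ZFSet.pair (ZFSet.pair (zn n) (ZFSet.pair x m.1.toZFSet)) w.1.toZFSet ∈ (E j).1 := by
  constructor
  · rintro ⟨A', q', E', hH, j, hj, n, x, hx, h1⟩
    have h2 : (E' j).1 = (E j).1 := (hH.uniq h j hj).2.2
    exact ⟨j, hj, n, x, hx, h2 ▸ h1⟩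
  · rintro ⟨j, hj, n, x, hx, h1⟩
    exact ⟨⟨A, hA⟩, ⟨q, hq⟩, ⟨E, hE⟩, h, j, hj, n, x, hx, h1⟩

end LCA
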