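import Pool.Agent.LCA.HPar
import Pool.Agent.LBB.ICnd

/-! # The union of the hulls `Xh b A j l`, `j < i`

(problem MP_328cd5_lc; architect helper18; section 6, case 1 of /team-store/COD_h51.md)

`b = bb h.pk st sj par`, `ŵ = w.1.toZFSet = cz δ w`; `i ≤ m0` a limit, `l > m0` a limit level.

PROOFS.
* `uni` : `X := {y | ∃ j, j < i ∧ y ∈ Xh b A j l}`. `Xh_mono` (`m = m' = l`): `Xh b A j l ⊆ Xh b A j' l` for `j ≤ j' < i` (`j' < i ≤ m0 < l`). So `X` is closed (nonempty as `⊥ < i`; two elements lie in one `Xh b A j l`), `X ⊆ L Ω` (`Xh_sub`), `L l.1 ⊆ X`, `l̂, b ∈ X` (`Xh_L`, `Xh_m`, `Xh_b`), and for `j < i`: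
  `cz (A j), cz (q j), cz (E j) ∈ X`: choose `j' < i` with `j < j'` (`Lim`), `cc_mem` in `Xh b A j' l` (`Xh_c`; `ĵ ∈ L l.1`).
* `zet`: `ζ := lst (fun c => ∀ j, j < i → GG δ (E j) l ≤ c)`. `GG δ (E j) l < nx l` (`Xh_lt`) and `i < nx l`, so by `reg_bdd_fn` (`reg_nx'`) some `c < nx l` bounds them, `ζ ≤ c < nx l`. For `w < nx l`: `ŵ ∈ X ↔ ∃ j < i, w < GG δ (E j) l ↔ w < ζ` (if `w < ζ` then `w` is not an upper bound).
* `uniS`: the internal set: `S0 := {u : L Ω | ∃ j, j < i ∧ ∃ (n : ℕ) (x : L κ), x.1 ∈ L l.1 ∧ B n (pair x.1 (pair l̂ (cc b j (A j)))) = u.1}`: `if_B`, `if_pairL`, `if_ord`, `if_code` (`S.HΩ`), `S.iA`, `if_incl`, `ip_lev`. `vs S0 = X`. -/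

set_option autoImplicit false

universe u v w x

namespace LCA

open STP LGr WCal WM LBB COD

variable {δ κ : Ordinal.{0}} [hG : GM δ] [hκ : Fact (κ < δ)] [h0 : Fact (0 < κ)]
  {T : Type w} [WTy (L δ) T] {P : Type x} [WTy (L δ) P]
  {h : MahM δ κ} {st : Fn (L δ) (Set.Iio κ × HH δ κ T) T} {sj : Fn (L δ) (Set.Iio κ × Set.Iio κ) (Set.Iio κ)}
  {par : P} {Ω : Ordinal.{0}} {q : Set.Iio κ → T} {E : Set.Iio κ → EE δ κ} {A : Set.Iio κ → HH δ κ T}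

private theorem huni_bot {N : Type u} [WM N] {K : Type v} [WTy N K] [KTy N K] {y : K}
    (h : y ≠ ⊥) : ⊥ < y := bot_lt_iff_ne_bot.2 h

/-- the union of the hulls `Xh b A j l`, `j < i` -/
def UX (b : ZFSet.{0}) (A : Set.Iio κ → HH δ κ T) (i l : Set.Iio κ) : Set ZFSet.{0} :=
  {y | ∃ j, j < i ∧ y ∈ Xh b A j l}

theorem uni (S : Sq Ω (bb h.pk st sj par) st q E A) {m0 i l : Set.Iio κ} (hi : i ≤ m0) (hlim : Lim (L δ) i)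
    (hl : LL (L δ) l) (hml : m0 < l) :
    Cls (UX (bb h.pk st sj par) A i l) ∧ UX (bb h.pk st sj par) A i l ⊆ L Ω ∧
    L l.1 ⊆ UX (bb h.pk st sj par) A i l ∧ l.1.toZFSet ∈ UX (bb h.pk st sj par) A i l ∧
    bb h.pk st sj par ∈ UX (bb h.pk st sj par) A i l ∧
    ∀ j, j < i → cz δ (A j) ∈ UX (bb h.pk st sj par) A i l ∧ cz δ (q j) ∈ UX (bb h.pk st sj par) A i l ∧
      cz δ (E j) ∈ UX (bb h.pk st sj par) A i l := by
  have hjl : ∀ j, j < i → j ≤ l := fun j hj => (hj.trans_le (hi.trans hml.le)).le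
  have hmono : ∀ j j', j ≤ j' → j' < i →
      Xh (bb h.pk st sj par) A j l ⊆ Xh (bb h.pk st sj par) A j' l := fun j j' h1 h2 =>
    Xh_mono (h := h) S hl.1 hl.1 le_rfl h1 (hjl j' h2)
  have hcls : ∀ j, Cls (Xh (bb h.pk st sj par) A j l) := fun j => Xh_cls h hl.1 j
  have hbot : (⊥ : Set.Iio κ) < i := huni_bot (N := L δ) hlim.1
  have hsub : ∀ j, j < i → Xh (bb h.pk st sj par) A j l ⊆ UX (bb h.pk st sj par) A i l :=
    fun j hj y hy => ⟨j, hj, hy⟩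
  refine ⟨⟨?_, ?_, ?_⟩, ?_, ?_, ?_, ?_, ?_⟩
  · obtain ⟨y, hy⟩ := (hcls ⊥).ne
    exact ⟨y, ⊥, hbot, hy⟩
  · rintro x ⟨j, hj, hx⟩ y ⟨j', hj', hy⟩
    have hmax : max j j' < i := max_lt hj hj'
    exact ⟨max j j', hmax, (hcls _).pr x (hmono j _ (le_max_left _ _) hmax hx) y
      (hmono j' _ (le_max_right _ _) hmax hy)⟩
  · rintro n x ⟨j, hj, hx⟩
    exact ⟨j, hj, (hcls j).B n x hx⟩
  · rintro x ⟨j, hj, hx⟩
    exact Xh_sub S j l hx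
  · exact (Xh_L ⊥ l).trans (hsub ⊥ hbot)
  · exact ⟨⊥, hbot, Xh_m h hl.1 ⊥⟩
  · exact ⟨⊥, hbot, Xh_b h hl.1 ⊥⟩
  · intro j hj
    obtain ⟨j', h1, h2⟩ := hlim.2 j hj
    have h3 : j.1.toZFSet ∈ Xh (bb h.pk st sj par) A j' l :=
      Xh_L j' l ((ord_mem_L (lim_of_cd h hl.1)).2
        (show j < l from hj.trans_le (hi.trans hml.le)))
    obtain ⟨-, h4, h5, h6⟩ := cc_mem (h := h) S (hcls j') (Xh_sub S j' l) (Xh_c h hl.1 j') h3 h1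
    exact ⟨⟨j', h2, h4⟩, ⟨j', h2, h5⟩, ⟨j', h2, h6⟩⟩

theorem zet (S : Sq Ω (bb h.pk st sj par) st q E A) (hsj : Sj sj) {m0 i l : Set.Iio κ} (hi : i ≤ m0)
    (hl : LL (L δ) l) (hml : m0 < l) :
    ∃ ζ, ζ < nx (L δ) l ∧ ∀ w, w < nx (L δ) l → (w.1.toZFSet ∈ UX (bb h.pk st sj par) A i l ↔ w < ζ) := by
  have hG : IF (L δ) (fun j : Set.Iio κ => GG δ (E j) l) :=
    (if_GG h.pk).comp (IF.pair S.iE (IF.const l))
  have hX := fun j => Xh_lt (h := h) (m := l) S hsj hl.1 j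
  have hin : i < nx (L δ) l := (hi.trans_lt hml).trans (lt_nx h.pk l)
  obtain ⟨c, hc, hc'⟩ := reg_bdd_fn h.pk (reg_nx' h.pk l) hin hG fun x _ => (hX x).1
  have hne : {c : Set.Iio κ | ∀ j, j < i → GG δ (E j) l ≤ c}.Nonempty :=
    ⟨c, fun j hj => (hc' j hj).le⟩
  have hwf : WellFounded (fun x y : Set.Iio κ => x < y) := wellFounded_lt
  refine ⟨hwf.min _ hne, ?_, ?_⟩
  · refine lt_of_le_of_lt (not_lt.1 ?_) hc
    exact hwf.not_lt_min _ (show c ∈ {c : Set.Iio κ | ∀ j, j < i → GG δ (E j) l ≤ c} from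
      fun j hj => (hc' j hj).le)
  · intro w hw
    constructor
    · rintro ⟨j, hj, h1⟩
      exact (((hX j).2 w hw).1 h1).trans_le (hwf.min_mem _ hne j hj)
    · intro h1
      by_contra hcon
      refine hwf.not_lt_min _ (show w ∈ {c : Set.Iio κ | ∀ j, j < i → GG δ (E j) l ≤ c} from
        fun j hj => ?_) h1
      refine not_lt.1 fun h2 => ?_
      exact hcon ⟨j, hj, ((hX j).2 w hw).2 h2⟩

theorem uniS (S : Sq Ω (bb h.pk st sj par) st q E A) [hΩ : Fact (Ω < δ)] (i l : Set.Iio κ) :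
    ∃ S0 : St (L δ) (L Ω), vs S0 = UX (bb h.pk st sj par) A i l := by
  have hΩ' := S.Ωlim
  have ho : ∀ x : Set.Iio κ, x.1.toZFSet ∈ L Ω :=
    fun x => (ord_mem_L hΩ').2 (lt_trans x.2 S.κΩ)
  have i0 : IF (L δ) (fun r : ((L Ω × Set.Iio κ) × ℕ) × L κ => r.1.1.2) :=
    IF.snd' (IF.fst' IF.fst)
  have i1 : IF (L δ) (fun r : ((L Ω × Set.Iio κ) × ℕ) × L κ =>
      (⟨r.1.1.2.1.toZFSet, ho _⟩ : L Ω)) := (if_ord ho).comp i0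
  have i2 : IF (L δ) (fun r : ((L Ω × Set.Iio κ) × ℕ) × L κ =>
      (⟨cz δ (A r.1.1.2), S.HΩ _⟩ : L Ω)) := (if_code S.HΩ).comp (S.iA.comp i0)
  have i3 : IF (L δ) (fun r : ((L Ω × Set.Iio κ) × ℕ) × L κ =>
      (⟨cc (bb h.pk st sj par) r.1.1.2 (A r.1.1.2),
        pair_mem hΩ' S.bΩ (pair_mem hΩ' (ho _) (S.HΩ _))⟩ : L Ω)) :=
    (if_pairL hΩ').comp (IF.pair (IF.const (⟨_, S.bΩ⟩ : L Ω)) ((if_pairL hΩ').comp (IF.pair i1 i2)))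
  have i5 : IF (L δ) (fun r : ((L Ω × Set.Iio κ) × ℕ) × L κ =>
      (⟨r.2.1, U_mono F0 S.κΩ.le r.2.2⟩ : L Ω)) := (if_incl S.κΩ.le).comp IF.snd
  have i6 : IF (L δ) (fun r : ((L Ω × Set.Iio κ) × ℕ) × L κ =>
      (⟨ZFSet.pair r.2.1 (ZFSet.pair l.1.toZFSet (cc (bb h.pk st sj par) r.1.1.2 (A r.1.1.2))),
        pair_mem hΩ' (U_mono F0 S.κΩ.le r.2.2) (pair_mem hΩ' (ho _)
          (pair_mem hΩ' S.bΩ (pair_mem hΩ' (ho _) (S.HΩ _))))⟩ : L Ω)) :=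
    (if_pairL hΩ').comp (IF.pair i5 ((if_pairL hΩ').comp
      (IF.pair (IF.const (⟨_, ho l⟩ : L Ω)) i3)))
  have i7 : IF (L δ) (fun r : ((L Ω × Set.Iio κ) × ℕ) × L κ =>
      (⟨B r.1.2 (ZFSet.pair r.2.1 (ZFSet.pair l.1.toZFSet
        (cc (bb h.pk st sj par) r.1.1.2 (A r.1.1.2)))),
        B_mem hΩ' _ (pair_mem hΩ' (U_mono F0 S.κΩ.le r.2.2) (pair_mem hΩ' (ho _)
          (pair_mem hΩ' S.bΩ (pair_mem hΩ' (ho _) (S.HΩ _)))))⟩ : L Ω)) :=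
    (if_B hΩ').comp (IF.pair (IF.snd' IF.fst) i6)
  have hP : IP (L δ) (fun u : L Ω => ∃ j : Set.Iio κ, j < i ∧ ∃ (n : ℕ) (x : L κ), x.1 ∈ L l.1 ∧
      B n (ZFSet.pair x.1 (ZFSet.pair l.1.toZFSet (cc (bb h.pk st sj par) j (A j)))) = u.1) := by
    refine IP.ex (P := fun (u : L Ω) (j : Set.Iio κ) => j < i ∧ ∃ (n : ℕ) (x : L κ), x.1 ∈ L l.1 ∧
      B n (ZFSet.pair x.1 (ZFSet.pair l.1.toZFSet (cc (bb h.pk st sj par) j (A j)))) = u.1) ?_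
    refine IP.and (ip_ltK IF.snd (IF.const i)) ?_
    refine IP.ex (P := fun (p : L Ω × Set.Iio κ) (n : ℕ) => ∃ x : L κ, x.1 ∈ L l.1 ∧
      B n (ZFSet.pair x.1 (ZFSet.pair l.1.toZFSet (cc (bb h.pk st sj par) p.2 (A p.2)))) =
        p.1.1) ?_
    refine IP.ex (P := fun (p : (L Ω × Set.Iio κ) × ℕ) (x : L κ) => x.1 ∈ L l.1 ∧
      B p.2 (ZFSet.pair x.1 (ZFSet.pair l.1.toZFSet (cc (bb h.pk st sj par) p.1.2 (A p.1.2)))) =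
        p.1.1.1) ?_
    refine IP.and (IP.comp2 (P := fun (a : Set.Iio κ) (x : L κ) => x.1 ∈ L a.1) ip_lev
      (IF.const l) IF.snd) ?_
    exact IP.congr (fun r => ⟨fun h => congrArg Subtype.val h, fun h => Subtype.ext h⟩)
      (IP.eq i7 (IF.fst' (IF.fst' IF.fst)))
  refine ⟨⟨_, hP⟩, Set.ext fun y => ⟨?_, ?_⟩⟩
  · rintro ⟨u, ⟨j, hj, n, x, hx, hB⟩, rfl⟩
    exact ⟨j, hj, n, x.1, hx, hB⟩
  · rintro ⟨j, hj, n, x, hx, hB⟩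
    have hy : y ∈ L Ω := Xh_sub S j l ⟨n, x, hx, hB⟩
    exact ⟨⟨y, hy⟩, ⟨j, hj, n, ⟨x, U_mono F0 (le_of_lt l.2) hx⟩, hx, hB⟩, rfl⟩

end LCA
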