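import Pool.Agent.LCA.HTau
import Pool.Agent.LCA.HCol
import Pool.Agent.LCA.HUni

/-! # The function `psi` of the collapsed parameter dominates all `GG (E j)`

(problem MP_328cd5_lc; architect helper18; section 6, case 1 of /team-store/COD_h51.md)

`b = bb h.pk st sj par`, `ŵ = w.1.toZFSet = cz δ w`; `i ≤ m0` a limit, `l > m0` a limit level.

`hpar`: the codes of `PtF`, `FVF`, `MSF` are in every closed subset of `L Ω` which contains `b`.

PROOF.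
* `psi_le`. `icond` (`LBB/ICnd.lean`) for `S0`: `τ ≤ Ω`, `π`, `Cnd X τ π`, the internal version of `π`. `π x = x` for `x ∈ L l.1` (`Cnd.id`, `T := L l.1`). `tau_le` (`HTau.lean`): `τ ≤ (bt δ l ζ).1`; so `π b ∈ L τ ⊆ L (bt δ l ζ).1 ⊆ L κ`; `b' : L κ` with `b'.1 = π b`.
  `S.isH` (`HSeq.lean`) and `comm` (`HCol.lean`; `zn n ∈ L l.1`: `zn_eq`, `ord_mem_L`, `ω ≤ l.1`; `ĵ ∈ L l.1`) give `IsH (π b) i (π ∘ cz ∘ A) (π ∘ cz ∘ q) (π ∘ cz ∘ E)`. Functions `A', q', E' : K → L κ`: `A' j = ⟨π (cz (A j)), _⟩` if `j < i` and `⟨∅, _⟩` otherwise; internal: the function `j ↦ (code of A j as an element of Sb S0 if j < i, b otherwise)`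
  (`IF.toSb`, `IF.ite`, `if_code`) followed by the internal `π`, then `IF.of_cd` to change the target; `IsH` for them: `IsH.congr`. For `m ∈ Sl` (a cardinal `< l`) and `w < nx m` (`< l`, `ll_nx_lt`): `PsiP_iff`: `PsiP δ b' i m w ↔ ∃ j < i, ∃ n x, x ∈ L m.1 ∧ pair (pair (zn n) (pair x m̂)) ŵ ∈ π (cz (E j))`; this pair is in `L l.1`, so in `X` and fixed, and
  (`Cnd.mem`) it is in `π (cz (E j))` iff it is in `cz (E j)` iff `((n, (x, m)), w) ∈ E j` (`mem_cz_st`, `cz_pair`, `cz_nat`, `cz_inj`). So `psi δ b' i m = lst (fun c => ∀ w < nx m, (∃ j < i, ∃ n x, x ∈ L m ∧ ((n, (x, m)), w) ∈ E j) → w < c)`. If `m0 ≤ m`: this is `< nx m` (`GG δ (E j) m < nx m` for `j < i`, bounded by some `c < nx m`: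
  `reg_bdd_fn` with `i < nx m`; `GG` is a strict bound of the values of `E j`), and `GG δ (E j) m ≤` it (`lst_le`). -/

set_option autoImplicit false

universe u v w x

namespace LCA

open STP LGr WCal WM LBB COD

theorem IsH.congr {κ : Ordinal.{0}} {b : ZFSet.{0}} {i : Set.Iio κ} {A q E A' q' E' : Set.Iio κ → ZFSet.{0}}
    (h : IsH b i A q E) (hA : ∀ j, j < i → A' j = A j) (hq : ∀ j, j < i → q' j = q j)
    (hE : ∀ j, j < i → E' j = E j) : IsH b i A' q' E' := by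
  refine ⟨fun j hj z => ?_, fun j hj => ?_, fun j hj z => ?_⟩
  · rw [hA j hj, h.hA j hj z]
    refine exists_congr fun l => and_congr_right fun hl => ?_
    rw [hq l (hl.trans hj), hE l (hl.trans hj)]
  · rw [hq j hj, hA j hj, h.hq j hj]
  · rw [hE j hj, hA j hj, h.hE j hj z]

variable {δ κ : Ordinal.{0}} [hG : GM δ] [hκ : Fact (κ < δ)] [h0 : Fact (0 < κ)]
  {T : Type w} [WTy (L δ) T] {P : Type x} [WTy (L δ) P]
  {h : MahM δ κ} {st : Fn (L δ) (Set.Iio κ × HH δ κ T) T} {sj : Fn (L δ) (Set.Iio κ × Set.Iio κ) (Set.Iio κ)}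
  {par : P} {Ω : Ordinal.{0}} {q : Set.Iio κ → T} {E : Set.Iio κ → EE δ κ} {A : Set.Iio κ → HH δ κ T}

private theorem zn_mem_L {a : Ordinal.{0}} (ha : Order.IsSuccLimit a) (n : ℕ) : zn n ∈ L a := by
  rw [zn_eq]
  exact (ord_mem_L ha).2 (lt_of_lt_of_le (Ordinal.natCast_lt_omega0 n)
    (Ordinal.omega0_le_of_isSuccLimit ha))

/-- the collapses of the codes of an internal sequence -/
private theorem exists_col [hΩ : Fact (Ω < δ)] {α : Type*} [WTy (L δ) α] {F : Set.Iio κ → α}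
    (hF : IF (L δ) F) {S0 : St (L δ) (L Ω)} {π : ZFSet.{0} → ZFSet.{0}}
    {hm : ∀ x : Sb S0, π x.v.1 ∈ L Ω} (hπ : IF (L δ) (fun x : Sb S0 => (⟨π x.v.1, hm x⟩ : L Ω)))
    {i : Set.Iio κ} (hX : ∀ j, j < i → cz δ (F j) ∈ vs S0)
    (hκ' : ∀ j, j < i → π (cz δ (F j)) ∈ L κ) :
    ∃ F' : Set.Iio κ → L κ, IF (L δ) F' ∧ ∀ j, j < i → (F' j).1 = π (cz δ (F j)) := by
  classical
  refine ⟨fun j => if hj : j < i then ⟨π (cz δ (F j)), hκ' j hj⟩ else ⟨∅, empty_mem_U F0 κ⟩, ?_,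
    fun j hj => by dsimp only; rw [dif_pos hj]⟩
  refine IF.ofP (Q := fun (j : Set.Iio κ) (y : L κ) => (j < i ∧ ∃ x : Sb S0,
    cd (L δ) x = cd (L δ) (F j) ∧ cd (L δ) (⟨π x.v.1, hm x⟩ : L Ω) = cd (L δ) y) ∨
      (¬ j < i ∧ y = ⟨∅, empty_mem_U F0 κ⟩)) ?_ ?_
  · refine IP.or (IP.and (ip_ltK IF.fst (IF.const i)) (IP.ex (IP.and ?_ ?_)))
      (IP.and (IP.not (ip_ltK IF.fst (IF.const i))) (IP.eq IF.snd (IF.const _)))
    · exact IP.cdeq IF.snd (hF.comp (IF.fst.comp IF.fst))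
    · exact IP.cdeq (hπ.comp IF.snd) (IF.snd.comp IF.fst)
  · intro j y
    by_cases hj : j < i
    · rw [dif_pos hj]
      constructor
      · rintro (⟨-, x, h1, h2⟩ | ⟨h1, -⟩)
        · have h3 : x.v.1 = cz δ (F j) := congrArg Subtype.val h1
          have h4 : π x.v.1 = y.1 := congrArg Subtype.val h2
          exact Subtype.ext (by rw [← h4, h3])
        · exact absurd hj h1
      · intro h1
        obtain ⟨a, ha, h2⟩ := hX j hj
        have h3 : π (cz δ (F j)) = y.1 := congrArg Subtype.val h1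
        refine Or.inl ⟨hj, ⟨a, ha⟩, Subtype.ext h2, Subtype.ext ?_⟩
        change π a.1 = y.1
        rw [h2, h3]
    · rw [dif_neg hj]
      constructor
      · rintro (⟨h1, -⟩ | ⟨-, h1⟩)
        · exact absurd h1 hj
        · exact h1.symm
      · intro h1
        exact Or.inr ⟨hj, h1.symm⟩

theorem psi_le (S : Sq Ω (bb h.pk st sj par) st q E A) (hsj : Sj sj) {m0 i l ζ : Set.Iio κ} (hi : i ≤ m0)
    (hlim : Lim (L δ) i) (hl : LL (L δ) l) (hml : m0 < l) (hζ : ζ < nx (L δ) l)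
    (hz : ∀ w, w < nx (L δ) l → (w.1.toZFSet ∈ UX (bb h.pk st sj par) A i l ↔ w < ζ))
    (hpar : ∀ X : Set ZFSet.{0}, Cls X → X ⊆ L Ω → bb h.pk st sj par ∈ X →
      cz δ (PtF h.pk) ∈ X ∧ cz δ (FVF δ κ) ∈ X ∧ cz δ (MSF δ κ) ∈ X) :
    ∃ b' : L κ, b'.1 ∈ L (bt δ l ζ).1 ∧ ∀ m, Cd (L δ) m → m0 ≤ m → m < l →
      psi δ b' i m < nx (L δ) m ∧ ∀ j, j < i → GG δ (E j) m ≤ psi δ b' i m := by
  obtain ⟨hX, hXs, hLX, hlX, hbX, hAqE⟩ := uni (h := h) S hi hlim hl hml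
  have hΩ : Fact (Ω < δ) := ⟨S.Ωδ⟩
  obtain ⟨S0, hS0⟩ := uniS (h := h) S i l
  set X := UX (bb h.pk st sj par) A i l with hXdef
  have hX0 : Cls (vs S0) := by rw [hS0]; exact hX
  obtain ⟨τ, -, π, hc0, hm, hπ⟩ := icond S.Ωlim hX0
  have hc : Cnd X τ π := by rw [← hS0]; exact hc0
  obtain ⟨hP, hF, hM⟩ := hpar X hX hXs hbX
  have hτ : τ ≤ (bt δ l ζ).1 :=
    tau_le h hX S.Ωlim S.Ωδ hXs hc hl.1 hζ hLX hlX hz hP hF hM
  have hτκ : ∀ x ∈ X, π x ∈ L κ := fun x hx =>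
    U_mono F0 (hτ.trans (le_of_lt (bt δ l ζ).2)) (hc.maps x hx)
  have hid : ∀ x ∈ L l.1, π x = x := fun x hx =>
    hc.id (T := L l.1) (fun x hx y hy => U_trans F0 hx hy) hLX hx
  have hll : Order.IsSuccLimit l.1 := lim_of_cd h hl.1
  have hzn : ∀ n : ℕ, zn n ∈ X ∧ π (zn n) = zn n := fun n =>
    ⟨hLX (zn_mem_L hll n), hid _ (zn_mem_L hll n)⟩
  have hil : i < l := lt_of_le_of_lt hi hml
  have hjX : ∀ j : Set.Iio κ, j < i → j.1.toZFSet ∈ X ∧ π j.1.toZFSet = j.1.toZFSet := by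
    intro j hj
    have h1 : j.1.toZFSet ∈ L l.1 := (ord_mem_L hll).2 (hj.trans hil)
    exact ⟨hLX h1, hid _ h1⟩
  have hcomm := comm hX hXs hc hbX (S.isH h.pk i) hzn hjX (fun j hj => (hAqE j hj).1)
    (fun j hj => (hAqE j hj).2.1) (fun j hj => (hAqE j hj).2.2)
  obtain ⟨A', iA', hA'⟩ := exists_col S.iA hπ (i := i)
    (fun j hj => by rw [hS0]; exact (hAqE j hj).1) (fun j hj => hτκ _ (hAqE j hj).1)
  obtain ⟨q', iq', hq'⟩ := exists_col S.iq hπ (i := i)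
    (fun j hj => by rw [hS0]; exact (hAqE j hj).2.1) (fun j hj => hτκ _ (hAqE j hj).2.1)
  obtain ⟨E', iE', hE'⟩ := exists_col S.iE hπ (i := i)
    (fun j hj => by rw [hS0]; exact (hAqE j hj).2.2) (fun j hj => hτκ _ (hAqE j hj).2.2)
  let b' : L κ := ⟨π (bb h.pk st sj par), hτκ _ hbX⟩
  have hH : IsH b'.1 i (fun j => (A' j).1) (fun j => (q' j).1) (fun j => (E' j).1) :=
    hcomm.congr hA' hq' hE'
  refine ⟨b', U_mono F0 hτ (hc.maps _ hbX), fun m hmc hm0 hml' => ?_⟩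
  have hnm : nx (L δ) m < l := ll_nx_lt h.pk hl hml'
  have hPsi : ∀ w, w < nx (L δ) m → (PsiP δ b' i m w ↔
      ∃ j, j < i ∧ ∃ (n : ℕ) (x : L κ), x.1 ∈ L m.1 ∧ ((n, (x, m)), w) ∈ E j) := by
    intro w hw
    rw [PsiP_iff iA' iq' iE' hH m w]
    refine exists_congr fun j => and_congr_right fun hj => ?_
    have key : ∀ (n : ℕ) (x : ZFSet.{0}) (hx : x ∈ L m.1),
        (ZFSet.pair (ZFSet.pair (zn n) (ZFSet.pair x m.1.toZFSet)) w.1.toZFSet ∈ (E' j).1 ↔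
          ((n, ((⟨x, U_mono F0 (le_of_lt m.2) hx⟩ : L κ), m)), w) ∈ E j) := by
      intro n x hx
      have hp : ZFSet.pair (ZFSet.pair (zn n) (ZFSet.pair x m.1.toZFSet)) w.1.toZFSet ∈ L l.1 :=
        pair_mem hll (pair_mem hll (zn_mem_L hll n) (pair_mem hll
          (U_mono F0 (le_of_lt hml') hx) ((ord_mem_L hll).2 hml')))
          ((ord_mem_L hll).2 (hw.trans hnm))
      have h1 := hc.mem _ (hLX hp) _ (hAqE j hj).2.2
      rw [hid _ hp, ← hE' j hj] at h1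
      rw [← h1, mem_cz_st]
      have h2 : cz δ (((n, ((⟨x, U_mono F0 (le_of_lt m.2) hx⟩ : L κ), m)), w) :
          (ℕ × (L κ × Set.Iio κ)) × Set.Iio κ) =
          ZFSet.pair (ZFSet.pair (zn n) (ZFSet.pair x m.1.toZFSet)) w.1.toZFSet := by
        rw [cz_pair, cz_pair, cz_pair, cz_nat]
        rfl
      rw [← h2]
      constructor
      · rintro ⟨a, ha, h3⟩
        rw [← cz_inj.1 h3]
        exact ha
      · intro h3
        exact ⟨_, h3, rfl⟩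
    constructor
    · rintro ⟨n, x, hx, h1⟩
      exact ⟨n, ⟨x, U_mono F0 (le_of_lt m.2) hx⟩, hx, (key n x hx).1 h1⟩
    · rintro ⟨n, x, hx, h1⟩
      exact ⟨n, x.1, hx, (key n x.1 hx).2 h1⟩
  have him : i < nx (L δ) m := lt_of_le_of_lt (hi.trans hm0) (lt_nx h.pk m)
  have hGG : IF (L δ) (fun j => GG δ (E j) m) :=
    (if_GG h.pk).comp (IF.pair S.iE (IF.const m))
  obtain ⟨c, hcn, hcb⟩ := reg_bdd_fn h.pk (reg_nx' h.pk m) him hGG
    (fun j _ => (Xh_lt (h := h) S hsj hmc j).1)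
  have hPc : ∀ w, w < nx (L δ) m → PsiP δ b' i m w → w < c := by
    intro w hw hw'
    obtain ⟨j, hj, hnx⟩ := (hPsi w hw).1 hw'
    exact (((Xh_lt (h := h) S hsj hmc j).2 w hw).1 ((mem_Xh S j m w).2 hnx)).trans (hcb j hj)
  have hspec : ∀ w, w < nx (L δ) m → PsiP δ b' i m w → w < psi δ b' i m :=
    lst_spec (N := L δ) (P := fun c => ∀ w, w < nx (L δ) m → PsiP δ b' i m w → w < c) ⟨c, hPc⟩
  refine ⟨lt_of_le_of_lt (lst_le (N := L δ)
    (P := fun c => ∀ w, w < nx (L δ) m → PsiP δ b' i m w → w < c) hPc) hcn, fun j hj => ?_⟩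
  exact lst_le (N := L δ) (P := fun c => ∀ w, w < nx (L δ) m →
    (∃ (n : ℕ) (x : L κ), x.1 ∈ L m.1 ∧ ((n, (x, m)), w) ∈ E j) → w < c)
    (fun w hw hw' => hspec w hw ((hPsi w hw).2 ⟨j, hj, hw'⟩))

end LCA
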