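import Pool.Agent.LCA.HPsi

/-! # The sequences of the chain lemma

(problem MP_328cd5_lc; architect helper18; section 6 of /team-store/COD_h51.md)

`EE`: the type of the functions `E j` (restricted to values below `κ`), `HH T`: histories (sets of pairs `(l, (q l, E l))`). `resF`: restriction of a history, `GG E m`: the strict supremum of the values `w < nx m` with index `(n, (x, m))`, `x ∈ L m`.
`bb st sj par`: the parameter `(N, (V, (k, r)))` with `N` the step function, `V = L κ`, `k = κ`, `r = (sj, resF, GGF, par)`. `cc b j A = (b, (j, A))`.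

PROOFS.
* `ip_GG`: `if_lst`, `ip_lev` (`LBB/ILev.lean`), `ifp_nx`.
* `exists_Sq`: `Ω`: a limit with `κ < Ω < δ` such that `cz δ x ∈ L Ω` for all `x : HH δ κ T` and `bb ∈ L Ω` (`exists_Om` twice or `exists_Om` for a product type, `U_lim`/`exists_lim`; `U_mono`). `Fact (Ω < δ)`. Step of the recursion: for `j : K`, `A : HH`: `Ef j A := {p : (ℕ × (L κ × K)) × K | B p.1.1 (pair p.1.2.1.1 (pair p.1.2.2.1.toZFSet (cc b j A))) = p.2.1.toZFSet}`,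
  an internal function of `(j, A)` (`IF.compr`; `if_B`, `if_pairL`, `if_ord`, `if_code`, `if_incl` for `L Ω`, `IP.cdeq`). `wfRec` (`WCal/Rec.lean`) for `<` on `K`, `β := T × EE`, `G j A := (st (j, A), Ef j A)` gives an internal `F : K → T × EE` with `F j = G j (A j)`, `A j := {p | p.1 < j ∧ F p.1 = p.2}` (internal function of `j`: `IF.compr`). `q := fst ∘ F`, `E := snd ∘ F`.
* `Sq.isH`: `IsH` for `fun j => cz δ (A j)` etc. (`HPsi.lean`). `hA`: `mem_cz_st`, `cz_pair`. `hq`: `ap_cz` for `st`, `bN bb = cz δ st` (`fs_pair`), `cz_pair`. `hE`: `mem_cz_st`, `cz_pair`, `cz_nat`; `bV bb = lz κ`, `bk bb = κ.toZFSet` (`sn_pair`, `fs_pair`; `mem_lz`, `Ordinal.mem_toZFSet_iff`).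
* `bb_mem`: components of `bb` (`cl_l`, `cl_r`, `cl_fst`, `cl_snd`). -/

set_option autoImplicit false

universe u v w x

namespace LCA

open STP LGr WCal WM LBB COD

section

variable (δ κ : Ordinal.{0}) [hG : GM δ] [hκ : Fact (κ < δ)]

/-- the functions `E j` -/
abbrev EE : Type 1 := St (L δ) ((ℕ × (L κ × Set.Iio κ)) × Set.Iio κ)

/-- histories -/
abbrev HH (T : Type w) [WTy (L δ) T] : Type (max 1 w) := St (L δ) (Set.Iio κ × (T × EE δ κ))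

end

variable {δ κ : Ordinal.{0}} [hG : GM δ] [hκ : Fact (κ < δ)] [h0 : Fact (0 < κ)]

variable (δ) in
/-- the strict supremum of the values below `nx m` -/
noncomputable def GG (E : EE δ κ) (m : Set.Iio κ) : Set.Iio κ :=
  lst (L δ) (fun c => ∀ w, w < nx (L δ) m → (∃ (n : ℕ) (x : L κ), x.1 ∈ L m.1 ∧ ((n, (x, m)), w) ∈ E) → w < c)

theorem if_GG (h : Pk (L δ) (Set.Iio κ)) : IF (L δ) (fun p : EE δ κ × Set.Iio κ => GG δ p.1 p.2) := by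
  have : Fact (Pk (L δ) (Set.Iio κ)) := ⟨h⟩
  refine if_lst (P := fun (p : EE δ κ × Set.Iio κ) (c : Set.Iio κ) => ∀ w, w < nx (L δ) p.2 →
    (∃ (n : ℕ) (x : L κ), x.1 ∈ L p.2.1 ∧ ((n, (x, p.2)), w) ∈ p.1) → w < c) ?_
  refine IP.all (IP.imp (ip_ltK IF.snd (ifp_nx (IF.snd' (IF.fst' IF.fst)))) (IP.imp ?_
    (ip_ltK IF.snd (IF.snd' IF.fst))))
  refine IP.ex (P := fun (p : ((EE δ κ × Set.Iio κ) × Set.Iio κ) × Set.Iio κ) (n : ℕ) =>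
    ∃ x : L κ, x.1 ∈ L p.1.1.2.1 ∧ ((n, (x, p.1.1.2)), p.2) ∈ p.1.1.1) ?_
  refine IP.ex (P := fun (p : (((EE δ κ × Set.Iio κ) × Set.Iio κ) × Set.Iio κ) × ℕ) (x : L κ) =>
    x.1 ∈ L p.1.1.1.2.1 ∧ ((p.2, (x, p.1.1.1.2)), p.1.2) ∈ p.1.1.1.1) ?_
  have hm : IF (L δ) (fun p : ((((EE δ κ × Set.Iio κ) × Set.Iio κ) × Set.Iio κ) × ℕ) × L κ =>
      p.1.1.1.1.2) := IF.snd' (IF.fst' (IF.fst' (IF.fst' IF.fst)))
  refine IP.and (IP.comp2 (P := fun (a : Set.Iio κ) (x : L κ) => x.1 ∈ L a.1) ip_lev hm IF.snd)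
    (IP.mem (IF.pair (IF.pair (IF.snd' IF.fst) (IF.pair IF.snd hm)) (IF.snd' (IF.fst' IF.fst)))
      (IF.fst' (IF.fst' (IF.fst' (IF.fst' IF.fst)))))

/-- `GG` as an object of the model -/
noncomputable def GGF (h : Pk (L δ) (Set.Iio κ)) : Fn (L δ) (EE δ κ × Set.Iio κ) (Set.Iio κ) :=
  ⟨fun p => GG δ p.1 p.2, if_GG h⟩

section

variable (δ κ) (T : Type w) [WTy (L δ) T]

theorem if_res : IF (L δ) (fun p : HH δ κ T × Set.Iio κ =>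
    (⟨{z | z ∈ p.1 ∧ z.1 < p.2}, by
      exact IP.and (IP.mem IF.id (IF.const p.1)) (ip_ltK IF.fst (IF.const p.2))⟩ : HH δ κ T)) := by
  exact IF.compr (P := fun (p : HH δ κ T × Set.Iio κ) (z : Set.Iio κ × (T × EE δ κ)) =>
    z ∈ p.1 ∧ z.1 < p.2) (IP.and (IP.mem IF.snd (IF.fst' IF.fst))
      (ip_ltK (IF.fst' IF.snd) (IF.snd' IF.fst)))

/-- restriction of a history -/
noncomputable def resF : Fn (L δ) (HH δ κ T × Set.Iio κ) (HH δ κ T) :=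
  ⟨fun p => ⟨{z | z ∈ p.1 ∧ z.1 < p.2}, by
      exact IP.and (IP.mem IF.id (IF.const p.1)) (ip_ltK IF.fst (IF.const p.2))⟩, if_res δ κ T⟩

end

section

variable {T : Type w} [WTy (L δ) T] {P : Type x} [WTy (L δ) P]

theorem mem_resF {A : HH δ κ T} {j : Set.Iio κ} {z : Set.Iio κ × (T × EE δ κ)} :
    z ∈ resF δ κ T (A, j) ↔ z ∈ A ∧ z.1 < j := Iff.rfl

/-- the parameter -/
noncomputable def bb (h : Pk (L δ) (Set.Iio κ)) (st : Fn (L δ) (Set.Iio κ × HH δ κ T) T)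
    (sj : Fn (L δ) (Set.Iio κ × Set.Iio κ) (Set.Iio κ)) (par : P) : ZFSet.{0} :=
  ZFSet.pair (cz δ st) (ZFSet.pair (lz κ) (ZFSet.pair κ.toZFSet (cz δ (sj, (resF δ κ T, (GGF h, par))))))

/-- the state -/
noncomputable def cc (b : ZFSet.{0}) (j : Set.Iio κ) (A : HH δ κ T) : ZFSet.{0} :=
  ZFSet.pair b (ZFSet.pair j.1.toZFSet (cz δ A))

/-- the sequences -/
structure Sq (Ω : Ordinal.{0}) (b : ZFSet.{0}) (st : Fn (L δ) (Set.Iio κ × HH δ κ T) T) (q : Set.Iio κ → T)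
    (E : Set.Iio κ → EE δ κ) (A : Set.Iio κ → HH δ κ T) : Prop where
  Ωlim : Order.IsSuccLimit Ω
  κΩ : κ < Ω
  Ωδ : Ω < δ
  bΩ : b ∈ L Ω
  HΩ : ∀ x : HH δ κ T, cz δ x ∈ L Ω
  iq : IF (L δ) q
  iE : IF (L δ) E
  iA : IF (L δ) A
  hA : ∀ j (p : Set.Iio κ × (T × EE δ κ)), p ∈ A j ↔ p.1 < j ∧ (q p.1, E p.1) = p.2
  hq : ∀ j, q j = st (j, A j)
  hE : ∀ j (n : ℕ) (x : L κ) (m w : Set.Iio κ), ((n, (x, m)), w) ∈ E j ↔
    B n (ZFSet.pair x.1 (ZFSet.pair m.1.toZFSet (cc b j (A j)))) = w.1.toZFSet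

omit h0 in
private theorem ip_step {Ω : Ordinal.{0}} (hΩ : Order.IsSuccLimit Ω) (hκΩ : κ < Ω) (hΩδ : Ω < δ)
    {b : ZFSet.{0}} (hb : b ∈ L Ω) (hH : ∀ x : HH δ κ T, cz δ x ∈ L Ω) :
    IP (L δ) (fun r : (Set.Iio κ × HH δ κ T) × ((ℕ × (L κ × Set.Iio κ)) × Set.Iio κ) =>
      B r.2.1.1 (ZFSet.pair r.2.1.2.1.1 (ZFSet.pair r.2.1.2.2.1.toZFSet (cc b r.1.1 r.1.2))) =
        r.2.2.1.toZFSet) := by
  have hf : Fact (Ω < δ) := ⟨hΩδ⟩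
  have ho : ∀ x : Set.Iio κ, x.1.toZFSet ∈ L Ω := fun x => (ord_mem_L hΩ).2 (lt_trans x.2 hκΩ)
  have i1 : IF (L δ) (fun r : (Set.Iio κ × HH δ κ T) × ((ℕ × (L κ × Set.Iio κ)) × Set.Iio κ) =>
      (⟨r.1.1.1.toZFSet, ho _⟩ : L Ω)) := (if_ord ho).comp (IF.fst' IF.fst)
  have i2 : IF (L δ) (fun r : (Set.Iio κ × HH δ κ T) × ((ℕ × (L κ × Set.Iio κ)) × Set.Iio κ) =>
      (⟨cz δ r.1.2, hH _⟩ : L Ω)) := (if_code hH).comp (IF.snd' IF.fst)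
  have i3 : IF (L δ) (fun r : (Set.Iio κ × HH δ κ T) × ((ℕ × (L κ × Set.Iio κ)) × Set.Iio κ) =>
      (⟨cc b r.1.1 r.1.2, pair_mem hΩ hb (pair_mem hΩ (ho _) (hH _))⟩ : L Ω)) :=
    (if_pairL hΩ).comp (IF.pair (IF.const (⟨b, hb⟩ : L Ω)) ((if_pairL hΩ).comp (IF.pair i1 i2)))
  have i4 : IF (L δ) (fun r : (Set.Iio κ × HH δ κ T) × ((ℕ × (L κ × Set.Iio κ)) × Set.Iio κ) =>
      (⟨r.2.1.2.2.1.toZFSet, ho _⟩ : L Ω)) := (if_ord ho).comp (IF.snd' (IF.snd' (IF.fst' IF.snd)))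
  have i5 : IF (L δ) (fun r : (Set.Iio κ × HH δ κ T) × ((ℕ × (L κ × Set.Iio κ)) × Set.Iio κ) =>
      (⟨r.2.1.2.1.1, U_mono F0 hκΩ.le r.2.1.2.1.2⟩ : L Ω)) :=
    (if_incl hκΩ.le).comp (IF.fst' (IF.snd' (IF.fst' IF.snd)))
  have i6 : IF (L δ) (fun r : (Set.Iio κ × HH δ κ T) × ((ℕ × (L κ × Set.Iio κ)) × Set.Iio κ) =>
      (⟨ZFSet.pair r.2.1.2.1.1 (ZFSet.pair r.2.1.2.2.1.toZFSet (cc b r.1.1 r.1.2)),
        pair_mem hΩ (U_mono F0 hκΩ.le r.2.1.2.1.2) (pair_mem hΩ (ho _)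
          (pair_mem hΩ hb (pair_mem hΩ (ho _) (hH _))))⟩ : L Ω)) :=
    (if_pairL hΩ).comp (IF.pair i5 ((if_pairL hΩ).comp (IF.pair i4 i3)))
  have i7 : IF (L δ) (fun r : (Set.Iio κ × HH δ κ T) × ((ℕ × (L κ × Set.Iio κ)) × Set.Iio κ) =>
      (⟨B r.2.1.1 (ZFSet.pair r.2.1.2.1.1 (ZFSet.pair r.2.1.2.2.1.toZFSet (cc b r.1.1 r.1.2))),
        B_mem hΩ _ (pair_mem hΩ (U_mono F0 hκΩ.le r.2.1.2.1.2) (pair_mem hΩ (ho _)
          (pair_mem hΩ hb (pair_mem hΩ (ho _) (hH _)))))⟩ : L Ω)) :=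
    (if_B hΩ).comp (IF.pair (IF.fst' (IF.fst' IF.snd)) i6)
  exact IP.congr (fun r => ⟨fun h => congrArg Subtype.val h, fun h => Subtype.ext h⟩)
    (IP.cdeq i7 (IF.snd' IF.snd))

theorem exists_Sq (h : MahM δ κ) (st : Fn (L δ) (Set.Iio κ × HH δ κ T) T)
    (sj : Fn (L δ) (Set.Iio κ × Set.Iio κ) (Set.Iio κ)) (par : P) :
    ∃ Ω q E A, Sq Ω (bb h.pk st sj par) st q E A := by
  have hbδ : bb h.pk st sj par ∈ L δ := pair_mem hG.lim (cz_mem _) (pair_mem hG.lim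
    (uz_mem' hG.lim hκ.out) (pair_mem hG.lim ((ord_mem_L hG.lim).2 hκ.out) (cz_mem _)))
  obtain ⟨γ, hγ, hbγ⟩ := (U_lim F0 hG.lim).1 hbδ
  obtain ⟨Ω, hΩ1, hΩδ, hΩ, hH⟩ := exists_Om (δ := δ) (HH δ κ T) (max κ γ) (max_lt hκ.out hγ)
  have hκΩ : κ < Ω := (le_max_left _ _).trans_lt hΩ1
  have hb : bb h.pk st sj par ∈ L Ω := U_mono F0 ((le_max_right _ _).trans hΩ1.le) hbγ
  have hS := ip_step (T := T) hΩ hκΩ hΩδ hb hH
  obtain ⟨F, hF, hrec⟩ := wfRec (N := L δ) (α := Set.Iio κ) (β := T × EE δ κ)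
    (r := fun x y => x < y) wellFounded_lt (ip_ltK IF.fst IF.snd)
    (G := fun j A => (st (j, A), (⟨{p | B p.1.1 (ZFSet.pair p.1.2.1.1 (ZFSet.pair p.1.2.2.1.toZFSet
      (cc (bb h.pk st sj par) j A))) = p.2.1.toZFSet}, hS.sec (j, A)⟩ : EE δ κ)))
    (IF.pair (IF.app (IF.const st) IF.id) (IF.compr (P := fun (r : Set.Iio κ × HH δ κ T)
      (p : (ℕ × (L κ × Set.Iio κ)) × Set.Iio κ) => B p.1.1 (ZFSet.pair p.1.2.1.1
        (ZFSet.pair p.1.2.2.1.toZFSet (cc (bb h.pk st sj par) r.1 r.2))) = p.2.1.toZFSet) hS))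
  have hP : IP (L δ) (fun r : Set.Iio κ × (Set.Iio κ × (T × EE δ κ)) =>
      r.2.1 < r.1 ∧ F r.2.1 = r.2.2) :=
    IP.and (ip_ltK (IF.fst' IF.snd) IF.fst) (IP.eq (hF.comp (IF.fst' IF.snd)) (IF.snd' IF.snd))
  have hr := fun j => hrec j ⟨{p | p.1 < j ∧ F p.1 = p.2}, hP.sec j⟩ fun _ => Iff.rfl
  refine ⟨Ω, fun j => (F j).1, fun j => (F j).2, fun j => ⟨{p | p.1 < j ∧ F p.1 = p.2}, hP.sec j⟩,
    hΩ, hκΩ, hΩδ, hb, hH, IF.fst' hF, IF.snd' hF, IF.compr (P := fun (j : Set.Iio κ)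
      (p : Set.Iio κ × (T × EE δ κ)) => p.1 < j ∧ F p.1 = p.2) hP, fun j p => Iff.rfl,
    fun j => congrArg Prod.fst (hr j), fun j n x m w => ?_⟩
  have h2 := congrArg Prod.snd (hr j)
  rw [h2]
  exact Iff.rfl

theorem Sq.isH (h : Pk (L δ) (Set.Iio κ)) {st : Fn (L δ) (Set.Iio κ × HH δ κ T) T}
    {sj : Fn (L δ) (Set.Iio κ × Set.Iio κ) (Set.Iio κ)} {par : P} {Ω : Ordinal.{0}} {q : Set.Iio κ → T}
    {E : Set.Iio κ → EE δ κ} {A : Set.Iio κ → HH δ κ T} (S : Sq Ω (bb h st sj par) st q E A) (i : Set.Iio κ) :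
    IsH (bb h st sj par) i (fun j => cz δ (A j)) (fun j => cz δ (q j)) (fun j => cz δ (E j)) := by
  have e1 : bN (bb h st sj par) = cz δ st := fs_pair _ _
  have e2 : bV (bb h st sj par) = lz κ := by
    unfold bV bb
    rw [sn_pair, fs_pair]
  have e3 : bk (bb h st sj par) = κ.toZFSet := by
    unfold bk bb
    rw [sn_pair, sn_pair, fs_pair]
  refine ⟨fun j _ z => ?_, fun j _ => ?_, fun j _ z => ?_⟩
  · rw [mem_cz_st]
    constructor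
    · rintro ⟨a, ha, rfl⟩
      obtain ⟨h1, h2⟩ := (S.hA j a).1 ha
      refine ⟨a.1, h1, ?_⟩
      rw [cz_prod, ← h2, cz_pair]
      rfl
    · rintro ⟨l, hl, rfl⟩
      refine ⟨(l, (q l, E l)), (S.hA j _).2 ⟨hl, rfl⟩, ?_⟩
      rw [cz_pair, cz_pair]
      rfl
  · rw [e1, S.hq j, ← ap_cz, cz_pair]
    rfl
  · rw [mem_cz_st]
    unfold Ez
    rw [e2, e3]
    constructor
    · rintro ⟨⟨⟨n, x, m⟩, w⟩, ha, rfl⟩
      refine ⟨n, x.1, mem_lz.2 x.2, m.1.toZFSet, Ordinal.toZFSet_mem_toZFSet_iff.2 m.2,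
        w.1.toZFSet, Ordinal.toZFSet_mem_toZFSet_iff.2 w.2, (S.hE j n x m w).1 ha, ?_⟩
      rw [cz_pair, cz_pair, cz_pair, cz_nat]
      rfl
    · rintro ⟨n, x, hx, m, hm, w, hw, hB, rfl⟩
      obtain ⟨m', hm', rfl⟩ := Ordinal.mem_toZFSet_iff.1 hm
      obtain ⟨w', hw', rfl⟩ := Ordinal.mem_toZFSet_iff.1 hw
      refine ⟨((n, ((⟨x, mem_lz.1 hx⟩ : L κ), (⟨m', hm'⟩ : Set.Iio κ))), (⟨w', hw'⟩ : Set.Iio κ)),
        (S.hE j n _ _ _).2 hB, ?_⟩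
      rw [cz_pair, cz_pair, cz_pair, cz_nat]
      rfl

theorem bb_mem {h : Pk (L δ) (Set.Iio κ)} {st : Fn (L δ) (Set.Iio κ × HH δ κ T) T}
    {sj : Fn (L δ) (Set.Iio κ × Set.Iio κ) (Set.Iio κ)} {par : P} {X : Set ZFSet.{0}} (hX : Cls X)
    (hb : bb h st sj par ∈ X) :
    cz δ st ∈ X ∧ cz δ sj ∈ X ∧ cz δ (resF δ κ T) ∈ X ∧ cz δ (GGF h) ∈ X ∧ cz δ par ∈ X := by
  have h1 := cl_r hX (cl_r hX (cl_r hX hb))
  have h2 := cl_snd hX h1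
  have h3 := cl_snd hX h2
  exact ⟨cl_l hX hb, cl_fst hX h1, cl_fst hX h2, cl_fst hX h3, cl_snd hX h3⟩

end

end LCA
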