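import Pool.Agent.LCA.HDefs

/-! # Sizes of levels

(problem MP_328cd5_lc; architect helper18)

PROOFS. `h.pk : Pk (L δ) (Set.Iio κ)`.
* `exists_lim'`: `clo` (`KClub.lean`) for the regular cardinal `nx m` (`reg_nx'`; `ω < nx m` because `ω ≤ m < nx m`, `om_le`, `lt_nx`), `G := sc N` (`lt_sc`, `cd_sc_lt`, `cd_nx`), `x0 := max a m`: it gives `y` with `x0 < y < nx m` such that every `x < y` is below some `z n`, and `z n < y`: so `Lim y`
  (`⊥ ≤ x0 < y`), `lim_of_Lim`.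
* `sz_lim`: write `Fact (y.1 < δ)`. `LBB.exists_sur` (`Ω := y.1`) gives an internal surjection `e : ℕ × List (Set.Iio y.1) → L y.1`. Let `t : Set.Iio κ → Set.Iio y.1`, `t x = x` if `x < y` and `0` otherwise; it is internal by `IF.of_cd` from `fun x => if x < y then x else ⊥` (same codes).
  `F : ℕ × List (Set.Iio κ) → L κ`, `F p = ⟨(e (p.1, p.2.map t)).1, _⟩` is internal (`IF.map`, `if_incl` with `y.1 ≤ κ`). `cov_nat_prod` and `cov_list` for `A x := x < y` (`sur_of_lt_nx`) give `Cov m (fun p : ℕ × List (Set.Iio κ) => ∀ x ∈ p.2, x < y)`; `cov_img`: an element of `L y.1` is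
  `e (n, l')`, and `l' = (l'.map incl).map t`.
* `sz_L`: `exists_lim'`, `sz_lim`, `cov_mono`, `U_mono`. `sz_L_self`, `sz_L_nx`: special cases (`lt_nx`, `cd_nx`). -/

set_option autoImplicit false

universe u v w x

namespace LCA

open STP LGr WCal WM LBB COD

private theorem hsz_ne {N : Type u} [WM N] {K : Type v} [WTy N K] [KTy N K] {x y : K}
    (h : x < y) : y ≠ ⊥ := ne_of_gt (bot_le.trans_lt h)

variable {δ κ : Ordinal.{0}} [hG : GM δ] [hκ : Fact (κ < δ)] [h0 : Fact (0 < κ)]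

theorem exists_lim' (h : MahM δ κ) {m a : Set.Iio κ} (hm : Cd (L δ) m) (ha : a < nx (L δ) m) :
    ∃ y : Set.Iio κ, a < y ∧ m < y ∧ y < nx (L δ) m ∧ Order.IsSuccLimit y.1 := by
  have hx : max a m < nx (L δ) m := max_lt ha (lt_nx h.pk m)
  obtain ⟨z, y, -, hz0, -, hzy, hy, hc⟩ := clo h.pk (reg_nx' h.pk m)
    ((om_le h.pk hm).trans_lt (lt_nx h.pk m))
    (G := fun x => sc (L δ) x) (if_sc IF.id)
    (fun z hz => ⟨lt_sc h.pk z, cd_sc_lt h.pk (cd_nx h.pk m) hz⟩) hx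
  have h1 : max a m < y := by
    rw [← hz0]
    exact hzy 0
  refine ⟨y, (le_max_left _ _).trans_lt h1, (le_max_right _ _).trans_lt h1, hy,
    lim_of_Lim ⟨hsz_ne (N := L δ) h1, fun x hx => ?_⟩⟩
  obtain ⟨n, hn⟩ := hc x hx
  exact ⟨z n, hn, hzy n⟩

theorem sz_lim (h : MahM δ κ) {m y : Set.Iio κ} (hm : Cd (L δ) m) (hy : y < nx (L δ) m)
    (hl : Order.IsSuccLimit y.1) : Cov (L δ) m (fun x : L κ => x.1 ∈ L y.1) := by
  have hyκ : y.1 < κ := y.2
  have hf : Fact (y.1 < δ) := ⟨hyκ.trans hκ.out⟩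
  have hy0 : (0 : Ordinal.{0}) < y.1 := hl.bot_lt
  obtain ⟨e, he, hes⟩ := exists_sur (δ := δ) hl
  have hg : IF (L δ) (fun x : Set.Iio κ =>
      @ite _ (x < y) (Classical.propDecidable _) x (⊥ : Set.Iio κ)) :=
    IF.ite (ip_ltK IF.id (IF.const y)) IF.id (IF.const _)
  obtain ⟨t, ht, ht'⟩ : ∃ t : Set.Iio κ → Set.Iio y.1, IF (L δ) t ∧
      ∀ (x : Set.Iio κ) (hx : x.1 < y.1), t x = ⟨x.1, hx⟩ := by
    classical
    refine ⟨fun x => if hx : x.1 < y.1 then ⟨x.1, hx⟩ else ⟨0, hy0⟩,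
      IF.of_cd hg fun x => Subtype.ext ?_, fun x hx => dif_pos hx⟩
    rw [cd_Iio, cd_Iio]
    congr 1
    by_cases hx : x < y
    · have hx' : x.1 < y.1 := hx
      rw [if_pos hx, dif_pos hx']
    · have hx' : ¬ x.1 < y.1 := hx
      rw [if_neg hx, dif_neg hx']
      rfl
  have hF : IF (L δ) (fun p : ℕ × List (Set.Iio κ) =>
      (⟨(e (p.1, p.2.map t)).1, U_mono F0 hyκ.le (e (p.1, p.2.map t)).2⟩ : L κ)) :=
    (if_incl hyκ.le).comp (he.comp (IF.pair IF.fst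
      (IF.map (f := fun _ x => t x) (ht.comp IF.snd) IF.snd)))
  refine cov_img (cov_nat_prod h.pk hm (cov_list h.pk hm (sur_of_lt_nx h.pk hm hy))) hF
    fun b hb => ?_
  obtain ⟨⟨n, l⟩, hl'⟩ := hes ⟨b.1, hb⟩
  refine ⟨(n, l.map fun x => (⟨x.1, (show x.1 < y.1 from x.2).trans hyκ⟩ : Set.Iio κ)),
    fun x hx => ?_, Subtype.ext ?_⟩
  · obtain ⟨x', -, rfl⟩ := List.mem_map.1 hx
    exact x'.2
  · have h1 : (l.map fun x => (⟨x.1, (show x.1 < y.1 from x.2).trans hyκ⟩ : Set.Iio κ)).map t =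
        l := by
      rw [List.map_map]
      refine (List.map_congr_left fun x _ => ?_).trans (List.map_id l)
      exact ht' _ x.2
    show (e (n, (l.map fun x => (⟨x.1, _⟩ : Set.Iio κ)).map t)).1 = b.1
    rw [h1, hl']

theorem sz_L (h : MahM δ κ) {m a : Set.Iio κ} (hm : Cd (L δ) m) (ha : a < nx (L δ) m) :
    Cov (L δ) m (fun x : L κ => x.1 ∈ L a.1) := by
  obtain ⟨y, h1, -, h3, h4⟩ := exists_lim' h hm ha
  exact cov_mono (sz_lim h hm h3 h4) le_rfl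
    fun x hx => U_mono F0 (show a.1 < y.1 from h1).le hx

theorem sz_L_self (h : MahM δ κ) {m : Set.Iio κ} (hm : Cd (L δ) m) :
    Cov (L δ) m (fun x : L κ => x.1 ∈ L m.1) := by
  exact sz_L h hm (lt_nx h.pk m)

theorem sz_L_nx (h : MahM δ κ) (m : Set.Iio κ) :
    Cov (L δ) (nx (L δ) m) (fun x : L κ => x.1 ∈ L (nx (L δ) m).1) := by
  exact sz_L_self h (cd_nx h.pk m)

end LCA
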