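import Pool.Agent.LCA.HPar
import Pool.Agent.LCA.HFam
import Pool.Agent.LBB.CndC

/-! # The collapse is below the level of the first surjection

(problem MP_328cd5_lc; architect helper18; section 6, case 1)

`X ⊆ L Ω` closed, `L l ⊆ X`, `l ∈ X`, `X ∩ nx l = ζ`, `π : X → L τ`. Write `ŵ = w.1.toZFSet = cz
  δ w`.

PROOF.
* For `w < ζ`: `ŵ ∈ X` (`hz`) and `π ŵ = ŵ`: `Cnd.id` for `T := {x | ∃ w < ζ, x = ŵ}`
  (transitive: elements of `ŵ` are `ŵ'`, `w' < w`, `Ordinal.mem_toZFSet_iff`). `l ≤ ζ`: if `ζ <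
  l` then `ζ̂ ∈ L l.1 ⊆ X` (`ord_mem_L`, `lim_of_cd`), so `ζ < ζ`.
* Suppose `(bt δ l ζ).1 < τ`. `bt_spec`: `y ∈ L (bt δ l ζ).1 ⊆ L τ` (`U_mono`) with `isSr y l ζ`;
  `z ∈ X` with `π z = y` (`Cnd.onto`). `Pt := PtF l`, `cz δ Pt ∈ X` (`cl_app`).
* All elements of `z` are in `cz δ Pt`: otherwise `d := df z (cz δ Pt) ∈ X` (`Cls.df`), `d ∈ z`,
  `d ∉ cz δ Pt` (`df_spec`); `π d ∈ π z = y` (`Cnd.mem`), so `π d = pair v̂ â` with `v < l`, `a <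
  ζ`; `pair v̂ â ∈ X` is fixed by `π` (`Cnd.pr`), so `d = pair v̂ â = cz δ (v, a)` (`Cnd.inj`),
  which is in `cz δ Pt` (`mem_cz_st`, `a < ζ < nx l`), contradiction.
* `Z : St (K × K)`, `Z := {p | cz δ p ∈ z}` (internal as `z ∈ L δ`: `IP.iff_mem`, `cz`), `cz δ Z
  = z` (`mem_cz_st`, the previous point, `mem_PtF`). For `v < l`, `a < ζ`: `(v, a) ∈ Z ↔ pair v̂
  â ∈ z ↔ pair v̂ â ∈ y` (`Cnd.mem`).
* `a' := MSF (Z, l)`; `cz δ a' ∈ X` (`cl_app`, `cl_mk`). `a' < nx l`: the set of the values `FVF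
  (Z, v)`, `v < l`, has at most `l` elements, and `¬ Cov l (· < nx l)` (`not_sur_nx`), so some `a
  < nx l` is not a value; `MSF (Z, l) ≤ a` (`lst_le`). So `a' < ζ` (`hz`). By `isSr y l ζ` there
  is `v < l` with `pair v̂ â' ∈ y`, so `(v, a') ∈ Z`. `a0 := FVF (Z, v)`:
  `(v, a0) ∈ Z` (`lst_spec`), `a0 ≤ a' < ζ` (`lst_le`), so `pair v̂ â0 ∈ y` and `a0 = a'` by the
  last part of `isSr`. But `MSF` is different from all `FVF (Z, v)`, `v < l` (`lst_spec`; the set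
  is nonempty), contradiction. -/

set_option autoImplicit false

universe u v w x

namespace LCA

open STP LGr WCal WM LBB COD

variable {δ κ : Ordinal.{0}} [hG : GM δ] [hκ : Fact (κ < δ)] [h0 : Fact (0 < κ)]

theorem tau_le (h : MahM δ κ) {X : Set ZFSet.{0}} {Ω τ : Ordinal.{0}}
    {π : ZFSet.{0} → ZFSet.{0}} (hX : Cls X)
    (hΩ : Order.IsSuccLimit Ω) (hΩδ : Ω < δ) (hs : X ⊆ L Ω) (hc : Cnd X τ π) {l ζ : Set.Iio κ} (hl : Cd (L δ) l)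
    (hζ : ζ < nx (L δ) l) (hLX : L l.1 ⊆ X) (hlX : l.1.toZFSet ∈ X)
    (hz : ∀ w, w < nx (L δ) l → (w.1.toZFSet ∈ X ↔ w < ζ)) (hP : cz δ (PtF h.pk) ∈ X)
    (hF : cz δ (FVF δ κ) ∈ X) (hM : cz δ (MSF δ κ) ∈ X) : τ ≤ (bt δ l ζ).1 := by
  have _ := hF
  have _ := hΩ
  have hpk := h.pk
  -- the ordinals below `ζ` are fixed
  have hmem : ∀ w : Set.Iio κ, w < ζ → w.1.toZFSet ∈ X := fun w hw => (hz w (hw.trans hζ)).2 hw
  have hfix : ∀ w : Set.Iio κ, w < ζ → π w.1.toZFSet = w.1.toZFSet := by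
    intro w hw
    refine hc.id (T := {x | ∃ w : Set.Iio κ, w < ζ ∧ x = w.1.toZFSet}) ?_ ?_ ⟨w, hw, rfl⟩
    · rintro x ⟨w', hw', rfl⟩ y hy
      obtain ⟨γ, hγ, rfl⟩ := Ordinal.mem_toZFSet_iff.1 hy
      exact ⟨⟨γ, lt_trans hγ w'.2⟩, lt_trans (show (⟨γ, lt_trans hγ w'.2⟩ : Set.Iio κ) < w'
        from hγ) hw', rfl⟩
    · rintro x ⟨w', hw', rfl⟩
      exact hmem w' hw'
  have hlζ : l ≤ ζ := by
    by_contra hn
    rw [not_le] at hn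
    have h1 : ζ.1.toZFSet ∈ L l.1 := (ord_mem_L (lim_of_cd h hl)).2 (show ζ.1 < l.1 from hn)
    exact lt_irrefl _ ((hz ζ hζ).1 (hLX h1))
  have hpr : ∀ v a : Set.Iio κ, v < l → a < ζ → ZFSet.pair v.1.toZFSet a.1.toZFSet ∈ X ∧
      π (ZFSet.pair v.1.toZFSet a.1.toZFSet) = ZFSet.pair v.1.toZFSet a.1.toZFSet := by
    intro v a hv ha
    have hv' : v < ζ := lt_of_lt_of_le hv hlζ
    refine ⟨hX.pr _ (hmem v hv') _ (hmem a ha), ?_⟩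
    rw [hc.pr _ (hmem v hv') _ (hmem a ha), hfix v hv', hfix a ha]
  by_contra hn
  rw [not_le] at hn
  obtain ⟨y, hy, hsr⟩ := bt_spec h hl hζ
  obtain ⟨z, hzX, hzy⟩ := hc.onto y (U_mono F0 hn.le hy)
  have hPX : cz δ (PtF hpk l) ∈ X := cl_app hX hs hP (x := l) hlX
  have memP : ∀ v a : Set.Iio κ, v < l → a < nx (L δ) l →
      ZFSet.pair v.1.toZFSet a.1.toZFSet ∈ cz δ (PtF hpk l) := by
    intro v a hv ha
    exact mem_cz_st.2 ⟨(v, a), mem_PtF.2 ⟨hv, ha⟩, cz_pair (δ := δ) v a⟩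
  have hzP : ∀ x ∈ z, x ∈ cz δ (PtF hpk l) := by
    by_contra hcon
    push Not at hcon
    obtain ⟨x, hx, hx'⟩ := hcon
    obtain ⟨hd1, hd2⟩ := df_spec (hs hzX) hx hx'
    have hdX : df z (cz δ (PtF hpk l)) ∈ X := hX.df hs hzX hPX
    have h1 := (hc.mem _ hdX z hzX).1 hd1
    rw [hzy] at h1
    obtain ⟨v, a, hv, ha, he⟩ := hsr.1 _ h1
    obtain ⟨h2, h3⟩ := hpr v a hv ha
    have h4 : df z (cz δ (PtF hpk l)) = ZFSet.pair v.1.toZFSet a.1.toZFSet :=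
      hc.inj _ hdX _ h2 (he.trans h3.symm)
    rw [h4] at hd2
    exact hd2 (memP v a hv (ha.trans hζ))
  have hzδ : z ∈ L δ := U_mono F0 hΩδ.le (hs hzX)
  have hZi : IP (L δ) (fun p : Set.Iio κ × Set.Iio κ => cz δ p ∈ z) :=
    IP.iff_mem.2 ⟨z, hzδ, fun _ => Iff.rfl⟩
  obtain ⟨Z, hZ⟩ : ∃ Z : St (L δ) (Set.Iio κ × Set.Iio κ), ∀ p, p ∈ Z ↔ cz δ p ∈ z :=
    ⟨⟨{p | cz δ p ∈ z}, hZi⟩, fun _ => Iff.rfl⟩
  have hZz : cz δ Z = z := by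
    refine ZFSet.ext fun x => ?_
    rw [mem_cz_st]
    constructor
    · rintro ⟨p, hp, rfl⟩
      exact (hZ p).1 hp
    · intro hx
      obtain ⟨p, -, rfl⟩ := mem_cz_st.1 (hzP x hx)
      exact ⟨p, (hZ p).2 hx, rfl⟩
  have hZy : ∀ v a : Set.Iio κ, v < l → a < ζ →
      ((v, a) ∈ Z ↔ ZFSet.pair v.1.toZFSet a.1.toZFSet ∈ y) := by
    intro v a hv ha
    obtain ⟨h2, h3⟩ := hpr v a hv ha
    rw [hZ, cz_pair, cz_K, cz_K, hc.mem _ h2 z hzX, h3, hzy]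
  have hMX : cz δ (MSF δ κ (Z, l)) ∈ X :=
    cl_app hX hs hM (cl_mk hX (x := Z) (y := l) (by rw [hZz]; exact hzX) hlX)
  have hex : ∃ a, a < nx (L δ) l ∧ ∀ v, v < l → FVF δ κ (Z, v) ≠ a := by
    by_contra hcon
    push Not at hcon
    refine not_sur_nx hpk l ⟨fun v => FVF δ κ (Z, v), ?_, fun a ha => ?_⟩
    · exact (FVF δ κ).int.comp (IF.pair (IF.const Z) IF.id)
    · obtain ⟨v, hv, hv'⟩ := hcon a ha
      exact ⟨v, hv, hv'⟩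
  obtain ⟨a, ha, ha'⟩ := hex
  have hMspec : ∀ v, v < l → FVF δ κ (Z, v) ≠ MSF δ κ (Z, l) :=
    lst_spec (N := L δ) (P := fun a => ∀ v, v < l → FVF δ κ (Z, v) ≠ a) ⟨a, ha'⟩
  have hMle : MSF δ κ (Z, l) ≤ a :=
    lst_le (N := L δ) (P := fun a => ∀ v, v < l → FVF δ κ (Z, v) ≠ a) ha'
  have hMζ : MSF δ κ (Z, l) < ζ := (hz _ (lt_of_le_of_lt hMle ha)).1 hMX
  obtain ⟨v, hv, hvy⟩ := hsr.2.1 _ hMζ
  have hvZ : (v, MSF δ κ (Z, l)) ∈ Z := (hZy v _ hv hMζ).2 hvy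
  have h5 : (v, FVF δ κ (Z, v)) ∈ Z :=
    lst_spec (N := L δ) (P := fun a => (v, a) ∈ Z) ⟨_, hvZ⟩
  have h6 : FVF δ κ (Z, v) ≤ MSF δ κ (Z, l) :=
    lst_le (N := L δ) (P := fun a => (v, a) ∈ Z) hvZ
  have h7 : FVF δ κ (Z, v) < ζ := lt_of_le_of_lt h6 hMζ
  exact hMspec v hv (hsr.2.2 v _ _ ((hZy v _ hv h7).1 h5) hvy)

end LCA
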