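import Pool.Agent.LCA.HSeq
import Pool.Agent.LCA.HSz

/-! # The hulls `X j m`

(problem MP_328cd5_lc; architect helper18; section 6 of /team-store/COD_h51.md)

`Xh b A j m = RR m (m, cc b j (A j))`: the hull of `L m`, `m` and the state `cc b j (A j)`. Write `ŵ = w.1.toZFSet = cz δ w`.

PROOFS. `b = bb h.pk st sj par`, `S : Sq Ω b st q E A`; `Fact (Ω < δ)` from `S.Ωδ`.
* `cc_L`: `cc b j (A j) ∈ L Ω`: `S.bΩ`, `S.HΩ`, `pair_mem`, `ord_mem_L` (`j.1 < κ < Ω`). `Xh_cls`: `cls_RR`, `lim_of_cd`. `Xh_sub`: `RR_sub_L`. `Xh_c` etc.: `c_mem_RR`, `cl_l`, `cl_r`, `L_sub_RR`.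
* `mem_Xh`: definition of `RR`, `S.hE` (an `x ∈ L m.1` is an element of `L κ`).
* `cc_mem` (general closed `X ⊆ L Ω` with `cc b j (A j) ∈ X`, `l̂ ∈ X`, `l < j`): `b, cz (A j) ∈ X` (`cl_l`, `cl_r`), `cz (resF) ∈ X` (`bb_mem`); `A l = resF (A j, l)` (`St.ext`, `S.hA`), so `cz (A l) ∈ X` (`cl_app`, `cl_mk`), `cc b l (A l) ∈ X`. `ap (cz (A j)) l̂ = pair (cz (q l)) (cz (E l))`: `ap` is `lea` of the predicate
  `pair l̂ y ∈ cz (A j)` of `y`, which holds only for this `y` (`mem_cz_st`, `cz_pair`, `S.hA`, `cz_inj`, `ZFSet.pair_inj`; `lea_eq`). `Cls.ap`, `cl_l`, `cl_r`.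
* `Xh_mono`: `RR_sub` for `X := Xh j m'`: `L m.1 ⊆ L m'.1 ⊆ Xh j m'`; `m̂ ∈ Xh j m'` (if `m < m'` it is in `L m'.1`, else `m = m'`); `cc b l (A l) ∈ Xh j m'`: `cc_mem` if `l < j` (then `l < j ≤ m'`, `l̂ ∈ L m'.1`).
* `Xh_lt` (`m` a cardinal, `sj` covers): (1) initial segment: let `w < nx m`, `ŵ ∈ Xh j m`, `w' < w`: `w' = sj (w, v)` with `v < m`, `v̂ ∈ L m.1 ⊆ Xh`, so `ŵ' ∈ Xh` (`bb_mem`, `cl_app`, `cl_mk`). (2) the set of these `w` has at most `m` elements: `Cov m (fun x : L κ => x.1 ∈ L m.1)` (`sz_L_self`), `cov_nat_prod`, `cov_img` along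
  `(n, x) ↦ lst (fun w => ((n, (x, m)), w) ∈ E j)`; so it is bounded by some `c < nx m` (`reg_bdd`, `reg_nx'`, `lt_nx`). `GG δ (E j) m` is the least strict upper bound (`lst_spec`, `lst_le`, `mem_Xh`), so it is `< nx m` (`≤ c`) and for `w < nx m`: `ŵ ∈ Xh → w < GG` by definition; if `w < GG` then `w` is not a strict upper bound, so there is
  `w'' ≥ w`, `w'' < nx m`, `ŵ'' ∈ Xh`, and (1).
* `Xh_q`: `q j = st (j, A j)`: `bb_mem`, `cl_app`, `cl_mk`. -/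

set_option autoImplicit false
set_option linter.unusedSectionVars false

universe u v w x

namespace LCA

open STP LGr WCal WM LBB COD

variable {δ κ : Ordinal.{0}} [hG : GM δ] [hκ : Fact (κ < δ)] [h0 : Fact (0 < κ)]
  {T : Type w} [WTy (L δ) T] {P : Type x} [WTy (L δ) P]

/-- the hull -/
def Xh (b : ZFSet.{0}) (A : Set.Iio κ → HH δ κ T) (j m : Set.Iio κ) : Set ZFSet.{0} :=
  RR m.1 (ZFSet.pair m.1.toZFSet (cc b j (A j)))

/-- `sj (a, ·)` maps the elements below `m` onto a superset of `Iio a` for `a < nx m` -/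
def Sj (sj : Fn (L δ) (Set.Iio κ × Set.Iio κ) (Set.Iio κ)) : Prop :=
  ∀ m, Cd (L δ) m → ∀ a, a < nx (L δ) m → ∀ a', a' < a → ∃ v, v < m ∧ sj (a, v) = a'

section

variable {b : ZFSet.{0}} {st : Fn (L δ) (Set.Iio κ × HH δ κ T) T} {Ω : Ordinal.{0}} {q : Set.Iio κ → T}
  {E : Set.Iio κ → EE δ κ} {A : Set.Iio κ → HH δ κ T}

theorem cc_L (S : Sq Ω b st q E A) (j : Set.Iio κ) : cc b j (A j) ∈ L Ω :=
  pair_mem S.Ωlim S.bΩ (pair_mem S.Ωlim ((ord_mem_L S.Ωlim).2 (lt_trans j.2 S.κΩ)) (S.HΩ _))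

theorem Xh_cls (h : MahM δ κ) {m : Set.Iio κ} (hm : Cd (L δ) m) (j : Set.Iio κ) : Cls (Xh b A j m) :=
  cls_RR (lim_of_cd h hm) _

theorem Xh_sub (S : Sq Ω b st q E A) (j m : Set.Iio κ) : Xh b A j m ⊆ L Ω :=
  RR_sub_L S.Ωlim (le_of_lt (lt_trans m.2 S.κΩ))
    (pair_mem S.Ωlim ((ord_mem_L S.Ωlim).2 (lt_trans m.2 S.κΩ)) (cc_L S j))

omit h0 in
theorem Xh_L (j m : Set.Iio κ) : L m.1 ⊆ Xh b A j m := L_sub_RR _

theorem Xh_m (h : MahM δ κ) {m : Set.Iio κ} (hm : Cd (L δ) m) (j : Set.Iio κ) : m.1.toZFSet ∈ Xh b A j m :=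
  cl_l (Xh_cls h hm j) (c_mem_RR _ _)

theorem Xh_c (h : MahM δ κ) {m : Set.Iio κ} (hm : Cd (L δ) m) (j : Set.Iio κ) : cc b j (A j) ∈ Xh b A j m :=
  cl_r (Xh_cls h hm j) (c_mem_RR _ _)

theorem Xh_b (h : MahM δ κ) {m : Set.Iio κ} (hm : Cd (L δ) m) (j : Set.Iio κ) : b ∈ Xh b A j m :=
  cl_l (Xh_cls h hm j) (Xh_c h hm j)

theorem mem_Xh (S : Sq Ω b st q E A) (j m w : Set.Iio κ) :
    w.1.toZFSet ∈ Xh b A j m ↔ ∃ (n : ℕ) (x : L κ), x.1 ∈ L m.1 ∧ ((n, (x, m)), w) ∈ E j := by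
  constructor
  · rintro ⟨n, x, hx, hB⟩
    exact ⟨n, ⟨x, U_mono F0 (le_of_lt m.2) hx⟩, hx, (S.hE j n _ m w).2 hB⟩
  · rintro ⟨n, x, hx, hB⟩
    exact ⟨n, x.1, hx, (S.hE j n x m w).1 hB⟩

end

variable {h : MahM δ κ} {st : Fn (L δ) (Set.Iio κ × HH δ κ T) T} {sj : Fn (L δ) (Set.Iio κ × Set.Iio κ) (Set.Iio κ)}
  {par : P} {Ω : Ordinal.{0}} {q : Set.Iio κ → T} {E : Set.Iio κ → EE δ κ} {A : Set.Iio κ → HH δ κ T}

theorem cc_mem (S : Sq Ω (bb h.pk st sj par) st q E A) {X : Set ZFSet.{0}} (hX : Cls X) (hs : X ⊆ L Ω)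
    {j l : Set.Iio κ} (hc : cc (bb h.pk st sj par) j (A j) ∈ X) (hl : l.1.toZFSet ∈ X) (hlj : l < j) :
    cc (bb h.pk st sj par) l (A l) ∈ X ∧ cz δ (A l) ∈ X ∧ cz δ (q l) ∈ X ∧ cz δ (E l) ∈ X := by
  have hb : bb h.pk st sj par ∈ X := cl_l hX hc
  have hA : cz δ (A j) ∈ X := cl_r hX (cl_r hX hc)
  obtain ⟨-, -, hr, -, -⟩ := bb_mem hX hb
  have hl' : cz δ l ∈ X := hl
  have h1 : A l = resF δ κ T (A j, l) := by
    refine St.ext (Set.ext fun p => ?_)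
    change p ∈ A l ↔ p ∈ resF δ κ T (A j, l)
    rw [mem_resF, S.hA, S.hA]
    constructor
    · rintro ⟨h1, h2⟩
      exact ⟨⟨h1.trans hlj, h2⟩, h1⟩
    · rintro ⟨⟨-, h2⟩, h1⟩
      exact ⟨h1, h2⟩
  have hAl : cz δ (A l) ∈ X := by
    rw [h1]
    exact cl_app hX hs hr (cl_mk hX hA hl')
  have key : ∀ y, ZFSet.pair l.1.toZFSet y ∈ cz δ (A j) ↔ y = cz δ ((q l, E l) : T × EE δ κ) := by
    intro y
    rw [mem_cz_st]
    constructor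
    · rintro ⟨a, ha, h2⟩
      rw [cz_prod, ← cz_K (δ := δ) l] at h2
      obtain ⟨h3, h4⟩ := ZFSet.pair_inj.1 h2
      obtain ⟨-, h5⟩ := (S.hA j a).1 ha
      rw [cz_inj.1 h3] at h5
      rw [← h4, h5]
    · rintro rfl
      exact ⟨(l, (q l, E l)), (S.hA j _).2 ⟨hlj, rfl⟩, cz_pair _ _⟩
  have h2 : ap (cz δ (A j)) l.1.toZFSet = cz δ ((q l, E l) : T × EE δ κ) := by
    refine lea_eq (τ := δ) (fun y hy => ?_) ((key _).2 rfl) fun z hz => ?_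
    · rw [(key y).1 hy]
      exact cz_mem _
    · exact Or.inl ((key z).1 hz).symm
  have h3 : cz δ ((q l, E l) : T × EE δ κ) ∈ X := by
    rw [← h2]
    exact hX.ap hs hA hl
  exact ⟨cl_pair hX hb (cl_pair hX hl hAl), hAl, cl_fst hX h3, cl_snd hX h3⟩

theorem Xh_mono (S : Sq Ω (bb h.pk st sj par) st q E A) {m m' l j : Set.Iio κ} (hm : Cd (L δ) m)
    (hm' : Cd (L δ) m') (hmm : m ≤ m') (hlj : l ≤ j) (hj : j ≤ m') :
    Xh (bb h.pk st sj par) A l m ⊆ Xh (bb h.pk st sj par) A j m' := by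
  have hmem : ∀ x : Set.Iio κ, x < m' → x.1.toZFSet ∈ Xh (bb h.pk st sj par) A j m' :=
    fun x hx => Xh_L j m' ((ord_mem_L (lim_of_cd h hm')).2 hx)
  refine RR_sub (Xh_cls h hm' j) ((U_mono F0 hmm).trans (Xh_L j m'))
    (cl_pair (Xh_cls h hm' j) ?_ ?_)
  · rcases hmm.lt_or_eq with h1 | rfl
    · exact hmem m h1
    · exact Xh_m h hm j
  · rcases hlj.lt_or_eq with h1 | rfl
    · exact (cc_mem (h := h) S (Xh_cls h hm' j) (Xh_sub S j m') (Xh_c h hm' j) (hmem l (h1.trans_le hj))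
        h1).1
    · exact Xh_c h hm' l

theorem Xh_lt (S : Sq Ω (bb h.pk st sj par) st q E A) (hsj : Sj sj) {m : Set.Iio κ} (hm : Cd (L δ) m) (j : Set.Iio κ) :
    GG δ (E j) m < nx (L δ) m ∧ ∀ w, w < nx (L δ) m →
      (w.1.toZFSet ∈ Xh (bb h.pk st sj par) A j m ↔ w < GG δ (E j) m) := by
  have hX := Xh_cls (b := bb h.pk st sj par) (A := A) h hm j
  obtain ⟨-, hsj', -, -, -⟩ := bb_mem hX (Xh_b h hm j)
  have hinit : ∀ w w', w < nx (L δ) m → w.1.toZFSet ∈ Xh (bb h.pk st sj par) A j m → w' < w →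
      w'.1.toZFSet ∈ Xh (bb h.pk st sj par) A j m := by
    intro w w' hw hwX hw'
    obtain ⟨v, hv, h1⟩ := hsj m hm w hw w' hw'
    have h2 : cz δ v ∈ Xh (bb h.pk st sj par) A j m :=
      Xh_L j m ((ord_mem_L (lim_of_cd h hm)).2 hv)
    have h3 : cz δ w ∈ Xh (bb h.pk st sj par) A j m := hwX
    have h4 : cz δ (sj (w, v)) ∈ Xh (bb h.pk st sj par) A j m :=
      cl_app hX (Xh_sub S j m) hsj' (cl_mk hX h3 h2)
    rw [h1] at h4
    exact h4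
  have huniq : ∀ (n : ℕ) (x : L κ) (w w' : Set.Iio κ), ((n, (x, m)), w) ∈ E j →
      ((n, (x, m)), w') ∈ E j → w = w' := by
    intro n x w w' h1 h2
    have h3 := (S.hE j n x m w).1 h1
    rw [(S.hE j n x m w').1 h2] at h3
    exact (cz_inj (δ := δ) (x := w) (y := w')).1 h3.symm
  have hcov : Cov (L δ) m (fun w : Set.Iio κ => w < nx (L δ) m ∧
      ∃ (n : ℕ) (x : L κ), x.1 ∈ L m.1 ∧ ((n, (x, m)), w) ∈ E j) := by
    have hg : IF (L δ) (fun p : ℕ × L κ =>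
        lst (L δ) (fun w : Set.Iio κ => ((p.1, (p.2, m)), w) ∈ E j)) :=
      if_lst (IP.mem (IF.pair (IF.pair (IF.fst.comp IF.fst)
        (IF.pair (IF.snd.comp IF.fst) (IF.const m))) IF.snd) (IF.const (E j)))
    refine cov_img (cov_nat_prod h.pk hm (sz_L_self h hm)) hg ?_
    rintro w ⟨-, n, x, hx, hE⟩
    exact ⟨(n, x), hx, huniq n x _ _ (lst_spec (N := L δ)
      (P := fun w : Set.Iio κ => ((n, (x, m)), w) ∈ E j) ⟨w, hE⟩) hE⟩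
  obtain ⟨c, hc, hc'⟩ := reg_bdd (reg_nx' h.pk m) (lt_nx h.pk m) hcov fun x hx => hx.1
  have hP : ∀ w, w < nx (L δ) m →
      (∃ (n : ℕ) (x : L κ), x.1 ∈ L m.1 ∧ ((n, (x, m)), w) ∈ E j) → w < c :=
    fun w hw hw' => hc' w ⟨hw, hw'⟩
  have hspec : ∀ w, w < nx (L δ) m →
      (∃ (n : ℕ) (x : L κ), x.1 ∈ L m.1 ∧ ((n, (x, m)), w) ∈ E j) → w < GG δ (E j) m :=
    lst_spec (N := L δ) (P := fun c => ∀ w, w < nx (L δ) m →
      (∃ (n : ℕ) (x : L κ), x.1 ∈ L m.1 ∧ ((n, (x, m)), w) ∈ E j) → w < c) ⟨c, hP⟩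
  have hle : ∀ c, (∀ w, w < nx (L δ) m →
      (∃ (n : ℕ) (x : L κ), x.1 ∈ L m.1 ∧ ((n, (x, m)), w) ∈ E j) → w < c) →
      GG δ (E j) m ≤ c := fun c hc =>
    lst_le (N := L δ) (P := fun c => ∀ w, w < nx (L δ) m →
      (∃ (n : ℕ) (x : L κ), x.1 ∈ L m.1 ∧ ((n, (x, m)), w) ∈ E j) → w < c) hc
  refine ⟨(hle c hP).trans_lt hc, fun w hw => ⟨fun hwX => hspec w hw ((mem_Xh S j m w).1 hwX),
    fun hwG => ?_⟩⟩
  by_contra hcon
  refine absurd (hle w fun w' hw' hw'' => ?_) (not_le.2 hwG)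
  by_contra hlt
  have h1 := (mem_Xh S j m w').2 hw''
  rcases (not_lt.1 hlt).lt_or_eq with h2 | rfl
  · exact hcon (hinit w' w hw' h1 h2)
  · exact hcon h1

theorem Xh_q (S : Sq Ω (bb h.pk st sj par) st q E A) {m : Set.Iio κ} (hm : Cd (L δ) m) (j : Set.Iio κ) :
    cz δ (q j) ∈ Xh (bb h.pk st sj par) A j m := by
  have hX := Xh_cls (b := bb h.pk st sj par) (A := A) h hm j
  obtain ⟨hst, -, -, -, -⟩ := bb_mem hX (Xh_b h hm j)
  have h1 := cl_r hX (Xh_c (b := bb h.pk st sj par) (A := A) h hm j)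
  have hj : cz δ j ∈ Xh (bb h.pk st sj par) A j m := cl_l hX h1
  have hA : cz δ (A j) ∈ Xh (bb h.pk st sj par) A j m := cl_r hX h1
  rw [S.hq j]
  exact cl_app hX (Xh_sub S j m) hst (cl_mk hX hj hA)

end LCA
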