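import Pool.Agent.LCA.KSim

/-! # Cardinals and the next cardinal

(problem MP_328cd5_lc; architect helper18)

`Sur N a b` (`KDefs.lean`) abbreviates `Cov N a (fun x : K => x < b)`. `sc a`: the successor of `a` (`nx N ⊥` is `ω`). Already in `KDefs.lean`: `lt_nx`, `cd_nx`, `nx_le'`, `nx_mono`, `nx_eq`,
`cov_self`, `cov_trans`, `cov_mono`, `lst`.

PROOFS.
* `sur_le`: `cov_mono` of `cov_self`.
* `exists_cd`: let `c` be the least element with `Sur N c a` (`wellFounded_lt.min`, `a` is one). `Iio c` is infinite: else `Iio a` is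
  contained in the image of a finite set. If `b < c` and `Sur b c` then `Sur b a` (`cov_trans`), contradiction to the choice of `c`.
* `cd_le_of_sur`: else `a < c` contradicts `Cd N c`.
* `not_sur_nx`: `cd_nx`, `lt_nx`. `sur_of_lt_nx`: if `Iio y` is finite: `y ≤ a`, as `Iio a` is infinite (otherwise `a < y` and
  `Iio a ⊆ Iio y` is finite); if it is infinite, `exists_cd` gives `c ≤ y`, `Cd c`, `Sur c y`; `c ≤ a`, otherwise `nx a ≤ c ≤ y` (`nx_le'`).
* `lt_om`: `→`: if `Iio x` is infinite, `exists_cd` gives a cardinal `c ≤ x`, `⊥ < c` (`Iio c` is infinite), `nx ⊥ ≤ c ≤ x`. `←`: else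
  `nx ⊥ ≤ x` and `Iio (nx ⊥)` is infinite. `om_le`: `⊥ < a` as `Iio a` is infinite.
* `exists_lv`: if `a < nx ⊥` take `⊥`. Otherwise `Iio a` is infinite (`lt_om`); take `c` from `exists_cd`: `c ≤ a`; if `nx c ≤ a` then `Sur c (nx c)`
  by `cov_mono`, contradiction.
* `sc`: `lst_spec`, `lst_le`, the set is nonempty by `lt_nx`. `if_sc`: `if_lst`.
* `cd_lim`: let `x < a` and suppose `a ≤ sc x`, so `a = sc x` (as `x < a`), `Iio x` is infinite (`Iio a` is `Iio x` and one more element), so `ω := nx ⊥ ≤ x` (`lt_om`).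
  The function `F z := if z = ⊥ then x else if z < ω then lst N (fun y => sc y = z) else z` is internal and maps `Iio x` onto `Iio (sc x)`: `F ⊥ = x`; `F (sc z) = z` for `z < ω` (`sc z < ω`: `Iio (sc z)` is finite; `sc` is
  injective); `F z = z` for `ω ≤ z < x`. So `Sur N x a`, contradiction. Hence `sc x < a`, take `y := sc x`. `a ≠ ⊥` as `Iio a` is infinite.
* `lv_cd`, `nl_cd`: `cd_nx`. `nl_or_ll`: by definition. `ll_ne_nx`: with `m` from `exists_lv a` we have `nx a = nx m` (`m ≤ a < nx m`, `nx_mono`, `nx_le'`). `ll_nx_lt`: `nx_le'` and `ll_ne_nx`.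
  `nl_nx`: the same `m`. `not_nl_ll`: by definition (`⊥` is not a cardinal). `ll_om_lt`: `ll_nx_lt` for `⊥`. `ll_of_lim`: a cardinal `l` such that `nx a < l` for all `a < l` is not
  of the form `nx b` (`b < nx b`). -/

set_option autoImplicit false

universe u v w x

namespace LCA

open WCal WM COD

variable {N : Type u} [WM N] {K : Type v} [WTy N K] [KTy N K]

theorem sur_le {a b : K} (h : b ≤ a) : Sur N a b :=
  cov_mono (cov_self a) le_rfl fun _ hx => lt_of_lt_of_le hx h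

theorem cd_le_of_sur {a c : K} (hc : Cd N c) (h : Sur N a c) : c ≤ a := by
  by_contra hlt
  exact hc.2 a (not_le.1 hlt) h

theorem exists_cd {a : K} (ha : (Set.Iio a).Infinite) : ∃ c, c ≤ a ∧ Cd N c ∧ Sur N c a := by
  have hne : {c : K | Sur N c a}.Nonempty := ⟨a, cov_self a⟩
  have hc : Sur N ((wellFounded_lt (α := K)).min _ hne) a :=
    (wellFounded_lt (α := K)).min_mem _ hne
  have hmin : ∀ b, Sur N b a → ¬ b < (wellFounded_lt (α := K)).min _ hne := fun b hb =>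
    (wellFounded_lt (α := K)).not_lt_min {c : K | Sur N c a} (Set.mem_ofPred.2 hb)
  generalize (wellFounded_lt (α := K)).min _ hne = c at hc hmin
  refine ⟨c, not_lt.1 (hmin a (cov_self a)), ⟨?_, ?_⟩, hc⟩
  · intro hfin
    obtain ⟨f, hf, h⟩ := hc
    refine ha ((hfin.image f).subset ?_)
    intro x hx
    obtain ⟨y, hy, rfl⟩ := h x hx
    exact ⟨y, hy, rfl⟩
  · intro b hb hcov
    exact hmin b (cov_trans hcov hc) hb

theorem not_sur_nx (h : Pk N K) (a : K) : ¬ Sur N a (nx N a) := (cd_nx h a).2 a (lt_nx h a)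

theorem sur_of_lt_nx (h : Pk N K) {a y : K} (ha : Cd N a) (hy : y < nx N a) : Sur N a y := by
  by_cases hfin : (Set.Iio y).Finite
  · refine sur_le ?_
    by_contra hlt
    exact ha.1 (hfin.subset fun x hx => lt_trans hx (not_le.1 hlt))
  · obtain ⟨c, hc1, hc2, hc3⟩ := exists_cd (N := N) hfin
    have hca : c ≤ a := by
      by_contra hlt
      exact absurd (lt_of_lt_of_le hy ((nx_le' h (not_le.1 hlt) hc2).trans hc1)) (lt_irrefl y)
    exact cov_trans (sur_le hca) hc3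

theorem cd_bot_lt {a : K} (ha : Cd N a) : ⊥ < a := by
  rw [bot_lt_iff_ne_bot]
  rintro rfl
  exact ha.1 (Set.finite_empty.subset fun x hx => absurd hx not_lt_bot)

theorem lt_om (h : Pk N K) {x : K} : x < nx N (⊥ : K) ↔ (Set.Iio x).Finite := by
  constructor
  · intro hx
    by_contra hinf
    obtain ⟨c, hc1, hc2, -⟩ := exists_cd (N := N) hinf
    exact absurd (lt_of_lt_of_le hx ((nx_le' h (cd_bot_lt hc2) hc2).trans hc1)) (lt_irrefl x)
  · intro hfin
    by_contra hle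
    exact (cd_nx h ⊥).1 (hfin.subset fun y hy => lt_of_lt_of_le hy (not_lt.1 hle))

theorem om_le (h : Pk N K) {a : K} (ha : Cd N a) : nx N ⊥ ≤ a := nx_le' h (cd_bot_lt ha) ha

/-- the level of `a` -/
theorem exists_lv (h : Pk N K) (a : K) : ∃ m, Lv N m ∧ m ≤ a ∧ a < nx N m ∧ nx N m = nx N a := by
  by_cases h1 : a < nx N ⊥
  · exact ⟨⊥, Or.inl rfl, bot_le, h1, le_antisymm (nx_mono h bot_le) (nx_le' h h1 (cd_nx h ⊥))⟩
  · obtain ⟨c, hc1, hc2, hc3⟩ := exists_cd (N := N) (a := a) fun hfin => h1 ((lt_om h).2 hfin)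
    have h2 : a < nx N c := by
      by_contra hle
      exact not_sur_nx h c (cov_mono hc3 le_rfl fun x hx => lt_of_lt_of_le hx (not_lt.1 hle))
    exact ⟨c, Or.inr hc2, hc1, h2, le_antisymm (nx_mono h hc1) (nx_le' h h2 (cd_nx h c))⟩

variable (N) in
/-- the successor -/
noncomputable def sc (a : K) : K := lst N (fun b => a < b)

theorem lt_sc (h : Pk N K) (a : K) : a < sc N a :=
  lst_spec (P := fun b => a < b) ⟨nx N a, lt_nx h a⟩

theorem lt_sc_iff (h : Pk N K) {a x : K} : x < sc N a ↔ x ≤ a := by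
  constructor
  · intro hx
    by_contra hlt
    have h1 : sc N a ≤ x := lst_le (P := fun b => a < b) (not_le.1 hlt)
    exact absurd (lt_of_lt_of_le hx h1) (lt_irrefl x)
  · intro hx
    exact lt_of_le_of_lt hx (lt_sc h a)

@[simp] theorem if_sc {β : Type x} [WTy N β] {f : β → K} (hf : IF N f) : IF N (fun b => sc N (f b)) :=
  if_lst (P := fun b y => f b < y) (ip_ltK (hf.comp IF.fst) IF.snd)

private theorem sc_inj (h : Pk N K) {a b : K} (hab : sc N a = sc N b) : a = b := by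
  have h1 : a ≤ b := by
    rw [← lt_sc_iff h, ← hab]
    exact lt_sc h a
  have h2 : b ≤ a := by
    rw [← lt_sc_iff h, hab]
    exact lt_sc h b
  exact le_antisymm h1 h2

private theorem sc_fin (h : Pk N K) {a : K} (ha : (Set.Iio a).Finite) :
    (Set.Iio (sc N a)).Finite := by
  refine (ha.insert a).subset ?_
  intro y hy
  have h1 : y ≤ a := (lt_sc_iff h).1 hy
  rcases eq_or_lt_of_le h1 with h2 | h2
  · exact Or.inl h2
  · exact Or.inr h2

theorem cd_sc_lt (h : Pk N K) {a x : K} (ha : Cd N a) (hx : x < a) : sc N x < a := by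
  by_contra hle
  have hax : a ≤ sc N x := not_lt.1 hle
  have hinf : ¬ (Set.Iio x).Finite := fun hfin =>
    ha.1 ((sc_fin h hfin).subset fun y hy => lt_of_lt_of_le hy hax)
  have hom : nx N ⊥ ≤ x := not_lt.1 fun h1 => hinf ((lt_om h).1 h1)
  have hob : (⊥ : K) < nx N ⊥ := lt_nx h ⊥
  obtain ⟨F, hF, hF1, hF2, hF3⟩ : ∃ F : K → K, IF N F ∧ F ⊥ = x ∧
      (∀ z, z ≠ ⊥ → z < nx N ⊥ → F z = lst N (fun y => sc N y = z)) ∧
      ∀ z, z ≠ ⊥ → ¬ z < nx N ⊥ → F z = z :=
    ⟨_, IF.ite (IP.eq IF.id (IF.const ⊥)) (IF.const x)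
      (IF.ite (ip_ltK IF.id (IF.const (nx N ⊥)))
        (if_lst (P := fun z y => sc N y = z) (IP.eq (if_sc IF.snd) IF.fst)) IF.id),
      if_pos rfl, fun z h1 h2 => (if_neg h1).trans (if_pos h2),
      fun z h1 h2 => (if_neg h1).trans (if_neg h2)⟩
  refine ha.2 x hx ⟨F, hF, ?_⟩
  intro w hw
  have hwx : w ≤ x := (lt_sc_iff h).1 (lt_of_lt_of_le hw hax)
  rcases eq_or_lt_of_le hwx with h1 | h1
  · exact ⟨⊥, lt_of_lt_of_le hob hom, hF1.trans h1.symm⟩
  · by_cases h2 : w < nx N ⊥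
    · have h3 : sc N w < nx N ⊥ := (lt_om h).2 (sc_fin h ((lt_om h).1 h2))
      have h4 : sc N w ≠ ⊥ := ne_of_gt (lt_of_le_of_lt bot_le (lt_sc h w))
      refine ⟨sc N w, lt_of_lt_of_le h3 hom, ?_⟩
      rw [hF2 _ h4 h3]
      exact sc_inj h (lst_spec (P := fun y => sc N y = sc N w) ⟨w, rfl⟩)
    · have h4 : w ≠ ⊥ := fun h5 => h2 (h5 ▸ hob)
      exact ⟨w, h1, hF3 w h4 h2⟩

theorem cd_lim (h : Pk N K) {a : K} (ha : Cd N a) : Lim N a :=
  ⟨ne_of_gt (cd_bot_lt ha), fun x hx => ⟨sc N x, lt_sc h x, cd_sc_lt h ha hx⟩⟩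

theorem lv_cd {m : K} (hm : Lv N m) (h0 : m ≠ ⊥) : Cd N m := hm.resolve_left h0

theorem nl_cd (h : Pk N K) {m : K} (hm : NL N m) (h0 : m ≠ ⊥) : Cd N m := by
  rcases hm with hm | ⟨b, -, rfl⟩
  · exact absurd hm h0
  · exact cd_nx h b

theorem nl_nx (h : Pk N K) (a : K) : NL N (nx N a) := by
  obtain ⟨m, hm, -, -, he⟩ := exists_lv h a
  exact Or.inr ⟨m, hm, he.symm⟩

theorem nl_or_ll {m : K} (hm : Cd N m) : NL N m ∨ LL N m := by
  by_cases h : ∃ b, Lv N b ∧ m = nx N b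
  · exact Or.inl (Or.inr h)
  · exact Or.inr ⟨hm, fun b hb he => h ⟨b, hb, he⟩⟩

theorem not_nl_ll {m : K} (hm : NL N m) (hm' : LL N m) : False := by
  rcases hm with hm | ⟨b, hb, he⟩
  · exact ne_of_gt (cd_bot_lt hm'.1) hm
  · exact hm'.2 b hb he

theorem ll_ne_nx (h : Pk N K) {l : K} (hl : LL N l) (a : K) : l ≠ nx N a := by
  intro he
  obtain ⟨m, hm, -, -, he'⟩ := exists_lv h a
  exact hl.2 m hm (he.trans he'.symm)

theorem ll_nx_lt (h : Pk N K) {l a : K} (hl : LL N l) (ha : a < l) : nx N a < l :=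
  lt_of_le_of_ne (nx_le' h ha hl.1) fun e => ll_ne_nx h hl a e.symm

theorem ll_om_lt (h : Pk N K) {l : K} (hl : LL N l) : nx N ⊥ < l := ll_nx_lt h hl (cd_bot_lt hl.1)

theorem ll_of_lim {l : K} (h : Pk N K) (hl : Cd N l) (h1 : ∀ a, a < l → nx N a < l) : LL N l := by
  refine ⟨hl, fun b _ he => ?_⟩
  have h2 : b < l := by
    rw [he]
    exact lt_nx h b
  have h3 := h1 b h2
  rw [← he] at h3
  exact lt_irrefl _ h3

end LCA
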