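import Pool.Agent.COD.Ip
import Pool.Agent.WCal.Rec

/-! # Typed cardinal arithmetic: definitions and first lemmas

(problem MP_328cd5_lc; architect helper18; no sorry in this file)

`N` is a well-founded model of ZFC, `K` a type of the model with an internal well-order (class `KTy`, `COD/Defs.lean`).
* `COD.Cov N m A` (`A : α → Prop`): `A` has at most `m` elements: an internal function maps the elements below `m` onto a
  superset of `A`. `Sur N a b` is `Cov N a (· < b)`.
* `Pk N K`: every element is below an infinite cardinal, `κ` (the type `K`) is regular (`COD.Bs` without `gch`).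
* `lst P`: the least element of `K` with the property `P` (`⊥` if there is none).
* The rules for internal predicates are the simp lemmas of `COD/Ip.lean` (`ip_ltK`, `ip_leK`, `ip_Cov`, `ip_Cd`, `ip_Lv`, `ip_Reg`, `ip_Lim`, `ip_Ev`, ...); rules about
  `nx`, `NL`, `LL`, `InE` under `Pk N K`: `KSim.lean`. -/

set_option autoImplicit false

universe u v w x

namespace LCA

open WCal WM COD

section

variable (N : Type u) [WM N] {K : Type v} [WTy N K] [KTy N K]

/-- an internal surjection from `a` onto `b` -/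
abbrev Sur (a b : K) : Prop := Cov N a (fun x : K => x < b)

end

section

variable (N : Type u) [WM N] (K : Type v) [WTy N K] [KTy N K]

/-- `κ` is a regular limit cardinal -/
structure Pk : Prop where
  unb : ∀ a : K, ∃ b, a < b ∧ Cd N b
  reg : ∀ (b : K) (F : Fn N K K), ∃ c, ∀ x, x < b → F x < c

end

section

variable {N : Type u} [WM N] {K : Type v} [WTy N K] [KTy N K]
  {α : Type w} [WTy N α] {β : Type x} [WTy N β]

theorem _root_.COD.Bs.pk (h : Bs N K) : Pk N K := ⟨h.unb, h.reg⟩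

theorem cov_mono {m m' : K} {A A' : α → Prop} (h : Cov N m A) (hm : m ≤ m') (hA : ∀ a, A' a → A a) :
    Cov N m' A' := by
  obtain ⟨f, hf, h⟩ := h
  refine ⟨f, hf, fun a ha => ?_⟩
  obtain ⟨x, hx, hx'⟩ := h a (hA a ha)
  exact ⟨x, hx.trans_le hm, hx'⟩

theorem cov_img {m : K} {A : α → Prop} {B : β → Prop} {g : α → β} (h : Cov N m A) (hg : IF N g)
    (hB : ∀ b, B b → ∃ a, A a ∧ g a = b) : Cov N m B := by
  obtain ⟨f, hf, h⟩ := h
  refine ⟨fun x => g (f x), hg.comp hf, fun b hb => ?_⟩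
  obtain ⟨a, ha, rfl⟩ := hB b hb
  obtain ⟨x, hx, rfl⟩ := h a ha
  exact ⟨x, hx, rfl⟩

theorem cov_self (m : K) : Cov N m (fun x : K => x < m) := ⟨fun x => x, IF.id, fun a ha => ⟨a, ha, rfl⟩⟩

theorem cov_trans {m m' : K} {A : α → Prop} (h : Sur N m m') (h' : Cov N m' A) : Cov N m A := by
  obtain ⟨f, hf, h'⟩ := h'
  exact cov_img h hf h'

theorem cov_empty [Nonempty α] {m : K} {A : α → Prop} (h : ∀ a, ¬ A a) : Cov N m A := by
  obtain ⟨a0⟩ := ‹Nonempty α›
  exact ⟨fun _ => a0, IF.const a0, fun a ha => absurd ha (h a)⟩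

/-- simultaneous choice of covering functions -/
theorem cov_choose [Nonempty α] {m : β → K} (hm : IF N m)
    {A : β → α → Prop} (hA : IP N (fun p : β × α => A p.1 p.2)) :
    ∃ f : β → K → α, IF N (fun p : β × K => f p.1 p.2) ∧
      ∀ b, Cov N (m b) (A b) → ∀ a, A b a → ∃ x, x < m b ∧ f b x = a := by
  obtain ⟨a0⟩ := ‹Nonempty α›
  have h1 : IP N (fun p : β × Fn N K α => ∀ a, A p.1 a → ∃ x, x < m p.1 ∧ p.2 x = a) := by
    refine IP.all (IP.imp ?_ (IP.ex (IP.and ?_ ?_)))
    · exact IP.comp2 (P := A) hA (IF.fst.comp IF.fst) IF.snd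
    · exact ip_ltK IF.snd (hm.comp (IF.fst.comp (IF.fst.comp IF.fst)))
    · exact IP.eq (IF.app (IF.snd.comp (IF.fst.comp IF.fst)) IF.snd) (IF.snd.comp IF.fst)
  obtain ⟨F, hF, hF'⟩ := choice' (P := fun b (F : Fn N K α) => ∀ a, A b a → ∃ x, x < m b ∧ F x = a) h1
    (⟨fun _ => a0, IF.const a0⟩ : Fn N K α)
  refine ⟨fun b x => F b x, IF.app (hF.comp IF.fst) IF.snd, fun b hb => hF' b ?_⟩
  obtain ⟨f, hf, h⟩ := hb
  exact ⟨⟨f, hf⟩, h⟩

end

section

variable {N : Type u} [WM N] {K : Type v} [WTy N K] [KTy N K]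
  {α : Type w} [WTy N α] {β : Type x} [WTy N β]

variable (N) in
open Classical in
/-- the least element with the property `P` -/
noncomputable def lst (P : K → Prop) : K :=
  if h : {x | P x}.Nonempty then (wellFounded_lt (α := K)).min {x | P x} h else ⊥

theorem lst_spec {P : K → Prop} (h : ∃ x, P x) : P (lst N P) := by
  have h' : {x | P x}.Nonempty := h
  unfold lst
  rw [dif_pos h']
  exact (wellFounded_lt (α := K)).min_mem _ h'

theorem lst_le {P : K → Prop} {x : K} (hx : P x) : lst N P ≤ x := by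
  have h' : {x | P x}.Nonempty := ⟨x, hx⟩
  unfold lst
  rw [dif_pos h']
  exact not_lt.1 ((wellFounded_lt (α := K)).not_lt_min _ (show x ∈ {x | P x} from hx))

theorem lst_bot {P : K → Prop} (h : ∀ x, ¬ P x) : lst N P = ⊥ := by
  have h' : ¬ {x | P x}.Nonempty := fun ⟨x, hx⟩ => h x hx
  unfold lst
  rw [dif_neg h']

@[simp] theorem if_lst {P : β → K → Prop}
    (hP : IP N (fun p : β × K => P p.1 p.2)) : IF N (fun b => lst N (P b)) := by
  have h1 : IP N (fun p : β × K => (P p.1 p.2 ∧ ∀ y, P p.1 y → p.2 ≤ y) ∨ ((∀ y, ¬ P p.1 y) ∧ p.2 = ⊥)) := by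
    refine IP.or (IP.and hP (IP.all (IP.imp ?_ ?_))) (IP.and (IP.all (IP.not ?_)) ?_)
    · exact IP.comp2 (P := P) hP (IF.fst.comp IF.fst) IF.snd
    · exact ip_leK (IF.snd.comp IF.fst) IF.snd
    · exact IP.comp2 (P := P) hP (IF.fst.comp IF.fst) IF.snd
    · exact IP.eq IF.snd (IF.const ⊥)
  refine IP.congr (fun p => ?_) h1
  obtain ⟨b, y⟩ := p
  simp only
  constructor
  · rintro (⟨h1, h2⟩ | ⟨h1, rfl⟩)
    · exact le_antisymm (lst_le h1) (h2 _ (lst_spec ⟨y, h1⟩))
    · exact lst_bot h1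
  · rintro rfl
    by_cases h : ∃ x, P b x
    · exact Or.inl ⟨lst_spec h, fun y hy => lst_le hy⟩
    · push Not at h
      exact Or.inr ⟨h, lst_bot h⟩

end

/-! ## The next cardinal -/

section

variable {N : Type u} [WM N] {K : Type v} [WTy N K] [KTy N K] {β : Type x} [WTy N β]

theorem lt_nx (h : Pk N K) (a : K) : a < nx N a := by
  have h' : {b | a < b ∧ Cd N b}.Nonempty := h.unb a
  unfold nx
  rw [dif_pos h']
  exact ((wellFounded_lt (α := K)).min_mem _ h').1

theorem cd_nx (h : Pk N K) (a : K) : Cd N (nx N a) := by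
  have h' : {b | a < b ∧ Cd N b}.Nonempty := h.unb a
  unfold nx
  rw [dif_pos h']
  exact ((wellFounded_lt (α := K)).min_mem _ h').2

theorem nx_le' (h : Pk N K) {a b : K} (hab : a < b) (hb : Cd N b) : nx N a ≤ b := by
  have h' : {b | a < b ∧ Cd N b}.Nonempty := h.unb a
  unfold nx
  rw [dif_pos h']
  exact not_lt.1 ((wellFounded_lt (α := K)).not_lt_min _ (Set.mem_ofPred.2 ⟨hab, hb⟩))

theorem nx_mono (h : Pk N K) {a b : K} (hab : a ≤ b) : nx N a ≤ nx N b :=
  nx_le' h (hab.trans_lt (lt_nx h b)) (cd_nx h b)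

theorem nx_eq (h : Pk N K) (a : K) : nx N a = lst N (fun b => a < b ∧ Cd N b) :=
  le_antisymm (nx_le' h (lst_spec (P := fun b => a < b ∧ Cd N b) (h.unb a)).1
    (lst_spec (P := fun b => a < b ∧ Cd N b) (h.unb a)).2) (lst_le ⟨lt_nx h a, cd_nx h a⟩)

end

end LCA
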