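import Pool.Agent.LCA.KCd
import Pool.Agent.WCal.FinB

/-! # Natural numbers and finite sets in `K`

(problem MP_328cd5_lc; architect helper18)

PROOFS.
* `exists_en`: `e n := sc^[n] ⊥` (`IF.iter`, `if_sc`). `e n < e (n + 1)` by `lt_sc`, so `e` is
  strictly monotone; `e n < nx ⊥` by `cd_sc_lt`, `cd_nx`. Surjective onto the elements below
  `nx ⊥`: by induction along `<` for `x`: `Iio x` is finite (`lt_om`); `x = ⊥` is `e 0`; otherwise
  let `y` be the largest element of the finite nonempty set `Iio x`; then `x = sc y` (`lt_sc_iff`)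
  and `y = e n` by induction.
* `cov_nat`: an internal `f : K → ℕ` with `e (f x) = x` for all `x` in the range of `e`
  (`choice'`); `e` is injective, so it covers `ℕ` from `nx ⊥`; `om_le`.
* `cov_of_finite`: enumerate the finite set by an internal function on `ℕ` (induction on the
  finite set), then compose with the function of `cov_nat`.
* `cov_of_cnt`: `Cnt S` gives an internal `e : ℕ → α` which covers `S` (or `S` is empty:
  `cov_empty`); `cov_img` of `cov_nat`.
* `cnt_of_cov`: `f` covers `A` from `nx ⊥`, so `fun n => f (e n)` covers `A`, `e` from `exists_en`;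
  `Cnt.range`. -/

set_option autoImplicit false

universe u v w x

namespace LCA

open WCal WM COD

variable {N : Type u} [WM N] {K : Type v} [WTy N K] [KTy N K]
  {α : Type w} [WTy N α]

theorem exists_en (h : Pk N K) : ∃ e : ℕ → K, IF N e ∧ StrictMono e ∧ (∀ n, e n < nx N ⊥) ∧
    (∀ n, e (n + 1) = sc N (e n)) ∧ e 0 = ⊥ ∧ ∀ x, x < nx N (⊥ : K) → ∃ n, e n = x := by
  have hsc : IF N (fun x : K => sc N x) := if_sc IF.id
  have hs : ∀ n, (fun x : K => sc N x)^[n + 1] ⊥ = sc N ((fun x : K => sc N x)^[n] ⊥) := fun n =>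
    Function.iterate_succ_apply' _ _ _
  refine ⟨fun n => (fun x : K => sc N x)^[n] ⊥, IF.iter hsc ⊥,
    strictMono_nat_of_lt_succ fun n => ?_, fun n => ?_, hs, rfl, ?_⟩
  · rw [hs]
    exact lt_sc h _
  · induction n with
    | zero => exact lt_nx h ⊥
    | succ n ih =>
      refine lt_of_eq_of_lt (hs n) ?_
      exact cd_sc_lt h (cd_nx h ⊥) ih
  · intro x
    induction x using WellFoundedLT.induction with
    | ind x ih =>
      intro hx
      by_cases hb : x = ⊥
      · exact ⟨0, hb.symm⟩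
      · obtain ⟨y, hy, hmax⟩ := Set.exists_max_image (Set.Iio x) id ((lt_om h).1 hx)
          ⟨⊥, bot_lt_iff_ne_bot.2 hb⟩
        have hy' : y < x := hy
        have hxy : sc N y = x := by
          apply le_antisymm
          · by_contra hcon
            have h1 := (lt_sc_iff h).1 (not_le.1 hcon)
            exact absurd hy' (not_lt.2 h1)
          · by_contra hcon
            have h1 : sc N y ≤ y := hmax _ (not_le.1 hcon)
            exact absurd (lt_sc h y) (not_lt.2 h1)
        obtain ⟨n, hn⟩ := ih y hy' (hy'.trans hx)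
        refine ⟨n + 1, ?_⟩
        have hn' : (fun x : K => sc N x)^[n] ⊥ = y := hn
        change (fun x : K => sc N x)^[n + 1] ⊥ = x
        rw [hs, hn', hxy]

theorem cov_nat (h : Pk N K) {a : K} (ha : Cd N a) : Cov N a (fun _ : ℕ => True) := by
  obtain ⟨e, he, hmono, hlt, -, -, -⟩ := exists_en h
  obtain ⟨f, hf, hf'⟩ := choice' (N := N) (P := fun (x : K) (n : ℕ) => e n = x)
    (IP.eq (he.comp IF.snd) IF.fst) 0
  refine ⟨f, hf, fun n _ => ⟨e n, (hlt n).trans_le (om_le h ha), ?_⟩⟩
  exact hmono.injective (hf' (e n) ⟨n, rfl⟩)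

private theorem fin_enum' (a0 : α) {F : Set α} (hF : F.Finite) :
    ∃ e : ℕ → α, IF N e ∧ ∀ a ∈ F, ∃ n, e n = a := by
  classical
  induction F, hF using Set.Finite.induction_on with
  | empty => exact ⟨fun _ => a0, IF.const a0, fun a ha => absurd ha (Set.notMem_empty a)⟩
  | @insert a F _ _ ih =>
    obtain ⟨e, he, he'⟩ := ih
    refine ⟨fun n => @ite _ (n = 0) (Classical.propDecidable _) a (e (n - 1)),
      IF.ite (IP.eq IF.id (IF.const 0)) (IF.const a) (IF.comp he (IF.sub IF.id (IF.const 1))), ?_⟩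
    intro b hb
    rcases Set.mem_insert_iff.1 hb with rfl | hb
    · exact ⟨0, if_pos rfl⟩
    · obtain ⟨n, rfl⟩ := he' b hb
      exact ⟨n + 1, if_neg (Nat.succ_ne_zero n)⟩

theorem cov_of_finite [Nonempty α] (h : Pk N K) {a : K} (ha : Cd N a) {A : α → Prop}
    (hA : {x | A x}.Finite) : Cov N a A := by
  obtain ⟨a0⟩ := ‹Nonempty α›
  obtain ⟨e, he, he'⟩ := fin_enum' (N := N) a0 hA
  refine cov_img (cov_nat h ha) he fun b hb => ?_
  obtain ⟨n, hn⟩ := he' b hb
  exact ⟨n, trivial, hn⟩

theorem cov_of_cnt [Nonempty α] (h : Pk N K) {a : K} (ha : Cd N a) {S : St N α} (hS : Cnt S) :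
    Cov N a (fun x => x ∈ S) := by
  rcases hS with hS | ⟨e, he⟩
  · exact cov_empty hS
  · refine cov_img (cov_nat h ha) e.int fun b hb => ?_
    obtain ⟨n, hn⟩ := he b hb
    exact ⟨n, trivial, hn⟩

theorem cnt_of_cov [Nonempty α] (h : Pk N K) {S : St N α}
    (hS : Cov N (nx N (⊥ : K)) (fun x => x ∈ S)) : Cnt S := by
  obtain ⟨f, hf, hcov⟩ := hS
  obtain ⟨e, he, -, -, -, -, hsur⟩ := exists_en h
  refine Cnt.range (e := fun n => f (e n)) (hf.comp he) fun a ha => ?_
  obtain ⟨x, hx, rfl⟩ := hcov a ha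
  obtain ⟨n, rfl⟩ := hsur x hx
  exact ⟨n, rfl⟩

end LCA
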