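import Pool.Agent.LCA.KClub

/-! # Clubs of singular cardinals and the functions `h l`

(problem MP_328cd5_lc; architect helper18; section 3 of /team-store/COD_h51.md)

`Nmh N K`: every regular limit cardinal `l` has a club without regular elements. `Gl l i` (`i < l`): a family of functions to be dominated by `h l` on `C l`.

PROOFS.
* `E : K → St N K` internal with `Club N l (E l)` and no regular elements for all `l` in `InE`: `choice'` (`WCal/Cho.lean`; `ip_Club`, `ip_Reg`, `ipp_InE`; write `have : Fact (Pk N K) := ⟨h⟩`).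
* `hh l c := lst N (fun y => nx N (nx N c) ≤ y ∧ ∀ i, i < c → Gl l i c < l → Gl l i c ≤ y)`. For `l` in `InE` and `c < l`: `hh l c < l`: `nx (nx c) < l` (`ll_nx_lt`) and the values `Gl l i c < l`, `i < c`, are bounded in `l` (`reg_bdd`).
* `C l := {c | c ∈ E l ∧ c < l ∧ LL N c ∧ ∀ x, x < c → hh l x < c}`. It is a club of `l`: `club_inter` twice for `E l` (intersected with `{c | c < l}`: being a club of `l` does not depend on elements `≥ l`: check the definition), `{c | LL N c}` (`club_LL`), `{c | ∀ x, x < c → hh l x < c}`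
  (`club_clo`). `ω < l`: `ll_om_lt`.
* `c < c'` in `C l`: `hh l c < c'` as `c < c'` and `c'` is closed. Domination: for `i < l` and `Gl l i` mapping `Iio l` into `l`: for all `c ∈ C l`, `c ≥ sc i` (`sc i < l`): `Gl l i c < l`, `i < c`, so `Gl l i c ≤ hh l c` (`lst_spec`). -/

set_option autoImplicit false

universe u v w x

namespace LCA

open WCal WM COD

variable {N : Type u} [WM N] {K : Type v} [WTy N K] [KTy N K]

variable (N K) in
/-- no regular limit cardinal below `κ` is a Mahlo cardinal -/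
def Nmh : Prop := ∀ l : K, InE N l → ∃ E : St N K, Club N l E ∧ ∀ c, c ∈ E → ¬ Reg N c

private theorem gap_G {Gl : K → K → Fn N K K} (hG : IF N (fun p : K × K => Gl p.1 p.2))
    {α : Type v} [WTy N α] {f g k : α → K} (hf : IF N f) (hg : IF N g) (hk : IF N k) :
    IF N (fun a => Gl (f a) (g a) (k a)) := IF.app (IF.comp2 (h := Gl) hG hf hg) hk

variable (N) in
/-- the property of the bounds -/
private def gapP (Gl : K → K → Fn N K K) (l c y : K) : Prop :=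
  nx N (nx N c) ≤ y ∧ ∀ i, i < c → Gl l i c < l → Gl l i c ≤ y

private theorem ip_gapP (h : Pk N K) {Gl : K → K → Fn N K K}
    (hG : IF N (fun p : K × K => Gl p.1 p.2)) :
    IP N (fun p : (K × K) × K => gapP N Gl p.1.1 p.1.2 p.2) := by
  have hF : Fact (Pk N K) := ⟨h⟩
  have e1 : IF N (fun p : (K × K) × K => p.1.1) := IF.fst.comp IF.fst
  have e2 : IF N (fun p : (K × K) × K => p.1.2) := IF.snd.comp IF.fst
  have g1 : IF N (fun p : ((K × K) × K) × K => p.1.1.1) := e1.comp IF.fst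
  have g2 : IF N (fun p : ((K × K) × K) × K => p.1.1.2) := e2.comp IF.fst
  have g3 : IF N (fun p : ((K × K) × K) × K => p.1.2) := IF.snd.comp IF.fst
  have g4 : IF N (fun p : ((K × K) × K) × K => p.2) := IF.snd
  refine IP.and (ip_leK (ifp_nx (ifp_nx e2)) IF.snd) (IP.all (IP.imp ?_ (IP.imp ?_ ?_)))
  · exact ip_ltK g4 g2
  · exact ip_ltK (gap_G hG g1 g4 g2) g1
  · exact ip_leK (gap_G hG g1 g4 g2) g3

private theorem gap_ex (h : Pk N K) {Gl : K → K → Fn N K K}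
    (hG : IF N (fun p : K × K => Gl p.1 p.2))
    {l c : K} (hl : InE N l) (hc : c < l) : ∃ y, y < l ∧ gapP N Gl l c y := by
  have hcov : Cov N c (fun y => ∃ i, i < c ∧ Gl l i c < l ∧ Gl l i c = y) := by
    refine ⟨fun i => Gl l i c, gap_G hG (IF.const l) IF.id (IF.const c), ?_⟩
    rintro y ⟨i, hi, -, rfl⟩
    exact ⟨i, hi, rfl⟩
  have hlt : ∀ y, (∃ i, i < c ∧ Gl l i c < l ∧ Gl l i c = y) → y < l := by
    rintro y ⟨i, -, hi, rfl⟩
    exact hi
  obtain ⟨c1, hc1, hc2⟩ := reg_bdd hl.2 hc hcov hlt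
  refine ⟨max (nx N (nx N c)) c1, max_lt (ll_nx_lt h hl.1 (ll_nx_lt h hl.1 hc)) hc1,
    le_max_left _ _, fun i hi hi' => ?_⟩
  exact (hc2 _ ⟨i, hi, hi', rfl⟩).le.trans (le_max_right _ _)

theorem exists_gap (h : Pk N K) (hN : Nmh N K) {Gl : K → K → Fn N K K} (hG : IF N (fun p : K × K => Gl p.1 p.2)) :
    ∃ (C : K → St N K) (hh : K → K → K), IF N C ∧ IF N (fun p : K × K => hh p.1 p.2) ∧ ∀ l, InE N l →
      Club N l (C l) ∧ (∀ c, c ∈ C l → LL N c ∧ c < l ∧ ¬ Reg N c) ∧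
      (∀ c c', c ∈ C l → c' ∈ C l → c < c' → hh l c < c') ∧
      (∀ c, c ∈ C l → nx N (nx N c) ≤ hh l c ∧ hh l c < l) ∧
      ∀ i, i < l → (∀ x, x < l → Gl l i x < l) → Ev N l (C l) (fun c => Gl l i c ≤ hh l c) := by
  have hF : Fact (Pk N K) := ⟨h⟩
  have hP : IP N (fun p : K × St N K => Club N p.1 p.2 ∧ ∀ c, c ∈ p.2 → ¬ Reg N c) :=
    IP.and (ip_Club IF.fst IF.snd) (IP.all (IP.imp (IP.mem IF.snd (IF.snd.comp IF.fst))
      (IP.not (ip_Reg IF.snd))))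
  obtain ⟨E, hE, hE'⟩ := choice' (P := fun (l : K) (E : St N K) =>
    Club N l E ∧ ∀ c, c ∈ E → ¬ Reg N c) hP (⟨∅, IP.const False⟩ : St N K)
  have hE1 : ∀ l, InE N l → Club N l (E l) ∧ ∀ c, c ∈ E l → ¬ Reg N c := fun l hl =>
    hE' l (hN l hl)
  obtain ⟨hh, hhd⟩ : ∃ hh : K → K → K, hh = fun l c => lst N (gapP N Gl l c) := ⟨_, rfl⟩
  have hhi : IF N (fun p : K × K => hh p.1 p.2) := by
    rw [hhd]
    exact if_lst (P := fun (p : K × K) (y : K) => gapP N Gl p.1 p.2 y) (ip_gapP h hG)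
  have hlt : ∀ l, InE N l → ∀ c, c < l → hh l c < l := by
    intro l hl c hc
    obtain ⟨y, hy, hy'⟩ := gap_ex h hG hl hc
    rw [hhd]
    exact (lst_le hy').trans_lt hy
  have hsp : ∀ l, InE N l → ∀ c, c < l → gapP N Gl l c (hh l c) := by
    intro l hl c hc
    obtain ⟨y, hy, hy'⟩ := gap_ex h hG hl hc
    rw [hhd]
    exact lst_spec ⟨y, hy'⟩
  have hCi : IP N (fun p : K × K => p.2 ∈ E p.1 ∧ p.2 < p.1 ∧ LL N p.2 ∧
      ∀ x, x < p.2 → hh p.1 x < p.2) := by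
    refine IP.and (IP.mem IF.snd (hE.comp IF.fst)) (IP.and (ip_ltK IF.snd IF.fst)
      (IP.and (ipp_LL IF.snd) (IP.all (IP.imp (ip_ltK IF.snd (IF.snd.comp IF.fst)) ?_))))
    exact ip_ltK (IF.comp2 (h := hh) hhi (IF.fst.comp IF.fst) IF.snd) (IF.snd.comp IF.fst)
  obtain ⟨C, hC⟩ : ∃ C : K → St N K, C = fun l => (⟨{c | c ∈ E l ∧ c < l ∧ LL N c ∧
      ∀ x, x < c → hh l x < c}, hCi.sec l⟩ : St N K) := ⟨_, rfl⟩
  have hCm : ∀ l c, c ∈ C l ↔ c ∈ E l ∧ c < l ∧ LL N c ∧ ∀ x, x < c → hh l x < c := by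
    intro l c
    rw [hC]
    exact Iff.rfl
  refine ⟨C, hh, ?_, hhi, fun l hl => ⟨?_, ?_, ?_, ?_, ?_⟩⟩
  · rw [hC]
    exact IF.compr (P := fun l c => c ∈ E l ∧ c < l ∧ LL N c ∧ ∀ x, x < c → hh l x < c) hCi
  · have hlc : IF N (hh l) := IF.comp2 (h := hh) hhi (IF.const l) IF.id
    obtain ⟨hE2, -⟩ := hE1 l hl
    let D1 : St N K := ⟨{c | c ∈ E l ∧ c < l}, IP.and (IP.mem IF.id (IF.const _))
      (ip_ltK IF.id (IF.const _))⟩
    let D2 : St N K := ⟨{c | LL N c}, ipp_LL IF.id⟩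
    let D3 : St N K := ⟨{c | ∀ x, x < c → hh l x < c}, IP.all (IP.imp (ip_ltK IF.snd IF.fst)
      (ip_ltK (hlc.comp IF.snd) IF.fst))⟩
    let D4 : St N K := ⟨{c | c ∈ D1 ∧ c ∈ D2}, IP.and (IP.mem IF.id (IF.const _))
      (IP.mem IF.id (IF.const _))⟩
    have h0 : nx N (⊥ : K) < l := ll_om_lt h hl.1
    have h1 : Club N l D1 := by
      constructor
      · intro x hx
        obtain ⟨y, hy, hxy, hyl⟩ := hE2.1 x hx
        exact ⟨y, ⟨hy, hyl⟩, hxy, hyl⟩
      · intro y hy hy0 hlim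
        refine ⟨hE2.2 y hy hy0 fun x hx => ?_, hy⟩
        obtain ⟨z, hz, hxz, hzy⟩ := hlim x hx
        exact ⟨z, hz.1, hxz, hzy⟩
    have h2 : Club N l D2 := club_LL h hl fun c => Iff.rfl
    have h3 : Club N l D3 := club_clo h hl.2 h0 hlc (fun x hx => hlt l hl x hx) fun c => Iff.rfl
    have h4 : Club N l D4 := club_inter h hl.2 h0 h1 h2 fun c => Iff.rfl
    refine club_inter h hl.2 h0 h4 h3 fun c => ?_
    rw [hCm]
    constructor
    · rintro ⟨a1, a2, a3, a4⟩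
      exact ⟨⟨⟨a1, a2⟩, a3⟩, a4⟩
    · rintro ⟨⟨⟨a1, a2⟩, a3⟩, a4⟩
      exact ⟨a1, a2, a3, a4⟩
  · intro c hc
    rw [hCm] at hc
    exact ⟨hc.2.2.1, hc.2.1, (hE1 l hl).2 c hc.1⟩
  · intro c c' _ hc' hcc
    rw [hCm] at hc'
    exact hc'.2.2.2 c hcc
  · intro c hc
    rw [hCm] at hc
    exact ⟨(hsp l hl c hc.2.1).1, hlt l hl c hc.2.1⟩
  · intro i hi hGi
    refine ⟨sc N i, cd_sc_lt h hl.1.1 hi, fun m _ hm hml => ?_⟩
    exact (hsp l hl m hml).2 i ((lt_sc h i).trans_le hm) (hGi m hml)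

end LCA
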