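import Pool.Agent.LCA.KFin

/-! # Pairing functions for all infinite cardinals (Hessenberg)

(problem MP_328cd5_lc; architect helper18)

PROOFS.
* `hess`: strong induction on `a` (`wellFounded_lt.induction`). Let `r c c'` (`c c' : K × K`, `c = (x, y)`, `m c := max x y`) be: `m c < m c' ∨ (m c = m c' ∧ (x < x' ∨ (x = x' ∧ y < y')))`. It is internal (write `max` by cases or
  `m c < m c'` as `∀ z, (z ≤ x ∨ z ≤ y) → (z < x' ∨ z < y')` or use `IF.ite`), linear and well-founded (`InvImage` of a lexicographic product of three copies of `<`). `wfRec` (`WCal/Rec.lean`) with `β := K`,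
  `G c S := lst N (fun z => ∀ q, q ∈ S → q.2 ≠ z)` gives an internal `F` with `F c = lst N (fun z => ∀ c', r c' c → F c' ≠ z)` (apply it to the internal set `S` of all `(c', F c')` with `r c' c`).
  CLAIM: for `c = (x, y)` with `x, y < a` there is `z < a` which is not a value `F c'`, `r c' c`. Then `F c ≤ z < a` (`lst_le`) and `F c` is not a value `F c'` with `r c' c` (`lst_spec`); so `F` is injective on the pairs of elements below `a`
  (two different pairs are comparable).
  Proof of the claim. Suppose all `z < a` are such values. Put `m := max x y < a`. All `c'` with `r c' c` have components `≤ m`, i.e. `< sc m`, and `sc m < a` (`cd_sc_lt`).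
  If `Iio (sc m)` is finite: the set of the `c'` is finite, so `Iio a` is contained in a finite set, contradiction to `Cd N a`. If it is infinite: `exists_cd` gives a cardinal `c0 ≤ sc m < a` with `Sur c0 (sc m)`, given by `s`. The
  induction hypothesis gives `p` for `c0`. The functions `u z := lst N (fun x => x < c0 ∧ ∃ y, y < c0 ∧ p x y = z)`, `v z := lst N (fun y => y < c0 ∧ ∃ x, x < c0 ∧ p x y = z)` are internal, `u (p x y) = x`, `v (p x y) = y` for `x, y < c0`. So
  `z ↦ F (s (u z), s (v z))` maps `Iio c0` onto a superset of the set of the `F c'`, which contains `Iio a`: `Sur N c0 a`, contradiction.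
* `exists_PF`: `choice'` for the predicate of `(a, P) : K × Fn N (K × K) K` '`P` is injective on the pairs below `a` with values `< a`' gives `p`; `u a z := lst N (fun x => x < a ∧ ∃ y, y < a ∧ p a x y = z)`, `v a z` similarly; `⊥ < a` for
  `u_lt`, `v_lt` (if the set is empty `lst` is `⊥`). -/

set_option autoImplicit false

universe u v w x

namespace LCA

open WCal WM COD

section

variable {N : Type u} [WM N] {K : Type v} [WTy N K] [KTy N K]

variable (N) in
/-- the order of the pairs -/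
private def hr (c c' : K × K) : Prop :=
  max c.1 c.2 < max c'.1 c'.2 ∨
    (max c.1 c.2 = max c'.1 c'.2 ∧ (c.1 < c'.1 ∨ (c.1 = c'.1 ∧ c.2 < c'.2)))

private theorem hr_wf : WellFounded (hr N (K := K)) := by
  have h1 : WellFounded (Prod.Lex (fun a b : K => a < b)
      (Prod.Lex (fun a b : K => a < b) (fun a b : K => a < b))) :=
    WellFounded.prod_lex (wellFounded_lt (α := K)) (WellFounded.prod_lex (wellFounded_lt (α := K))
      (wellFounded_lt (α := K)))
  refine Subrelation.wf ?_ (InvImage.wf (fun c : K × K => (max c.1 c.2, c.1, c.2)) h1)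
  intro c c' h
  change Prod.Lex _ _ _ _
  rw [Prod.lex_def, Prod.lex_def]
  exact h

private theorem hr_tot {c c' : K × K} (h : c ≠ c') : hr N c c' ∨ hr N c' c := by
  rcases lt_trichotomy (max c.1 c.2) (max c'.1 c'.2) with h1 | h1 | h1
  · exact Or.inl (Or.inl h1)
  · rcases lt_trichotomy c.1 c'.1 with h2 | h2 | h2
    · exact Or.inl (Or.inr ⟨h1, Or.inl h2⟩)
    · rcases lt_trichotomy c.2 c'.2 with h3 | h3 | h3
      · exact Or.inl (Or.inr ⟨h1, Or.inr ⟨h2, h3⟩⟩)
      · exact absurd (Prod.ext h2 h3) h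
      · exact Or.inr (Or.inr ⟨h1.symm, Or.inr ⟨h2.symm, h3⟩⟩)
    · exact Or.inr (Or.inr ⟨h1.symm, Or.inl h2⟩)
  · exact Or.inr (Or.inl h1)

private theorem hr_le {c c' : K × K} (h : hr N c' c) : c'.1 ≤ max c.1 c.2 ∧ c'.2 ≤ max c.1 c.2 := by
  have h1 : max c'.1 c'.2 ≤ max c.1 c.2 := by
    rcases h with h | h
    · exact h.le
    · exact h.1.le
  exact ⟨(le_max_left _ _).trans h1, (le_max_right _ _).trans h1⟩

private theorem hr_max :
    IF N (fun c : K × K => max c.1 c.2) := by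
  classical
  refine IF.congr (fun c => ?_)
    (IF.ite (P := fun c : K × K => c.1 ≤ c.2) (ip_leK IF.fst IF.snd) IF.snd IF.fst)
  by_cases h : c.1 ≤ c.2
  · rw [if_pos h, max_eq_right h]
  · rw [if_neg h, max_eq_left (le_of_not_ge h)]

private theorem hr_ip :
    IP N (fun p : (K × K) × (K × K) => hr N p.1 p.2) := by
  have hm := hr_max (N := N) (K := K)
  have m1 : IF N (fun p : (K × K) × (K × K) => max p.1.1 p.1.2) := hm.comp IF.fst
  have m2 : IF N (fun p : (K × K) × (K × K) => max p.2.1 p.2.2) := hm.comp IF.snd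
  refine IP.or (ip_ltK m1 m2) (IP.and (IP.eq m1 m2) (IP.or ?_ (IP.and ?_ ?_)))
  · exact ip_ltK (IF.fst.comp IF.fst) (IF.fst.comp IF.snd)
  · exact IP.eq (IF.fst.comp IF.fst) (IF.fst.comp IF.snd)
  · exact ip_ltK (IF.snd.comp IF.fst) (IF.snd.comp IF.snd)

private theorem hr_rec : ∃ F : K × K → K, IF N F ∧
    ∀ c, F c = lst N (fun z => ∀ c', hr N c' c → F c' ≠ z) := by
  have hG : IF N (fun p : (K × K) × St N ((K × K) × K) =>
      lst N (fun z => ∀ q : (K × K) × K, q ∈ p.2 → q.2 ≠ z)) := by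
    refine if_lst (P := fun (p : (K × K) × St N ((K × K) × K)) z =>
      ∀ q : (K × K) × K, q ∈ p.2 → q.2 ≠ z) ?_
    refine IP.all (IP.imp (IP.mem IF.snd (IF.snd.comp (IF.fst.comp IF.fst))) (IP.not ?_))
    exact IP.eq (IF.snd.comp IF.snd) (IF.snd.comp IF.fst)
  obtain ⟨F, hF, hrec⟩ := wfRec (hr_wf (N := N) (K := K)) (hr_ip (N := N) (K := K))
    (G := fun _ (S : St N ((K × K) × K)) => lst N (fun z => ∀ q : (K × K) × K, q ∈ S → q.2 ≠ z)) hG
  refine ⟨F, hF, fun c => ?_⟩
  have hS : IP N (fun q : (K × K) × K => hr N q.1 c ∧ F q.1 = q.2) :=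
    IP.and (IP.comp2 (P := hr N) (hr_ip (N := N) (K := K)) IF.fst (IF.const c)) (IP.eq (hF.comp IF.fst) IF.snd)
  rw [hrec c ⟨{q | hr N q.1 c ∧ F q.1 = q.2}, hS⟩ (fun q => Iff.rfl)]
  congr 1
  funext z
  apply propext
  constructor
  · intro h c' hc'
    exact h (c', F c') ⟨hc', rfl⟩
  · rintro h ⟨c', w⟩ ⟨h1, h2⟩ h3
    exact h c' h1 (h2.trans h3)

/-- the canonical pairing function -/
private theorem hr_main (h : Pk N K) : ∃ F : K × K → K, IF N F ∧
    ∀ a, Cd N a → (∀ c : K × K, c.1 < a → c.2 < a → F c < a) ∧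
      ∀ c c' : K × K, c.1 < a → c.2 < a → c'.1 < a → c'.2 < a → F c = F c' → c = c' := by
  obtain ⟨F, hF, hrec⟩ := hr_rec (N := N) (K := K)
  refine ⟨F, hF, fun a => ?_⟩
  induction a using WellFoundedLT.induction with
  | ind a ih =>
    intro ha
    -- the claim
    have claim : ∀ c : K × K, c.1 < a → c.2 < a → ∃ z, z < a ∧ ∀ c', hr N c' c → F c' ≠ z := by
      intro c h1 h2
      by_contra hcon
      push Not at hcon
      have hm : max c.1 c.2 < a := max_lt h1 h2
      have hsm : sc N (max c.1 c.2) < a := cd_sc_lt h ha hm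
      have hlow : ∀ c', hr N c' c → c'.1 < sc N (max c.1 c.2) ∧ c'.2 < sc N (max c.1 c.2) := by
        intro c' hc'
        obtain ⟨h3, h4⟩ := hr_le hc'
        exact ⟨(lt_sc_iff h).2 h3, (lt_sc_iff h).2 h4⟩
      by_cases hfin : (Set.Iio (sc N (max c.1 c.2))).Finite
      · have hf2 : (F '' (Set.Iio (sc N (max c.1 c.2)) ×ˢ Set.Iio (sc N (max c.1 c.2)))).Finite :=
          (hfin.prod hfin).image F
        refine ha.1 (hf2.subset fun z hz => ?_)
        obtain ⟨c', hc', rfl⟩ := hcon z hz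
        exact ⟨c', hlow c' hc', rfl⟩
      · obtain ⟨c0, hc0, hc0c, s, hsI, hs⟩ := exists_cd (N := N) hfin
        have hc0a : c0 < a := hc0.trans_lt hsm
        obtain ⟨ih1, ih2⟩ := ih c0 hc0a hc0c
        have hP : IP N (fun p : (K × K) × K => p.1.1 < p.2 ∧ p.1.2 < p.2) :=
          IP.and (ip_ltK (IF.fst.comp IF.fst) IF.snd)
            (ip_ltK (IF.snd.comp IF.fst) IF.snd)
        have hu : IF N (fun z : K => lst N (fun x => x < c0 ∧ ∃ y, y < c0 ∧ F (x, y) = z)) := by
          refine if_lst (P := fun z x => x < c0 ∧ ∃ y, y < c0 ∧ F (x, y) = z) ?_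
          refine IP.and (ip_ltK IF.snd (IF.const c0)) (IP.ex (IP.and ?_ ?_))
          · exact ip_ltK IF.snd (IF.const c0)
          · exact IP.eq (hF.comp ((IF.snd.comp IF.fst).pair IF.snd)) (IF.fst.comp IF.fst)
        have hv : IF N (fun z : K => lst N (fun y => y < c0 ∧ ∃ x, x < c0 ∧ F (x, y) = z)) := by
          refine if_lst (P := fun z y => y < c0 ∧ ∃ x, x < c0 ∧ F (x, y) = z) ?_
          refine IP.and (ip_ltK IF.snd (IF.const c0)) (IP.ex (IP.and ?_ ?_))
          · exact ip_ltK IF.snd (IF.const c0)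
          · exact IP.eq (hF.comp (IF.snd.pair (IF.snd.comp IF.fst))) (IF.fst.comp IF.fst)
        refine ha.2 c0 hc0a ⟨fun z => F (s (lst N (fun x => x < c0 ∧ ∃ y, y < c0 ∧ F (x, y) = z)),
          s (lst N (fun y => y < c0 ∧ ∃ x, x < c0 ∧ F (x, y) = z))),
            hF.comp ((hsI.comp hu).pair (hsI.comp hv)), fun w hw => ?_⟩
        obtain ⟨c', hc', rfl⟩ := hcon w hw
        obtain ⟨h3, h4⟩ := hlow c' hc'
        obtain ⟨x1, hx1, hx1'⟩ := hs c'.1 h3
        obtain ⟨x2, hx2, hx2'⟩ := hs c'.2 h4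
        refine ⟨F (x1, x2), ih1 _ hx1 hx2, ?_⟩
        have e1 : lst N (fun x => x < c0 ∧ ∃ y, y < c0 ∧ F (x, y) = F (x1, x2)) = x1 := by
          obtain ⟨k1, y, k2, k3⟩ := lst_spec (N := N)
            (P := fun x => x < c0 ∧ ∃ y, y < c0 ∧ F (x, y) = F (x1, x2)) ⟨x1, hx1, x2, hx2, rfl⟩
          exact congrArg Prod.fst (ih2 (_, y) (x1, x2) k1 k2 hx1 hx2 k3)
        have e2 : lst N (fun y => y < c0 ∧ ∃ x, x < c0 ∧ F (x, y) = F (x1, x2)) = x2 := by
          obtain ⟨k1, y, k2, k3⟩ := lst_spec (N := N)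
            (P := fun y => y < c0 ∧ ∃ x, x < c0 ∧ F (x, y) = F (x1, x2)) ⟨x2, hx2, x1, hx1, rfl⟩
          exact congrArg Prod.snd (ih2 (y, _) (x1, x2) k2 k1 hx1 hx2 k3)
        change F (s _, s _) = F c'
        rw [e1, e2]
        have e3 : s x1 = c'.1 := hx1'
        have e4 : s x2 = c'.2 := hx2'
        rw [e3, e4]
    have hlt : ∀ c : K × K, c.1 < a → c.2 < a → F c < a := by
      intro c h1 h2
      obtain ⟨z, hz, hz'⟩ := claim c h1 h2
      rw [hrec c]
      exact (lst_le hz').trans_lt hz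
    have hne : ∀ c : K × K, c.1 < a → c.2 < a → ∀ c', hr N c' c → F c' ≠ F c := by
      intro c h1 h2
      obtain ⟨z, _, hz'⟩ := claim c h1 h2
      have h3 := lst_spec (N := N) (P := fun z => ∀ c', hr N c' c → F c' ≠ z) ⟨z, hz'⟩
      rw [← hrec c] at h3
      exact h3
    refine ⟨hlt, fun c c' h1 h2 h3 h4 he => ?_⟩
    by_contra hcc
    rcases hr_tot (N := N) hcc with h5 | h5
    · exact hne c' h3 h4 c h5 he
    · exact hne c h1 h2 c' h5 he.symm

theorem hess (h : Pk N K) {a : K} (ha : Cd N a) : ∃ p : K → K → K, IF N (fun q : K × K => p q.1 q.2) ∧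
    (∀ x y, x < a → y < a → p x y < a) ∧
    ∀ x y x' y', x < a → y < a → x' < a → y' < a → p x y = p x' y' → x = x' ∧ y = y' := by
  obtain ⟨F, hF, hm⟩ := hr_main (N := N) (K := K) h
  obtain ⟨h1, h2⟩ := hm a ha
  refine ⟨fun x y => F (x, y), hF, fun x y hx hy => h1 (x, y) hx hy, ?_⟩
  intro x y x' y' hx hy hx' hy' he
  have h3 := h2 (x, y) (x', y') hx hy hx' hy' he
  exact ⟨congrArg Prod.fst h3, congrArg Prod.snd h3⟩

end

section

variable (N : Type u) [WM N] (K : Type v) [WTy N K] [KTy N K]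

/-- pairing functions `p a` on the infinite cardinals `a` with the inverse functions `u a`, `v a` -/
structure PF where
  p : K → K → K → K
  u : K → K → K
  v : K → K → K
  ip : IF N (fun q : K × K × K => p q.1 q.2.1 q.2.2)
  iu : IF N (fun q : K × K => u q.1 q.2)
  iv : IF N (fun q : K × K => v q.1 q.2)
  p_lt : ∀ a, Cd N a → ∀ x y, x < a → y < a → p a x y < a
  u_lt : ∀ a, Cd N a → ∀ z, u a z < a
  v_lt : ∀ a, Cd N a → ∀ z, v a z < a
  up : ∀ a, Cd N a → ∀ x y, x < a → y < a → u a (p a x y) = x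
  vp : ∀ a, Cd N a → ∀ x y, x < a → y < a → v a (p a x y) = y

end

section

variable {N : Type u} [WM N] {K : Type v} [WTy N K] [KTy N K]

theorem exists_PF (h : Pk N K) : Nonempty (PF N K) := by
  obtain ⟨F, hF, hm⟩ := hr_main (N := N) (K := K) h
  have hbot : ∀ a : K, Cd N a → ⊥ < a := by
    intro a ha
    rcases eq_or_ne a ⊥ with rfl | h1
    · exfalso
      refine ha.1 (Set.finite_empty.subset fun x hx => ?_)
      exact absurd hx not_lt_bot
    · exact bot_lt_iff_ne_bot.2 h1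
  refine ⟨{ p := fun _ x y => F (x, y)
            u := fun a z => lst N (fun x => x < a ∧ ∃ y, y < a ∧ F (x, y) = z)
            v := fun a z => lst N (fun y => y < a ∧ ∃ x, x < a ∧ F (x, y) = z)
            ip := hF.comp ((IF.fst.comp IF.snd).pair (IF.snd.comp IF.snd))
            iu := ?_
            iv := ?_
            p_lt := fun a ha x y hx hy => (hm a ha).1 (x, y) hx hy
            u_lt := fun a ha z => ?_
            v_lt := fun a ha z => ?_
            up := fun a ha x y hx hy => ?_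
            vp := fun a ha x y hx hy => ?_ }⟩
  · refine if_lst (P := fun (q : K × K) x => x < q.1 ∧ ∃ y, y < q.1 ∧ F (x, y) = q.2) ?_
    refine IP.and (ip_ltK IF.snd (IF.fst.comp IF.fst)) (IP.ex (IP.and ?_ ?_))
    · exact ip_ltK IF.snd (IF.fst.comp (IF.fst.comp IF.fst))
    · exact IP.eq (hF.comp ((IF.snd.comp IF.fst).pair IF.snd)) (IF.snd.comp (IF.fst.comp IF.fst))
  · refine if_lst (P := fun (q : K × K) y => y < q.1 ∧ ∃ x, x < q.1 ∧ F (x, y) = q.2) ?_
    refine IP.and (ip_ltK IF.snd (IF.fst.comp IF.fst)) (IP.ex (IP.and ?_ ?_))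
    · exact ip_ltK IF.snd (IF.fst.comp (IF.fst.comp IF.fst))
    · exact IP.eq (hF.comp (IF.snd.pair (IF.snd.comp IF.fst))) (IF.snd.comp (IF.fst.comp IF.fst))
  · by_cases h1 : ∃ x, x < a ∧ ∃ y, y < a ∧ F (x, y) = z
    · exact (lst_spec h1).1
    · push Not at h1
      rw [lst_bot (fun x hx => ?_)]
      · exact hbot a ha
      · obtain ⟨k1, y, k2, k3⟩ := hx
        exact h1 x k1 y k2 k3
  · by_cases h1 : ∃ y, y < a ∧ ∃ x, x < a ∧ F (x, y) = z
    · exact (lst_spec h1).1
    · push Not at h1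
      rw [lst_bot (fun x hx => ?_)]
      · exact hbot a ha
      · obtain ⟨k1, y, k2, k3⟩ := hx
        exact h1 x k1 y k2 k3
  · obtain ⟨k1, y', k2, k3⟩ := lst_spec (N := N)
      (P := fun x' => x' < a ∧ ∃ y', y' < a ∧ F (x', y') = F (x, y)) ⟨x, hx, y, hy, rfl⟩
    exact congrArg Prod.fst ((hm a ha).2 (_, y') (x, y) k1 k2 hx hy k3)
  · obtain ⟨k1, x', k2, k3⟩ := lst_spec (N := N)
      (P := fun y' => y' < a ∧ ∃ x', x' < a ∧ F (x', y') = F (x, y)) ⟨y, hy, x, hx, rfl⟩
    exact congrArg Prod.snd ((hm a ha).2 (x', _) (x, y) k2 k1 hx hy k3)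

end

end LCA
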