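import Pool.Agent.LCA.KDefs

/-! # Rules for internal predicates under `Pk N K`

(problem MP_328cd5_lc; architect helper18; no sorry in this file)

`[Fact (Pk N K)]`: simp lemmas about `nx`, `NL`, `LL`, `InE` (the rules of `COD/Ip.lean` need `Bs N K`). To use them with a hypothesis `h : Pk N K`
write `have : Fact (Pk N K) := ⟨h⟩`. -/

set_option autoImplicit false

universe u v w x

namespace LCA

open WCal WM COD

variable {N : Type u} [WM N] {K : Type v} [WTy N K] [KTy N K] {β : Type x} [WTy N β]

@[simp] theorem ifp_nx [h : Fact (Pk N K)] {f : β → K} (hf : IF N f) : IF N (fun b => nx N (f b)) := by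
  have h1 : IF N (fun a : K => lst N (fun b => a < b ∧ Cd N b)) :=
    if_lst (IP.and (ip_ltK IF.fst IF.snd) (ip_Cd IF.snd))
  exact (IF.congr (fun a => (nx_eq h.out a).symm) h1).comp hf

@[simp] theorem ipp_NL [h : Fact (Pk N K)] {f : β → K} (hf : IF N f) : IP N (fun b => NL N (f b)) := by
  unfold NL
  simp (maxDischargeDepth := 99) [hf.comp]

@[simp] theorem ipp_LL [h : Fact (Pk N K)] {f : β → K} (hf : IF N f) : IP N (fun b => LL N (f b)) := by
  unfold LL
  simp (maxDischargeDepth := 99) [hf.comp]

@[simp] theorem ipp_InE [h : Fact (Pk N K)] {f : β → K} (hf : IF N f) : IP N (fun b => InE N (f b)) := by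
  unfold InE
  simp (maxDischargeDepth := 99) [hf]

end LCA
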