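import Pool.Agent.LCA.KHess
import Pool.Agent.WCal.FinC

/-! # Products, unions and lists

(problem MP_328cd5_lc; architect helper18)

PROOFS. Let `D : PF N K` be from `exists_PF`.
* `cov_prod`: from `f`, `g` take `fun z => (f (D.u a z), g (D.v a z))`; for `f x`, `g y` use `z := D.p a x y`.
* `cov_union`: `f` covers `I` from `a`; `cov_choose` (`KDefs.lean`, for the family `A`, the constant function `m := a`) gives an internal `g : β → K → α` with: if `Cov N a (A b)` then every element of `A b` is `g b y`, `y < a`. Take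
  `fun z => g (f (D.u a z)) (D.v a z)`.
* `cov_or`: `cov_union` is not needed: from `f`, `g` take `fun z => if D.u a z = ⊥ then f (D.v a z) else g (D.v a z)`; `⊥ < a`, and some element `≠ ⊥` below `a` (`sc N ⊥ < a`, `cd_sc_lt`, `lt_sc`).
* `cov_list`: it suffices to cover the lists of elements of `K` below `a` (then compose with `List.map f`, `f` covers `A`: `IF.map`; every list of elements of `A` is `l.map f` with `l` a list of elements below `a`, by induction). Let
  `dec : ℕ → K → List K`, `dec 0 y = []`, `dec (n + 1) y = D.u a y :: dec n (D.v a y)`; it is internal (`IF.natRec` in `WCal/Nat.lean` with values in `Fn N K (List K)`, or by recursion on `n` with `IF.lam`). By induction on the list: a list `l` of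
  elements below `a` is `dec l.length y` for some `y < a`. With `g : K → ℕ` covering `ℕ` from `a` (`cov_nat`) take `fun z => dec (g (D.u a z)) (D.v a z)`.
* `cov_nat_prod`: `cov_prod` with `cov_nat`. -/

set_option autoImplicit false

universe u v w x

namespace LCA

open WCal WM COD

variable {N : Type u} [WM N] {K : Type v} [WTy N K] [KTy N K]
  {α : Type w} [WTy N α] {β : Type x} [WTy N β]

private theorem un_iu (D : PF N K) (a : K) : IF N (fun z => D.u a z) :=
  IF.comp2 D.iu (IF.const a) IF.id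

private theorem un_iv (D : PF N K) (a : K) : IF N (fun z => D.v a z) :=
  IF.comp2 D.iv (IF.const a) IF.id

theorem cov_prod (h : Pk N K) {a : K} (ha : Cd N a) {A : α → Prop} {B : β → Prop} (hA : Cov N a A)
    (hB : Cov N a B) : Cov N a (fun p : α × β => A p.1 ∧ B p.2) := by
  obtain ⟨D⟩ := exists_PF h
  obtain ⟨f, hf, hA⟩ := hA
  obtain ⟨g, hg, hB⟩ := hB
  refine ⟨fun z => (f (D.u a z), g (D.v a z)),
    IF.pair (hf.comp (un_iu D a)) (hg.comp (un_iv D a)), ?_⟩
  rintro ⟨x, y⟩ ⟨hx, hy⟩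
  obtain ⟨i, hi, rfl⟩ := hA x hx
  obtain ⟨j, hj, rfl⟩ := hB y hy
  refine ⟨D.p a i j, D.p_lt a ha i j hi hj, ?_⟩
  change (f (D.u a (D.p a i j)), g (D.v a (D.p a i j))) = (f i, g j)
  rw [D.up a ha i j hi hj, D.vp a ha i j hi hj]

theorem cov_union [Nonempty α] (h : Pk N K) {a : K} (ha : Cd N a) {I : β → Prop} (hI : Cov N a I)
    {A : β → α → Prop} (hA : IP N (fun p : β × α => A p.1 p.2)) (hc : ∀ b, I b → Cov N a (A b)) :
    Cov N a (fun x => ∃ b, I b ∧ A b x) := by
  obtain ⟨D⟩ := exists_PF h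
  obtain ⟨f, hf, hI⟩ := hI
  obtain ⟨g, hg, hg'⟩ := cov_choose (m := fun _ : β => a) (IF.const a) hA
  refine ⟨fun z => g (f (D.u a z)) (D.v a z), IF.comp2 hg (hf.comp (un_iu D a)) (un_iv D a), ?_⟩
  rintro x ⟨b, hb, hx⟩
  obtain ⟨i, hi, rfl⟩ := hI b hb
  obtain ⟨j, hj, hj'⟩ := hg' (f i) (hc (f i) hb) x hx
  refine ⟨D.p a i j, D.p_lt a ha i j hi hj, ?_⟩
  change g (f (D.u a (D.p a i j))) (D.v a (D.p a i j)) = x
  rw [D.up a ha i j hi hj, D.vp a ha i j hi hj, hj']

theorem cov_or (h : Pk N K) {a : K} (ha : Cd N a) {A B : α → Prop} (hA : Cov N a A) (hB : Cov N a B) :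
    Cov N a (fun x => A x ∨ B x) := by
  obtain ⟨D⟩ := exists_PF h
  obtain ⟨f, hf, hA⟩ := hA
  obtain ⟨g, hg, hB⟩ := hB
  have h0 := cd_bot_lt ha
  have h1 : sc N (⊥ : K) < a := cd_sc_lt h ha h0
  have h2 : (⊥ : K) < sc N (⊥ : K) := lt_sc h ⊥
  obtain ⟨F, hF, hF0⟩ : ∃ F : K → α, IF N F ∧ ∀ z, (D.u a z = ⊥ → F z = f (D.v a z)) ∧
      (D.u a z ≠ ⊥ → F z = g (D.v a z)) :=
    ⟨_, IF.ite (IP.eq (un_iu D a) (IF.const ⊥)) (hf.comp (un_iv D a)) (hg.comp (un_iv D a)),
      fun z => ⟨fun hz => if_pos hz, fun hz => if_neg hz⟩⟩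
  refine ⟨F, hF, ?_⟩
  rintro x (hx | hx)
  · obtain ⟨i, hi, rfl⟩ := hA x hx
    refine ⟨D.p a ⊥ i, D.p_lt a ha ⊥ i h0 hi, ?_⟩
    rw [(hF0 _).1 (D.up a ha ⊥ i h0 hi), D.vp a ha ⊥ i h0 hi]
  · obtain ⟨i, hi, rfl⟩ := hB x hx
    refine ⟨D.p a (sc N ⊥) i, D.p_lt a ha _ i h1 hi, ?_⟩
    have h3 : D.u a (D.p a (sc N ⊥) i) ≠ ⊥ := by
      rw [D.up a ha _ i h1 hi]
      exact h2.ne'
    rw [(hF0 _).2 h3, D.vp a ha _ i h1 hi]

/-- the iterates of the second component -/
private noncomputable def unW (D : PF N K) (a y : K) (i : ℕ) : K :=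
  (Nat.rec y (fun _ z => D.v a z) i : K)

/-- the list of the first components of the iterates -/
private noncomputable def unDec (D : PF N K) (a y : K) (n : ℕ) : List K :=
  (Nat.rec [] (fun i l => l ++ [D.u a (unW D a y i)]) n : List K)

private theorem unW_int (D : PF N K) (a : K) : IF N (fun p : K × ℕ => unW D a p.1 p.2) :=
  IF.natRec (N := N) (γ := K) (β := K) (b := fun y => y) (g := fun _ _ z => D.v a z) IF.id
    ((un_iv D a).comp (IF.snd.comp IF.snd))

private theorem unDec_int (D : PF N K) (a : K) : IF N (fun p : K × ℕ => unDec D a p.1 p.2) :=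
  IF.natRec (N := N) (γ := K) (β := List K) (b := fun _ => [])
    (g := fun y i l => l ++ [D.u a (unW D a y i)]) (IF.const [])
    (IF.append (IF.snd.comp IF.snd) (IF.cons ((un_iu D a).comp
      (IF.comp2 (unW_int D a) IF.fst (IF.fst.comp IF.snd))) (IF.const [])))

private theorem unW_succ (D : PF N K) (a y : K) (i : ℕ) :
    unW D a (D.v a y) i = unW D a y (i + 1) := by
  induction i with
  | zero => rfl
  | succ i ih =>
    change D.v a (unW D a (D.v a y) i) = D.v a (unW D a y (i + 1))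
    rw [ih]

private theorem unDec_succ (D : PF N K) (a y : K) (n : ℕ) :
    unDec D a y (n + 1) = D.u a y :: unDec D a (D.v a y) n := by
  induction n with
  | zero => rfl
  | succ n ih =>
    change unDec D a y (n + 1) ++ [D.u a (unW D a y (n + 1))] =
      D.u a y :: (unDec D a (D.v a y) n ++ [D.u a (unW D a (D.v a y) n)])
    rw [ih, unW_succ]
    rfl

private theorem unDec_spec (D : PF N K) {a : K} (ha : Cd N a) (h0 : ⊥ < a) (l : List K)
    (hl : ∀ x ∈ l, x < a) : ∃ y, y < a ∧ unDec D a y l.length = l := by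
  induction l with
  | nil => exact ⟨⊥, h0, rfl⟩
  | cons x l ih =>
    obtain ⟨y, hy, hy'⟩ := ih fun z hz => hl z (List.mem_cons_of_mem _ hz)
    have hx := hl x List.mem_cons_self
    refine ⟨D.p a x y, D.p_lt a ha x y hx hy, ?_⟩
    rw [List.length_cons, unDec_succ, D.up a ha x y hx hy, D.vp a ha x y hx hy, hy']

theorem cov_list (h : Pk N K) {a : K} (ha : Cd N a) {A : α → Prop} (hA : Cov N a A) :
    Cov N a (fun l : List α => ∀ x ∈ l, A x) := by
  obtain ⟨D⟩ := exists_PF h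
  obtain ⟨f, hf, hA⟩ := hA
  obtain ⟨g, hg, hg'⟩ := cov_nat h ha
  have h0 := cd_bot_lt ha
  refine ⟨fun z => (unDec D a (D.v a z) (g (D.u a z))).map f,
    IF.map (f := fun _ x => f x) (hf.comp IF.snd)
      (IF.comp2 (unDec_int D a) (un_iv D a) (hg.comp (un_iu D a))), ?_⟩
  intro l hl
  obtain ⟨l', h1, rfl⟩ : ∃ l' : List K, (∀ x ∈ l', x < a) ∧ l'.map f = l := by
    induction l with
    | nil => exact ⟨[], fun x hx => absurd hx List.not_mem_nil, rfl⟩
    | cons x l ih =>
      obtain ⟨l', h1, rfl⟩ := ih fun y hy => hl y (List.mem_cons_of_mem _ hy)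
      obtain ⟨i, hi, rfl⟩ := hA x (hl x List.mem_cons_self)
      refine ⟨i :: l', fun y hy => ?_, rfl⟩
      rcases List.mem_cons.1 hy with rfl | hy
      · exact hi
      · exact h1 y hy
  obtain ⟨y, hy, hy'⟩ := unDec_spec D ha h0 l' h1
  obtain ⟨i, hi, hi'⟩ := hg' l'.length trivial
  refine ⟨D.p a i y, D.p_lt a ha i y hi hy, ?_⟩
  change (unDec D a (D.v a (D.p a i y)) (g (D.u a (D.p a i y)))).map f = l'.map f
  rw [D.up a ha i y hi hy, D.vp a ha i y hi hy, hi', hy']

theorem cov_nat_prod (h : Pk N K) {a : K} (ha : Cd N a) {A : α → Prop} (hA : Cov N a A) :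
    Cov N a (fun p : ℕ × α => A p.2) := by
  exact cov_mono (cov_prod h ha (cov_nat h ha) hA) le_rfl fun p hp => ⟨trivial, hp⟩

end LCA
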